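import Pool.Agent.H731R6.Bc.S1
import Pool.Agent.H980R2.Cont.T09

/-!
V1: the row through a word.  `OO_row`: copy of `OO_row_aux`, `OO_row` in `H980R2.Cont.T08` (`cl_exch`, `cl_rec` instead of
`lin_exch`, `lin_rec`; the formulas are the same).  `hh_eval`: as `OO_eval` in `H980R2.Cont.T09`: the list is
`x :: (List.replicate (2 (m+1)) 1 ++ [q² x])` (`T09aux.prs_one`); for `w` Dyck `Cont.Val_eq` and `T09aux.aw_one` (`h = 0`), `ret_eq`:
`Val x 1 (ins 0 w) ones = (pE x 1 * pI x 1)^(ret w)`, `pE x 1 * pI x 1 = q (1 - q² x)(1 - x)/(x - q²)²`; `ret w ≤ m+1`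
(`Cont.ret_le` counts Dyck words of length `2 (m+1)`), expand `SS` with `cl_congr`, `cl_smul`, `cl_add` (finite sum).
-/

set_option autoImplicit false

namespace H731B

open Pool.Agent.H988R2 Pool.Agent.H863R2 Pool.Agent.H980R2
open Pool.Agent.H988R2.Perc (Word Dyck q PD q_spec q_cube q_ne_zero q_ne_one)

namespace V1

/-- moving the letter `q²x` to the right end -/
theorem OO_row_aux {Ψ : List ℂ → Cyl.VW} (hΨ : Cyl.Fam (q^2) Ψ) (x : ℂ) (zs : List ℂ) :
    ∀ u : List ℂ, Odd (u.length + zs.length) → (∀ a ∈ zs, x - q^2 * a ≠ 0) →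
    cl Ψ Cont.oo (u ++ (zs ++ [q^2 * x])) =
      cl Ψ (fun w => Cont.Val x u.length w zs) (u ++ (q^2 * x) :: zs) := by
  induction zs with
  | nil =>
    intro u _ _
    rfl
  | cons z zs ih =>
    intro u hu hne
    have hu' : Odd ((u ++ [z]).length + zs.length) := by
      rw [List.length_append, List.length_singleton]
      rw [List.length_cons] at hu
      have e : u.length + 1 + zs.length = u.length + (zs.length + 1) := by ring
      rw [e]
      exact hu
    have h1 := ih (u ++ [z]) hu' (fun a ha => hne a (List.mem_cons_of_mem _ ha))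
    have e1 : u ++ (z :: zs ++ [q^2 * x]) = u ++ [z] ++ (zs ++ [q^2 * x]) := by simp
    have e2 : u ++ [z] ++ (q^2 * x) :: zs = u ++ z :: (q^2 * x) :: zs := by simp
    have e3 : (u ++ [z]).length = u.length + 1 := by simp
    rw [e1, h1, e2, e3]
    have hev : Even (u.length + zs.length) := by
      rw [List.length_cons, ← add_assoc] at hu
      rcases Nat.even_or_odd (u.length + zs.length) with h | h
      · exact h
      · exact absurd hu (Nat.not_odd_iff_even.2 h.add_one)
    have h2 := cl_exch hΨ (fun w => Cont.Val x (u.length + 1) w zs) u zs (q^2 * x) z hev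
    have hz : x - q^2 * z ≠ 0 := hne z (List.mem_cons_self)
    have hq3 := q_cube
    have e4 : q * (q^2 * x) - q^2 * z = x - q^2 * z := by linear_combination x * hq3
    have e5 : q * z - q^2 * (q^2 * x) = q * (z - x) := by linear_combination -(q * x) * hq3
    rw [e4, e5] at h2
    have h3 : (fun w => Cont.Val x u.length w (z :: zs)) =
        (fun w => Cont.pI x z * Cont.Val x (u.length + 1) w zs +
          Cont.pE x z * Cont.Val x (u.length + 1) (Perc.act u.length w) zs) := by
      funext w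
      rfl
    rw [h3, cl_add, cl_smul, cl_smul]
    unfold Cont.pI Cont.pE
    apply mul_left_cancel₀ hz
    rw [h2]
    field_simp

end V1

theorem OO_row {Ψ : List ℂ → Cyl.VW} (hΨ : Cyl.Fam (q^2) Ψ) (z : List ℂ) (x : ℂ) (hz : Even z.length)
    (hne : ∀ a ∈ z, x - q^2 * a ≠ 0) :
    OO Ψ (x :: (z ++ [q^2 * x])) = facc x z * cl Ψ (fun w => Cont.Val x 1 (Perc.ins 0 w) z) z := by
  have h1 := V1.OO_row_aux hΨ x z [x] (by
    rw [List.length_singleton, add_comm]
    exact hz.add_one) hne
  have h2 := cl_rec hΨ (fun w => Cont.Val x 1 w z) [] z x (by simpa using hz)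
  unfold OO
  exact h1.trans h2

theorem hh_eval {Ψ : List ℂ → Cyl.VW} (hΨ : Cyl.Fam (q^2) Ψ) (m : ℕ) (x : ℂ) (hx : x ≠ q^2) :
    hh Ψ x (List.replicate m 1) = facc x (List.replicate (2 * (m + 1)) 1) *
      SS Ψ (m + 1) (q * (1 - q^2 * x) * (1 - x) / (x - q^2)^2) := by
  have hlist : x :: 1 :: (Cont.prs (List.replicate m 1) ++ [1, q^2 * x]) =
      x :: (List.replicate (2 * (m + 1)) 1 ++ [q^2 * x]) := by
    rw [Cont.T09aux.prs_one]
    have e1 : 2 * (m + 1) = (2 * m + 1) + 1 := by ring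
    rw [e1, List.replicate_succ, List.replicate_succ']
    simp
  have hx3 : x - q^2 ≠ 0 := sub_ne_zero.2 hx
  have hne : ∀ a ∈ List.replicate (2 * (m + 1)) (1 : ℂ), x - q^2 * a ≠ 0 := by
    intro a ha
    rw [List.eq_of_mem_replicate ha, mul_one]
    exact hx3
  obtain ⟨t, ht⟩ : ∃ t : ℂ, t = q * (1 - q^2 * x) * (1 - x) / (x - q^2)^2 := ⟨_, rfl⟩
  have htt : Cont.pE x 1 * Cont.pI x 1 = t := by
    rw [ht]
    unfold Cont.pE Cont.pI
    rw [mul_one, div_mul_div_comm]
    congr 1 <;> ring
  unfold hh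
  rw [hlist, OO_row hΨ _ x (by simp) hne, ← ht]
  congr 1
  unfold SS sm
  have e2 : ∀ j ∈ Finset.range (m + 1 + 1),
      cl Ψ (fun w => if Cont.ret w = j then 1 else 0) (List.replicate (2 * (m + 1)) 1) * t ^ j =
        cl Ψ (fun w => t ^ j * (if Cont.ret w = j then 1 else 0))
          (List.replicate (2 * (m + 1)) 1) := by
    intro j _
    rw [cl_smul, mul_comm]
  rw [Finset.sum_congr rfl e2, L2.cl_sum]
  refine cl_congr hΨ (by simp) ?_
  intro w hw hwl
  rw [List.length_replicate] at hwl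
  have hk := Perc.dyck_prefix hw
  have hc := Perc.dyck_count hw
  have h1 := (Cont.T09aux.aw_one x w 0 (fun k => by have := hk k; omega) (by omega)).1 rfl
  have hle := Cont.ret_le hw
  rw [Cont.Val_eq w hw _ x (by rw [List.length_replicate, hwl]) hne, ← hwl, h1, htt,
    ← Cont.T09aux.ret_eq, Finset.sum_eq_single_of_mem (Cont.ret w)
      (by rw [Finset.mem_range]; omega)]
  · rw [if_pos rfl, mul_one]
  · intro j _ hj
    rw [if_neg (Ne.symm hj), mul_zero]

end H731B
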