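import Pool.Agent.H731R6.Bc.H3
import Pool.Agent.H731R6.Bc.V1

/-!
A1: `x ≠ 0, q, q²`: by `hh_eval` at `q x` and `q x⁻¹` (`Phi x (replicate m 1) = facc (q x) (replicate (2 (m+1)) 1)`,
`Cont.T09aux.prs_one`), `RR Ψ x (replicate m 1) = Phi x * Phi x⁻¹ * EE Ψ (m+1) x` (`tau x` is the argument at `q x`).  Near `x = 1`,
`Phi x * Phi x⁻¹ → facc q (ones)^2 ≠ 0`, and `RR Ψ x (replicate m 1) = x^(-K) * P.eval x`, `P = (X - 1)^(2m+1) * Q` (`RR_order`).
-/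

set_option autoImplicit false

namespace H731B

open Pool.Agent.H988R2 Pool.Agent.H863R2 Pool.Agent.H980R2
open Pool.Agent.H988R2.Perc (Word Dyck q PD q_spec q_cube q_ne_zero q_ne_one)

namespace A1

theorem ones (m : ℕ) : (1 : ℂ) :: 1 :: Cont.prs (List.replicate m 1) =
    List.replicate (2 * (m + 1)) 1 := by
  rw [Cont.T09aux.prs_one]
  have e1 : 2 * (m + 1) = (2 * m + 1) + 1 := by ring
  rw [e1, List.replicate_succ, List.replicate_succ]

/-- the factor -/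
noncomputable def fx (m : ℕ) (x : ℂ) : ℂ := q * x * ((1 - q * (q * x))^2)^(2 * (m + 1))

theorem facc_ones (m : ℕ) (x : ℂ) : facc (q * x) (List.replicate (2 * (m + 1)) 1) = fx m x := by
  unfold facc fx
  rw [List.map_replicate, List.prod_replicate]

theorem Phi_ones (m : ℕ) (x : ℂ) : Phi x (List.replicate m 1) = fx m x := by
  unfold Phi
  rw [ones, facc_ones]

theorem hh_ones {Ψ : List ℂ → Cyl.VW} (hΨ : Cyl.Fam (q^2) Ψ) (m : ℕ) (x : ℂ) (hx : x ≠ q) :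
    hh Ψ (q * x) (List.replicate m 1) = fx m x * SS Ψ (m + 1) (tau x) := by
  have h : q * x ≠ q^2 := by
    intro h
    apply hx
    have h1 : q * (x - q) = 0 := by linear_combination h
    rcases mul_eq_zero.1 h1 with h2 | h2
    · exact absurd h2 q_ne_zero
    · exact sub_eq_zero.1 h2
  rw [hh_eval hΨ m (q * x) h, facc_ones]
  rfl

theorem RR_ones {Ψ : List ℂ → Cyl.VW} (hΨ : Cyl.Fam (q^2) Ψ) (m : ℕ) (x : ℂ) (hx : x ≠ q)
    (hx' : x⁻¹ ≠ q) :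
    RR Ψ x (List.replicate m 1) = fx m x * fx m x⁻¹ * EE Ψ (m + 1) x := by
  unfold RR EE
  rw [hh_ones hΨ m x hx, hh_ones hΨ m x⁻¹ hx', Phi_ones, Phi_ones, ones]
  ring

theorem fx_one (m : ℕ) : fx m 1 ≠ 0 := by
  unfold fx
  refine mul_ne_zero (mul_ne_zero q_ne_zero one_ne_zero) (pow_ne_zero _ (pow_ne_zero _ ?_))
  intro h
  apply Perc.q_sq_ne_one
  linear_combination -h

theorem fx_cont (m : ℕ) : Continuous (fx m) := by
  unfold fx
  fun_prop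

end A1

open Filter Topology Asymptotics in
theorem EE_bigO {Ψ : List ℂ → Cyl.VW} (hΨ : Cyl.Fam (q^2) Ψ) (m : ℕ) :
    (fun x : ℂ => EE Ψ (m + 1) x) =O[𝓝 1] (fun x : ℂ => (x - 1)^(2*m+1)) := by
  obtain ⟨K, P, hP, Q, rfl⟩ := RR_order hΨ m
  -- the denominator
  have hinv : ContinuousAt (fun x : ℂ => x⁻¹) 1 := continuousAt_inv₀ one_ne_zero
  have hfinv : ContinuousAt (fun x : ℂ => A1.fx m x⁻¹) 1 := by
    have h1 : ContinuousAt (A1.fx m) ((1 : ℂ)⁻¹) := (A1.fx_cont m).continuousAt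
    exact ContinuousAt.comp (g := A1.fx m) h1 hinv
  have hden : ContinuousAt (fun x : ℂ => x^K * (A1.fx m x * A1.fx m x⁻¹)) 1 :=
    (continuousAt_id.pow K).mul ((A1.fx_cont m).continuousAt.mul hfinv)
  have hden1 : (1 : ℂ)^K * (A1.fx m 1 * A1.fx m (1 : ℂ)⁻¹) ≠ 0 := by
    rw [one_pow, one_mul, inv_one]
    exact mul_ne_zero (A1.fx_one m) (A1.fx_one m)
  have hG : ContinuousAt (fun x : ℂ => Q.eval x / (x^K * (A1.fx m x * A1.fx m x⁻¹))) 1 :=
    Q.continuous.continuousAt.div hden hden1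
  have hbig := (isBigO_refl (fun x : ℂ => (x - 1)^(2*m+1)) (𝓝 1)).mul
    (Filter.Tendsto.isBigO_one ℂ hG)
  have heq : (fun x : ℂ => (x - 1)^(2*m+1) * (Q.eval x / (x^K * (A1.fx m x * A1.fx m x⁻¹))))
      =ᶠ[𝓝 1] fun x : ℂ => EE Ψ (m + 1) x := by
    have e1 : ∀ᶠ x : ℂ in 𝓝 1, x ≠ q := isOpen_ne.mem_nhds (Ne.symm q_ne_one)
    have e2 : ∀ᶠ x : ℂ in 𝓝 1, x⁻¹ ≠ q := by
      have h1 : (1 : ℂ)⁻¹ ≠ q := by
        rw [inv_one]
        exact Ne.symm q_ne_one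
      exact hinv.eventually_ne h1
    have e3 : ∀ᶠ x : ℂ in 𝓝 1, x^K * (A1.fx m x * A1.fx m x⁻¹) ≠ 0 := hden.eventually_ne hden1
    have e4 : ∀ᶠ x : ℂ in 𝓝 1, x ≠ 0 := isOpen_ne.mem_nhds one_ne_zero
    filter_upwards [e1, e2, e3, e4] with x h1 h2 h3 h4
    have h5 := hP x h4
    rw [A1.RR_ones hΨ m x h1 h2, Polynomial.eval_mul, Polynomial.eval_pow, Polynomial.eval_sub,
      Polynomial.eval_X, Polynomial.eval_C] at h5
    rw [← mul_div_assoc, h5, div_eq_iff h3]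
    ring
  refine (heq.symm.trans_isBigO hbig).trans ?_
  simp only [mul_one]
  exact isBigO_refl _ _

end H731B
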