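import Pool.Agent.H731R6.Bc.Defs

/-!
More definitions: the argument `tau`, the list `usl`, the expression `EE`, real versions.
-/

set_option autoImplicit false

namespace H731B

open Pool.Agent.H988R2 Pool.Agent.H863R2 Pool.Agent.H980R2
open Pool.Agent.H988R2.Perc (Word Dyck q PD)

/-- argument of the generating polynomial -/
noncomputable def tau (x : ℂ) : ℂ := q * (1 - q^2 * (q * x)) * (1 - q * x) / (q * x - q^2)^2

/-- the letters `1 + s, 1 + 2 s, …, 1 + m s` -/
noncomputable def usl (m : ℕ) (s : ℂ) : List ℂ := (List.range m).map (fun a => 1 + ((a : ℂ) + 1) * s)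

/-- the expression which vanishes to the order `2 n - 1` at `x = 1` -/
noncomputable def EE (Ψ : List ℂ → Cyl.VW) (n : ℕ) (x : ℂ) : ℂ :=
  (x - q) * (x^2 - q) * SS Ψ n (tau x⁻¹) + (1 - q * x) * (1 - q * x^2) * SS Ψ n (tau x)
    + q * (x - 1)^2 * (x + 1) * ZZ Ψ (List.replicate (2 * n) 1)

/-- real generating polynomial -/
noncomputable def Sr (n : ℕ) (s : ℕ → ℝ) (t : ℝ) : ℝ := ∑ j ∈ Finset.range (n + 1), s j * t^j

/-- real form of `EE` -/
noncomputable def G3 (n : ℕ) (s : ℕ → ℝ) (v : ℝ) : ℝ :=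
  Real.sin (3 * v) *
      (Real.cos (2 * Real.pi / 3 + v) * Sr n s (tt (2 * Real.pi / 3 + v))
        + Real.cos (2 * Real.pi / 3 - v) * Sr n s (tt (2 * Real.pi / 3 - v)))
    - 4 * (∑ j ∈ Finset.range (n + 1), s j) * Real.sin v ^ 3 * Real.cos v

/-- the tails divided by `3 k - 1` -/
noncomputable def hs (n : ℕ) (s : ℕ → ℝ) (k : ℕ) : ℝ :=
  (∑ j ∈ Finset.Icc k n, s j) / (3 * (k : ℝ) - 1)

/-- the odd part of `yy` -/
noncomputable def yD (n : ℕ) (h : ℕ → ℝ) (v : ℝ) : ℝ := yy n h v - yy n h (-v)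

end H731B
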