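import Pool.Agent.H731R6.Bc.L2
import Pool.Agent.H731R6.Bc.Defs2

/-!
A2a: trigonometric form.  `q = exp (2 π i / 3)` (`q = ⟨-1/2, √3/2⟩`), `x = exp (2 i v)`, `θ = 3 v + 2 π/3`.  Identities:
`1 - q x = -2 i sin(v+π/3) e^{i(v+π/3)}`, `1 - q x² = -2 i sin(2v+π/3) e^{i(2v+π/3)}`, `x - q = 2 i sin(v-π/3) e^{i(v+π/3)}`,
`x² - q = 2 i sin(2v-π/3) e^{i(2v+π/3)}`, `x - 1 = 2 i sin v e^{iv}`, `x + 1 = 2 cos v e^{iv}`; hence
`tau x = q² (1-x)(1-q x)/(x-q)² = - sin v sin(v+π/3)/sin²(v-π/3) = tt (2π/3 + v)` and `tau x⁻¹ = tt (2π/3 - v)`, and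
`EE = -4 e^{iθ} F`, `F = sin(v+π/3) sin(2v+π/3) S₊ + sin(v-π/3) sin(2v-π/3) S₋ + 2 sin²v cos v Z`, `S± = SS Ψ n (tt (2π/3 ± v))`,
`sin(v+π/3) sin(2v+π/3) = -2 sin(π/3+v) sin(π/3-v) cos(2π/3+v)`, `sin(v-π/3) sin(2v-π/3) = -2 sin(π/3+v) sin(π/3-v) cos(2π/3-v)`,
`4 sin v sin(π/3+v) sin(π/3-v) = sin 3v`; so `-2 sin v F = sin 3v (cos(2π/3+v) S₊ + cos(2π/3-v) S₋) - 4 Z sin³v cos v`,
which is `G3` of the real parts plus `I` times `G3` of the imaginary parts (`sum_sm`: `Z = ∑ sm`).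
-/

set_option autoImplicit false

namespace H731B

open Pool.Agent.H988R2 Pool.Agent.H863R2 Pool.Agent.H980R2
open Pool.Agent.H988R2.Perc (Word Dyck q PD q_spec q_cube q_ne_zero q_ne_one)

namespace A2a

theorem q_exp : q = Complex.exp (Complex.I * (2 * Real.pi / 3)) := by
  have h1 : Complex.I * (2 * Real.pi / 3) = ((2 * Real.pi / 3 : ℝ) : ℂ) * Complex.I := by
    push_cast
    ring
  have hc : Real.cos (2 * Real.pi / 3) = -1 / 2 := by
    have : 2 * Real.pi / 3 = Real.pi - Real.pi / 3 := by ring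
    rw [this, Real.cos_pi_sub, Real.cos_pi_div_three]
    norm_num
  have hs : Real.sin (2 * Real.pi / 3) = Real.sqrt 3 / 2 := by
    have : 2 * Real.pi / 3 = Real.pi - Real.pi / 3 := by ring
    rw [this, Real.sin_pi_sub, Real.sin_pi_div_three]
  rw [h1, Complex.exp_mul_I, ← Complex.ofReal_cos, ← Complex.ofReal_sin, hc, hs]
  apply Complex.ext <;> simp [Perc.q]

/-- `y = exp (i v)` -/
noncomputable def yv (v : ℝ) : ℂ := Complex.exp (Complex.I * v)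

theorem yv_ne (v : ℝ) : yv v ≠ 0 := Complex.exp_ne_zero _

theorem yv_neg (v : ℝ) : yv (-v) = (yv v)⁻¹ := by
  unfold yv
  rw [← Complex.exp_neg]
  congr 1
  push_cast
  ring

theorem x_eq (v : ℝ) : Complex.exp (2 * Complex.I * v) = yv v ^ 2 := by
  unfold yv
  rw [← Complex.exp_nat_mul]
  congr 1
  push_cast
  ring

theorem sin_eq (v : ℝ) : (Real.sin v : ℂ) = ((yv v)⁻¹ - yv v) * Complex.I / 2 := by
  rw [← yv_neg, Complex.ofReal_sin, Complex.sin]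
  unfold yv
  congr 3
  · congr 1
    push_cast
    ring
  · rw [mul_comm]

theorem cos_eq (v : ℝ) : (Real.cos v : ℂ) = (yv v + (yv v)⁻¹) / 2 := by
  rw [← yv_neg, Complex.ofReal_cos, Complex.cos]
  unfold yv
  congr 2
  · rw [mul_comm]
  · congr 1
    push_cast
    ring

theorem yv_add (u v : ℝ) : yv (u + v) = yv u * yv v := by
  unfold yv
  rw [← Complex.exp_add]
  congr 1
  push_cast
  ring

theorem yv_q : yv (2 * Real.pi / 3) = q := by
  rw [q_exp]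
  unfold yv
  congr 1
  push_cast
  ring

theorem q_inv : q⁻¹ = q ^ 2 := by
  apply inv_eq_of_mul_eq_one_right
  linear_combination q_cube

theorem yv_plus (v : ℝ) : yv (2 * Real.pi / 3 + v) = q * yv v := by
  rw [yv_add, yv_q]

theorem yv_plus_inv (v : ℝ) : (yv (2 * Real.pi / 3 + v))⁻¹ = q ^ 2 * (yv v)⁻¹ := by
  rw [yv_plus, mul_inv, q_inv]

theorem yv_minus (v : ℝ) : yv (2 * Real.pi / 3 - v) = q * (yv v)⁻¹ := by
  rw [sub_eq_add_neg, yv_plus, yv_neg]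

theorem yv_minus_inv (v : ℝ) : (yv (2 * Real.pi / 3 - v))⁻¹ = q ^ 2 * yv v := by
  rw [yv_minus, mul_inv, q_inv, inv_inv]

theorem yv_three (v : ℝ) : yv (3 * v) = yv v ^ 3 := by
  unfold yv
  rw [← Complex.exp_nat_mul]
  congr 1
  push_cast
  ring

theorem theta_eq (v : ℝ) :
    Complex.exp (Complex.I * (3 * v + 2 * Real.pi / 3)) = yv v ^ 3 * q := by
  rw [← yv_three, ← yv_q, ← yv_add]
  unfold yv
  congr 1
  push_cast
  ring

/-- first identity -/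
theorem id_a (v : ℝ) : (Real.sin v : ℂ) / 2 * ((yv v ^ 2 - q) * ((yv v ^ 2) ^ 2 - q)) =
    yv v ^ 3 * q * ((Real.sin (3 * v) : ℂ) * (Real.cos (2 * Real.pi / 3 - v) : ℂ)) := by
  rw [sin_eq, sin_eq, cos_eq, yv_three, yv_minus_inv, yv_minus]
  have hy := yv_ne v
  field_simp
  linear_combination (-(q * yv v ^ 2) + yv v ^ 6 + (q - 1) * yv v ^ 8) * q_spec

/-- second identity -/
theorem id_b (v : ℝ) : (Real.sin v : ℂ) / 2 * ((1 - q * yv v ^ 2) * (1 - q * (yv v ^ 2) ^ 2)) =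
    yv v ^ 3 * q * ((Real.sin (3 * v) : ℂ) * (Real.cos (2 * Real.pi / 3 + v) : ℂ)) := by
  rw [sin_eq, sin_eq, cos_eq, yv_three, yv_plus_inv, yv_plus]
  have hy := yv_ne v
  field_simp
  linear_combination (-(q - 1) - yv v ^ 2 + q * yv v ^ 6) * q_spec

/-- third identity -/
theorem id_c (v : ℝ) : (Real.sin v : ℂ) / 2 * (q * (yv v ^ 2 - 1) ^ 2 * (yv v ^ 2 + 1)) =
    -(yv v ^ 3 * q * (4 * (Real.sin v : ℂ) ^ 3 * (Real.cos v : ℂ))) := by
  rw [sin_eq, cos_eq]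
  have hy := yv_ne v
  field_simp
  linear_combination (-8 * q * yv v ^ 2 + 8 * q * yv v ^ 6 - 4 * q * yv v ^ 8 + 4 * q) *
    Complex.I_sq

theorem sin_pos {v : ℝ} (hv : |v| < Real.pi / 3) : 0 < Real.sin (2 * Real.pi / 3 + v) := by
  rw [abs_lt] at hv
  apply Real.sin_pos_of_pos_of_lt_pi <;> linarith [hv.1, hv.2]

theorem den_ne {v : ℝ} (hv : |v| < Real.pi / 3) : q * yv v ^ 2 - q ^ 2 ≠ 0 := by
  intro h
  have h1 : (Real.sin (2 * Real.pi / 3 + v) : ℂ) ≠ 0 := by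
    exact_mod_cast (sin_pos hv).ne'
  apply h1
  rw [sin_eq, yv_plus_inv, yv_plus]
  have hy := yv_ne v
  have h2 : q ^ 2 * (yv v)⁻¹ - q * yv v = 0 := by
    field_simp
    linear_combination -h
  rw [h2]
  ring

end A2a

theorem tau_exp (v : ℝ) (hv : |v| < Real.pi / 3) :
    tau (Complex.exp (2 * Complex.I * v)) = (tt (2 * Real.pi / 3 + v) : ℂ) := by
  have hd := A2a.den_ne hv
  have hy := A2a.yv_ne v
  rw [A2a.x_eq]
  unfold tau tt
  simp only [Complex.ofReal_sub, Complex.ofReal_div, Complex.ofReal_mul, Complex.ofReal_pow,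
    Complex.ofReal_one, Complex.ofReal_ofNat]
  rw [A2a.sin_eq, A2a.yv_plus_inv, A2a.yv_plus]
  have e : 4 * ((q ^ 2 * (A2a.yv v)⁻¹ - q * A2a.yv v) * Complex.I / 2) ^ 2 =
      -((q * A2a.yv v ^ 2 - q ^ 2) ^ 2 / A2a.yv v ^ 2) := by
    field_simp
    linear_combination (4 * (q * A2a.yv v ^ 2 - q ^ 2) ^ 2) * Complex.I_sq
  have hd2 := pow_ne_zero 2 hd
  rw [e, div_neg, sub_neg_eq_add, div_div_eq_mul_div, div_eq_iff hd2, add_mul,
    div_mul_cancel₀ _ hd2]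
  linear_combination (-(q * (q - 1)) + A2a.yv v ^ 2 * (-q ^ 2 + 3 * q - 3) +
    A2a.yv v ^ 4 * (q ^ 2 * (q - 1))) * q_spec

theorem EE_exp {Ψ : List ℂ → Cyl.VW} (hΨ : Cyl.Fam (q^2) Ψ) {n : ℕ} (hn : 1 ≤ n) (v : ℝ)
    (hv : |v| < Real.pi / 3) :
    (Real.sin v : ℂ) / 2 * EE Ψ n (Complex.exp (2 * Complex.I * v)) =
      Complex.exp (Complex.I * (3 * v + 2 * Real.pi / 3)) *
        ((G3 n (fun j => (sm Ψ n j).re) v : ℂ) + Complex.I * (G3 n (fun j => (sm Ψ n j).im) v : ℂ)) := by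
  have hp : tau (A2a.yv v ^ 2) = (tt (2 * Real.pi / 3 + v) : ℂ) := by
    rw [← A2a.x_eq]
    exact tau_exp v hv
  have hm : tau (A2a.yv v ^ 2)⁻¹ = (tt (2 * Real.pi / 3 - v) : ℂ) := by
    have h1 := tau_exp (-v) (by rwa [abs_neg])
    rw [A2a.x_eq, A2a.yv_neg, inv_pow, ← sub_eq_add_neg] at h1
    exact h1
  have hSS : ∀ t : ℝ, SS Ψ n (t : ℂ) = (Sr n (fun j => (sm Ψ n j).re) t : ℂ) +
      Complex.I * (Sr n (fun j => (sm Ψ n j).im) t : ℂ) := by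
    intro t
    unfold SS Sr
    rw [Complex.ofReal_sum, Complex.ofReal_sum, Finset.mul_sum, ← Finset.sum_add_distrib]
    apply Finset.sum_congr rfl
    intro j _
    rw [Complex.ofReal_mul, Complex.ofReal_mul, Complex.ofReal_pow]
    linear_combination -((t : ℂ) ^ j) * Complex.re_add_im (sm Ψ n j)
  have hZ : ZZ Ψ (List.replicate (2 * n) 1) =
      ((∑ j ∈ Finset.range (n + 1), (sm Ψ n j).re : ℝ) : ℂ) +
        Complex.I * ((∑ j ∈ Finset.range (n + 1), (sm Ψ n j).im : ℝ) : ℂ) := by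
    rw [← sum_sm hΨ hn, Complex.ofReal_sum, Complex.ofReal_sum, Finset.mul_sum,
      ← Finset.sum_add_distrib]
    apply Finset.sum_congr rfl
    intro j _
    linear_combination -Complex.re_add_im (sm Ψ n j)
  rw [A2a.theta_eq, A2a.x_eq]
  unfold EE
  rw [hp, hm, hSS, hSS, hZ]
  have ha := A2a.id_a v
  have hb := A2a.id_b v
  have hc := A2a.id_c v
  unfold G3
  simp only [Complex.ofReal_sub, Complex.ofReal_mul, Complex.ofReal_add, Complex.ofReal_pow,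
    Complex.ofReal_ofNat]
  generalize (Sr n (fun j => (sm Ψ n j).re) (tt (2 * Real.pi / 3 + v)) : ℂ) = S1
  generalize (Sr n (fun j => (sm Ψ n j).im) (tt (2 * Real.pi / 3 + v)) : ℂ) = S2
  generalize (Sr n (fun j => (sm Ψ n j).re) (tt (2 * Real.pi / 3 - v)) : ℂ) = S3
  generalize (Sr n (fun j => (sm Ψ n j).im) (tt (2 * Real.pi / 3 - v)) : ℂ) = S4
  generalize ((∑ j ∈ Finset.range (n + 1), (sm Ψ n j).re : ℝ) : ℂ) = Z1
  generalize ((∑ j ∈ Finset.range (n + 1), (sm Ψ n j).im : ℝ) : ℂ) = Z2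
  linear_combination (S3 + Complex.I * S4) * ha + (S1 + Complex.I * S2) * hb +
    (Z1 + Complex.I * Z2) * hc

end H731B
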