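import Pool.Agent.H731R6.Bc.A1
import Pool.Agent.H731R6.Bc.A2a

/-!
A2b: real form of the bound: `EE_exp`, `EE_bigO` (`m = n - 1`) composed with `v ↦ exp (2 i v) → 1`,
`‖exp (2 i v) - 1‖ = 2 |sin v| ≤ 2 |v|`, `‖exp (i θ)‖ = 1`, `|re z|, |im z| ≤ ‖z‖`, `|sin v| ≤ |v|`: order `1 + (2 n - 1) = 2 n`.
-/

set_option autoImplicit false

namespace H731B

open Pool.Agent.H988R2 Pool.Agent.H863R2 Pool.Agent.H980R2
open Pool.Agent.H988R2.Perc (Word Dyck q PD q_spec q_cube q_ne_zero q_ne_one)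

namespace A2b

theorem norm_le (v : ℝ) : ‖Complex.exp (2 * Complex.I * v) - 1‖ ≤ 2 * ‖v‖ := by
  have h := @Real.norm_exp_I_mul_ofReal_sub_one_le (2 * v)
  have e : 2 * Complex.I * (v : ℂ) = Complex.I * ((2 * v : ℝ) : ℂ) := by
    push_cast
    ring
  rw [e]
  refine h.trans (le_of_eq ?_)
  rw [norm_mul, Real.norm_of_nonneg (by norm_num : (0 : ℝ) ≤ 2)]

end A2b

open Filter Topology Asymptotics in
theorem G3_bigO {Ψ : List ℂ → Cyl.VW} (hΨ : Cyl.Fam (q^2) Ψ) {n : ℕ} (hn : 1 ≤ n) :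
    (fun v : ℝ => G3 n (fun j => (sm Ψ n j).re) v) =O[𝓝 0] (fun v : ℝ => v^(2*n)) ∧
    (fun v : ℝ => G3 n (fun j => (sm Ψ n j).im) v) =O[𝓝 0] (fun v : ℝ => v^(2*n)) := by
  obtain ⟨m, rfl⟩ : ∃ m, n = m + 1 := ⟨n - 1, by omega⟩
  have ht : Tendsto (fun v : ℝ => Complex.exp (2 * Complex.I * v)) (𝓝 0) (𝓝 1) := by
    have hc : Continuous (fun v : ℝ => Complex.exp (2 * Complex.I * v)) := by fun_prop
    have := hc.tendsto 0
    simpa using this
  have h1 := (EE_bigO hΨ m).comp_tendsto ht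
  have h2 : (fun v : ℝ => Complex.exp (2 * Complex.I * v) - 1) =O[𝓝 0] (fun v : ℝ => v) :=
    IsBigO.of_bound 2 (Eventually.of_forall fun v => A2b.norm_le v)
  have h3 := h2.pow (2 * m + 1)
  have h4 : (fun v : ℝ => (Real.sin v : ℂ) / 2) =O[𝓝 0] (fun v : ℝ => v) := by
    refine IsBigO.of_bound 1 (Eventually.of_forall fun v => ?_)
    rw [norm_div, Complex.norm_real, one_mul]
    have h5 : ‖Real.sin v‖ ≤ ‖v‖ := by
      rw [Real.norm_eq_abs, Real.norm_eq_abs]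
      exact Real.abs_sin_le_abs
    have h6 : ‖(2 : ℂ)‖ = 2 := by norm_num
    rw [h6]
    have := norm_nonneg (Real.sin v)
    linarith
  have h5 : (fun v : ℝ => (Real.sin v : ℂ) / 2 * EE Ψ (m + 1) (Complex.exp (2 * Complex.I * v)))
      =O[𝓝 0] (fun v : ℝ => v ^ (2 * (m + 1))) := by
    have h6 := h4.mul (h1.trans h3)
    refine h6.congr_right fun v => ?_
    ring
  have hev : ∀ᶠ v : ℝ in 𝓝 0, |v| < Real.pi / 3 := by
    have hp := Real.pi_pos
    have := Metric.ball_mem_nhds (0 : ℝ) (show 0 < Real.pi / 3 by positivity)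
    filter_upwards [this] with v hv
    simpa [Real.dist_eq] using hv
  have key : ∀ᶠ v : ℝ in 𝓝 0, ‖(Real.sin v : ℂ) / 2 * EE Ψ (m + 1)
      (Complex.exp (2 * Complex.I * v))‖ =
      ‖((G3 (m + 1) (fun j => (sm Ψ (m + 1) j).re) v : ℂ) +
        Complex.I * (G3 (m + 1) (fun j => (sm Ψ (m + 1) j).im) v : ℂ))‖ := by
    filter_upwards [hev] with v hv
    rw [EE_exp hΨ hn v hv, norm_mul]
    have e : Complex.I * (3 * (v : ℂ) + 2 * (Real.pi : ℂ) / 3) =
        ((3 * v + 2 * Real.pi / 3 : ℝ) : ℂ) * Complex.I := by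
      push_cast
      ring
    rw [e, Complex.norm_exp_ofReal_mul_I, one_mul]
  constructor
  · refine IsBigO.trans (IsBigO.of_bound 1 ?_) h5
    filter_upwards [key] with v hv
    rw [hv, one_mul]
    have := Complex.abs_re_le_norm ((G3 (m + 1) (fun j => (sm Ψ (m + 1) j).re) v : ℂ) +
        Complex.I * (G3 (m + 1) (fun j => (sm Ψ (m + 1) j).im) v : ℂ))
    simpa using this
  · refine IsBigO.trans (IsBigO.of_bound 1 ?_) h5
    filter_upwards [key] with v hv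
    rw [hv, one_mul]
    have := Complex.abs_im_le_norm ((G3 (m + 1) (fun j => (sm Ψ (m + 1) j).re) v : ℂ) +
        Complex.I * (G3 (m + 1) (fun j => (sm Ψ (m + 1) j).im) v : ℂ))
    simpa using this

end H731B
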