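import Pool.Agent.H731R6.Bc.U4
import Pool.Agent.H731R6.Bc.A2b

/-!
C1: the tails of the masses.  For the real and imaginary parts `s`: `G3_bigO`, `yD_id` (near `0`), `odd_order`
(`yD_analytic`, `yD_odd`) give `yD n (hs n s) = O(v^(2n+1))`, `uniq`: `hs n s k = - hs n s 0 * hc n k`, `hs n s 0 = -∑ s_j`
(`Icc 0 n = range (n+1)`), so `∑_{Icc k n} s_j = (3k-1) (∑ s_j) hc n k = (∑ s_j) tl n k` (`3 k - 1 ≠ 0`).  `sum_sm`.
-/

set_option autoImplicit false

namespace H731B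

open Pool.Agent.H988R2 Pool.Agent.H863R2 Pool.Agent.H980R2
open Pool.Agent.H988R2.Perc (Word Dyck q PD q_spec q_cube q_ne_zero q_ne_one)

namespace C1

open Filter Topology Asymptotics in
theorem real_tails {n : ℕ} (hn : 1 ≤ n) (s : ℕ → ℝ)
    (hG : (fun v : ℝ => G3 n s v) =O[𝓝 0] (fun v : ℝ => v^(2*n))) (k : ℕ) (hk : k ≤ n) :
    ∑ j ∈ Finset.Icc k n, s j = (∑ j ∈ Finset.range (n + 1), s j) * tl n k := by
  have hπ : (0 : ℝ) < Real.pi / 3 := by positivity
  have hD : AnalyticAt ℝ (yD n (hs n s)) 0 := yD_analytic n (hs n s) 0 (by simpa using hπ)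
  have hev : ∀ᶠ v : ℝ in 𝓝 0, |v| < Real.pi / 3 := by
    have : Tendsto (fun v : ℝ => |v|) (𝓝 0) (𝓝 |(0 : ℝ)|) := continuous_abs.tendsto 0
    rw [abs_zero] at this
    exact this.eventually (gt_mem_nhds hπ)
  have hO : (fun v : ℝ => Real.sin (3 * v) * deriv (yD n (hs n s)) v
      - Real.cos (3 * v) * yD n (hs n s) v) =O[𝓝 0] (fun v : ℝ => v^(2*n)) := by
    have h1 : (fun v : ℝ => -(2 / 3) * G3 n s v) =O[𝓝 0] (fun v : ℝ => v^(2*n)) :=
      hG.const_mul_left _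
    refine h1.congr' ?_ EventuallyEq.rfl
    filter_upwards [hev] with v hv
    exact (yD_id n s v hv).symm
  have hord := odd_order hD (yD_odd n (hs n s)) n hO
  have hu := uniq hn (hs n s) hord k hk
  have h0 : hs n s 0 = -(∑ j ∈ Finset.range (n + 1), s j) := by
    unfold hs
    have hset : Finset.Icc 0 n = Finset.range (n + 1) := by
      ext j
      simp [Finset.mem_Icc, Finset.mem_range]
    rw [hset]
    push_cast
    ring
  rw [h0, neg_neg] at hu
  have hk3 : (3 * (k : ℝ) - 1) ≠ 0 := by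
    intro h
    have h1 : (3 * (k : ℝ)) = 1 := by linarith
    have h2 : 3 * k = 1 := by exact_mod_cast h1
    omega
  unfold hs at hu
  rw [div_eq_iff hk3] at hu
  rw [hu]
  unfold tl
  ring

end C1

theorem tails {Ψ : List ℂ → Cyl.VW} (hΨ : Cyl.Fam (q^2) Ψ) {n : ℕ} (hn : 1 ≤ n) (k : ℕ) (hk : k ≤ n) :
    ∑ j ∈ Finset.Icc k n, sm Ψ n j = ZZ Ψ (List.replicate (2 * n) 1) * (tl n k : ℂ) := by
  obtain ⟨hre, him⟩ := G3_bigO hΨ hn
  have h1 := C1.real_tails hn _ hre k hk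
  have h2 := C1.real_tails hn _ him k hk
  rw [← sum_sm hΨ hn]
  apply Complex.ext
  · rw [Complex.re_sum, Complex.re_mul_ofReal, Complex.re_sum]
    exact h1
  · rw [Complex.im_sum, Complex.im_mul_ofReal, Complex.im_sum]
    exact h2

end H731B
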