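import Pool.Agent.H863R2.Cyl.Defs
import Pool.Agent.H980R2.Cont.Defs

/-!
Exact law of the sizes of the boundary clusters of critical bond percolation on the half-infinite
cylinder: definitions.
-/

set_option autoImplicit false

namespace H731B

open Pool.Agent.H988R2 Pool.Agent.H863R2 Pool.Agent.H980R2
open Pool.Agent.H988R2.Perc (Word Dyck q PD)

/-! ## words -/

/-- change all the unmatched closing letters into opening letters (`d` = current depth) -/
def flA : ℕ → Word → Word
  | _, [] => []
  | d, true :: v => true :: flA (d+1) v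
  | 0, false :: v => true :: flA 0 v
  | d+1, false :: v => false :: flA d v

/-- mirror image of `flA` (applied to the reversed word): change all the unmatched opening letters
into closing letters -/
def flB : ℕ → Word → Word
  | _, [] => []
  | d, false :: v => false :: flB (d+1) v
  | 0, true :: v => false :: flB 0 v
  | d+1, true :: v => true :: flB d v

/-- forget the puncture: the unmatched closing letters of `w` become opening letters, the unmatched
opening letters become closing letters -/
def proj (w : Word) : Word :=
  List.zipWith xor w (List.zipWith xor (flA 0 w) (flB 0 w.reverse).reverse)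

open Classical in
/-- indicator: the word starts with a small arc -/
noncomputable def a01 (w : Word) : ℂ := if w.take 2 = [true, false] then 1 else 0

/-! ## functionals -/

/-- the linear functional attached to a function `F` of Dyck words, for a family `Ψ` of polynomial
ground states on the cylinder -/
noncomputable def cl (Ψ : List ℂ → Cyl.VW) (F : Word → ℂ) (l : List ℂ) : ℂ :=
  (Ψ l).sum fun w a => a * F (proj w)

/-- mass of the words whose first letter is matched with the last one -/
noncomputable def OO (Ψ : List ℂ → Cyl.VW) (l : List ℂ) : ℂ := cl Ψ Cont.oo l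

/-- mass of the words with exactly two outermost arcs, the first one ends at the letter `j - 1` -/
noncomputable def DD (Ψ : List ℂ → Cyl.VW) (j : ℕ) (l : List ℂ) : ℂ := cl Ψ (Cont.dd j) l

/-- total mass -/
noncomputable def ZZ (Ψ : List ℂ → Cyl.VW) (l : List ℂ) : ℂ := cl Ψ (fun _ => 1) l

/-- recursion factor -/
noncomputable def facc (x : ℂ) (l : List ℂ) : ℂ := x * (l.map (fun y => (y - q * x)^2)).prod

/-- the mass of the arc across the seam with the letters `x, 1, pairs, 1, q² x` -/
noncomputable def hh (Ψ : List ℂ → Cyl.VW) (x : ℂ) (us : List ℂ) : ℂ :=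
  OO Ψ (x :: 1 :: (Cont.prs us ++ [1, q^2 * x]))

/-- the factor `facc (q x)` of all the other letters -/
noncomputable def Phi (x : ℂ) (us : List ℂ) : ℂ := facc (q * x) (1 :: 1 :: Cont.prs us)

/-- the combination which vanishes at `x = t`, `x = t⁻¹` for all `t ∈ us` -/
noncomputable def RR (Ψ : List ℂ → Cyl.VW) (x : ℂ) (us : List ℂ) : ℂ :=
  (x - q) * (x^2 - q) * Phi x us * hh Ψ (q * x⁻¹) us
    + (1 - q * x) * (1 - q * x^2) * Phi x⁻¹ us * hh Ψ (q * x) us
    + q * (x - 1)^2 * (x + 1) * ZZ Ψ (1 :: 1 :: Cont.prs us) * Phi x us * Phi x⁻¹ us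

/-- mass of the words of length `2 n` with `j` outermost arcs, homogeneous letters -/
noncomputable def sm (Ψ : List ℂ → Cyl.VW) (n j : ℕ) : ℂ :=
  cl Ψ (fun w => if Cont.ret w = j then 1 else 0) (List.replicate (2 * n) 1)

/-- generating polynomial of the number of outermost arcs -/
noncomputable def SS (Ψ : List ℂ → Cyl.VW) (n : ℕ) (t : ℂ) : ℂ :=
  ∑ j ∈ Finset.range (n + 1), sm Ψ n j * t^j

/-! ## the explicit formula -/

/-- coefficients of the hypergeometric polynomial: `-1, 1/2, …` -/
noncomputable def hc (n : ℕ) : ℕ → ℝ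
  | 0 => -1
  | k + 1 => hc n k * (2 * (2 * (k : ℝ) - 1) * ((n : ℝ)^2 - (k : ℝ)^2)) /
      (((k : ℝ) + 1) * (4 * (n : ℝ)^2 - (k : ℝ)^2))

/-- the probability that a boundary cluster has at least `k` boundary vertices
(half-infinite cylinder with `n` boundary vertices) -/
noncomputable def tl (n k : ℕ) : ℝ := (3 * (k : ℝ) - 1) * hc n k

/-! ## trigonometry -/

/-- the variable `t` as a function of the angle -/
noncomputable def tt (φ : ℝ) : ℝ := 1 - 3 / (4 * Real.sin φ ^ 2)

/-- `sin φ * H(t(φ))` at `φ = 2π/3 + v`, for the polynomial `H = ∑_{k ≤ n} h k t^k` -/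
noncomputable def yy (n : ℕ) (h : ℕ → ℝ) (v : ℝ) : ℝ :=
  Real.sin (2 * Real.pi / 3 + v) * ∑ k ∈ Finset.range (n + 1), h k * tt (2 * Real.pi / 3 + v) ^ k

end H731B
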