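import Pool.Agent.H731R6.Bc.U3

/-!
F1: closed form.  Induction on `k` (`1 ≤ k ≤ n`): ratio of consecutive terms
`2(2k-1)(n²-k²)/((k+1)(4n²-k²))`; `centralBinom (k+1) * (k+1) = 2 (2k+1) centralBinom k`, factorials `Nat.factorial_succ`
(`(n-k)! = (n-k) (n-k-1)!` etc.).
-/

set_option autoImplicit false

namespace H731B

open MeasureTheory Filter Topology
open Pool.Agent.H988R2 Pool.Agent.H863R2 Pool.Agent.H980R2
open Pool.Agent.H988R2.Perc (Word Dyck q)

theorem F1.binom_step (k : ℕ) : (((2 * (k + 1)).choose (k + 1) : ℕ) : ℝ) * (k + 1) =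
    2 * (2 * k + 1) * ((2 * k).choose k : ℕ) := by
  have h := Nat.succ_mul_centralBinom_succ k
  unfold Nat.centralBinom at h
  have h2 : (((k + 1) * (2 * (k + 1)).choose (k + 1) : ℕ) : ℝ) =
      ((2 * (2 * k + 1) * (2 * k).choose k : ℕ) : ℝ) := by exact_mod_cast h
  push_cast at h2
  linarith

theorem F1.hc_closed (n k : ℕ) (h1 : 1 ≤ k) (hk : k ≤ n) :
    hc n k * (2 * (2 * k - 1)) * (((n - k).factorial : ℝ) * (2 * n + k - 1).factorial) =
      ((2 * k).choose k : ℝ) * (((n + k - 1).factorial : ℝ) * (2 * n - k).factorial) := by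
  induction k, h1 using Nat.le_induction with
  | base =>
    obtain ⟨m, rfl⟩ : ∃ m, n = m + 1 := ⟨n - 1, by omega⟩
    have e1 : m + 1 - 1 = m := by omega
    have e2 : 2 * (m + 1) + 1 - 1 = (2 * m + 1) + 1 := by omega
    have e3 : m + 1 + 1 - 1 = m + 1 := by omega
    have e4 : 2 * (m + 1) - 1 = 2 * m + 1 := by omega
    rw [e1, e2, e3, e4, Nat.factorial_succ (2 * m + 1), Nat.factorial_succ m]
    have h2 : hc (m + 1) 1 = 1 / 2 := by
      rw [hc, hc]
      push_cast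
      have : (m : ℝ) + 1 ≠ 0 := by positivity
      field_simp
      ring
    rw [h2]
    have h3 : ((2 * 1).choose 1 : ℕ) = 2 := rfl
    rw [h3]
    push_cast
    ring
  | succ k h1 ih =>
    have ih := ih (by omega)
    obtain ⟨m, rfl⟩ : ∃ m, n = m + k + 1 := ⟨n - k - 1, by omega⟩
    have e1 : m + k + 1 - k = m + 1 := by omega
    have e2 : 2 * (m + k + 1) + k - 1 = 2 * m + 3 * k + 1 := by omega
    have e3 : m + k + 1 + k - 1 = m + 2 * k := by omega
    have e4 : 2 * (m + k + 1) - k = (2 * m + k + 1) + 1 := by omega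
    have e5 : m + k + 1 - (k + 1) = m := by omega
    have e6 : 2 * (m + k + 1) + (k + 1) - 1 = (2 * m + 3 * k + 1) + 1 := by omega
    have e7 : m + k + 1 + (k + 1) - 1 = (m + 2 * k) + 1 := by omega
    have e8 : 2 * (m + k + 1) - (k + 1) = 2 * m + k + 1 := by omega
    rw [e1, e2, e3, e4, Nat.factorial_succ m, Nat.factorial_succ (2 * m + k + 1)] at ih
    rw [e5, e6, e7, e8, Nat.factorial_succ (2 * m + 3 * k + 1), Nat.factorial_succ (m + 2 * k)]
    have h2 := F1.binom_step k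
    rw [hc]
    generalize hc (m + k + 1) k = a at ih ⊢
    generalize (((2 * (k + 1)).choose (k + 1) : ℕ) : ℝ) = b' at h2 ⊢
    generalize (((2 * k).choose k : ℕ) : ℝ) = b at h2 ih
    push_cast at ih ⊢
    generalize (m.factorial : ℝ) = f1 at ih ⊢
    generalize ((2 * m + 3 * k + 1).factorial : ℝ) = f2 at ih ⊢
    generalize ((m + 2 * k).factorial : ℝ) = f3 at ih ⊢
    generalize ((2 * m + k + 1).factorial : ℝ) = f4 at ih ⊢
    have hk0 : (0 : ℝ) ≤ k := Nat.cast_nonneg k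
    have hm0 : (0 : ℝ) ≤ m := Nat.cast_nonneg m
    have hd1 : (k : ℝ) + 1 ≠ 0 := by positivity
    have hd2 : 4 * ((m : ℝ) + k + 1) ^ 2 - (k : ℝ) ^ 2 ≠ 0 := by
      have : 0 < 4 * ((m : ℝ) + k + 1) ^ 2 - (k : ℝ) ^ 2 := by nlinarith
      exact this.ne'
    have hd3 : (2 * (m : ℝ) + k + 1 + 1) ≠ 0 := by positivity
    have hb : b' = 2 * (2 * k + 1) * b / (k + 1) := by
      field_simp
      linarith
    rw [hb]
    -- multiply the induction hypothesis
    have key : a * (2 * (2 * (k : ℝ) - 1) * (((m : ℝ) + k + 1) ^ 2 - (k : ℝ) ^ 2)) *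
        (2 * (2 * ((k : ℝ) + 1) - 1)) * (f1 * ((2 * m + 3 * k + 1 + 1) * f2)) =
        2 * (2 * k + 1) * b * ((m + 2 * k + 1) * f3 * f4) * (4 * ((m : ℝ) + k + 1) ^ 2 - (k : ℝ) ^ 2) := by
      linear_combination (2 * (2 * (k : ℝ) + 1) * ((m : ℝ) + 2 * k + 1) * (2 * m + 3 * k + 2)) * ih
    rw [div_mul_eq_mul_div, div_mul_eq_mul_div, div_mul_eq_mul_div,
      div_eq_div_iff (mul_ne_zero hd1 hd2) hd1]
    linear_combination ((k : ℝ) + 1) * key

theorem tl_closed {n k : ℕ} (h1 : 1 ≤ k) (hk : k ≤ n) :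
    tl n k = ((2 * k).choose k : ℝ) * (3 * k - 1) / (2 * (2 * k - 1)) *
      (((n + k - 1).factorial : ℝ) * (2 * n - k).factorial) /
        (((n - k).factorial : ℝ) * (2 * n + k - 1).factorial) := by
  have h2 := F1.hc_closed n k h1 hk
  have h3 : (1 : ℝ) ≤ k := by exact_mod_cast h1
  have h4 : (2 * (2 * (k : ℝ) - 1)) ≠ 0 := by
    have : 0 < 2 * (2 * (k : ℝ) - 1) := by linarith
    exact this.ne'
  have h5 : ((n - k).factorial : ℝ) ≠ 0 := by exact_mod_cast (Nat.factorial_pos _).ne'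
  have h6 : ((2 * n + k - 1).factorial : ℝ) ≠ 0 := by exact_mod_cast (Nat.factorial_pos _).ne'
  unfold tl
  rw [eq_div_iff (mul_ne_zero h5 h6), div_mul_eq_mul_div, eq_div_iff h4]
  linear_combination (3 * (k : ℝ) - 1) * h2

/-- the value for `n = ∞` -/
noncomputable def hi (k : ℕ) : ℝ := ((2 * k).choose k : ℝ) / ((2 * k - 1) * 4 ^ k)

/-- the finite size factor -/
noncomputable def ww (n k : ℕ) : ℝ :=
  ∏ i ∈ Finset.Icc 1 (k - 1), (1 - (i : ℝ)^2 / (n : ℝ)^2) / (1 - (i : ℝ)^2 / (4 * (n : ℝ)^2))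

theorem hc_eq {n k : ℕ} (h1 : 1 ≤ k) (hk : k ≤ n) : hc n k = hi k * ww n k := by
  induction k, h1 using Nat.le_induction with
  | base =>
    have hn : (n : ℝ) ≠ 0 := by
      have : 0 < n := by omega
      positivity
    have h3 : ((2 * 1).choose 1 : ℕ) = 2 := rfl
    rw [hc, hc]
    unfold hi ww
    rw [h3]
    simp only [Nat.sub_self, show Finset.Icc 1 0 = (∅ : Finset ℕ) from rfl, Finset.prod_empty]
    push_cast
    field_simp
    ring
  | succ k h1 ih =>
    have hn0 : 0 < n := by omega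
    have hn : (0 : ℝ) < n := by exact_mod_cast hn0
    have hkn : (k : ℝ) + 1 ≤ n := by exact_mod_cast hk
    have hk1 : (1 : ℝ) ≤ k := by exact_mod_cast h1
    have h2 := F1.binom_step k
    have hw : ww n (k + 1) = ww n k * ((1 - (k : ℝ)^2 / (n : ℝ)^2) / (1 - (k : ℝ)^2 / (4 * (n : ℝ)^2))) := by
      unfold ww
      obtain ⟨j, rfl⟩ : ∃ j, k = j + 1 := ⟨k - 1, by omega⟩
      rw [show j + 1 + 1 - 1 = j + 1 by omega, show j + 1 - 1 = j by omega,
        Finset.prod_Icc_succ_top (by omega)]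
    rw [hc, ih (by omega), hw]
    unfold hi
    have hb : (((2 * (k + 1)).choose (k + 1) : ℕ) : ℝ) =
        2 * (2 * k + 1) * ((2 * k).choose k : ℕ) / (k + 1) := by
      rw [eq_div_iff (by positivity)]
      exact h2
    rw [hb]
    generalize (((2 * k).choose k : ℕ) : ℝ) = b
    generalize ww n k = w
    have hd1 : (2 * (k : ℝ) - 1) ≠ 0 := by
      have : 0 < 2 * (k : ℝ) - 1 := by linarith
      exact this.ne'
    have hd2 : 4 * (n : ℝ) ^ 2 - (k : ℝ) ^ 2 ≠ 0 := by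
      have : 0 < 4 * (n : ℝ) ^ 2 - (k : ℝ) ^ 2 := by nlinarith
      exact this.ne'
    have hd3 : (2 * ((k + 1 : ℕ) : ℝ) - 1) ≠ 0 := by
      push_cast
      have : 0 < 2 * ((k : ℝ) + 1) - 1 := by linarith
      exact this.ne'
    have e1 : 1 - (k : ℝ)^2 / (n : ℝ)^2 = ((n : ℝ)^2 - (k : ℝ)^2) / (n : ℝ)^2 := by field_simp
    have e2 : 1 - (k : ℝ)^2 / (4 * (n : ℝ)^2) = (4 * (n : ℝ)^2 - (k : ℝ)^2) / (4 * (n : ℝ)^2) := by
      field_simp
    rw [e1, e2, pow_succ]
    push_cast at hd3 ⊢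
    field_simp
    ring

theorem tl_gt {n k : ℕ} (hk : n < k) : tl n k = 0 := by
  unfold tl
  rw [hc_zero hk, mul_zero]

theorem tl_nonneg (n k : ℕ) (hn : 1 ≤ n) : 0 ≤ tl n k := by
  rcases Nat.eq_zero_or_pos k with h0 | h0
  · subst h0
    unfold tl
    rw [hc]
    norm_num
  · rcases le_or_gt k n with h1 | h1
    · rw [tl_closed h0 h1]
      have h3 : (1 : ℝ) ≤ k := by exact_mod_cast h0
      have h4 : 0 ≤ 3 * (k : ℝ) - 1 := by linarith
      have h5 : 0 ≤ 2 * (2 * (k : ℝ) - 1) := by linarith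
      positivity
    · rw [tl_gt h1]

end H731B
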