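import Pool.Agent.H731R6.Bc.F1

/-!
F2b: the finite size factor.  With `u = i²/(4n²) ∈ [0, 1/4]`: the factor is `(1-4u)/(1-u) = 1 - 3u/(1-u)`, so
`0 ≤ factor ≤ exp(-3u) = exp(-(3/4) i²/n²)`, and `factor ≥ 1 - 4u`, `log factor = -3u + O(u²)` for small `u`.
`∑_{i<k} i² = (k-1)k(2k-1)/6 ≥ k³/3 - k²/2`, `k ≤ n`: `ww ≤ exp(-k³/(4n²) + 3/8)`.  If `k_n/n^(2/3) → y`: `∑_{i<k_n} i²/n² → y³/3`,
`∑ i⁴/n⁴ → 0`: `ww → exp(-y³/4)` (see `t20b_low` and `T20_factor` in `H980R2.Cont.T20, T20b`).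
-/

set_option autoImplicit false

namespace H731B

open MeasureTheory Filter Topology
open Pool.Agent.H988R2 Pool.Agent.H863R2 Pool.Agent.H980R2
open Pool.Agent.H988R2.Perc (Word Dyck q)

namespace F2b

/-- the sum of the exponents -/
noncomputable def TT (n k : ℕ) : ℝ := (2 * (k : ℝ) ^ 3 - 3 * (k : ℝ) ^ 2 + k) / (8 * (n : ℝ) ^ 2)

theorem sum_sq (k : ℕ) :
    ∑ i ∈ Finset.Icc 1 (k - 1), (i : ℝ) ^ 2 = (2 * (k : ℝ) ^ 3 - 3 * (k : ℝ) ^ 2 + k) / 6 := by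
  rcases Nat.eq_zero_or_pos k with h | h
  · subst h; simp
  · obtain ⟨m, rfl⟩ : ∃ m, k = m + 1 := ⟨k - 1, by omega⟩
    rw [Nat.add_sub_cancel]
    clear h
    induction m with
    | zero => norm_num
    | succ m ih =>
      rw [Finset.sum_Icc_succ_top (by omega), ih]
      push_cast
      ring

theorem sum_u {n : ℕ} (k : ℕ) (hn : 1 ≤ n) :
    ∑ i ∈ Finset.Icc 1 (k - 1), 3 * ((i : ℝ) ^ 2 / (4 * (n : ℝ) ^ 2)) = TT n k := by
  have hn0 : (0 : ℝ) < n := by exact_mod_cast hn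
  have h : ∀ i ∈ Finset.Icc 1 (k - 1), 3 * ((i : ℝ) ^ 2 / (4 * (n : ℝ) ^ 2)) =
      (3 / (4 * (n : ℝ) ^ 2)) * (i : ℝ) ^ 2 := by
    intro i _
    ring
  rw [Finset.sum_congr rfl h, ← Finset.mul_sum, sum_sq, TT]
  field_simp
  ring

/-- facts on one factor -/
theorem fac {n k i : ℕ} (hn : 1 ≤ n) (hk : k ≤ n) (hi : i ∈ Finset.Icc 1 (k - 1)) :
    0 ≤ (i : ℝ) ^ 2 / (4 * (n : ℝ) ^ 2) ∧ (i : ℝ) ^ 2 / (4 * (n : ℝ) ^ 2) ≤ 1 / 4 ∧
    (i : ℝ) ^ 2 / (4 * (n : ℝ) ^ 2) ≤ (k : ℝ) ^ 2 / (4 * (n : ℝ) ^ 2) ∧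
    (1 - (i : ℝ)^2 / (n : ℝ)^2) / (1 - (i : ℝ)^2 / (4 * (n : ℝ)^2)) =
      1 - 3 * ((i : ℝ) ^ 2 / (4 * (n : ℝ) ^ 2)) / (1 - (i : ℝ)^2 / (4 * (n : ℝ)^2)) := by
  rw [Finset.mem_Icc] at hi
  have hn0 : (0 : ℝ) < n := by exact_mod_cast hn
  have hik : (i : ℝ) ≤ k := by
    have : i ≤ k := by omega
    exact_mod_cast this
  have hkn : (k : ℝ) ≤ n := by exact_mod_cast hk
  have hi0 : (0 : ℝ) ≤ i := Nat.cast_nonneg i
  have h1 : (i : ℝ) ^ 2 ≤ (k : ℝ) ^ 2 := pow_le_pow_left₀ hi0 hik 2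
  have h2 : (i : ℝ) ^ 2 ≤ (n : ℝ) ^ 2 := pow_le_pow_left₀ hi0 (hik.trans hkn) 2
  have h3 : (i : ℝ) ^ 2 / (4 * (n : ℝ) ^ 2) ≤ 1 / 4 := by
    rw [div_le_iff₀ (by positivity)]
    linarith
  refine ⟨by positivity, h3, ?_, ?_⟩
  · exact div_le_div_of_nonneg_right h1 (by positivity)
  · have h4 : 0 < 1 - (i : ℝ)^2 / (4 * (n : ℝ)^2) := by linarith
    rw [eq_sub_iff_add_eq, ← add_div, div_eq_one_iff_eq h4.ne']
    field_simp
    ring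

theorem low (x M : ℝ) (hx : 0 ≤ x) (hxM : x ≤ M) (hM : M ≤ 1/2) :
    Real.exp (-((1 + 2 * M) * x)) ≤ 1 - x := by
  have h1 : 0 < 1 - x := by linarith
  have h2 : 1 / (1 - x) ≤ Real.exp ((1 + 2 * M) * x) := by
    have h3 : x / (1 - x) ≤ (1 + 2 * M) * x := by
      rw [div_le_iff₀ h1]
      have : 0 ≤ x * (2 * M - x - 2 * M * x) := by
        apply mul_nonneg hx
        nlinarith
      nlinarith
    calc 1 / (1 - x) = x / (1 - x) + 1 := by field_simp; ring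
      _ ≤ (1 + 2 * M) * x + 1 := by linarith
      _ ≤ Real.exp ((1 + 2 * M) * x) := Real.add_one_le_exp _
  rw [Real.exp_neg]
  rw [inv_le_comm₀ (Real.exp_pos _) h1]
  rwa [one_div] at h2

theorem upper {n k : ℕ} (hk : k ≤ n) (hn : 1 ≤ n) : ww n k ≤ Real.exp (-(TT n k)) := by
  rw [← sum_u k hn, ← Finset.sum_neg_distrib, Real.exp_sum, ww]
  apply Finset.prod_le_prod
  · intro i hi
    obtain ⟨h1, h2, -, -⟩ := fac hn hk hi
    have h5 : (i : ℝ)^2 / (n : ℝ)^2 = 4 * ((i : ℝ) ^ 2 / (4 * (n : ℝ) ^ 2)) := by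
      have hn0 : (0 : ℝ) < n := by exact_mod_cast hn
      field_simp
    rw [h5]
    apply div_nonneg <;> linarith
  · intro i hi
    obtain ⟨h1, h2, -, h4⟩ := fac hn hk hi
    rw [h4]
    have h5 := Real.add_one_le_exp (-(3 * ((i : ℝ) ^ 2 / (4 * (n : ℝ) ^ 2))))
    have h6 : 3 * ((i : ℝ) ^ 2 / (4 * (n : ℝ) ^ 2)) ≤
        3 * ((i : ℝ) ^ 2 / (4 * (n : ℝ) ^ 2)) / (1 - (i : ℝ)^2 / (4 * (n : ℝ)^2)) := by
      rw [le_div_iff₀ (by linarith)]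
      nlinarith
    linarith

theorem lower {n k : ℕ} (hk : k ≤ n) (hn : 1 ≤ n)
    (hM : 3 * ((k : ℝ) ^ 2 / (4 * (n : ℝ) ^ 2)) / (1 - (k : ℝ) ^ 2 / (4 * (n : ℝ) ^ 2)) ≤ 1 / 2) :
    Real.exp (-((1 + 2 * (3 * ((k : ℝ) ^ 2 / (4 * (n : ℝ) ^ 2)) /
      (1 - (k : ℝ) ^ 2 / (4 * (n : ℝ) ^ 2)))) / (1 - (k : ℝ) ^ 2 / (4 * (n : ℝ) ^ 2)) * TT n k)) ≤
      ww n k := by
  have hn0 : (0 : ℝ) < n := by exact_mod_cast hn
  have hkn : (k : ℝ) ≤ n := by exact_mod_cast hk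
  have hk0 : (0 : ℝ) ≤ k := Nat.cast_nonneg k
  have hU : (k : ℝ) ^ 2 / (4 * (n : ℝ) ^ 2) ≤ 1 / 4 := by
    rw [div_le_iff₀ (by positivity)]
    have := pow_le_pow_left₀ hk0 hkn 2
    linarith
  have hU0 : 0 ≤ (k : ℝ) ^ 2 / (4 * (n : ℝ) ^ 2) := by positivity
  set U := (k : ℝ) ^ 2 / (4 * (n : ℝ) ^ 2) with hUdef
  have h1U : 0 < 1 - U := by linarith
  set M := 3 * U / (1 - U) with hMdef
  have hM0 : 0 ≤ M := by positivity
  rw [← sum_u k hn, Finset.mul_sum, ← Finset.sum_neg_distrib, Real.exp_sum, ww]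
  apply Finset.prod_le_prod
  · intro i _
    exact (Real.exp_pos _).le
  · intro i hi
    obtain ⟨h1, h2, h3, h4⟩ := fac hn hk hi
    rw [h4]
    set u := (i : ℝ) ^ 2 / (4 * (n : ℝ) ^ 2) with hudef
    have h1u : 0 < 1 - u := by linarith
    have hx0 : 0 ≤ 3 * u / (1 - u) := by positivity
    have hx1 : 3 * u / (1 - u) ≤ 3 * u / (1 - U) := by
      apply div_le_div_of_nonneg_left (by linarith) h1U
      linarith
    have hx2 : 3 * u / (1 - U) ≤ M := by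
      apply div_le_div_of_nonneg_right _ h1U.le
      linarith
    refine le_trans ?_ (low (3 * u / (1 - u)) M hx0 (hx1.trans hx2) hM)
    apply Real.exp_le_exp.2
    apply neg_le_neg
    have h5 := mul_le_mul_of_nonneg_left hx1 (show 0 ≤ 1 + 2 * M by linarith)
    calc (1 + 2 * M) * (3 * u / (1 - u)) ≤ (1 + 2 * M) * (3 * u / (1 - U)) := h5
      _ = (1 + 2 * M) / (1 - U) * (3 * u) := by ring

end F2b

open F2b

theorem ww_nonneg {n k : ℕ} (hk : k ≤ n) : 0 ≤ ww n k := by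
  rcases Nat.eq_zero_or_pos n with h | h
  · subst h
    obtain rfl : k = 0 := by omega
    simp [ww]
  · rw [ww]
    apply Finset.prod_nonneg
    intro i hi
    obtain ⟨h1, h2, -, -⟩ := fac h hk hi
    have h5 : (i : ℝ)^2 / (n : ℝ)^2 = 4 * ((i : ℝ) ^ 2 / (4 * (n : ℝ) ^ 2)) := by
      have hn0 : (0 : ℝ) < n := by exact_mod_cast h
      field_simp
    rw [h5]
    apply div_nonneg <;> linarith

theorem ww_le {n k : ℕ} (hk : k ≤ n) (hn : 1 ≤ n) :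
    ww n k ≤ Real.exp (3 / 8) * Real.exp (-((k : ℝ)^3 / (4 * (n : ℝ)^2))) := by
  refine (upper hk hn).trans ?_
  rw [← Real.exp_add]
  apply Real.exp_le_exp.2
  have hn0 : (0 : ℝ) < n := by exact_mod_cast hn
  have hkn : (k : ℝ) ≤ n := by exact_mod_cast hk
  have hk0 : (0 : ℝ) ≤ k := Nat.cast_nonneg k
  have h1 := pow_le_pow_left₀ hk0 hkn 2
  have h2 : 3 / 8 + -((k : ℝ)^3 / (4 * (n : ℝ)^2)) - -(TT n k) =
      (3 * ((n : ℝ) ^ 2 - (k : ℝ) ^ 2) + k) / (8 * (n : ℝ) ^ 2) := by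
    unfold TT
    field_simp
    ring
  have h3 : 0 ≤ (3 * ((n : ℝ) ^ 2 - (k : ℝ) ^ 2) + k) / (8 * (n : ℝ) ^ 2) := by
    apply div_nonneg _ (by positivity)
    linarith
  linarith

theorem ww_tendsto (y : ℝ) (hy : 0 ≤ y) (k : ℕ → ℕ)
    (hk : Tendsto (fun n : ℕ => (k n : ℝ) / (n : ℝ)^((2:ℝ)/3)) atTop (𝓝 y)) :
    Tendsto (fun n => ww n (k n)) atTop (𝓝 (Real.exp (-(y^3 / 4)))) := by
  -- notation
  have hm3 : ∀ n : ℕ, ((n : ℝ)^((2:ℝ)/3)) ^ 3 = (n : ℝ) ^ 2 := fun n => by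
    rw [← Real.rpow_natCast, ← Real.rpow_mul (Nat.cast_nonneg n), ← Real.rpow_natCast]
    norm_num
  have hmt : Tendsto (fun n : ℕ => (n : ℝ)^((2:ℝ)/3)) atTop atTop :=
    (tendsto_rpow_atTop (by norm_num)).comp tendsto_natCast_atTop_atTop
  have hw : Tendsto (fun n : ℕ => ((n : ℝ)^((2:ℝ)/3))⁻¹) atTop (𝓝 0) :=
    tendsto_inv_atTop_zero.comp hmt
  -- the exponent
  have hT : Tendsto (fun n => TT n (k n)) atTop (𝓝 (y ^ 3 / 4)) := by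
    have h1 := ((((hk.pow 3).mul_const (1 / 4)).sub (((hk.pow 2).mul hw).mul_const (3 / 8))).add
      ((hk.mul (hw.pow 2)).mul_const (1 / 8)))
    have e : y ^ 3 * (1 / 4) - y ^ 2 * 0 * (3 / 8) + y * 0 ^ 2 * (1 / 8) = y ^ 3 / 4 := by ring
    rw [e] at h1
    refine h1.congr' ?_
    filter_upwards [eventually_ge_atTop 1] with n hn
    have hn0 : (0 : ℝ) < n := by exact_mod_cast hn
    have hm0 : 0 < (n : ℝ)^((2:ℝ)/3) := Real.rpow_pos_of_pos hn0 _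
    have h3 := hm3 n
    unfold TT
    rw [← h3]
    field_simp
    ring
  have hU : Tendsto (fun n : ℕ => (k n : ℝ) ^ 2 / (4 * (n : ℝ) ^ 2)) atTop (𝓝 0) := by
    have h1 := ((hk.pow 2).mul hw).mul_const (1 / 4)
    have e : y ^ 2 * 0 * (1 / 4) = (0 : ℝ) := by ring
    rw [e] at h1
    refine h1.congr' ?_
    filter_upwards [eventually_ge_atTop 1] with n hn
    have hn0 : (0 : ℝ) < n := by exact_mod_cast hn
    have hm0 : 0 < (n : ℝ)^((2:ℝ)/3) := Real.rpow_pos_of_pos hn0 _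
    have h3 := hm3 n
    rw [← h3]
    field_simp
  have h1U : Tendsto (fun n : ℕ => 1 - (k n : ℝ) ^ 2 / (4 * (n : ℝ) ^ 2)) atTop (𝓝 1) := by
    have := hU.const_sub 1
    rwa [sub_zero] at this
  have hM : Tendsto (fun n : ℕ => 3 * ((k n : ℝ) ^ 2 / (4 * (n : ℝ) ^ 2)) /
      (1 - (k n : ℝ) ^ 2 / (4 * (n : ℝ) ^ 2))) atTop (𝓝 0) := by
    have := (hU.const_mul 3).div h1U one_ne_zero
    rwa [mul_zero, zero_div] at this
  have hup : Tendsto (fun n => Real.exp (-(TT n (k n)))) atTop (𝓝 (Real.exp (-(y ^ 3 / 4)))) :=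
    (Real.continuous_exp.tendsto _).comp hT.neg
  have hlow : Tendsto (fun n => Real.exp (-((1 + 2 * (3 * ((k n : ℝ) ^ 2 / (4 * (n : ℝ) ^ 2)) /
      (1 - (k n : ℝ) ^ 2 / (4 * (n : ℝ) ^ 2)))) / (1 - (k n : ℝ) ^ 2 / (4 * (n : ℝ) ^ 2)) *
        TT n (k n)))) atTop (𝓝 (Real.exp (-(y ^ 3 / 4)))) := by
    have h1 := ((((hM.const_mul 2).const_add 1).div h1U one_ne_zero).mul hT).neg
    have e : -((1 + 2 * 0) / 1 * (y ^ 3 / 4)) = -(y ^ 3 / 4) := by ring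
    rw [e] at h1
    exact (Real.continuous_exp.tendsto _).comp h1
  have ev1 : ∀ᶠ n in atTop, 1 ≤ n ∧ k n ≤ n := by
    filter_upwards [eventually_ge_atTop 1, hU.eventually (gt_mem_nhds (show (0 : ℝ) < 1 / 4 by
      norm_num))] with n hn h4
    refine ⟨hn, ?_⟩
    have hn0 : (0 : ℝ) < n := by exact_mod_cast hn
    rw [div_lt_iff₀ (by positivity)] at h4
    have h5 : (k n : ℝ) ^ 2 < (n : ℝ) ^ 2 := by linarith
    have h6 : (k n : ℝ) < n := lt_of_pow_lt_pow_left₀ 2 hn0.le h5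
    have h7 : k n < n := by exact_mod_cast h6
    exact h7.le
  have ev2 := hM.eventually (ge_mem_nhds (show (0 : ℝ) < 1 / 2 by norm_num))
  refine tendsto_of_tendsto_of_tendsto_of_le_of_le' hlow hup ?_ ?_
  · filter_upwards [ev1, ev2] with n h1 h2
    exact lower h1.2 h1.1 h2
  · filter_upwards [ev1] with n h1
    exact upper h1.2 h1.1

end H731B
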