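import Pool.Agent.H731R6.Bc.F2a
import Pool.Agent.H731R6.Bc.F2b

/-!
F2: asymptotics of the tails: `tl n k = (3k-1) hi k * ww n k` for `1 ≤ k ≤ n` (`hc_eq`), `F2a`, `F2b`; `k_n ≤ n` eventually as
`k_n/n^(2/3)` converges.  `limit_law`: `P(|C| ≥ x n^(2/3)) = tl n ⌈x n^(2/3)⌉`, `√(n^(2/3)) = n^(1/3)`.
-/

set_option autoImplicit false

namespace H731B

open MeasureTheory Filter Topology
open Pool.Agent.H988R2 Pool.Agent.H863R2 Pool.Agent.H980R2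
open Pool.Agent.H988R2.Perc (Word Dyck q)

namespace F2

theorem rpow_top {a : ℝ} (ha : 0 < a) : Tendsto (fun n : ℕ => (n : ℝ) ^ a) atTop atTop :=
  (tendsto_rpow_atTop ha).comp tendsto_natCast_atTop_atTop

/-- `k n ≤ n` eventually -/
theorem ev_le (y : ℝ) (k : ℕ → ℕ)
    (hk : Tendsto (fun n : ℕ => (k n : ℝ) / (n : ℝ)^((2:ℝ)/3)) atTop (𝓝 y)) :
    ∀ᶠ n in atTop, k n ≤ n := by
  have h1 : ∀ᶠ n : ℕ in atTop, (k n : ℝ) / (n : ℝ)^((2:ℝ)/3) < y + 1 :=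
    hk.eventually (gt_mem_nhds (by linarith))
  have h2 : ∀ᶠ n : ℕ in atTop, y + 1 ≤ (n : ℝ) ^ ((1:ℝ)/3) :=
    (rpow_top (by norm_num)).eventually_ge_atTop _
  filter_upwards [h1, h2, eventually_ge_atTop 1] with n h1 h2 h3
  have hn : (0 : ℝ) < n := by exact_mod_cast h3
  have h4 : (0 : ℝ) < (n : ℝ)^((2:ℝ)/3) := Real.rpow_pos_of_pos hn _
  rw [div_lt_iff₀ h4] at h1
  have h5 : (n : ℝ) ^ ((1:ℝ)/3) * (n : ℝ)^((2:ℝ)/3) = n := by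
    rw [← Real.rpow_add hn]
    norm_num
  have h6 : (k n : ℝ) ≤ n := by
    calc (k n : ℝ) ≤ (y + 1) * (n : ℝ)^((2:ℝ)/3) := h1.le
      _ ≤ (n : ℝ) ^ ((1:ℝ)/3) * (n : ℝ)^((2:ℝ)/3) := mul_le_mul_of_nonneg_right h2 h4.le
      _ = n := h5
  exact_mod_cast h6

end F2

open F2

theorem tl_tendsto (y : ℝ) (hy : 0 ≤ y) (k : ℕ → ℕ) (h1 : Tendsto k atTop atTop)
    (hk : Tendsto (fun n : ℕ => (k n : ℝ) / (n : ℝ)^((2:ℝ)/3)) atTop (𝓝 y)) :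
    Tendsto (fun n => tl n (k n) * Real.sqrt (k n)) atTop
      (𝓝 (3 / (2 * Real.sqrt Real.pi) * Real.exp (-(y^3 / 4)))) := by
  have h2 := (hi_tendsto.comp h1).mul (ww_tendsto y hy k hk)
  refine h2.congr' ?_
  filter_upwards [ev_le y k hk, h1.eventually_ge_atTop 1] with n h3 h4
  simp only [Function.comp_apply]
  unfold tl
  rw [hc_eq h4 h3]
  ring

theorem tl_le : ∃ C : ℝ, 0 < C ∧ ∀ n k : ℕ, 1 ≤ k → k ≤ n →
    tl n k ≤ C / Real.sqrt k * Real.exp (-((k : ℝ)^3 / (4 * (n : ℝ)^2))) := by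
  obtain ⟨C, hC⟩ := hi_le
  refine ⟨(|C| + 1) * Real.exp (3 / 8), by positivity, fun n k h1 hk => ?_⟩
  have hs : 0 < Real.sqrt k := Real.sqrt_pos.2 (by exact_mod_cast h1)
  have h2 : (3 * (k : ℝ) - 1) * hi k ≤ (|C| + 1) / Real.sqrt k := by
    rw [le_div_iff₀ hs]
    exact (hC k h1).trans ((le_abs_self C).trans (by linarith))
  have h3 := ww_le hk (h1.trans hk)
  have h4 : 0 ≤ (|C| + 1) / Real.sqrt k := by positivity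
  calc tl n k = (3 * (k : ℝ) - 1) * hi k * ww n k := by
        unfold tl
        rw [hc_eq h1 hk]
        ring
    _ ≤ (|C| + 1) / Real.sqrt k * ww n k := mul_le_mul_of_nonneg_right h2 (ww_nonneg hk)
    _ ≤ (|C| + 1) / Real.sqrt k *
        (Real.exp (3 / 8) * Real.exp (-((k : ℝ)^3 / (4 * (n : ℝ)^2)))) :=
      mul_le_mul_of_nonneg_left h3 h4
    _ = _ := by ring

theorem tl_ceil (x : ℝ) (hx : 0 < x) :
    Tendsto (fun n : ℕ => (n : ℝ)^((1:ℝ)/3) * tl n ⌈x * (n : ℝ)^((2:ℝ)/3)⌉₊) atTop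
      (𝓝 (3 / (2 * Real.sqrt Real.pi) * x^(-(1:ℝ)/2) * Real.exp (-(x^3 / 4)))) := by
  have ht : Tendsto (fun n : ℕ => (n : ℝ)^((2:ℝ)/3)) atTop atTop := rpow_top (by norm_num)
  have hk : Tendsto (fun n : ℕ => (⌈x * (n : ℝ)^((2:ℝ)/3)⌉₊ : ℝ) / (n : ℝ)^((2:ℝ)/3)) atTop
      (𝓝 x) := (tendsto_nat_ceil_mul_div_atTop hx.le).comp ht
  have h1 : Tendsto (fun n : ℕ => ⌈x * (n : ℝ)^((2:ℝ)/3)⌉₊) atTop atTop :=
    tendsto_nat_ceil_atTop.comp (ht.const_mul_atTop hx)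
  have h2 := tl_tendsto x hx.le _ h1 hk
  have h3 : Tendsto (fun n : ℕ => (Real.sqrt ((⌈x * (n : ℝ)^((2:ℝ)/3)⌉₊ : ℝ) /
      (n : ℝ)^((2:ℝ)/3)))⁻¹) atTop (𝓝 (Real.sqrt x)⁻¹) :=
    ((Real.continuous_sqrt.tendsto x).comp hk).inv₀ (Real.sqrt_pos.2 hx).ne'
  have h4 := h2.mul h3
  have h5 : 3 / (2 * Real.sqrt Real.pi) * Real.exp (-(x^3 / 4)) * (Real.sqrt x)⁻¹ =
      3 / (2 * Real.sqrt Real.pi) * x^(-(1:ℝ)/2) * Real.exp (-(x^3 / 4)) := by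
    have : x^(-(1:ℝ)/2) = (Real.sqrt x)⁻¹ := by
      rw [Real.sqrt_eq_rpow, ← Real.rpow_neg hx.le]
      norm_num
    rw [this]
    ring
  rw [h5] at h4
  refine h4.congr' ?_
  filter_upwards [eventually_ge_atTop 1, h1.eventually_ge_atTop 1] with n hn hk1
  have hn0 : (0 : ℝ) < n := by exact_mod_cast hn
  have hk0 : (0 : ℝ) < (⌈x * (n : ℝ)^((2:ℝ)/3)⌉₊ : ℝ) := by exact_mod_cast hk1
  have h6 : Real.sqrt ((n : ℝ)^((2:ℝ)/3)) = (n : ℝ)^((1:ℝ)/3) := by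
    rw [Real.sqrt_eq_rpow, ← Real.rpow_mul hn0.le]
    norm_num
  have h7 : 0 < (n : ℝ)^((1:ℝ)/3) := Real.rpow_pos_of_pos hn0 _
  have h8 : 0 < Real.sqrt (⌈x * (n : ℝ)^((2:ℝ)/3)⌉₊ : ℝ) := Real.sqrt_pos.2 hk0
  rw [Real.sqrt_div hk0.le, h6]
  field_simp

end H731B
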