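import Pool.Agent.H731R6.Bc.F1

/-!
F2a: `hi k * k^(3/2) → 1/(2 √π)`: Stirling or Wallis for the central binomial coefficient (`Nat.centralBinom`,
`Stirling.tendsto_stirlingSeq_sqrt_pi`, or `Real.Wallis.tendsto_W_nhds_pi_div_two`), and `hi k ≤ C k^(-3/2)` for `1 ≤ k`
(a convergent sequence is bounded).
-/

set_option autoImplicit false

namespace H731B

open MeasureTheory Filter Topology
open Pool.Agent.H988R2 Pool.Agent.H863R2 Pool.Agent.H980R2
open Pool.Agent.H988R2.Perc (Word Dyck q)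

namespace F2a

theorem choose_stirling {k : ℕ} (hk : 1 ≤ k) :
    ((2 * k).choose k : ℝ) / 4 ^ k * Real.sqrt k =
      Stirling.stirlingSeq (2 * k) / Stirling.stirlingSeq k ^ 2 := by
  have hk0 : (0 : ℝ) < k := by exact_mod_cast hk
  have hf : (0 : ℝ) < (k.factorial : ℝ) := by exact_mod_cast k.factorial_pos
  have h1 : ((2 * k).choose k : ℝ) = ((2 * k).factorial : ℝ) / ((k.factorial : ℝ) ^ 2) := by
    rw [Nat.cast_choose ℝ (by omega : k ≤ 2 * k)]
    have : 2 * k - k = k := by omega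
    rw [this, sq]
  have h2 : Real.sqrt (2 * ((2 * k : ℕ) : ℝ)) = 2 * Real.sqrt k := by
    have : (2 * ((2 * k : ℕ) : ℝ)) = 2 ^ 2 * k := by push_cast; ring
    rw [this, Real.sqrt_mul (by positivity), Real.sqrt_sq (by norm_num)]
  have h3 : Real.sqrt (2 * (k : ℝ)) ^ 2 = 2 * k := Real.sq_sqrt (by positivity)
  have h4 : Real.sqrt (k : ℝ) * Real.sqrt (k : ℝ) = k := Real.mul_self_sqrt hk0.le
  have hs : 0 < Real.sqrt (k : ℝ) := Real.sqrt_pos.mpr hk0
  have he : (0 : ℝ) < Real.exp 1 := Real.exp_pos 1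
  have h5 : (((2 * k : ℕ) : ℝ) / Real.exp 1) ^ (2 * k) =
      4 ^ k * ((k : ℝ) / Real.exp 1) ^ (2 * k) := by
    have : (((2 * k : ℕ) : ℝ) / Real.exp 1) = 2 * ((k : ℝ) / Real.exp 1) := by push_cast; ring
    rw [this, mul_pow, pow_mul 2 2 k]
    norm_num
  have h6 : (0 : ℝ) < ((k : ℝ) / Real.exp 1) ^ (2 * k) := by positivity
  have h7 : (((k : ℝ) / Real.exp 1) ^ k) ^ 2 = ((k : ℝ) / Real.exp 1) ^ (2 * k) := by
    rw [← pow_mul, mul_comm]
  have h9 : ((k.factorial : ℝ) / (Real.sqrt (2 * (k : ℝ)) * ((k : ℝ) / Real.exp 1) ^ k)) ^ 2 =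
      (k.factorial : ℝ) ^ 2 / (2 * k * ((k : ℝ) / Real.exp 1) ^ (2 * k)) := by
    rw [div_pow (k.factorial : ℝ), mul_pow, h3, h7]
  rw [Stirling.stirlingSeq, Stirling.stirlingSeq, h1, h2, h5, h9]
  have h8 : (0 : ℝ) < 4 ^ k := by positivity
  generalize ((k : ℝ) / Real.exp 1) ^ (2 * k) = A at h6
  generalize ((2 * k).factorial : ℝ) = B
  generalize (k.factorial : ℝ) = C at hf
  generalize (4 : ℝ) ^ k = D at h8
  generalize Real.sqrt (k : ℝ) = S at h4 hs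
  rw [← h4]
  field_simp

theorem tendsto_choose : Tendsto (fun k : ℕ => ((2 * k).choose k : ℝ) / 4 ^ k * Real.sqrt k) atTop
    (𝓝 (1 / Real.sqrt Real.pi)) := by
  have hp : 0 < Real.sqrt Real.pi := Real.sqrt_pos.mpr Real.pi_pos
  have h := Stirling.tendsto_stirlingSeq_sqrt_pi
  have h2 : Tendsto (fun k : ℕ => Stirling.stirlingSeq (2 * k)) atTop (𝓝 (Real.sqrt Real.pi)) :=
    h.comp (tendsto_id.const_mul_atTop' two_pos)
  have h3 := h2.div (h.pow 2) (by positivity)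
  have h4 : Real.sqrt Real.pi / Real.sqrt Real.pi ^ 2 = 1 / Real.sqrt Real.pi := by
    field_simp
  rw [h4] at h3
  refine h3.congr' ?_
  filter_upwards [eventually_ge_atTop 1] with k hk
  exact (choose_stirling hk).symm

theorem tendsto_ratio : Tendsto (fun k : ℕ => (3 * (k : ℝ) - 1) / (2 * (k : ℝ) - 1)) atTop
    (𝓝 (3 / 2)) := by
  have h0 : Tendsto (fun k : ℕ => 1 / (k : ℝ)) atTop (𝓝 0) := tendsto_one_div_atTop_nhds_zero_nat
  have h1 : Tendsto (fun k : ℕ => (3 - 1 / (k : ℝ)) / (2 - 1 / (k : ℝ))) atTop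
      (𝓝 ((3 - 0) / (2 - 0))) :=
    (tendsto_const_nhds.sub h0).div (tendsto_const_nhds.sub h0) (by norm_num)
  have h2 : ((3 : ℝ) - 0) / (2 - 0) = 3 / 2 := by norm_num
  rw [h2] at h1
  refine h1.congr' ?_
  filter_upwards [eventually_ge_atTop 1] with k hk
  have hk0 : (0 : ℝ) < k := by exact_mod_cast hk
  have hk1 : (1 : ℝ) ≤ k := by exact_mod_cast hk
  have h3 : (2 : ℝ) * k - 1 ≠ 0 := by linarith
  have h4 : (2 : ℝ) - 1 / k ≠ 0 := by
    have : 1 / (k : ℝ) ≤ 1 := by rw [div_le_one hk0]; exact hk1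
    linarith
  rw [div_eq_div_iff h4 h3]
  field_simp

end F2a

theorem hi_tendsto : Tendsto (fun k : ℕ => (3 * (k : ℝ) - 1) * hi k * Real.sqrt k) atTop
    (𝓝 (3 / (2 * Real.sqrt Real.pi))) := by
  have h := F2a.tendsto_ratio.mul F2a.tendsto_choose
  have hp : 0 < Real.sqrt Real.pi := Real.sqrt_pos.mpr Real.pi_pos
  have h2 : (3 : ℝ) / 2 * (1 / Real.sqrt Real.pi) = 3 / (2 * Real.sqrt Real.pi) := by
    field_simp
  rw [h2] at h
  refine h.congr' ?_
  filter_upwards [eventually_ge_atTop 1] with k hk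
  have hk1 : (1 : ℝ) ≤ k := by exact_mod_cast hk
  have h3 : (2 : ℝ) * k - 1 ≠ 0 := by linarith
  have h4 : (4 : ℝ) ^ k ≠ 0 := by positivity
  rw [hi]
  field_simp

theorem hi_le : ∃ C : ℝ, ∀ k : ℕ, 1 ≤ k → (3 * (k : ℝ) - 1) * hi k * Real.sqrt k ≤ C := by
  obtain ⟨C, hC⟩ := hi_tendsto.bddAbove_range
  exact ⟨C, fun k _ => hC ⟨k, rfl⟩⟩

theorem hi_pos {k : ℕ} (hk : 1 ≤ k) : 0 < hi k := by
  have hk1 : (1 : ℝ) ≤ k := by exact_mod_cast hk
  have h1 : (0 : ℝ) < 2 * k - 1 := by linarith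
  have h2 : (0 : ℝ) < ((2 * k).choose k : ℝ) := by
    exact_mod_cast Nat.choose_pos (by omega)
  rw [hi]
  positivity

end H731B
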