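import Pool.Agent.H731R6.Bc.F2
import Pool.Agent.H980R2.Cont.T21

/-!
F3: moments of the formula.  `Cont.riemann` (`H980R2.Cont.T21`, `x = 0`) with `a n k = ((k+1)^m - k^m) tl n (k+1)`
(zero for `k ≥ n`; `0` for `n = 0`), `r n = n^(2/3)`, `A n = r n^(m - 1) / √(r n)`, limit function
`g y = m y^(m-1) * 3/(2√π) * exp(-y³/4) / √y`.
-/

set_option autoImplicit false

namespace H731B

open MeasureTheory Filter Topology
open Pool.Agent.H988R2 Pool.Agent.H863R2 Pool.Agent.H980R2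
open Pool.Agent.H988R2.Perc (Word Dyck q)

namespace F3

theorem r_tendsto : Tendsto (fun n : ℕ => (n : ℝ)^((2:ℝ)/3)) atTop atTop :=
  (tendsto_rpow_atTop (by norm_num)).comp tendsto_natCast_atTop_atTop

theorem diff_eq (x : ℝ) (m : ℕ) :
    x^m - (x - 1)^m = ∑ i ∈ Finset.range m, x^i * (x - 1)^(m - 1 - i) := by
  have h := (Commute.all x (x - 1)).geom_sum₂_mul m
  rw [show x - (x - 1) = 1 by ring, mul_one] at h
  exact h.symm

theorem diff_le (x : ℝ) (hx : 1 ≤ x) (m : ℕ) : x^m - (x - 1)^m ≤ m * x^(m - 1) := by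
  rw [diff_eq]
  calc ∑ i ∈ Finset.range m, x^i * (x - 1)^(m - 1 - i)
      ≤ ∑ _i ∈ Finset.range m, x^(m - 1) := by
        refine Finset.sum_le_sum fun i hi => ?_
        have h1 : i ≤ m - 1 := by
          have := Finset.mem_range.1 hi
          omega
        calc x^i * (x - 1)^(m - 1 - i) ≤ x^i * x^(m - 1 - i) := by
              apply mul_le_mul_of_nonneg_left _ (by positivity)
              exact pow_le_pow_left₀ (by linarith) (by linarith) _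
          _ = x^(m - 1) := by rw [← pow_add, Nat.add_sub_cancel' h1]
    _ = m * x^(m - 1) := by simp

/-- the summands -/
noncomputable def aa (m n k : ℕ) : ℝ :=
  if n = 0 then 0 else (((k : ℝ) + 1)^m - (k : ℝ)^m) * tl n (k + 1)

theorem aa_nonneg (m n k : ℕ) : 0 ≤ aa m n k := by
  unfold aa
  split_ifs with h
  · exact le_rfl
  · apply mul_nonneg _ (tl_nonneg n (k + 1) (by omega))
    have : (k : ℝ)^m ≤ ((k : ℝ) + 1)^m := pow_le_pow_left₀ (Nat.cast_nonneg k) (by linarith) m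
    linarith

theorem aa_zero {m n k : ℕ} (h : n ≤ k) : aa m n k = 0 := by
  unfold aa
  split_ifs
  · rfl
  · rw [tl_gt (by omega), mul_zero]

theorem aa_sum (m n : ℕ) (hn : 1 ≤ n) :
    ∑ᶠ k ∈ {k : ℕ | ⌊(0 : ℝ) * (n : ℝ)^((2:ℝ)/3)⌋₊ ≤ k}, aa m n k =
      ∑ k ∈ Finset.Icc 1 n, ((k : ℝ)^m - ((k : ℝ) - 1)^m) * tl n k := by
  have h1 : {k : ℕ | ⌊(0 : ℝ) * (n : ℝ)^((2:ℝ)/3)⌋₊ ≤ k} = Set.univ := by
    ext k
    simp
  rw [h1, finsum_mem_univ, finsum_eq_sum_of_support_subset (s := Finset.range n)]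
  · have h2 : Finset.Icc 1 n = Finset.Ico (0 + 1) (n + 1) := by
      ext k
      simp only [Finset.mem_Icc, Finset.mem_Ico]
      omega
    rw [h2, ← Finset.sum_Ico_add', Finset.range_eq_Ico]
    refine Finset.sum_congr rfl fun k _ => ?_
    unfold aa
    rw [if_neg (by omega)]
    push_cast
    rw [add_sub_cancel_right]
  · intro k hk
    rw [Finset.mem_coe, Finset.mem_range]
    by_contra hcon
    exact hk (aa_zero (by omega))

/-- the limit function -/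
noncomputable def gg (m : ℕ) (y : ℝ) : ℝ :=
  (m * y^(m - 1)) * (3 / (2 * Real.sqrt Real.pi) * Real.exp (-(y^3 / 4))) * (Real.sqrt y)⁻¹

/-- the normalisation -/
noncomputable def AA (m n : ℕ) : ℝ :=
  ((n : ℝ)^((2:ℝ)/3))^(m - 1) / Real.sqrt ((n : ℝ)^((2:ℝ)/3))

theorem k_div_tendsto (y : ℝ) (hy : 0 < y) :
    Tendsto (fun n : ℕ => ((⌊y * (n : ℝ)^((2:ℝ)/3)⌋₊ : ℕ) : ℝ) / (n : ℝ)^((2:ℝ)/3)) atTop
      (𝓝 y) := by
  have h := (tendsto_nat_floor_mul_div_atTop hy.le).comp r_tendsto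
  exact h

theorem k_div_tendsto' (y : ℝ) (hy : 0 < y) :
    Tendsto (fun n : ℕ => ((⌊y * (n : ℝ)^((2:ℝ)/3)⌋₊ + 1 : ℕ) : ℝ) / (n : ℝ)^((2:ℝ)/3)) atTop
      (𝓝 y) := by
  have h1 := k_div_tendsto y hy
  have h2 : Tendsto (fun n : ℕ => 1 / (n : ℝ)^((2:ℝ)/3)) atTop (𝓝 0) :=
    tendsto_const_nhds.div_atTop r_tendsto
  have h3 := h1.add h2
  rw [add_zero] at h3
  refine h3.congr fun n => ?_
  push_cast
  rw [add_div]

theorem aa_tendsto (m : ℕ) (hm : 1 ≤ m) (y : ℝ) (hy : 0 < y) :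
    Tendsto (fun n : ℕ => aa m n ⌊y * (n : ℝ)^((2:ℝ)/3)⌋₊ / AA m n) atTop (𝓝 (gg m y)) := by
  have hk := k_div_tendsto y hy
  have hk' := k_div_tendsto' y hy
  have hkinf : Tendsto (fun n : ℕ => ⌊y * (n : ℝ)^((2:ℝ)/3)⌋₊ + 1) atTop atTop :=
    (tendsto_add_atTop_nat 1).comp
      (tendsto_nat_floor_atTop.comp (r_tendsto.const_mul_atTop hy))
  have h1 := tl_tendsto y hy.le (fun n => ⌊y * (n : ℝ)^((2:ℝ)/3)⌋₊ + 1) hkinf hk'
  have h2 : Tendsto (fun n : ℕ => ∑ i ∈ Finset.range m,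
      (((⌊y * (n : ℝ)^((2:ℝ)/3)⌋₊ + 1 : ℕ) : ℝ) / (n : ℝ)^((2:ℝ)/3))^i *
      (((⌊y * (n : ℝ)^((2:ℝ)/3)⌋₊ : ℕ) : ℝ) / (n : ℝ)^((2:ℝ)/3))^(m - 1 - i)) atTop
      (𝓝 (∑ i ∈ Finset.range m, y^i * y^(m - 1 - i))) :=
    tendsto_finsetSum _ fun i _ => (hk'.pow i).mul (hk.pow _)
  have h3 : ∑ i ∈ Finset.range m, y^i * y^(m - 1 - i) = m * y^(m - 1) := by
    have : ∀ i ∈ Finset.range m, y^i * y^(m - 1 - i) = y^(m - 1) := by
      intro i hi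
      have h1 : i ≤ m - 1 := by
        have := Finset.mem_range.1 hi
        omega
      rw [← pow_add, Nat.add_sub_cancel' h1]
    rw [Finset.sum_congr rfl this]
    simp
  rw [h3] at h2
  have h4 : Tendsto (fun n : ℕ => (Real.sqrt (((⌊y * (n : ℝ)^((2:ℝ)/3)⌋₊ + 1 : ℕ) : ℝ) /
      (n : ℝ)^((2:ℝ)/3)))⁻¹) atTop (𝓝 (Real.sqrt y)⁻¹) :=
    (hk'.sqrt).inv₀ (Real.sqrt_pos.2 hy).ne'
  refine ((h2.mul h1).mul h4).congr' ?_
  filter_upwards [eventually_ge_atTop 1] with n hn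
  have hn0 : (0 : ℝ) < n := by exact_mod_cast hn
  have hr0 : 0 < (n : ℝ)^((2:ℝ)/3) := Real.rpow_pos_of_pos hn0 _
  obtain ⟨ρ, hρ⟩ : ∃ ρ : ℝ, ρ = (n : ℝ)^((2:ℝ)/3) := ⟨_, rfl⟩
  unfold AA aa
  rw [if_neg (by omega), ← hρ]
  rw [← hρ] at hr0
  obtain ⟨k, hk⟩ : ∃ k : ℕ, k = ⌊y * ρ⌋₊ := ⟨_, rfl⟩
  rw [← hk]
  have hk0 : (0 : ℝ) < ((k + 1 : ℕ) : ℝ) := by positivity
  have e1 : ((k : ℝ) + 1)^m - (k : ℝ)^m =
      ρ^(m - 1) * ∑ i ∈ Finset.range m, (((k + 1 : ℕ) : ℝ) / ρ)^i * ((k : ℝ) / ρ)^(m - 1 - i) := by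
    have h5 := diff_eq ((k : ℝ) + 1) m
    rw [add_sub_cancel_right] at h5
    rw [h5, Finset.mul_sum]
    refine Finset.sum_congr rfl fun i hi => ?_
    have h6 : i ≤ m - 1 := by
      have := Finset.mem_range.1 hi
      omega
    have h7 : ρ^(m - 1) = ρ^i * ρ^(m - 1 - i) := by rw [← pow_add, Nat.add_sub_cancel' h6]
    rw [h7, div_pow, div_pow]
    push_cast
    field_simp
  rw [e1, Real.sqrt_div hk0.le]
  have hs1 : 0 < Real.sqrt ρ := Real.sqrt_pos.2 hr0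
  have hs2 : 0 < Real.sqrt ((k + 1 : ℕ) : ℝ) := Real.sqrt_pos.2 hk0
  field_simp

theorem gg_integral (m : ℕ) (hm : 1 ≤ m) : ∫ y in Set.Ioi (0 : ℝ), gg m y =
    (m : ℝ) / (2 * Real.sqrt Real.pi) * 4^((2 * (m : ℝ) - 1)/6) *
        Real.Gamma ((2 * (m : ℝ) - 1)/6) := by
  have hm' : (1 : ℝ) ≤ m := by exact_mod_cast hm
  have h1 : ∀ y ∈ Set.Ioi (0 : ℝ), gg m y = 3 * m / (2 * Real.sqrt Real.pi) *
      (y ^ ((m : ℝ) - 3 / 2) * Real.exp (-(1 / 4) * y ^ (3 : ℝ))) := by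
    intro y hy
    have hy' : (0 : ℝ) < y := hy
    unfold gg
    have e1 : y ^ ((m : ℝ) - 3 / 2) = y^(m - 1) * (Real.sqrt y)⁻¹ := by
      have e2 : (m : ℝ) - 3 / 2 = ((m - 1 : ℕ) : ℝ) - 1 / 2 := by
        rw [Nat.cast_sub hm]
        push_cast
        ring
      rw [e2, Real.rpow_sub hy', Real.rpow_natCast, Real.sqrt_eq_rpow, div_eq_mul_inv]
    have e3 : y ^ (3 : ℝ) = y^3 := by
      rw [← Real.rpow_natCast]
      norm_num
    rw [e1, e3]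
    have e4 : -(1 / 4) * y^3 = -(y^3 / 4) := by ring
    rw [e4]
    ring
  rw [setIntegral_congr_fun measurableSet_Ioi h1, integral_const_mul,
    integral_rpow_mul_exp_neg_mul_rpow (by norm_num) (by linarith) (by norm_num)]
  have e5 : ((m : ℝ) - 3 / 2 + 1) / 3 = (2 * (m : ℝ) - 1) / 6 := by ring
  have e6 : -((m : ℝ) - 3 / 2 + 1) / 3 = -((2 * (m : ℝ) - 1) / 6) := by ring
  rw [e5, e6, one_div, Real.inv_rpow (by norm_num), Real.rpow_neg (by norm_num), inv_inv]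
  ring

theorem hh_int (m : ℕ) (C : ℝ) : IntegrableOn (fun y : ℝ => C * m * ((y + 1)^(m - 1) *
    (Real.sqrt y)⁻¹ * Real.exp (-(y^3 / 4)))) (Set.Ioi 0) := by
  apply Integrable.const_mul
  have h1 : IntegrableOn (fun y : ℝ => ∑ i ∈ Finset.range (m - 1 + 1),
      ((m - 1).choose i : ℝ) * (y ^ ((i : ℝ) - 1 / 2) * Real.exp (-(1 / 4) * y ^ (3 : ℝ))))
      (Set.Ioi 0) := by
    apply integrable_finsetSum
    intro i _
    apply Integrable.const_mul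
    exact integrableOn_rpow_mul_exp_neg_mul_rpow (by
      have : (0 : ℝ) ≤ i := Nat.cast_nonneg i
      linarith) (by norm_num) (by norm_num)
  refine h1.congr_fun ?_ measurableSet_Ioi
  intro y hy
  have hy' : (0 : ℝ) < y := hy
  have e3 : y ^ (3 : ℝ) = y^3 := by
    rw [← Real.rpow_natCast]
    norm_num
  have e4 : -(1 / 4) * y^3 = -(y^3 / 4) := by ring
  show ∑ i ∈ Finset.range (m - 1 + 1),
      ((m - 1).choose i : ℝ) * (y ^ ((i : ℝ) - 1 / 2) * Real.exp (-(1 / 4) * y ^ (3 : ℝ))) =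
    (y + 1)^(m - 1) * (Real.sqrt y)⁻¹ * Real.exp (-(y^3 / 4))
  rw [add_pow, Finset.sum_mul, Finset.sum_mul]
  refine Finset.sum_congr rfl fun i _ => ?_
  rw [e3, e4, Real.rpow_sub hy', Real.rpow_natCast, Real.sqrt_eq_rpow, one_pow]
  ring

theorem dom (m : ℕ) (C : ℝ) (hC : 0 < C) (hC2 : ∀ n k : ℕ, 1 ≤ k → k ≤ n →
    tl n k ≤ C / Real.sqrt k * Real.exp (-((k : ℝ)^3 / (4 * (n : ℝ)^2)))) :
    ∀ᶠ n : ℕ in atTop, ∀ y, 0 < y → aa m n ⌊y * (n : ℝ)^((2:ℝ)/3)⌋₊ / AA m n ≤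
      C * m * ((y + 1)^(m - 1) * (Real.sqrt y)⁻¹ * Real.exp (-(y^3 / 4))) := by
  filter_upwards [eventually_ge_atTop 1] with n hn y hy
  have hn1 : (1 : ℝ) ≤ n := by exact_mod_cast hn
  have hn0 : (0 : ℝ) < n := by linarith
  obtain ⟨ρ, hρ⟩ : ∃ ρ : ℝ, ρ = (n : ℝ)^((2:ℝ)/3) := ⟨_, rfl⟩
  have hρ1 : 1 ≤ ρ := by rw [hρ]; exact Real.one_le_rpow hn1 (by norm_num)
  have hρ0 : 0 < ρ := by linarith
  have hρ3 : ρ^3 = (n : ℝ)^2 := by
    rw [hρ, ← Real.rpow_natCast, ← Real.rpow_mul hn0.le, ← Real.rpow_natCast]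
    norm_num
  obtain ⟨k, hk⟩ : ∃ k : ℕ, k = ⌊y * ρ⌋₊ := ⟨_, rfl⟩
  rw [← hρ, ← hk]
  have hpos : 0 ≤ C * m * ((y + 1)^(m - 1) * (Real.sqrt y)⁻¹ * Real.exp (-(y^3 / 4))) := by
    positivity
  by_cases hkn : n ≤ k
  · rw [aa_zero hkn, zero_div]
    exact hpos
  · unfold aa AA
    rw [if_neg (by omega), ← hρ]
    have hyk : y * ρ ≤ (k : ℝ) + 1 := by
      rw [hk]
      exact (Nat.lt_floor_add_one _).le
    have hky : (k : ℝ) ≤ y * ρ := by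
      rw [hk]
      exact Nat.floor_le (by positivity)
    have hk1 : (0 : ℝ) ≤ k := Nat.cast_nonneg k
    have h1 := diff_le ((k : ℝ) + 1) (by linarith) m
    rw [add_sub_cancel_right] at h1
    have h2 := hC2 n (k + 1) (by omega) (by omega)
    push_cast at h2
    have h3 : Real.exp (-(((k : ℝ) + 1)^3 / (4 * (n : ℝ)^2))) ≤ Real.exp (-(y^3 / 4)) := by
      apply Real.exp_le_exp.2
      apply neg_le_neg
      rw [div_le_div_iff₀ (by norm_num) (by positivity), ← hρ3]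
      have h4 : (y * ρ)^3 ≤ ((k : ℝ) + 1)^3 := pow_le_pow_left₀ (by positivity) hyk 3
      rw [mul_pow] at h4
      linarith
    have hs1 : 0 < Real.sqrt ρ := Real.sqrt_pos.2 hρ0
    have hs2 : 0 < Real.sqrt ((k : ℝ) + 1) := Real.sqrt_pos.2 (by linarith)
    have hs3 : 0 < Real.sqrt y := Real.sqrt_pos.2 hy
    have h5 : Real.sqrt y * Real.sqrt ρ ≤ Real.sqrt ((k : ℝ) + 1) := by
      rw [← Real.sqrt_mul hy.le]
      exact Real.sqrt_le_sqrt hyk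
    have h6 : (k : ℝ) + 1 ≤ (y + 1) * ρ := by linarith
    have h7 : ((k : ℝ) + 1)^(m - 1) ≤ (y + 1)^(m - 1) * ρ^(m - 1) := by
      rw [← mul_pow]
      exact pow_le_pow_left₀ (by linarith) h6 _
    rw [div_le_iff₀ (by positivity)]
    have hd0 : 0 ≤ ((k : ℝ) + 1)^m - (k : ℝ)^m := by
      have : (k : ℝ)^m ≤ ((k : ℝ) + 1)^m := pow_le_pow_left₀ hk1 (by linarith) m
      linarith
    have ht0 : 0 ≤ tl n (k + 1) := tl_nonneg n (k + 1) hn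
    calc (((k : ℝ) + 1)^m - (k : ℝ)^m) * tl n (k + 1)
        ≤ (m * ((k : ℝ) + 1)^(m - 1)) *
          (C / Real.sqrt ((k : ℝ) + 1) * Real.exp (-(((k : ℝ) + 1)^3 / (4 * (n : ℝ)^2)))) :=
          mul_le_mul h1 h2 ht0 (by positivity)
      _ ≤ (m * ((y + 1)^(m - 1) * ρ^(m - 1))) *
          (C / (Real.sqrt y * Real.sqrt ρ) * Real.exp (-(y^3 / 4))) := by
          gcongr
      _ = _ := by
          field_simp

end F3

open F3 in
theorem mom_tendsto (m : ℕ) (hm : 1 ≤ m) :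
    Tendsto (fun n : ℕ => (∑ k ∈ Finset.Icc 1 n, ((k : ℝ)^m - ((k : ℝ) - 1)^m) * tl n k) /
      (n : ℝ)^((2 * (m : ℝ) - 1)/3)) atTop
      (𝓝 ((m : ℝ) / (2 * Real.sqrt Real.pi) * 4^((2 * (m : ℝ) - 1)/6) *
        Real.Gamma ((2 * (m : ℝ) - 1)/6))) := by
  obtain ⟨C, hC, hC2⟩ := tl_le
  have hA : ∀ᶠ n : ℕ in atTop, 0 < AA m n := by
    filter_upwards [eventually_ge_atTop 1] with n hn
    have hn0 : (0 : ℝ) < n := by exact_mod_cast hn
    have hr0 : 0 < (n : ℝ)^((2:ℝ)/3) := Real.rpow_pos_of_pos hn0 _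
    unfold AA
    positivity
  have h := Cont.riemann (aa m) (fun n : ℕ => (n : ℝ)^((2:ℝ)/3)) (AA m) (gg m)
    (fun y : ℝ => C * m * ((y + 1)^(m - 1) * (Real.sqrt y)⁻¹ * Real.exp (-(y^3 / 4))))
    r_tendsto hA (aa_nonneg m)
    (fun n => (Finset.range n).finite_toSet.subset (by
      intro k hk
      rw [Finset.mem_coe, Finset.mem_range]
      by_contra hcon
      exact hk (aa_zero (by omega))))
    (fun y hy => aa_tendsto m hm y hy) (hh_int m C) (dom m C hC hC2) 0 le_rfl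
  rw [gg_integral m hm] at h
  refine h.congr' ?_
  filter_upwards [eventually_ge_atTop 1] with n hn
  have hn0 : (0 : ℝ) < n := by exact_mod_cast hn
  have hr0 : 0 < (n : ℝ)^((2:ℝ)/3) := Real.rpow_pos_of_pos hn0 _
  show (∑ᶠ k ∈ {k : ℕ | ⌊(0 : ℝ) * (n : ℝ)^((2:ℝ)/3)⌋₊ ≤ k}, aa m n k) /
    ((n : ℝ)^((2:ℝ)/3) * AA m n) = _
  rw [aa_sum m n hn]
  congr 1
  unfold AA
  rw [← mul_div_assoc, ← pow_succ', Nat.sub_add_cancel hm, Real.sqrt_eq_rpow,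
    ← Real.rpow_natCast, ← Real.rpow_mul hn0.le, ← Real.rpow_mul hn0.le, ← Real.rpow_sub hn0]
  congr 1
  ring

end H731B
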