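import Pool.Agent.H731R6.Bc.P6

/-!
F4: moments of the cluster size.  `c ω = (bcl n ω).ncard ≤ n` (`ncard_le`), so `c^m = ∑_{k ∈ Icc 1 n} (k^m - (k-1)^m) 1{k ≤ c}`
(telescoping, `m ≥ 1`), integrate (`meas_bcl`, `integral_indicator_const`, `integral_finset_sum`), `exact_law`.
-/

set_option autoImplicit false

namespace H731B

open MeasureTheory Filter Topology
open Pool.Agent.H988R2 Pool.Agent.H863R2 Pool.Agent.H980R2
open Pool.Agent.H988R2.Perc (Word Dyck q)

namespace F4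

lemma tele (m : ℕ) (hm : 1 ≤ m) (n : ℕ) : ∀ c : ℕ, c ≤ n →
    (c : ℝ) ^ m = ∑ k ∈ Finset.Icc 1 n, ((k : ℝ) ^ m - ((k : ℝ) - 1) ^ m) *
      (if k ≤ c then (1 : ℝ) else 0) := by
  intro c hc
  have h1 : ∑ k ∈ Finset.Icc 1 n, ((k : ℝ) ^ m - ((k : ℝ) - 1) ^ m) *
      (if k ≤ c then (1 : ℝ) else 0) =
      ∑ k ∈ Finset.Icc 1 c, ((k : ℝ) ^ m - ((k : ℝ) - 1) ^ m) := by
    simp only [mul_ite, mul_one, mul_zero]
    rw [← Finset.sum_filter]
    refine Finset.sum_congr ?_ fun _ _ => rfl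
    ext k
    simp only [Finset.mem_filter, Finset.mem_Icc]
    omega
  rw [h1]
  clear h1 hc
  induction c with
  | zero => simp; omega
  | succ c ih =>
    rw [Finset.sum_Icc_succ_top (by omega), ← ih]
    push_cast
    ring

end F4

theorem moment_eq {n : ℕ} (hn : 1 ≤ n) (m : ℕ) (hm : 1 ≤ m) :
    ∫ ω, ((bcl n ω).ncard : ℝ)^m ∂(perc n) =
      ∑ k ∈ Finset.Icc 1 n, ((k : ℝ)^m - ((k : ℝ) - 1)^m) * tl n k := by
  classical
  have hfin : IsProbabilityMeasure (perc n) := by unfold perc; infer_instance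
  have h1 : ∀ ω, ((bcl n ω).ncard : ℝ)^m = ∑ k ∈ Finset.Icc 1 n,
      ({ω : Conf n | k ≤ (bcl n ω).ncard}.indicator
        (fun _ => ((k : ℝ) ^ m - ((k : ℝ) - 1) ^ m)) ω) := by
    intro ω
    rw [F4.tele m hm n _ (ncard_le hn ω)]
    refine Finset.sum_congr rfl fun k _ => ?_
    rw [Set.indicator_apply]
    simp only [Set.mem_setOf_eq, mul_ite, mul_one, mul_zero]
  simp only [h1]
  rw [integral_finset_sum]
  · refine Finset.sum_congr rfl fun k hk => ?_
    rw [integral_indicator_const _ (meas_bcl hn k), exact_law hn (Finset.mem_Icc.1 hk).2]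
    rw [smul_eq_mul, mul_comm]
  · intro k _
    exact (integrable_const _).indicator (meas_bcl hn k)

end H731B
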