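import Pool.Agent.H731R6.Bc.F3
import Pool.Agent.H731R6.Bc.F4

/-!
Final assembly (helper731).
-/

set_option autoImplicit false

namespace H731B

open MeasureTheory Filter Topology
open Pool.Agent.H988R2 Pool.Agent.H863R2 Pool.Agent.H980R2
open Pool.Agent.H988R2.Perc (Word Dyck q)

theorem Fin.ceil_le_ev (x : ℝ) : ∀ᶠ n : ℕ in atTop, ⌈x * (n : ℝ)^((2:ℝ)/3)⌉₊ ≤ n := by
  have h1 : Tendsto (fun n : ℕ => (n : ℝ)^((1:ℝ)/3)) atTop atTop :=
    (tendsto_rpow_atTop (by norm_num)).comp tendsto_natCast_atTop_atTop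
  filter_upwards [h1.eventually_ge_atTop x, eventually_ge_atTop 1] with n hn hn1
  rw [Nat.ceil_le]
  have hn0 : (0:ℝ) < n := by exact_mod_cast hn1
  calc x * (n : ℝ)^((2:ℝ)/3) ≤ (n : ℝ)^((1:ℝ)/3) * (n : ℝ)^((2:ℝ)/3) :=
        mul_le_mul_of_nonneg_right hn (by positivity)
    _ = n := by rw [← Real.rpow_add hn0]; norm_num

theorem main :
    (∀ n k : ℕ, 1 ≤ k → k ≤ n → (perc n).real {ω | k ≤ (bcl n ω).ncard} =
      ((2 * k).choose k : ℝ) * (3 * k - 1) / (2 * (2 * k - 1)) *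
      (((n + k - 1).factorial : ℝ) * (2 * n - k).factorial) /
        (((n - k).factorial : ℝ) * (2 * n + k - 1).factorial)) ∧
    (∀ x : ℝ, 0 < x → Tendsto (fun n : ℕ => (n : ℝ)^((1:ℝ)/3) *
        (perc n).real {ω | x * (n : ℝ)^((2:ℝ)/3) ≤ ((bcl n ω).ncard : ℝ)}) atTop
      (𝓝 (3 / (2 * Real.sqrt Real.pi) * x^(-(1:ℝ)/2) * Real.exp (-(x^3 / 4))))) ∧
    (∀ m : ℕ, 1 ≤ m → Tendsto (fun n : ℕ =>
        (∫ ω, ((bcl n ω).ncard : ℝ)^m ∂(perc n)) / (n : ℝ)^((2 * (m : ℝ) - 1)/3)) atTop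
      (𝓝 ((m : ℝ) / (2 * Real.sqrt Real.pi) * 4^((2 * (m : ℝ) - 1)/6) *
        Real.Gamma ((2 * (m : ℝ) - 1)/6)))) := by
  refine ⟨?_, ?_, ?_⟩
  · intro n k h1 hk
    rw [exact_law (h1.trans hk) hk, tl_closed h1 hk]
  · intro x hx
    refine (tl_ceil x hx).congr' ?_
    filter_upwards [Fin.ceil_le_ev x, eventually_ge_atTop 1] with n hn hn1
    congr 1
    rw [← exact_law hn1 hn]
    congr 1
    ext ω
    simp only [Set.mem_setOf_eq]
    exact Nat.ceil_le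
  · intro m hm
    refine (mom_tendsto m hm).congr' ?_
    filter_upwards [eventually_ge_atTop 1] with n hn
    rw [moment_eq hn m hm]

end H731B
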