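import Mathlib

/-!
H1a: order of vanishing of a limit of polynomials (pure Mathlib).

Induction on `rs`.  Step `r :: rs`: put `Q s := P s /ₘ (X - C (r s))` (`Polynomial.divByMonic`); its coefficients are
`(Q s).coeff j = ∑ i ∈ Icc (j+1) d, (P s).coeff i * (r s)^(i-1-j)` (Mathlib: `Polynomial.coeff_divByMonic_X_sub_C`), so they are
continuous at `0` and the degree is `≤ d`.  `P s = (X - C (r s)) * Q s + C ((P s).eval (r s))`
(`Polynomial.mul_divByMonic_eq_iff_isRoot`, `X_sub_C_mul_divByMonic_eq_sub_modByMonic`): for small `s ≠ 0` the other roots `r' s ≠ r s` are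
roots of `Q s`.  At `s = 0`: `(P 0).eval 1 = lim (P s).eval (r s) = 0` by continuity (finite sum of products), so
`P 0 = (X - C 1) * Q 0` and `(X - C 1)^rs.length ∣ Q 0` by the induction hypothesis.
-/

set_option autoImplicit false

namespace H731B


open Polynomial Filter Topology in
theorem H1a.eval_sum (p : ℂ[X]) (d : ℕ) (hd : p.natDegree ≤ d) (x : ℂ) :
    p.eval x = ∑ i ∈ Finset.range (d + 1), p.coeff i * x ^ i := by
  exact Polynomial.eval_eq_sum_range' (by omega) x

open Polynomial Filter Topology in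
theorem H1a.coeff_div (p : ℂ[X]) (d : ℕ) (hd : p.natDegree ≤ d) (a : ℂ) (n : ℕ) :
    (p /ₘ (X - C a)).coeff n = ∑ i ∈ Finset.Icc (n + 1) d, a ^ (i - (n + 1)) * p.coeff i := by
  rw [Polynomial.coeff_divByMonic_X_sub_C]
  refine Finset.sum_subset ?_ ?_
  · intro i hi
    rw [Finset.mem_Icc] at hi ⊢
    omega
  · intro i hi hi'
    rw [Finset.mem_Icc] at hi hi'
    rw [Polynomial.coeff_eq_zero_of_natDegree_lt (by omega), mul_zero]

open Polynomial Filter Topology in
theorem order_poly (d : ℕ) (rs : List (ℂ → ℂ)) : ∀ (P : ℂ → ℂ[X]), (∀ s, (P s).natDegree ≤ d) →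
    (∀ j, ContinuousAt (fun s => (P s).coeff j) 0) →
    (∀ r ∈ rs, ContinuousAt r 0 ∧ r 0 = 1) →
    (∀ᶠ s in 𝓝[≠] (0:ℂ), (rs.map (fun r => r s)).Nodup ∧ ∀ r ∈ rs, (P s).eval (r s) = 0) →
    (X - C 1)^rs.length ∣ P 0 := by
  induction rs with
  | nil =>
    intro P _ _ _ _
    rw [List.length_nil, pow_zero]
    exact one_dvd _
  | cons r rs ih =>
    intro P hd hc hr he
    obtain ⟨hr1, hr0⟩ := hr r (by simp)
    -- the value at 0
    have h1 : Tendsto (fun s => (P s).eval (r s)) (𝓝[≠] (0:ℂ)) (𝓝 ((P 0).eval (r 0))) := by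
      have h2 : ContinuousAt (fun s => ∑ i ∈ Finset.range (d + 1), (P s).coeff i * (r s) ^ i) 0 := by
        refine tendsto_finsetSum _ fun i _ => ?_
        exact (hc i).mul (hr1.pow i)
      have h3 : (fun s => (P s).eval (r s)) =
          fun s => ∑ i ∈ Finset.range (d + 1), (P s).coeff i * (r s) ^ i := by
        funext s
        exact H1a.eval_sum (P s) d (hd s) (r s)
      have h4 : ContinuousAt (fun s => (P s).eval (r s)) 0 := by
        rw [h3]
        exact h2
      exact h4.tendsto.mono_left nhdsWithin_le_nhds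
    have h5 : Tendsto (fun s => (P s).eval (r s)) (𝓝[≠] (0:ℂ)) (𝓝 0) := by
      refine tendsto_const_nhds.congr' ?_
      filter_upwards [he] with s hs
      exact (hs.2 r (by simp)).symm
    have h6 : (P 0).IsRoot (r 0) := tendsto_nhds_unique h1 h5
    have h7 : (X - C (r 0)) * (P 0 /ₘ (X - C (r 0))) = P 0 :=
      Polynomial.mul_divByMonic_eq_iff_isRoot.2 h6
    have h8 := ih (fun s => P s /ₘ (X - C (r s))) ?_ ?_ ?_ ?_
    · rw [← h7, List.length_cons, pow_succ', hr0]
      rw [hr0] at h8
      exact mul_dvd_mul_left _ h8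
    · intro s
      have := Polynomial.natDegree_divByMonic (P s) (Polynomial.monic_X_sub_C (r s))
      have h9 := hd s
      show (P s /ₘ (X - C (r s))).natDegree ≤ d
      omega
    · intro j
      have h3 : (fun s => (P s /ₘ (X - C (r s))).coeff j) =
          fun s => ∑ i ∈ Finset.Icc (j + 1) d, (r s) ^ (i - (j + 1)) * (P s).coeff i := by
        funext s
        exact H1a.coeff_div (P s) d (hd s) (r s) j
      show ContinuousAt (fun s => (P s /ₘ (X - C (r s))).coeff j) 0
      rw [h3]
      refine tendsto_finsetSum _ fun i _ => ?_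
      exact (hr1.pow _).mul (hc i)
    · intro r' hr'
      exact hr r' (by simp [hr'])
    · filter_upwards [he] with s hs
      obtain ⟨hn, hz⟩ := hs
      rw [List.map_cons, List.nodup_cons] at hn
      refine ⟨hn.2, fun r' hr' => ?_⟩
      have h9 : (X - C (r s)) * (P s /ₘ (X - C (r s))) = P s :=
        Polynomial.mul_divByMonic_eq_iff_isRoot.2 (hz r (by simp))
      have h10 := hz r' (by simp [hr'])
      rw [← h9, Polynomial.eval_mul, Polynomial.eval_sub, Polynomial.eval_X,
        Polynomial.eval_C] at h10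
      rcases mul_eq_zero.1 h10 with h11 | h11
      · exfalso
        apply hn.1
        rw [← sub_eq_zero.1 h11]
        exact List.mem_map.2 ⟨r', hr', rfl⟩
      · exact h11

end H731B
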