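import Mathlib

/-!
H1b: polynomial families with continuous coefficients (pure Mathlib).

Choose `P s` by the hypothesis for `s` with `good s` (`good 0` is part of `∀ᶠ s in 𝓝 0`), `P s = 0` otherwise.  By Lagrange
interpolation at the `d + 1` nodes `1, 2, …, d+1` (all nonzero): `P s = ∑ i, f s (i+1) • Lagrange.basis …` for good `s`
(`Lagrange.eq_interpolate`, `Lagrange.interpolate_apply`), so each coefficient is a fixed linear combination of the values
`f s (i+1)`, which are continuous at `s = 0`.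
-/

set_option autoImplicit false

namespace H731B


open Polynomial Filter Topology in
theorem poly_family (d : ℕ) (f : ℂ → ℂ → ℂ)
    (hp : ∀ᶠ s in 𝓝 (0:ℂ), ∃ P : ℂ[X], P.natDegree ≤ d ∧ ∀ x : ℂ, x ≠ 0 → P.eval x = f s x)
    (hc : ∀ x : ℂ, x ≠ 0 → ContinuousAt (fun s => f s x) 0) :
    ∃ P : ℂ → ℂ[X], (∀ s, (P s).natDegree ≤ d) ∧ (∀ j, ContinuousAt (fun s => (P s).coeff j) 0) ∧
      ∀ᶠ s in 𝓝 (0:ℂ), ∀ x : ℂ, x ≠ 0 → (P s).eval x = f s x := by
  classical
  set P : ℂ → ℂ[X] := fun s =>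
    if h : ∃ P : ℂ[X], P.natDegree ≤ d ∧ ∀ x : ℂ, x ≠ 0 → P.eval x = f s x then h.choose else 0
    with hP
  have hPs : ∀ s, (∃ P : ℂ[X], P.natDegree ≤ d ∧ ∀ x : ℂ, x ≠ 0 → P.eval x = f s x) →
      (P s).natDegree ≤ d ∧ ∀ x : ℂ, x ≠ 0 → (P s).eval x = f s x := by
    intro s hs
    simp only [hP]
    rw [dif_pos hs]
    exact hs.choose_spec
  have hdeg : ∀ s, (P s).natDegree ≤ d := by
    intro s
    by_cases hs : ∃ P : ℂ[X], P.natDegree ≤ d ∧ ∀ x : ℂ, x ≠ 0 → P.eval x = f s x
    · exact (hPs s hs).1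
    · simp only [hP]
      rw [dif_neg hs]
      simp
  refine ⟨P, hdeg, ?_, hp.mono fun s hs => (hPs s hs).2⟩
  intro j
  set v : ℕ → ℂ := fun i => (i : ℂ) + 1 with hv
  have hv0 : ∀ i, v i ≠ 0 := fun i => Nat.cast_add_one_ne_zero i
  have hinj : Set.InjOn v (Finset.range (d + 1)) := by
    intro a _ b _ hab
    simp only [hv] at hab
    exact_mod_cast add_right_cancel hab
  have hev : (fun s => (P s).coeff j) =ᶠ[𝓝 0] fun s =>
      ∑ i ∈ Finset.range (d + 1), f s (v i) * (Lagrange.basis (Finset.range (d + 1)) v i).coeff j := by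
    filter_upwards [hp] with s hs
    obtain ⟨h1, h2⟩ := hPs s hs
    have h3 : P s = Lagrange.interpolate (Finset.range (d + 1)) v (fun i => f s (v i)) := by
      apply Lagrange.eq_interpolate_of_eval_eq _ hinj
      · rw [Finset.card_range]
        refine lt_of_le_of_lt degree_le_natDegree ?_
        exact_mod_cast Nat.lt_succ_of_le h1
      · intro i _
        exact h2 _ (hv0 i)
    conv_lhs => rw [h3]
    rw [Lagrange.interpolate_apply, finsetSum_coeff]
    refine Finset.sum_congr rfl fun i _ => ?_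
    rw [coeff_C_mul]
  refine ContinuousAt.congr ?_ hev.symm
  refine tendsto_finsetSum _ fun i _ => ?_
  exact (hc (v i) (hv0 i)).mul continuousAt_const

end H731B
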