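import Pool.Agent.H731R6.Bc.S3b
import Pool.Agent.H980R2.Cont.T06

/-!
H2a: `x^K RR(x)` is a polynomial in `x`.  `hh Ψ (q x⁻¹) us = OO (q x⁻¹ :: 1 :: (prs us ++ [1, x⁻¹]))`: by `cl_pd` (`PD N (N-1)`,
`N = 2 m + 4`) it is a polynomial of degree `≤ 2(N-1)` in `x⁻¹` (`PD.curve`, see `HH_poly` in `H980R2.Cont.T06`), so
`x^(2(N-1))` times it is a polynomial in `x`; `hh Ψ (q x) us` is a polynomial in `x`; `Phi x us` is a polynomial in `x` of degree
`1 + 2 (2 m + 2)`, `Phi x⁻¹ us` a polynomial in `x⁻¹`.  Take `K`, `d` large (only depending on `m`).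
-/

set_option autoImplicit false

namespace H731B

open Pool.Agent.H988R2 Pool.Agent.H863R2 Pool.Agent.H980R2
open Pool.Agent.H988R2.Perc (Word Dyck q PD q_spec q_cube q_ne_zero q_ne_one)

namespace H2a

open Polynomial

/-- polynomial function on the nonzero numbers, of degree `≤ d` -/
def PB (d : ℕ) (f : ℂ → ℂ) : Prop :=
  ∃ P : ℂ[X], P.natDegree ≤ d ∧ ∀ x : ℂ, x ≠ 0 → P.eval x = f x

theorem PB.mul {d e : ℕ} {f g : ℂ → ℂ} (hf : PB d f) (hg : PB e g) :
    PB (d + e) (fun x => f x * g x) := by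
  obtain ⟨P, h1, h2⟩ := hf
  obtain ⟨Q, h3, h4⟩ := hg
  exact ⟨P * Q, natDegree_mul_le.trans (by omega), fun x hx => by rw [eval_mul, h2 x hx, h4 x hx]⟩

theorem PB.add {d e k : ℕ} {f g : ℂ → ℂ} (hf : PB d f) (hg : PB e g) (hd : d ≤ k) (he : e ≤ k) :
    PB k (fun x => f x + g x) := by
  obtain ⟨P, h1, h2⟩ := hf
  obtain ⟨Q, h3, h4⟩ := hg
  refine ⟨P + Q, ?_, fun x hx => by rw [eval_add, h2 x hx, h4 x hx]⟩
  exact natDegree_add_le_of_degree_le (h1.trans hd) (h3.trans he)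

theorem PB.le {d e : ℕ} {f : ℂ → ℂ} (hf : PB d f) (h : d ≤ e) : PB e f := by
  obtain ⟨P, h1, h2⟩ := hf
  exact ⟨P, h1.trans h, h2⟩

theorem PB.congr {d : ℕ} {f g : ℂ → ℂ} (hf : PB d f) (h : ∀ x, x ≠ 0 → g x = f x) : PB d g := by
  obtain ⟨P, h1, h2⟩ := hf
  exact ⟨P, h1, fun x hx => by rw [h2 x hx, h x hx]⟩

theorem PB.pow (k : ℕ) : PB k (fun x => x ^ k) :=
  ⟨X ^ k, natDegree_X_pow_le k, fun x _ => by simp⟩

theorem PB.refl {d : ℕ} (P : ℂ[X]) (hP : P.natDegree ≤ d) :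
    PB d (fun x => x ^ d * P.eval x⁻¹) := by
  refine ⟨∑ i ∈ Finset.range (d + 1), C (P.coeff i) * X ^ (d - i), ?_, fun x hx => ?_⟩
  · refine natDegree_sum_le_of_forall_le _ _ fun i hi => ?_
    exact (natDegree_C_mul_X_pow_le _ _).trans (by omega)
  · show _ = x ^ d * P.eval x⁻¹
    rw [eval_finsetSum, eval_eq_sum_range' (show P.natDegree < d + 1 by omega), Finset.mul_sum]
    refine Finset.sum_congr rfl fun i hi => ?_
    have hi' : i ≤ d := by
      have := Finset.mem_range.1 hi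
      omega
    simp only [eval_mul, eval_C, eval_pow, eval_X]
    have e : x ^ d = x ^ (d - i) * x ^ i := by
      rw [← pow_add, Nat.sub_add_cancel hi']
    rw [e, inv_pow]
    field_simp

/-- substitution of univariate polynomials for all variables, with the degree -/
theorem curve {N d e : ℕ} {F : List ℂ → ℂ} (hF : PD N d F) (P : List ℂ[X])
    (h : P.length = N) (he : ∀ p ∈ P, p.natDegree ≤ e) :
    ∃ Q : ℂ[X], Q.natDegree ≤ N * (d * e) ∧ ∀ x, F (P.map (fun p => p.eval x)) = Q.eval x := by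
  obtain ⟨p, hp, hp'⟩ := hF
  refine ⟨MvPolynomial.aeval (fun i : Fin N => P.getD i 0) p, ?_, ?_⟩
  · refine (Perc.natDegree_aeval_le p hp _ (fun _ => e) fun i => ?_).trans ?_
    · rw [List.getD_eq_getElem?_getD]
      rcases hc : P[(i : ℕ)]? with _ | a
      · simp
      · exact he a (List.mem_of_getElem? hc)
    · rw [Finset.sum_const, Finset.card_univ, Fintype.card_fin, smul_eq_mul]
  intro x
  rw [Perc.eval_aeval_poly, hp' _ (by rw [List.length_map, h])]
  congr 2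
  funext i
  rw [List.getD_eq_getElem?_getD, List.getD_eq_getElem?_getD, List.getElem?_map]
  cases P[(i : ℕ)]? <;> simp

/-- `hh` is a polynomial -/
theorem hh_poly {Ψ : List ℂ → Cyl.VW} (hΨ : Cyl.Fam (q^2) Ψ) (us : List ℂ) :
    ∃ A : ℂ[X], A.natDegree ≤ (2 * us.length + 4) * (2 * us.length + 3) ∧
      ∀ x, hh Ψ x us = A.eval x := by
  have hlen := prs_length us
  obtain ⟨Q, h1, h2⟩ := curve (e := 1) (cl_pd hΨ Cont.oo (2 * us.length + 4))
    (X :: C 1 :: ((Cont.prs us).map C ++ [C 1, C (q^2) * X])) (by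
      simp only [List.length_cons, List.length_append, List.length_map, hlen, List.length_nil]) (by
      intro p hp
      simp only [List.mem_cons, List.mem_append, List.mem_map, List.not_mem_nil, or_false] at hp
      rcases hp with rfl | rfl | ⟨y, -, rfl⟩ | rfl | rfl
      · exact natDegree_X_le
      · rw [natDegree_C]; omega
      · rw [natDegree_C]; omega
      · rw [natDegree_C]; omega
      · exact (natDegree_C_mul_le _ _).trans natDegree_X_le)
  refine ⟨Q, h1.trans (le_of_eq ?_), fun x => ?_⟩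
  · rw [mul_one]
    rfl
  · rw [← h2 x]
    unfold hh OO
    simp [List.map_append, List.map_map, Function.comp_def]

theorem Phi_poly (us : List ℂ) :
    ∃ B : ℂ[X], B.natDegree ≤ 4 * us.length + 5 ∧ ∀ x, Phi x us = B.eval x := by
  have key : ∀ l : List ℂ, ∃ B : ℂ[X], B.natDegree ≤ 2 * l.length ∧
      ∀ x, (l.map (fun y => (y - q * (q * x))^2)).prod = B.eval x := by
    intro l
    induction l with
    | nil => exact ⟨1, by simp, fun x => by simp⟩
    | cons a l ih =>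
      obtain ⟨B, h1, h2⟩ := ih
      refine ⟨(C a - C (q * q) * X) ^ 2 * B, ?_, fun x => ?_⟩
      · refine natDegree_mul_le.trans ?_
        have h3a : (C a : ℂ[X]).natDegree ≤ 1 := by rw [natDegree_C]; omega
        have h3b : (C (q * q) * X : ℂ[X]).natDegree ≤ 1 :=
          (natDegree_C_mul_le _ _).trans natDegree_X_le
        have h3 : (C a - C (q * q) * X : ℂ[X]).natDegree ≤ 1 :=
          (natDegree_sub_le _ _).trans (max_le h3a h3b)
        have h4 := natDegree_pow_le_of_le 2 h3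
        rw [List.length_cons]
        omega
      · rw [List.map_cons, List.prod_cons, h2 x]
        simp only [eval_mul, eval_pow, eval_sub, eval_C, eval_X]
        ring
  obtain ⟨B, h1, h2⟩ := key (1 :: 1 :: Cont.prs us)
  refine ⟨C q * X * B, ?_, fun x => ?_⟩
  · refine natDegree_mul_le.trans ?_
    have h3 : (C q * X : ℂ[X]).natDegree ≤ 1 := (natDegree_C_mul_le _ _).trans natDegree_X_le
    simp only [List.length_cons, prs_length] at h1
    omega
  · unfold Phi facc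
    rw [h2 x]
    simp only [eval_mul, eval_C, eval_X]

end H2a

open Polynomial in
theorem RR_poly {Ψ : List ℂ → Cyl.VW} (hΨ : Cyl.Fam (q^2) Ψ) (m : ℕ) : ∃ K d : ℕ, ∀ us : List ℂ,
    us.length = m → ∃ P : ℂ[X], P.natDegree ≤ d ∧ ∀ x : ℂ, x ≠ 0 → P.eval x = x^K * RR Ψ x us := by
  obtain ⟨D, hD⟩ : ∃ D, D = (2 * m + 4) * (2 * m + 3) := ⟨_, rfl⟩
  obtain ⟨E, hE⟩ : ∃ E, E = 4 * m + 5 := ⟨_, rfl⟩
  refine ⟨D + E, 3 + 2 * D + 2 * E, fun us hus => ?_⟩
  obtain ⟨A, hA1, hA2⟩ := H2a.hh_poly hΨ us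
  obtain ⟨B, hB1, hB2⟩ := H2a.Phi_poly us
  rw [hus, ← hD] at hA1
  rw [hus, ← hE] at hB1
  have hq : (C q * X : ℂ[X]).natDegree ≤ 1 := (natDegree_C_mul_le _ _).trans natDegree_X_le
  have hAq : (A.comp (C q * X)).natDegree ≤ D := by
    refine natDegree_comp_le.trans ?_
    calc A.natDegree * (C q * X : ℂ[X]).natDegree ≤ D * 1 := Nat.mul_le_mul hA1 hq
      _ = D := mul_one D
  have a1 : H2a.PB D (fun x => hh Ψ (q * x) us) :=
    ⟨A.comp (C q * X), hAq, fun x _ => by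
      show _ = hh Ψ (q * x) us
      rw [hA2, eval_comp, eval_mul, eval_C, eval_X]⟩
  have a2 : H2a.PB D (fun x => x ^ D * hh Ψ (q * x⁻¹) us) :=
    (H2a.PB.refl (A.comp (C q * X)) hAq).congr fun x _ => by
      rw [hA2, eval_comp, eval_mul, eval_C, eval_X]
  have b1 : H2a.PB E (fun x => Phi x us) := ⟨B, hB1, fun x _ => (hB2 x).symm⟩
  have b2 : H2a.PB E (fun x => x ^ E * Phi x⁻¹ us) :=
    (H2a.PB.refl B hB1).congr fun x _ => by rw [hB2]
  have c1 : H2a.PB 3 (fun x => (x - q) * (x^2 - q)) :=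
    ⟨(X - C q) * (X ^ 2 - C q), by compute_degree, fun x _ => by simp⟩
  have c2 : H2a.PB 3 (fun x => (1 - q * x) * (1 - q * x^2)) :=
    ⟨(1 - C q * X) * (1 - C q * X ^ 2), by compute_degree, fun x _ => by simp⟩
  have c3 : H2a.PB 3 (fun x => q * (x - 1)^2 * (x + 1) * ZZ Ψ (1 :: 1 :: Cont.prs us)) :=
    ⟨C q * (X - 1) ^ 2 * (X + 1) * C (ZZ Ψ (1 :: 1 :: Cont.prs us)), by compute_degree,
      fun x _ => by simp⟩
  have t1 := ((c1.mul b1).mul a2).mul (H2a.PB.pow E)
  have t2 := ((c2.mul b2).mul a1).mul (H2a.PB.pow D)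
  have t3 := ((c3.mul b1).mul b2).mul (H2a.PB.pow D)
  have t := (t1.add t2 (k := 3 + 2 * D + 2 * E) (by omega) (by omega)).add t3
    (k := 3 + 2 * D + 2 * E) le_rfl (by omega)
  obtain ⟨P, hP1, hP2⟩ := t
  refine ⟨P, hP1, fun x hx => ?_⟩
  rw [hP2 x hx]
  unfold RR
  rw [pow_add]
  ring

end H731B
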