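import Pool.Agent.H731R6.Bc.S3b
import Pool.Agent.H731R6.Bc.Defs2
import Pool.Agent.H980R2.Cont.T07

/-!
H2b: continuity in the parameter.  As `cont_HH` in `H980R2.Cont.T07` (`CL.comp` with `cl_pd`): `s ↦ Cont.prs (usl m s)` is a
list of `2 m` functions continuous at `0` (`(1 + (a+1) s)⁻¹` is continuous at `0`), `OO Ψ`, `ZZ Ψ`, `facc` are polynomial
functions of the letters. (helper677)
-/

set_option autoImplicit false

namespace H731B

open Pool.Agent.H988R2 Pool.Agent.H863R2 Pool.Agent.H980R2
open Pool.Agent.H988R2.Perc (Word Dyck q PD q_spec q_cube q_ne_zero q_ne_one)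

namespace H2b

open Filter Topology

theorem usl_eq (m : ℕ) (s : ℂ) :
    usl m s = Cont.T07.us ((List.range m).map (fun a : ℕ => (a : ℂ) + 1)) s := by
  have e : (do let a ← List.range m; pure (a : ℂ)) = (List.range m).map (fun a : ℕ => (a : ℂ)) := by
    rw [bind_pure_comp, List.map_eq_map]
  unfold usl Cont.T07.us
  rw [e, List.map_map, List.map_map]
  rfl

theorem CL_prs0 (l : List ℂ) :
    Cont.T07.CL (fun s => Cont.prs (Cont.T07.us l s)) (2 * l.length) 0 := by
  induction l with
  | nil => exact Cont.T07.CL.nil 0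
  | cons a l ih =>
    have := (ih.cons (Cont.T07.cont_ti a)).cons (Cont.T07.cont_t a)
    have e : 2 * (a :: l).length = 2 * l.length + 1 + 1 := by
      rw [List.length_cons]
      ring
    rw [e]
    exact this

theorem cont_prod {L : ℂ → List ℂ} {N : ℕ} {t : ℂ} (h : Cont.T07.CL L N t) {g : ℂ → ℂ}
    (hg : Continuous g) : ContinuousAt (fun s => ((L s).map g).prod) t := by
  have h2 : ∀ s, (List.ofFn fun i : Fin N => (L s).getD (i : ℕ) 0) = L s := by
    intro s
    apply List.ext_getElem
    · rw [List.length_ofFn, h.1 s]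
    · intro i hi1 hi2
      rw [List.getElem_ofFn, List.getD_eq_getElem _ _ hi2]
  have h3 : (fun s => ((L s).map g).prod) =
      fun s => ∏ i : Fin N, g ((L s).getD (i : ℕ) 0) := by
    funext s
    conv_lhs => rw [← h2 s]
    rw [List.map_ofFn, List.prod_ofFn]
    rfl
  rw [h3]
  exact tendsto_finsetProd _ fun i _ => (hg.continuousAt.comp (h.2 (i : ℕ)))

end H2b

open H2b in
theorem RR_cont {Ψ : List ℂ → Cyl.VW} (hΨ : Cyl.Fam (q^2) Ψ) (m : ℕ) (x : ℂ) (hx : x ≠ 0) :
    ContinuousAt (fun s => RR Ψ x (usl m s)) 0 := by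
  have hP : Cont.T07.CL (fun s => Cont.prs (usl m s))
      (2 * ((List.range m).map (fun a : ℕ => (a : ℂ) + 1)).length) 0 := by
    simp only [usl_eq]
    exact CL_prs0 _
  have hP2 : ∀ b : ℂ, Cont.T07.CL (fun s => Cont.prs (usl m s) ++ [1, b])
      (2 * ((List.range m).map (fun a : ℕ => (a : ℂ) + 1)).length + 2) 0 := by
    intro b
    simp only [usl_eq]
    exact Cont.T07.CL_prs _ 1 b
  have hh1 : ∀ y : ℂ, ContinuousAt (fun s => hh Ψ y (usl m s)) 0 := by
    intro y
    have h := ((hP2 (q^2 * y)).cons (f := fun _ => (1:ℂ)) continuousAt_const).cons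
      (f := fun _ => y) continuousAt_const
    exact h.comp (cl_pd hΨ Cont.oo _)
  have hZ : ContinuousAt (fun s => ZZ Ψ (1 :: 1 :: Cont.prs (usl m s))) 0 := by
    have h := (hP.cons (f := fun _ => (1:ℂ)) continuousAt_const).cons
      (f := fun _ => (1:ℂ)) continuousAt_const
    exact h.comp (cl_pd hΨ (fun _ => 1) _)
  have hF : ∀ y : ℂ, ContinuousAt (fun s => Phi y (usl m s)) 0 := by
    intro y
    have h := (hP.cons (f := fun _ => (1:ℂ)) continuousAt_const).cons
      (f := fun _ => (1:ℂ)) continuousAt_const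
    unfold Phi facc
    exact continuousAt_const.mul
      (cont_prod (g := fun z => (z - q * (q * y))^2) h (by fun_prop))
  unfold RR
  exact (((continuousAt_const.mul (hF x)).mul (hh1 _)).add
    ((continuousAt_const.mul (hF x⁻¹)).mul (hh1 _))).add
    (((continuousAt_const.mul hZ).mul (hF x)).mul (hF x⁻¹))

end H731B
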