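import Pool.Agent.H731R6.Bc.R1

/-!
R2: `RR_one`: at `x = 1` the last term vanishes and `hh Ψ q us = OO (q :: 1 :: (prs us ++ [1, q²·q]))` is zero by
`OO_exch_zero` (exchange of `q` and `1`: `(q·1 - q²·q) OO (q::1::v) = (q·q - q²·1) OO (1::q::v) = 0`, `q ≠ 1`).
`RR_mem`: `RR_perm` (`us.Perm (t :: us.erase t)`, `List.perm_cons_erase`), `RR_root`, and `RR_inv`.
-/

set_option autoImplicit false

namespace H731B

open Pool.Agent.H988R2 Pool.Agent.H863R2 Pool.Agent.H980R2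
open Pool.Agent.H988R2.Perc (Word Dyck q PD q_spec q_cube q_ne_zero q_ne_one)

theorem R2.hh_q {Ψ : List ℂ → Cyl.VW} (hΨ : Cyl.Fam (q^2) Ψ) (us : List ℂ) : hh Ψ q us = 0 := by
  have hl : Even (Cont.prs us ++ [1, q^2 * q]).length := by
    rw [List.length_append, prs_length]
    exact (even_two_mul _).add (by simp)
  have h := OO_exch_zero hΨ 1 q (Cont.prs us ++ [1, q^2 * q]) hl (by simp)
  have h2 : (q * q - q^2 * 1 : ℂ) = 0 := by ring
  have h3 : (q * 1 - q^2 * q : ℂ) ≠ 0 := by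
    have : (q * 1 - q^2 * q : ℂ) = q - 1 := by linear_combination -q_cube
    rw [this]
    exact sub_ne_zero.2 q_ne_one
  rw [h2, zero_mul] at h
  exact (mul_eq_zero.1 h).resolve_left h3

theorem RR_one {Ψ : List ℂ → Cyl.VW} (hΨ : Cyl.Fam (q^2) Ψ) (us : List ℂ) : RR Ψ 1 us = 0 := by
  unfold RR
  rw [inv_one, mul_one, R2.hh_q hΨ us]
  ring

theorem RR_mem {Ψ : List ℂ → Cyl.VW} (hΨ : Cyl.Fam (q^2) Ψ) (us : List ℂ) (hus : ∀ u ∈ us, u ≠ 0)
    (t : ℂ) (ht : t ∈ us) (h1 : t ≠ q) (h2 : t ≠ q^2) (h3 : t^2 ≠ q) :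
    RR Ψ t us = 0 ∧ RR Ψ t⁻¹ us = 0 := by
  have h0 : t ≠ 0 := hus t ht
  have hr : RR Ψ t us = 0 := by
    rw [RR_perm hΨ (List.perm_cons_erase ht) hus t]
    exact RR_root hΨ t (us.erase t) h0 h1 h2 h3 (fun u hu => hus u (List.mem_of_mem_erase hu))
  exact ⟨hr, by rw [RR_inv Ψ t h0 us, hr, mul_zero]⟩

end H731B
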