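import Pool.Agent.H731R6.Bc.H1a
import Pool.Agent.H731R6.Bc.H1b
import Pool.Agent.H731R6.Bc.H2a
import Pool.Agent.H731R6.Bc.H2b
import Pool.Agent.H731R6.Bc.R2

/-!
H3: order of vanishing.  `f s x := x^K * RR Ψ x (usl m s)` (`RR_poly`, `RR_cont`, `poly_family`), roots
`rs := (fun _ => 1) :: (List.range m).flatMap (fun a => [fun s => 1 + (a+1) s, fun s => (1 + (a+1) s)⁻¹])`, `rs.length = 2 m + 1`;
for small `s ≠ 0` the values are pairwise distinct (`1 + a s = (1 + b s)⁻¹` iff `(a + b) s + a b s² = 0`) and near `1`, so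
`≠ q, q²`, square `≠ q`, nonzero; they are zeros of `f s` by `RR_one`, `RR_mem`.  `order_poly`; at `s = 0` the list is
`usl m 0 = List.replicate m 1` (the eventual equality holds at `s = 0`: `Filter.Eventually.self_of_nhds`).
-/

set_option autoImplicit false

namespace H731B

open Pool.Agent.H988R2 Pool.Agent.H863R2 Pool.Agent.H980R2
open Pool.Agent.H988R2.Perc (Word Dyck q PD q_spec q_cube q_ne_zero q_ne_one)

namespace H3

open Filter Topology

/-- the letters -/
noncomputable def u (a : ℕ) (s : ℂ) : ℂ := 1 + ((a : ℂ) + 1) * s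

theorem u_zero (a : ℕ) : u a 0 = 1 := by simp [u]

theorem u_cont (a : ℕ) : Continuous (u a) := by unfold u; fun_prop

/-- the roots -/
noncomputable def rs (m : ℕ) : List (ℂ → ℂ) :=
  (fun _ => 1) :: (List.range m).flatMap (fun a => [u a, fun s => (u a s)⁻¹])

theorem rs_length (m : ℕ) : (rs m).length = 2 * m + 1 := by
  unfold rs
  rw [List.length_cons, List.length_flatMap]
  simp [mul_comm]

theorem mem_rs {m : ℕ} {r : ℂ → ℂ} (h : r ∈ rs m) :
    r = (fun _ => 1) ∨ ∃ a < m, r = u a ∨ r = fun s => (u a s)⁻¹ := by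
  unfold rs at h
  rw [List.mem_cons, List.mem_flatMap] at h
  rcases h with h | ⟨a, ha, h⟩
  · exact Or.inl h
  · refine Or.inr ⟨a, List.mem_range.1 ha, ?_⟩
    simpa using h

theorem u_ne_one {s : ℂ} (hs : s ≠ 0) (a : ℕ) : u a s ≠ 1 := by
  intro h
  unfold u at h
  have h1 : ((a : ℂ) + 1) * s = 0 := by linear_combination h
  rcases mul_eq_zero.1 h1 with h2 | h2
  · exact Nat.cast_add_one_ne_zero a h2
  · exact hs h2

theorem u_inj {s : ℂ} (hs : s ≠ 0) {a b : ℕ} (h : u a s = u b s) : a = b := by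
  unfold u at h
  have h1 : ((a : ℂ) - b) * s = 0 := by linear_combination h
  rcases mul_eq_zero.1 h1 with h2 | h2
  · exact_mod_cast sub_eq_zero.1 h2
  · exact absurd h2 hs

theorem ev_mul (a b : ℕ) : ∀ᶠ s in 𝓝[≠] (0:ℂ), u a s * u b s ≠ 1 := by
  have h1 : ContinuousAt (fun s : ℂ => ((a : ℂ) + b + 2) + ((a : ℂ) + 1) * (b + 1) * s) 0 := by
    fun_prop
  have h2 : (fun s : ℂ => ((a : ℂ) + b + 2) + ((a : ℂ) + 1) * (b + 1) * s) 0 ≠ 0 := by
    show ((a : ℂ) + b + 2) + ((a : ℂ) + 1) * (b + 1) * 0 ≠ 0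
    rw [mul_zero, add_zero]
    have : ((a + b + 2 : ℕ) : ℂ) ≠ 0 := Nat.cast_ne_zero.2 (by omega)
    push_cast at this
    exact this
  have h3 := (h1.eventually_ne h2).filter_mono (nhdsWithin_le_nhds (s := {0}ᶜ))
  filter_upwards [h3, self_mem_nhdsWithin] with s hs hs0 h
  have h4 : s * (((a : ℂ) + b + 2) + ((a : ℂ) + 1) * (b + 1) * s) = 0 := by
    unfold u at h
    linear_combination h
  rcases mul_eq_zero.1 h4 with h5 | h5
  · exact hs0 h5
  · exact hs h5

theorem q_sq_ne : (q^2 : ℂ) ≠ 1 := by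
  intro h
  have h1 := q_cube
  have h2 : q^3 = q^2 * q := by ring
  rw [h2, h, one_mul] at h1
  exact q_ne_one h1

theorem ev_one (a : ℕ) : ∀ᶠ s in 𝓝 (0:ℂ), u a s ≠ 0 ∧ u a s ≠ q ∧ u a s ≠ q^2 ∧ (u a s)^2 ≠ q := by
  have hc : ContinuousAt (u a) 0 := (u_cont a).continuousAt
  have h1 : ∀ᶠ s in 𝓝 (0:ℂ), u a s ≠ 0 := hc.eventually_ne (by rw [u_zero]; exact one_ne_zero)
  have h2 : ∀ᶠ s in 𝓝 (0:ℂ), u a s ≠ q := hc.eventually_ne (by rw [u_zero]; exact q_ne_one.symm)
  have h3 : ∀ᶠ s in 𝓝 (0:ℂ), u a s ≠ q^2 := hc.eventually_ne (by rw [u_zero]; exact q_sq_ne.symm)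
  have h4 : ∀ᶠ s in 𝓝 (0:ℂ), (u a s)^2 ≠ q :=
    (hc.pow 2).eventually_ne (by
      show (u a 0)^2 ≠ q
      rw [u_zero, one_pow]; exact q_ne_one.symm)
  filter_upwards [h1, h2, h3, h4] with s a1 a2 a3 a4
  exact ⟨a1, a2, a3, a4⟩

theorem nodup {m : ℕ} {s : ℂ} (hs : s ≠ 0) (h : ∀ a < m, ∀ b < m, u a s * u b s ≠ 1)
    (h0 : ∀ a < m, u a s ≠ 0) : ((rs m).map (fun r => r s)).Nodup := by
  have e : (rs m).map (fun r => r s) =
      1 :: (List.range m).flatMap (fun a => [u a s, (u a s)⁻¹]) := by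
    unfold rs
    rw [List.map_cons, List.map_flatMap]
    rfl
  rw [e, List.nodup_cons]
  constructor
  · rw [List.mem_flatMap]
    rintro ⟨a, -, h1⟩
    simp only [List.mem_cons, List.not_mem_nil, or_false] at h1
    rcases h1 with h1 | h1
    · exact u_ne_one hs a h1.symm
    · exact u_ne_one hs a (inv_eq_one.1 h1.symm)
  · rw [List.nodup_flatMap]
    constructor
    · intro a ha
      have ha' := List.mem_range.1 ha
      simp only [List.nodup_cons, List.mem_cons, List.not_mem_nil, or_false, not_false_eq_true,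
        List.nodup_nil, and_true]
      intro h1
      apply h a ha' a ha'
      conv_lhs => rw [h1]
      rw [← h1]
      nth_rewrite 1 [h1]
      exact inv_mul_cancel₀ (h0 a ha')
    · have h1 : (List.range m).Pairwise (· ≠ ·) := List.nodup_range
      refine List.Pairwise.imp_of_mem ?_ h1
      intro a b ha hb hab
      have ha' := List.mem_range.1 ha
      have hb' := List.mem_range.1 hb
      show List.Disjoint [u a s, (u a s)⁻¹] [u b s, (u b s)⁻¹]
      intro x hx hy
      simp only [List.mem_cons, List.not_mem_nil, or_false] at hx hy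
      rcases hx with rfl | rfl
      · rcases hy with h2 | h2
        · exact hab (u_inj hs h2)
        · apply h a ha' b hb'
          rw [h2]
          exact inv_mul_cancel₀ (h0 b hb')
      · rcases hy with h2 | h2
        · apply h a ha' b hb'
          rw [← h2]
          exact mul_inv_cancel₀ (h0 a ha')
        · exact hab (u_inj hs (inv_injective h2))

theorem usl_zero (m : ℕ) : usl m 0 = List.replicate m 1 := by
  unfold usl
  rw [List.eq_replicate_iff]
  simp

theorem mem_usl {m : ℕ} {s t : ℂ} : t ∈ usl m s ↔ ∃ a < m, u a s = t := by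
  unfold usl u
  simp

theorem usl_length (m : ℕ) (s : ℂ) : (usl m s).length = m := by
  unfold usl
  simp

end H3

open Polynomial in
theorem RR_order {Ψ : List ℂ → Cyl.VW} (hΨ : Cyl.Fam (q^2) Ψ) (m : ℕ) : ∃ (K : ℕ) (P : ℂ[X]),
    (∀ x : ℂ, x ≠ 0 → P.eval x = x^K * RR Ψ x (List.replicate m 1)) ∧ (X - C 1)^(2*m+1) ∣ P := by
  obtain ⟨K, d, hKd⟩ := RR_poly hΨ m
  obtain ⟨P, hP1, hP2, hP3⟩ := poly_family d (fun s x => x^K * RR Ψ x (usl m s))
    (Filter.Eventually.of_forall fun s => hKd (usl m s) (H3.usl_length m s))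
    (fun x hx => continuousAt_const.mul (RR_cont hΨ m x hx))
  refine ⟨K, P 0, fun x hx => ?_, ?_⟩
  · have h := hP3.self_of_nhds x hx
    rw [H3.usl_zero] at h
    exact h
  · have key := order_poly d (H3.rs m) P hP1 hP2 ?_ ?_
    · rw [H3.rs_length] at key
      exact key
    · intro r hr
      rcases H3.mem_rs hr with rfl | ⟨a, -, rfl | rfl⟩
      · exact ⟨continuousAt_const, rfl⟩
      · exact ⟨(H3.u_cont a).continuousAt, H3.u_zero a⟩
      · refine ⟨(H3.u_cont a).continuousAt.inv₀ (by rw [H3.u_zero]; exact one_ne_zero), ?_⟩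
        show (H3.u a 0)⁻¹ = 1
        rw [H3.u_zero, inv_one]
    · have h1 : ∀ᶠ s in nhdsWithin (0:ℂ) {0}ᶜ, ∀ a ∈ Finset.range m, ∀ b ∈ Finset.range m,
          H3.u a s * H3.u b s ≠ 1 := by
        rw [Filter.eventually_all_finset]
        intro a _
        rw [Filter.eventually_all_finset]
        intro b _
        exact H3.ev_mul a b
      have h2 : ∀ᶠ s in nhds (0:ℂ), ∀ a ∈ Finset.range m,
          H3.u a s ≠ 0 ∧ H3.u a s ≠ q ∧ H3.u a s ≠ q^2 ∧ (H3.u a s)^2 ≠ q := by
        rw [Filter.eventually_all_finset]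
        intro a _
        exact H3.ev_one a
      filter_upwards [h1, h2.filter_mono nhdsWithin_le_nhds, hP3.filter_mono nhdsWithin_le_nhds,
        self_mem_nhdsWithin] with s a1 a2 a3 a4
      refine ⟨H3.nodup a4 (fun a ha b hb => a1 a (Finset.mem_range.2 ha) b (Finset.mem_range.2 hb))
        (fun a ha => (a2 a (Finset.mem_range.2 ha)).1), fun r hr => ?_⟩
      have hus : ∀ v ∈ usl m s, v ≠ 0 := by
        intro v hv
        obtain ⟨a, ha, rfl⟩ := H3.mem_usl.1 hv
        exact (a2 a (Finset.mem_range.2 ha)).1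
      rcases H3.mem_rs hr with rfl | ⟨a, ha, hra⟩
      · show (P s).eval 1 = 0
        rw [a3 1 one_ne_zero, RR_one hΨ, mul_zero]
      · obtain ⟨b1, b2, b3, b4⟩ := a2 a (Finset.mem_range.2 ha)
        obtain ⟨c1, c2⟩ := RR_mem hΨ (usl m s) hus (H3.u a s) (H3.mem_usl.2 ⟨a, ha, rfl⟩) b2 b3 b4
        rcases hra with rfl | rfl
        · rw [a3 _ b1, c1, mul_zero]
        · show (P s).eval (H3.u a s)⁻¹ = 0
          rw [a3 _ (inv_ne_zero b1), c2, mul_zero]

end H731B
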