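import Pool.Agent.H731R6.Bc.PDefs

/-!
Percolation on the half-plane (same cells as on the cylinder, columns in `ℤ`): definitions.
-/

set_option autoImplicit false

namespace H731B

open MeasureTheory Filter Topology

/-- the ends of an open edge of the half-plane: one edge in every cell `(a, t)` -/
def OpenAdjH (ω : ℤ × ℕ → Bool) (p r : ℤ × ℕ) : Prop :=
  ∃ (a : ℤ) (t : ℕ), ω (a, t) = true ∧
    ((Even (a + t) ∧ p = (a, t) ∧ r = (a + 1, t + 1)) ∨
      (¬ Even (a + t) ∧ p = (a + 1, t) ∧ r = (a, t + 1)))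

/-- independent fair coins -/
noncomputable def percH : Measure (ℤ × ℕ → Bool) :=
  Measure.infinitePi (fun _ => (PMF.uniformOfFintype Bool).toMeasure)

/-- the boundary vertices joined to `(0, 0)` by an open path -/
def bclH (ω : ℤ × ℕ → Bool) : Set ℤ := {b | Relation.EqvGen (OpenAdjH ω) (0, 0) (b, 0)}

/-- the cluster of `(0, 0)` is not contained in the window `|a| < R`, `t < R` -/
def esc (R : ℕ) : Set (ℤ × ℕ → Bool) :=
  {ω | ∃ p : ℤ × ℕ, ((R : ℤ) ≤ |p.1| ∨ R ≤ p.2) ∧ Relation.EqvGen (OpenAdjH ω) (0, 0) p}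

/-- the representative in `[-n, n)` -/
def lft (n : ℕ) (a : ZMod (2 * n)) : ℤ := if a.val < n then (a.val : ℤ) else (a.val : ℤ) - 2 * n

/-- the configuration of the cylinder read off the window of the half-plane -/
def phi (n : ℕ) (ω : ℤ × ℕ → Bool) : Conf n := fun p => ω (lft n p.1, p.2)

end H731B
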