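import Mathlib

/-!
HP1: restriction of a product measure along an injective map of the indices (pure Mathlib):
`Measure.eq_infinitePi` (check the boxes over finite sets `s`; the preimage of a box is a box over `s.map f`,
`Measure.infinitePi_pi`).
-/

set_option autoImplicit false

namespace H731B

open MeasureTheory Filter Topology

theorem map_inj {ι κ : Type*} [Countable ι] [Countable κ] (ν : Measure Bool) [IsProbabilityMeasure ν]
    (f : κ → ι) (hf : Function.Injective f) :
    (Measure.infinitePi (fun _ : ι => ν)).map (fun ω k => ω (f k)) =
      Measure.infinitePi (fun _ : κ => ν) := by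
  classical
  refine Measure.eq_infinitePi _ fun s t ht => ?_
  have hm : Measurable (fun (ω : ι → Bool) (k : κ) => ω (f k)) :=
    measurable_pi_lambda _ fun k => measurable_pi_apply (f k)
  rw [Measure.map_apply hm (.pi s.countable_toSet fun _ _ => ht _)]
  have e : (fun (ω : ι → Bool) (k : κ) => ω (f k)) ⁻¹' (Set.pi s t) =
      Set.pi ((s.map ⟨f, hf⟩ : Finset ι) : Set ι)
        (Function.extend f t fun _ => Set.univ) := by
    ext ω
    simp only [Set.mem_preimage, Set.mem_pi, Finset.coe_map, Function.Embedding.coeFn_mk,
      Set.mem_image, Finset.mem_coe, forall_exists_index, and_imp, forall_apply_eq_imp_iff₂,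
      hf.extend_apply]
  rw [e, Measure.infinitePi_pi, Finset.prod_map]
  · refine Finset.prod_congr rfl fun k _ => ?_
    simp only [Function.Embedding.coeFn_mk, hf.extend_apply]
  · intro i hi
    obtain ⟨k, _, rfl⟩ := Finset.mem_map.1 hi
    simp only [Function.Embedding.coeFn_mk, hf.extend_apply]
    exact ht k

end H731B
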