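import Pool.Agent.H731R6.Bc.HDefs

/-!
HP2: if the cluster of the origin of the half-plane stays in the window `|a| < R`, `t < R` and `R ≤ n`, then the cluster of the
origin in the cylinder `phi n ω` is its image.  `lft n (a : ZMod (2n)) = a` for `-n ≤ a < n`.  (→) closure: the set
`{q | ∃ p, q = (p.1 mod 2n, p.2) ∧ p in the cluster of the half-plane}` is closed under `OpenAdj n (phi n ω)` in both directions (a vertex
of the cluster has `|a| < R ≤ n`, so the cells around it are columns `a - 1`, `a` in `[-n, n)`, and the parity of `a.val + t` is the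
parity of `a + t`).  (←) open edges between vertices of the cluster map to open edges.  The map is injective on `|a| < n`, so
the numbers of boundary vertices agree.
-/

set_option autoImplicit false

namespace H731B

open MeasureTheory Filter Topology

namespace HP2

theorem lft_range {n : ℕ} (hn : 1 ≤ n) (c : ZMod (2 * n)) : -(n : ℤ) ≤ lft n c ∧ lft n c < n := by
  have : NeZero (2 * n) := ⟨by omega⟩
  have h := ZMod.val_lt c
  unfold lft
  split_ifs with h1
  · constructor <;> omega
  · constructor <;> omega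

theorem cast_lft {n : ℕ} (hn : 1 ≤ n) (c : ZMod (2 * n)) : ((lft n c : ℤ) : ZMod (2 * n)) = c := by
  have : NeZero (2 * n) := ⟨by omega⟩
  unfold lft
  split_ifs with h1
  · simp
  · have h0 : ((2 * n : ℕ) : ZMod (2 * n)) = 0 := ZMod.natCast_self _
    push_cast at h0 ⊢
    rw [h0]
    simp

theorem cast_inj {n : ℕ} (a b : ℤ) (ha1 : -(n : ℤ) ≤ a) (ha2 : a < n) (hb1 : -(n : ℤ) ≤ b) (hb2 : b < n)
    (h : (a : ZMod (2 * n)) = (b : ZMod (2 * n))) : a = b := by
  rw [ZMod.intCast_eq_intCast_iff_dvd_sub] at h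
  obtain ⟨k, hk⟩ := h
  push_cast at hk
  have h1 : k < 1 := by
    by_contra hc
    have : 1 ≤ k := by omega
    have : 2 * (n : ℤ) * 1 ≤ 2 * n * k := by
      apply mul_le_mul_of_nonneg_left this
      omega
    omega
  have h2 : -1 < k := by
    by_contra hc
    have : k ≤ -1 := by omega
    have : 2 * (n : ℤ) * k ≤ 2 * n * (-1) := by
      apply mul_le_mul_of_nonneg_left this
      omega
    omega
  have h3 : k = 0 := by omega
  subst h3
  omega

theorem par {n : ℕ} (hn : 1 ≤ n) (a : ℤ) (t : ℕ) :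
    Even ((a : ZMod (2 * n)).val + t) ↔ Even (a + t) := by
  have : NeZero (2 * n) := ⟨by omega⟩
  have h : (((a : ZMod (2 * n)).val : ℕ) : ℤ) = a % ((2 * n : ℕ) : ℤ) := ZMod.val_intCast a
  have h2 : (((a : ZMod (2 * n)).val : ℕ) : ℤ) = a - ((2 * n : ℕ) : ℤ) * (a / ((2 * n : ℕ) : ℤ)) := by
    rw [h, Int.emod_def]
  rw [← Int.even_coe_nat]
  push_cast at h2 ⊢
  rw [h2]
  constructor
  · rintro ⟨r, hr⟩
    exact ⟨r + n * (a / (2 * n)), by linarith⟩
  · rintro ⟨r, hr⟩
    exact ⟨r - n * (a / (2 * n)), by linarith⟩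

theorem closed_eqv {α : Type} {r : α → α → Prop} (S : α → Prop) (h : ∀ a b, r a b → (S a ↔ S b)) {a b : α}
    (hab : Relation.EqvGen r a b) : S a ↔ S b := by
  induction hab with
  | rel x y hxy => exact h x y hxy
  | refl x => exact Iff.rfl
  | symm x y _ ih => exact ih.symm
  | trans x y z _ _ ih1 ih2 => exact ih1.trans ih2

end HP2

open HP2

theorem lft_cast {n : ℕ} (a : ℤ) (h1 : -(n : ℤ) ≤ a) (h2 : a < n) : lft n (a : ZMod (2 * n)) = a := by
  have hn : 1 ≤ n := by omega
  have h := lft_range hn (a : ZMod (2 * n))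
  exact cast_inj _ _ h.1 h.2 h1 h2 (cast_lft hn _)

theorem lft_inj {n : ℕ} (hn : 1 ≤ n) : Function.Injective
    (fun p : ZMod (2 * n) × ℕ => ((lft n p.1, p.2) : ℤ × ℕ)) := by
  rintro ⟨a, s⟩ ⟨b, t⟩ h
  simp only [Prod.mk.injEq] at h
  have h1 : a = b := by
    rw [← cast_lft hn a, ← cast_lft hn b, h.1]
  rw [h1, h.2]

theorem bcl_phi {n R : ℕ} (hn : 1 ≤ n) (hR : R ≤ n) (ω : ℤ × ℕ → Bool) (h : ω ∉ esc R) :
    (bclH ω).Finite ∧ (bcl n (phi n ω)).ncard = (bclH ω).ncard := by
  have hw : ∀ p : ℤ × ℕ, Relation.EqvGen (OpenAdjH ω) (0, 0) p → |p.1| < R ∧ p.2 < R := by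
    intro p hp
    by_contra hc
    apply h
    refine ⟨p, ?_, hp⟩
    by_contra hd
    push Not at hd
    exact hc ⟨hd.1, hd.2⟩
  have hwin : ∀ p : ℤ × ℕ, Relation.EqvGen (OpenAdjH ω) (0, 0) p → -(n : ℤ) < p.1 ∧ p.1 < n := by
    intro p hp
    have := (hw p hp).1
    rw [abs_lt] at this
    constructor <;> omega
  -- forward closure
  let S : ZMod (2 * n) × ℕ → Prop := fun q => ∃ p : ℤ × ℕ, Relation.EqvGen (OpenAdjH ω) (0, 0) p ∧
    q = ((p.1 : ZMod (2 * n)), p.2)
  have hS : ∀ q r, OpenAdj n (phi n ω) q r → (S q ↔ S r) := by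
    rintro q r ⟨c, t, hc, hcell⟩
    have hl := lft_range hn c
    have hcl := cast_lft hn c
    have hom : ω (lft n c, t) = true := hc
    have hpar : Even (c.val + t) ↔ Even (lft n c + t) := by
      have := par hn (lft n c) t
      rwa [hcl] at this
    have hup : ∀ p : ℤ × ℕ, Relation.EqvGen (OpenAdjH ω) (0, 0) p → (p.1 : ZMod (2 * n)) = c → p.1 = lft n c := by
      intro p hp hpc
      have h1 := hwin p hp
      exact cast_inj _ _ (by omega) h1.2 hl.1 hl.2 (by rw [hpc, hcl])
    have hup' : ∀ p : ℤ × ℕ, Relation.EqvGen (OpenAdjH ω) (0, 0) p → (p.1 : ZMod (2 * n)) = c + 1 →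
        p.1 = lft n c + 1 := by
      intro p hp hpc
      have h1 := hwin p hp
      have : p.1 - 1 = lft n c := by
        apply cast_inj _ _ (by omega) (by omega) hl.1 hl.2
        push_cast
        rw [hpc, hcl]
        ring
      omega
    rcases hcell with ⟨hev, hq, hr⟩ | ⟨hev, hq, hr⟩
    · have hadj : OpenAdjH ω (lft n c, t) (lft n c + 1, t + 1) :=
        ⟨lft n c, t, hom, Or.inl ⟨hpar.1 hev, rfl, rfl⟩⟩
      constructor
      · rintro ⟨p, hp, hpq⟩
        rw [hq] at hpq
        simp only [Prod.mk.injEq] at hpq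
        have h1 := hup p hp hpq.1.symm
        have h2 : p = (lft n c, t) := by
          ext1
          · exact h1
          · exact hpq.2.symm
        refine ⟨(lft n c + 1, t + 1), hp.trans _ _ _ (h2 ▸ Relation.EqvGen.rel _ _ hadj), ?_⟩
        rw [hr]
        simp only [Prod.mk.injEq, and_true]
        push_cast
        rw [hcl]
      · rintro ⟨p, hp, hpq⟩
        rw [hr] at hpq
        simp only [Prod.mk.injEq] at hpq
        have h1 := hup' p hp hpq.1.symm
        have h2 : p = (lft n c + 1, t + 1) := by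
          ext1
          · exact h1
          · exact hpq.2.symm
        refine ⟨(lft n c, t), hp.trans _ _ _ (h2 ▸ (Relation.EqvGen.rel _ _ hadj).symm), ?_⟩
        rw [hq]
        simp only [Prod.mk.injEq, and_true]
        rw [hcl]
    · have hadj : OpenAdjH ω (lft n c + 1, t) (lft n c, t + 1) :=
        ⟨lft n c, t, hom, Or.inr ⟨fun h => hev (hpar.2 h), rfl, rfl⟩⟩
      constructor
      · rintro ⟨p, hp, hpq⟩
        rw [hq] at hpq
        simp only [Prod.mk.injEq] at hpq
        have h1 := hup' p hp hpq.1.symm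
        have h2 : p = (lft n c + 1, t) := by
          ext1
          · exact h1
          · exact hpq.2.symm
        refine ⟨(lft n c, t + 1), hp.trans _ _ _ (h2 ▸ Relation.EqvGen.rel _ _ hadj), ?_⟩
        rw [hr]
        simp only [Prod.mk.injEq, and_true]
        rw [hcl]
      · rintro ⟨p, hp, hpq⟩
        rw [hr] at hpq
        simp only [Prod.mk.injEq] at hpq
        have h1 := hup p hp hpq.1.symm
        have h2 : p = (lft n c, t + 1) := by
          ext1
          · exact h1
          · exact hpq.2.symm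
        refine ⟨(lft n c + 1, t), hp.trans _ _ _ (h2 ▸ (Relation.EqvGen.rel _ _ hadj).symm), ?_⟩
        rw [hq]
        simp only [Prod.mk.injEq, and_true]
        push_cast
        rw [hcl]
  -- backward closure
  let T : ℤ × ℕ → Prop := fun p => Relation.EqvGen (OpenAdjH ω) (0, 0) p ∧
    Relation.EqvGen (OpenAdj n (phi n ω)) (0, 0) ((p.1 : ZMod (2 * n)), p.2)
  have hT : ∀ p r, OpenAdjH ω p r → (T p ↔ T r) := by
    intro p r hpr
    have hkey : Relation.EqvGen (OpenAdjH ω) (0, 0) p → Relation.EqvGen (OpenAdjH ω) (0, 0) r →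
        OpenAdj n (phi n ω) ((p.1 : ZMod (2 * n)), p.2) ((r.1 : ZMod (2 * n)), r.2) := by
      intro hp hr
      obtain ⟨a, t, hom, hcell⟩ := hpr
      rcases hcell with ⟨hev, h1, h2⟩ | ⟨hev, h1, h2⟩
      · have hwp := hwin p hp
        rw [h1] at hwp
        have hwp1 : -(n : ℤ) < a := hwp.1
        have hwp2 : a < (n : ℤ) := hwp.2
        refine ⟨(a : ZMod (2 * n)), t, ?_, Or.inl ⟨(par hn a t).2 hev, ?_, ?_⟩⟩
        · change ω (lft n (a : ZMod (2 * n)), t) = true
          rw [lft_cast a (by omega) hwp2]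
          exact hom
        · rw [h1]
        · rw [h2]
          push_cast
          rfl
      · have hwr := hwin r hr
        rw [h2] at hwr
        have hwp1 : -(n : ℤ) < a := hwr.1
        have hwp2 : a < (n : ℤ) := hwr.2
        refine ⟨(a : ZMod (2 * n)), t, ?_, Or.inr ⟨fun h => hev ((par hn a t).1 h), ?_, ?_⟩⟩
        · change ω (lft n (a : ZMod (2 * n)), t) = true
          rw [lft_cast a (by omega) hwp2]
          exact hom
        · rw [h1]
          push_cast
          rfl
        · rw [h2]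
    constructor
    · rintro ⟨hp, hq⟩
      have hr : Relation.EqvGen (OpenAdjH ω) (0, 0) r := hp.trans _ _ _ (Relation.EqvGen.rel _ _ hpr)
      exact ⟨hr, hq.trans _ _ _ (Relation.EqvGen.rel _ _ (hkey hp hr))⟩
    · rintro ⟨hr, hq⟩
      have hp : Relation.EqvGen (OpenAdjH ω) (0, 0) p := hr.trans _ _ _ (Relation.EqvGen.rel _ _ hpr).symm
      exact ⟨hp, hq.trans _ _ _ (Relation.EqvGen.rel _ _ (hkey hp hr)).symm⟩
  have himg : bcl n (phi n ω) = (fun a : ℤ => (a : ZMod (2 * n))) '' bclH ω := by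
    ext b
    constructor
    · intro hb
      have h0 : S (0, 0) := ⟨(0, 0), Relation.EqvGen.refl _, by simp⟩
      have hb' : Relation.EqvGen (OpenAdj n (phi n ω)) (0, 0) (b, 0) := hb
      obtain ⟨p, hp, hpb⟩ := (closed_eqv S hS hb').1 h0
      simp only [Prod.mk.injEq] at hpb
      refine ⟨p.1, ?_, hpb.1.symm⟩
      have : p = (p.1, 0) := by
        ext1
        · rfl
        · exact hpb.2.symm
      change Relation.EqvGen (OpenAdjH ω) (0, 0) (p.1, 0)
      rw [← this]
      exact hp
    · rintro ⟨a, ha, rfl⟩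
      have ha' : Relation.EqvGen (OpenAdjH ω) (0, 0) (a, 0) := ha
      have h0 : T (0, 0) := ⟨Relation.EqvGen.refl _, by simpa using Relation.EqvGen.refl _⟩
      exact ((closed_eqv T hT ha').1 h0).2
  constructor
  · apply (Set.finite_Ioo (-(n : ℤ)) n).subset
    intro a ha
    exact hwin (a, 0) ha
  · rw [himg]
    apply Set.InjOn.ncard_image
    intro a ha b hb hab
    have h1 := hwin (a, 0) ha
    have h2 := hwin (b, 0) hb
    exact cast_inj a b (le_of_lt h1.1) h1.2 (le_of_lt h2.1) h2.2 hab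

end H731B
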