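import Pool.Agent.H731R6.Bc.HDefs
import Pool.Agent.H731R6.Bc.HP1
import Pool.Agent.H974R2.Infinite

/-!
HP3: the cluster of the origin of the half-plane is almost surely finite.  Cell `(a, t)`, `a + t` even ↦ edge `(x, y, true)` of `ℤ²`,
`x = (a+t)/2`, `y = (t-a)/2` (joins `(x,y)`, `(x+1,y)`); `a + t` odd ↦ `(x, y, false)`, `x = (a+1+t)/2`, `y = (t-a-1)/2` (joins `(x,y)`,
`(x,y+1)`); vertices `(a, t) ↦ ((a+t)/2, (t-a)/2)`.  The map of the cells to the edges (`H974.toE`, `toE_inj`) is injective, so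
`percH` is the image of `H974.bondLaw (1/2)` (`map_inj`; `bondLaw` is an `infinitePi` of a fair coin at `p = 1/2`).  If the image
configuration is in `esc R` and `2 m ≤ R`, the configuration is in `H974.ArmE m` (`armE_iff`, `first_exit` as in
`infinite_iff`: a vertex with `|a| ≥ R` or `t ≥ R` has `max(|x|,|y|) ≥ R/2 ≥ m`).  `law_armE`, `arm_decay` (`H974R2.Block`), `arm_anti`:
`arm (1/2) m → 0`.
-/

set_option autoImplicit false

namespace H731B

open MeasureTheory Filter Topology

namespace HP3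

open H974

/-- the vertex of the square lattice -/
def vx (p : ℤ × ℕ) : ℤ × ℤ := ((p.1 + p.2) / 2, (p.2 - p.1) / 2)

open Classical in
/-- the edge of the square lattice -/
noncomputable def cE (p : ℤ × ℕ) : Edg :=
  if Even (p.1 + p.2) then ((p.1 + p.2) / 2, (p.2 - p.1) / 2, true)
  else ((p.1 + 1 + p.2) / 2, (p.2 - p.1 - 1) / 2, false)

theorem cE_even {a : ℤ} {t : ℕ} (h : Even (a + t)) :
    cE (a, t) = ((a + t) / 2, (t - a) / 2, true) := by
  unfold cE
  rw [if_pos h]

theorem cE_odd {a : ℤ} {t : ℕ} (h : ¬ Even (a + t)) :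
    cE (a, t) = ((a + 1 + t) / 2, (t - a - 1) / 2, false) := by
  unfold cE
  rw [if_neg h]

theorem cE_inj : Function.Injective cE := by
  rintro ⟨a, t⟩ ⟨a', t'⟩ h
  by_cases h1 : Even (a + t) <;> by_cases h2 : Even (a' + t')
  · rw [cE_even h1, cE_even h2] at h
    simp only [Prod.mk.injEq] at h
    rw [Int.even_iff] at h1 h2
    have e1 : a = a' := by omega
    have e2 : t = t' := by omega
    rw [e1, e2]
  · rw [cE_even h1, cE_odd h2] at h
    simp at h
  · rw [cE_odd h1, cE_even h2] at h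
    simp at h
  · rw [cE_odd h1, cE_odd h2] at h
    simp only [Prod.mk.injEq] at h
    rw [Int.even_iff] at h1 h2
    have e1 : a = a' := by omega
    have e2 : t = t' := by omega
    rw [e1, e2]

/-- the edge of a cell -/
noncomputable def ff (p : ℤ × ℕ) : sqLattice.edgeSet := toE (cE p)

theorem ff_inj : Function.Injective ff := toE_inj.comp cE_inj

open Classical in
/-- extension by closed edges -/
noncomputable def gg (ω : ℤ × ℕ → Bool) (e : sqLattice.edgeSet) : Bool :=
  decide (∃ k, ff k = e ∧ ω k = true)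

theorem gg_iff (ω : ℤ × ℕ → Bool) (e : sqLattice.edgeSet) :
    gg ω e = true ↔ ∃ k, ff k = e ∧ ω k = true := by
  classical
  unfold gg
  exact decide_eq_true_iff

theorem gg_ff (ω : ℤ × ℕ → Bool) (k : ℤ × ℕ) : gg ω (ff k) = ω k := by
  rw [Bool.eq_iff_iff, gg_iff]
  constructor
  · rintro ⟨k', hk, hk'⟩
    rw [ff_inj hk] at hk'
    exact hk'
  · intro h
    exact ⟨k, rfl, h⟩

theorem gg_meas : Measurable gg := by
  rw [measurable_pi_iff]
  intro e
  by_cases h : ∃ k, ff k = e
  · obtain ⟨k, rfl⟩ := h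
    have : (fun ω => gg ω (ff k)) = fun ω => ω k := by
      funext ω
      exact gg_ff ω k
    rw [this]
    exact measurable_pi_apply k
  · have : (fun ω => gg ω e) = fun _ => false := by
      funext ω
      rw [← Bool.not_eq_true, gg_iff]
      rintro ⟨k, hk, -⟩
      exact h ⟨k, hk⟩
    rw [this]
    exact measurable_const

theorem law_eq' : (PMF.uniformOfFintype Bool).toMeasure =
    ProbabilityTheory.bernoulliMeasure true false hlf := by
  apply Measure.ext_of_singleton
  intro b
  rw [PMF.toMeasure_apply_singleton _ _ (MeasurableSet.of_discrete), PMF.uniformOfFintype_apply]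
  have h1 : ((ProbabilityTheory.bernoulliMeasure true false hlf) {b}) ≠ ⊤ := measure_ne_top _ _
  rw [← ENNReal.ofReal_toReal h1]
  have h2 : ((ProbabilityTheory.bernoulliMeasure true false hlf) {b}).toReal = 1 / 2 := by
    cases b
    · have := ProbabilityTheory.bernoulliMeasure_real_apply_of_notMem_of_mem hlf
        (x := true) (y := false) (s := {false}) MeasurableSet.of_discrete (by simp) (by simp)
      rw [measureReal_def] at this
      rw [this]
      unfold hlf
      norm_num
    · have := ProbabilityTheory.bernoulliMeasure_real_apply_of_mem_of_notMem hlf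
        (x := true) (y := false) (s := {true}) MeasurableSet.of_discrete (by simp) (by simp)
      rw [measureReal_def] at this
      rw [this]
      unfold hlf
      norm_num
  rw [h2, Fintype.card_bool]
  rw [show (1 : ℝ) / 2 = (2 : ℝ)⁻¹ by norm_num, ENNReal.ofReal_inv_of_pos (by norm_num)]
  norm_num

theorem percH_eq : percH = (bondLaw hlf).map (fun ω k => ω (ff k)) := by
  unfold percH bondLaw
  rw [law_eq', map_inj _ ff ff_inj]

theorem adj_of {ω : ℤ × ℕ → Bool} {p r : ℤ × ℕ} (h : OpenAdjH ω p r) :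
    H974.Adj (opn (gg ω)) (vx p) (vx r) := by
  obtain ⟨a, t, hω, h1 | h1⟩ := h
  · obtain ⟨he, rfl, rfl⟩ := h1
    refine ⟨cE (a, t), ?_, Or.inl ?_⟩
    · show gg ω (ff (a, t)) = true
      rw [gg_ff, hω]
    · rw [cE_even he]
      rw [Int.even_iff] at he
      simp only [src_mk, tgt_true, vx, Prod.mk.injEq, Nat.cast_add, Nat.cast_one]
      and_intros <;> first | trivial | omega
  · obtain ⟨he, rfl, rfl⟩ := h1
    refine ⟨cE (a, t), ?_, Or.inl ?_⟩
    · show gg ω (ff (a, t)) = true
      rw [gg_ff, hω]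
    · rw [cE_odd he]
      rw [Int.even_iff] at he
      simp only [src_mk, tgt_false, vx, Prod.mk.injEq, Nat.cast_add, Nat.cast_one]
      and_intros <;> first | trivial | omega

theorem reach_of {ω : ℤ × ℕ → Bool} {p r : ℤ × ℕ} (h : Relation.EqvGen (OpenAdjH ω) p r) :
    Reach (opn (gg ω)) (vx p) (vx r) := by
  induction h with
  | rel x y h => exact Relation.ReflTransGen.single (adj_of h)
  | refl x => exact Reach.refl _ _
  | symm x y _ ih => exact ih.symm
  | trans x y z _ _ ih1 ih2 => exact ih1.trans ih2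

theorem esc_sub {R m : ℕ} (hm : 2 * m ≤ R) : esc R ⊆ gg ⁻¹' (ArmE m) := by
  rintro ω ⟨⟨a, t⟩, hp, hr⟩
  rw [Set.mem_preimage, armE_iff]
  have hr' := reach_of hr
  have h0 : vx (0, 0) = (0, 0) := by
    simp [vx]
  rw [h0] at hr'
  obtain ⟨w, k1, k2, k3⟩ := first_exit (a := -(m : ℤ)) (b := m) (c := -(m : ℤ)) (d := m)
    (by unfold inR; simp) hr' (by
      simp only [vx]
      simp only at hp
      rcases hp with hp | hp
      · rcases abs_cases a with ⟨h1, h2⟩ | ⟨h1, h2⟩ <;> omega
      · omega)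
  exact ⟨w, ⟨k1, k2⟩, k3⟩

theorem arm_sub (m : ℕ) : (fun (ω : sqLattice.edgeSet → Bool) k => ω (ff k)) ⁻¹'
    (gg ⁻¹' (ArmE m)) ⊆ ArmE m := by
  intro ω hω
  rw [Set.mem_preimage, Set.mem_preimage, armE_iff] at hω
  rw [armE_iff]
  obtain ⟨v, hv, hr⟩ := hω
  refine ⟨v, hv, hr.mono ?_⟩
  rintro e ⟨h1, h2⟩
  refine ⟨?_, h2⟩
  have h3 : gg (fun k => ω (ff k)) (toE e) = true := h1
  rw [gg_iff] at h3
  obtain ⟨k, hk, hk'⟩ := h3
  show ω (toE e) = true
  rw [← hk]
  exact hk'

theorem esc_le {R m : ℕ} (hm : 2 * m ≤ R) : percH.real (esc R) ≤ arm (1 / 2) m := by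
  have hmeas : MeasurableSet (ArmE m) := meas_event (boxE m) (Arm m)
  have hf : Measurable (fun (ω : sqLattice.edgeSet → Bool) (k : ℤ × ℕ) => ω (ff k)) :=
    measurable_pi_iff.mpr fun k => measurable_pi_apply (ff k)
  have hp : IsProbabilityMeasure percH := by
    unfold percH
    infer_instance
  calc percH.real (esc R) ≤ percH.real (gg ⁻¹' (ArmE m)) := measureReal_mono (esc_sub hm)
    _ = (bondLaw hlf).real ((fun (ω : sqLattice.edgeSet → Bool) k => ω (ff k)) ⁻¹'
          (gg ⁻¹' (ArmE m))) := by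
        rw [percH_eq, map_measureReal_apply hf (gg_meas hmeas)]
    _ ≤ (bondLaw hlf).real (ArmE m) := measureReal_mono (arm_sub m)
    _ = arm (1 / 2) m := law_armE hlf m

theorem arm_tendsto : Tendsto (fun m => arm (1 / 2) m) atTop (𝓝 0) := by
  rw [Metric.tendsto_atTop]
  intro ε hε
  have h2 : Tendsto (fun K : ℕ => (1 - (1/2 : ℝ)^188)^K) atTop (𝓝 0) :=
    tendsto_pow_atTop_nhds_zero_of_lt_one (by norm_num) (by norm_num)
  obtain ⟨K, hK⟩ := (h2.eventually_lt_const hε).exists
  refine ⟨H974.RR K, fun m hm => ?_⟩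
  rw [Real.dist_eq, sub_zero, abs_of_nonneg (arm_nonneg (by norm_num) (by norm_num) m)]
  exact lt_of_le_of_lt ((arm_anti (by norm_num) (by norm_num) hm).trans (arm_decay K)) hK

end HP3

theorem esc_tendsto : Tendsto (fun R => percH.real (esc R)) atTop (𝓝 0) := by
  have h1 : Tendsto (fun R : ℕ => R / 2) atTop atTop := by
    refine tendsto_atTop.2 fun b => ?_
    filter_upwards [eventually_ge_atTop (2 * b)] with R hR
    omega
  refine squeeze_zero (fun R => measureReal_nonneg) (fun R => ?_) (HP3.arm_tendsto.comp h1)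
  exact HP3.esc_le (by show 2 * (R / 2) ≤ R; omega)

end H731B
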