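import Pool.Agent.H731R6.Bc.F1

/-!
HP4: the limit `n → ∞` of the formula, fixed `k ≥ 1`: `hc_eq` and every factor of `ww n k` tends to `1` (finite product).
-/

set_option autoImplicit false

namespace H731B

open MeasureTheory Filter Topology

theorem HP4.ww_limit (k : ℕ) : Tendsto (fun n => ww n k) atTop (𝓝 1) := by
  have h0 : Tendsto (fun n : ℕ => ((n : ℝ)^2)⁻¹) atTop (𝓝 0) := by
    have h1 : Tendsto (fun n : ℕ => (n : ℝ)^2) atTop atTop :=
      (tendsto_pow_atTop two_ne_zero).comp tendsto_natCast_atTop_atTop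
    exact h1.inv_tendsto_atTop
  have h1 : (1 : ℝ) = ∏ i ∈ Finset.Icc 1 (k - 1), (1 : ℝ) := by simp
  rw [h1]
  unfold ww
  refine tendsto_finsetProd _ (fun i _ => ?_)
  have h2 : Tendsto (fun n : ℕ => 1 - (i : ℝ)^2 / (n : ℝ)^2) atTop (𝓝 (1 - (i : ℝ)^2 * 0)) := by
    refine tendsto_const_nhds.sub ?_
    simp only [div_eq_mul_inv]
    exact h0.const_mul _
  have h3 : Tendsto (fun n : ℕ => 1 - (i : ℝ)^2 / (4 * (n : ℝ)^2)) atTop
      (𝓝 (1 - (i : ℝ)^2 * 4⁻¹ * 0)) := by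
    refine tendsto_const_nhds.sub ?_
    have h4 : (fun n : ℕ => (i : ℝ)^2 / (4 * (n : ℝ)^2)) =
        fun n : ℕ => (i : ℝ)^2 * 4⁻¹ * ((n : ℝ)^2)⁻¹ := by
      funext n
      rw [div_eq_mul_inv, mul_inv]
      ring
    rw [h4]
    exact h0.const_mul _
  have h5 := h2.div h3 (by norm_num)
  have h6 : (1 - (i : ℝ)^2 * 0) / (1 - (i : ℝ)^2 * 4⁻¹ * 0) = 1 := by norm_num
  rw [h6] at h5
  exact h5

theorem tl_limit {k : ℕ} (hk : 1 ≤ k) : Tendsto (fun n => tl n k) atTop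
    (𝓝 (((2 * k).choose k : ℝ) * (3 * k - 1) / ((2 * k - 1) * 4 ^ k))) := by
  have h1 : Tendsto (fun n => (3 * (k : ℝ) - 1) * (hi k * ww n k)) atTop
      (𝓝 ((3 * (k : ℝ) - 1) * (hi k * 1))) :=
    ((HP4.ww_limit k).const_mul _).const_mul _
  have h2 : (3 * (k : ℝ) - 1) * (hi k * 1) =
      ((2 * k).choose k : ℝ) * (3 * k - 1) / ((2 * k - 1) * 4 ^ k) := by
    unfold hi
    ring
  rw [h2] at h1
  refine h1.congr' ?_
  filter_upwards [eventually_ge_atTop k] with n hn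
  unfold tl
  rw [hc_eq hk hn]

end H731B
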