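import Pool.Agent.H731R6.Bc.PDefs

/-!
P2b: `mu` counts the configurations.  Induction on `M` with `Fin.snocEquiv`/`Fin.snoc` (the last row is applied last):
`rows m (ext c) (M+1) σ0 = Tc m (c (Fin.last M)) (rows m (ext c') M σ0)`, `c'` = the first `M` rows (`rows` only depends on the
first rows: `rows_congr`); `push` counts.
-/

set_option autoImplicit false

namespace H731B

open MeasureTheory Filter Topology
open Pool.Agent.H988R2 Pool.Agent.H863R2 Pool.Agent.H980R2
open Pool.Agent.H988R2.Perc (Word Dyck q)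

theorem rows_congr {m M : ℕ} {c c' : ℕ → Fin (m + 1) → Bool} (h : ∀ r < M, c r = c' r)
    (σ : Cyl.Wd (m + 1)) : Cyl.rows m c M σ = Cyl.rows m c' M σ := by
  induction M with
  | zero => rfl
  | succ M ih =>
    change Cyl.Tc m (c M) (Cyl.rows m c M σ) = Cyl.Tc m (c' M) (Cyl.rows m c' M σ)
    rw [h M (Nat.lt_succ_self M), ih fun r hr => h r (Nat.lt_succ_of_lt hr)]

namespace P2b

/-- the last row -/
theorem rows_snoc (m M : ℕ) (σ0 : Cyl.Wd (m + 1)) (c : Fin M → Fin (m + 1) → Bool)
    (x : Fin (m + 1) → Bool) :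
    Cyl.rows m (ext (Fin.snoc (α := fun _ => Fin (m + 1) → Bool) c x)) (M + 1) σ0 =
      Cyl.Tc m x (Cyl.rows m (ext c) M σ0) := by
  change Cyl.Tc m (ext (Fin.snoc (α := fun _ => Fin (m + 1) → Bool) c x) M)
    (Cyl.rows m (ext (Fin.snoc (α := fun _ => Fin (m + 1) → Bool) c x)) M σ0) = _
  have h1 : ext (Fin.snoc (α := fun _ => Fin (m + 1) → Bool) c x) M = x := by
    unfold ext
    rw [dif_pos (Nat.lt_succ_self M)]
    exact Fin.snoc_last (α := fun _ => Fin (m + 1) → Bool) x c
  have h2 : Cyl.rows m (ext (Fin.snoc (α := fun _ => Fin (m + 1) → Bool) c x)) M σ0 =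
      Cyl.rows m (ext c) M σ0 := by
    apply rows_congr
    intro r hr
    unfold ext
    rw [dif_pos (Nat.lt_succ_of_lt hr), dif_pos hr]
    exact Fin.snoc_castSucc (α := fun _ => Fin (m + 1) → Bool) x c ⟨r, hr⟩
  rw [h1, h2]

end P2b

open Classical in
theorem mu_count (m : ℕ) (σ0 : Cyl.Wd (m + 1)) (M : ℕ) (σ : Cyl.Wd (m + 1)) :
    mu m σ0 M σ = ((Finset.univ.filter
      (fun c : Fin M → Fin (m + 1) → Bool => Cyl.rows m (ext c) M σ0 = σ)).card : ℂ)
        / 2 ^ (M * (m + 1)) := by
  have key : ∀ (M : ℕ) (σ : Cyl.Wd (m + 1)), mu m σ0 M σ =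
      (∑ c : Fin M → Fin (m + 1) → Bool, if Cyl.rows m (ext c) M σ0 = σ then (1 : ℂ) else 0)
        / 2 ^ (M * (m + 1)) := by
    intro M
    induction M with
    | zero =>
      intro σ
      have h1 : ∀ c : Fin 0 → Fin (m + 1) → Bool,
          (if Cyl.rows m (ext c) 0 σ0 = σ then (1 : ℂ) else 0) = if σ = σ0 then 1 else 0 := by
        intro c
        change (if σ0 = σ then (1 : ℂ) else 0) = _
        by_cases h : σ0 = σ
        · rw [if_pos h, if_pos h.symm]
        · rw [if_neg h, if_neg (fun h' => h h'.symm)]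
      rw [Finset.sum_congr rfl fun c _ => h1 c, Finset.sum_const, Finset.card_univ,
        Fintype.card_fun]
      unfold mu
      simp
    | succ M ih =>
      intro σ
      have h1 : mu m σ0 (M + 1) σ = (2 ^ (m + 1) : ℂ)⁻¹ *
          ∑ x : Fin (m + 1) → Bool, ∑ τ, if Cyl.Tc m x τ = σ then mu m σ0 M τ else 0 := rfl
      have h2 : ∀ x : Fin (m + 1) → Bool,
          (∑ τ, if Cyl.Tc m x τ = σ then mu m σ0 M τ else 0) =
          (∑ c : Fin M → Fin (m + 1) → Bool,
            if Cyl.Tc m x (Cyl.rows m (ext c) M σ0) = σ then (1 : ℂ) else 0)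
              / 2 ^ (M * (m + 1)) := by
        intro x
        have h3 : ∀ τ, (if Cyl.Tc m x τ = σ then mu m σ0 M τ else 0) =
            (∑ c : Fin M → Fin (m + 1) → Bool, if Cyl.rows m (ext c) M σ0 = τ then
              (if Cyl.Tc m x τ = σ then (1 : ℂ) else 0) else 0) / 2 ^ (M * (m + 1)) := by
          intro τ
          split_ifs with h
          · exact ih τ
          · simp
        rw [Finset.sum_congr rfl fun τ _ => h3 τ, ← Finset.sum_div, Finset.sum_comm]
        congr 1
        refine Finset.sum_congr rfl fun c _ => ?_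
        rw [Finset.sum_ite_eq]
        simp
      rw [h1, Finset.sum_congr rfl fun x _ => h2 x, ← Finset.sum_div]
      have h4 : (∑ c : Fin (M + 1) → Fin (m + 1) → Bool,
          if Cyl.rows m (ext c) (M + 1) σ0 = σ then (1 : ℂ) else 0) =
          ∑ x : Fin (m + 1) → Bool, ∑ c : Fin M → Fin (m + 1) → Bool,
            if Cyl.Tc m x (Cyl.rows m (ext c) M σ0) = σ then (1 : ℂ) else 0 := by
        rw [← Fintype.sum_prod_type']
        symm
        refine Fintype.sum_equiv (Fin.snocEquiv (fun _ => Fin (m + 1) → Bool)) _ _ ?_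
        rintro ⟨x, c⟩
        have h5 := P2b.rows_snoc m M σ0 c x
        simp only
        rw [← h5]
        rfl
      rw [h4]
      have h6 : (2 : ℂ) ^ ((M + 1) * (m + 1)) = 2 ^ (m + 1) * 2 ^ (M * (m + 1)) := by
        rw [← pow_add]
        congr 1
        ring
      rw [h6]
      have h7 : (2 : ℂ) ^ (m + 1) ≠ 0 := pow_ne_zero _ two_ne_zero
      have h8 : (2 : ℂ) ^ (M * (m + 1)) ≠ 0 := pow_ne_zero _ two_ne_zero
      field_simp
  rw [key M σ, Finset.sum_boole]

end H731B
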