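import Pool.Agent.H731R6.Bc.P2a
import Pool.Agent.H731R6.Bc.P2b

/-!
P2: the law of the pattern.  `perc_fin` with `S = {c | rows m (ext c) M σ0 = σ}`, `rows_congr`, `mu_count`
(`2 n - 1 + 1 = 2 n`).  `perc_pred`: finite disjoint union over `σ`.
-/

set_option autoImplicit false

namespace H731B

open MeasureTheory Filter Topology
open Pool.Agent.H988R2 Pool.Agent.H863R2 Pool.Agent.H980R2
open Pool.Agent.H988R2.Perc (Word Dyck q)

namespace P2

/-- the rows only depend on the first `M` rows of states -/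
theorem rows_ext {n : ℕ} (M : ℕ) (ω : Conf n) (σ : Cyl.Wd (2 * n - 1 + 1)) :
    Cyl.rows (2 * n - 1) (cc n M ω) M σ =
      Cyl.rows (2 * n - 1)
        (ext (fun (r : Fin M) (j : Fin (2 * n - 1 + 1)) => cc n M ω r j)) M σ := by
  apply rows_congr
  intro r hr
  unfold ext
  rw [dif_pos hr]

theorem isProb (n : ℕ) : IsProbabilityMeasure (perc n) := by
  unfold perc
  infer_instance

end P2

theorem perc_rows {n : ℕ} (hn : 1 ≤ n) (M : ℕ) (σ : Cyl.Wd (2 * n - 1 + 1)) :
    (((perc n).real {ω | Cyl.rows (2 * n - 1) (cc n M ω) M (s0 n) = σ} : ℝ) : ℂ) =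
      mu (2 * n - 1) (s0 n) M σ := by
  classical
  have h1 : {ω : Conf n | Cyl.rows (2 * n - 1) (cc n M ω) M (s0 n) = σ} =
      {ω | (fun (r : Fin M) (j : Fin (2 * n - 1 + 1)) => cc n M ω r j) ∈
        {c : Fin M → Fin (2 * n - 1 + 1) → Bool |
          Cyl.rows (2 * n - 1) (ext c) M (s0 n) = σ}} := by
    ext ω
    simp only [Set.mem_ofPred_eq]
    rw [P2.rows_ext]
  rw [h1, perc_fin hn M, mu_count]
  have h2 : M * (2 * n) = M * (2 * n - 1 + 1) := by
    rw [show 2 * n - 1 + 1 = 2 * n by omega]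
  rw [h2]
  push_cast
  refine congrArg (fun x : ℕ => (x : ℂ) / 2 ^ (M * (2 * n - 1 + 1))) ?_
  refine congrArg Finset.card ?_
  ext c
  simp only [Finset.mem_filter, Finset.mem_univ, true_and, Set.mem_ofPred_eq]

theorem meas_pred {n : ℕ} (hn : 1 ≤ n) (M : ℕ) (A : Cyl.Wd (2 * n - 1 + 1) → Prop) :
    MeasurableSet {ω : Conf n | A (Cyl.rows (2 * n - 1) (cc n M ω) M (s0 n))} := by
  have h1 : {ω : Conf n | A (Cyl.rows (2 * n - 1) (cc n M ω) M (s0 n))} =
      {ω | (fun (r : Fin M) (j : Fin (2 * n - 1 + 1)) => cc n M ω r j) ∈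
        {c : Fin M → Fin (2 * n - 1 + 1) → Bool |
          A (Cyl.rows (2 * n - 1) (ext c) M (s0 n))}} := by
    ext ω
    simp only [Set.mem_ofPred_eq]
    rw [P2.rows_ext]
  rw [h1]
  exact meas_fin hn M _

open Classical in
theorem perc_pred {n : ℕ} (hn : 1 ≤ n) (M : ℕ) (A : Cyl.Wd (2 * n - 1 + 1) → Prop) :
    (((perc n).real {ω | A (Cyl.rows (2 * n - 1) (cc n M ω) M (s0 n))} : ℝ) : ℂ) =
      ∑ σ, if A σ then mu (2 * n - 1) (s0 n) M σ else 0 := by
  have := P2.isProb n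
  have h1 : {ω : Conf n | A (Cyl.rows (2 * n - 1) (cc n M ω) M (s0 n))} =
      ⋃ σ ∈ Finset.univ.filter A,
        {ω : Conf n | Cyl.rows (2 * n - 1) (cc n M ω) M (s0 n) = σ} := by
    ext ω
    simp only [Set.mem_iUnion, Finset.mem_filter, Finset.mem_univ, true_and]
    constructor
    · intro h
      exact ⟨_, h, rfl⟩
    · rintro ⟨σ, hA, hσ⟩
      have hσ' : Cyl.rows (2 * n - 1) (cc n M ω) M (s0 n) = σ := hσ
      change A _
      rw [hσ']
      exact hA
  have h2 : (perc n).real {ω : Conf n | A (Cyl.rows (2 * n - 1) (cc n M ω) M (s0 n))} =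
      ∑ σ ∈ Finset.univ.filter A,
        (perc n).real {ω : Conf n | Cyl.rows (2 * n - 1) (cc n M ω) M (s0 n) = σ} := by
    rw [h1]
    apply measureReal_biUnion_finset
    · intro σ _ τ _ hστ
      rw [Function.onFun, Set.disjoint_left]
      intro ω hω hω'
      have e1 : Cyl.rows (2 * n - 1) (cc n M ω) M (s0 n) = σ := hω
      have e2 : Cyl.rows (2 * n - 1) (cc n M ω) M (s0 n) = τ := hω'
      exact hστ (e1.symm.trans e2)
    · intro σ _
      exact meas_pred hn M (fun τ => τ = σ)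
    · intro σ _
      exact measure_ne_top _ _
  rw [h2]
  push_cast
  rw [Finset.sum_congr rfl fun σ _ => perc_rows hn M σ, Finset.sum_filter]

end H731B
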