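import Pool.Agent.H731R6.Bc.PDefs

/-!
P3b: open paths lift.  For every open edge `OpenAdjM n M ω p r` and every lift `x : ℤ` of `p.1` there is a lift `y` of `r.1` such that
the faces `(x, M - p.2)` and `(y, M - r.2)` are related by `Lk` (same computation as in P3a), and conversely for every lift of `r.1`
there is a lift of `p.1`; induct on `EqvGen` (prove the statement for both directions simultaneously).  Here `(x : ZMod (2n)) = p.1`
iff `x ≡ p.1.val mod 2n`; the state of the lifted cell `x` (`Cyl.cl c x = c (ix m (x % (m+1)).toNat)`) is the state of the cell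
`p.1`.
-/

set_option autoImplicit false

namespace H731B

open MeasureTheory Filter Topology
open Pool.Agent.H988R2 Pool.Agent.H863R2 Pool.Agent.H980R2
open Pool.Agent.H988R2.Perc (Word Dyck q)

namespace P3b

theorem ix_val {n : ℕ} (hn : 1 ≤ n) (x : ℤ) :
    (Cyl.ix (2 * n - 1) (x % (((2 * n - 1 : ℕ) : ℤ) + 1)).toNat).val =
      ((x : ℤ) : ZMod (2 * n)).val := by
  haveI : NeZero (2 * n) := ⟨by omega⟩
  have h0 : ((2 * n - 1 : ℕ) : ℤ) + 1 = ((2 * n : ℕ) : ℤ) := by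
    have : 1 ≤ 2 * n := by omega
    push_cast [Nat.cast_sub this]
    ring
  have h1 : ((((x : ℤ) : ZMod (2 * n)).val : ℕ) : ℤ) = x % ((2 * n : ℕ) : ℤ) :=
    ZMod.val_intCast x
  have h2 : (x % ((2 * n : ℕ) : ℤ)).toNat = ((x : ℤ) : ZMod (2 * n)).val := by
    rw [← h1, Int.toNat_natCast]
  have h3 : ((x : ℤ) : ZMod (2 * n)).val < 2 * n := ZMod.val_lt _
  rw [h0]
  show (x % ((2 * n : ℕ) : ℤ)).toNat % (2 * n - 1 + 1) = _
  rw [h2]
  exact Nat.mod_eq_of_lt (by omega)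

theorem cl_cc {n M : ℕ} (hn : 1 ≤ n) (ω : Conf n) (ρ : ℕ) (x : ℤ) :
    Cyl.cl (cc n M ω ρ) x =
      if Even ((((x : ℤ) : ZMod (2 * n)).val) + (M - 1 - ρ)) then
        ω (((x : ℤ) : ZMod (2 * n)), M - 1 - ρ)
      else !ω (((x : ℤ) : ZMod (2 * n)), M - 1 - ρ) := by
  haveI : NeZero (2 * n) := ⟨by omega⟩
  unfold Cyl.cl cc
  rw [ix_val hn x, ZMod.natCast_zmod_val]

/-- upper end to lower end and back, one edge -/
theorem edge {n M : ℕ} (hn : 1 ≤ n) (ω : Conf n) {p r : ZMod (2 * n) × ℕ}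
    (h : OpenAdjM n M ω p r) :
    p.2 ≤ M ∧ r.2 ≤ M ∧
    (∀ x : ℤ, (x : ZMod (2 * n)) = p.1 → ∃ y : ℤ, (y : ZMod (2 * n)) = r.1 ∧
      Relation.EqvGen (Cyl.Lk (2 * n - 1) (cc n M ω) M (w0 n)) (x, M - p.2) (y, M - r.2)) ∧
    (∀ y : ℤ, (y : ZMod (2 * n)) = r.1 → ∃ x : ℤ, (x : ZMod (2 * n)) = p.1 ∧
      Relation.EqvGen (Cyl.Lk (2 * n - 1) (cc n M ω) M (w0 n)) (y, M - r.2) (x, M - p.2)) := by
  obtain ⟨a, t, ht, hω, hc⟩ := h
  have e1 : M - 1 - (M - (t + 1)) = t := by omega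
  have e2 : M - (t + 1) + 1 = M - t := by omega
  have e3 : M - (t + 1) < M := by omega
  rcases hc with ⟨hev, hp, hr⟩ | ⟨hev, hp, hr⟩
  · -- even cell: the edge joins (a, t) and (a + 1, t + 1)
    have key : ∀ x : ℤ, (x : ZMod (2 * n)) = a →
        Cyl.Lk (2 * n - 1) (cc n M ω) M (w0 n) (x + 1, M - (t + 1)) (x, M - t) := by
      intro x hx
      have h1 : Cyl.cl (cc n M ω (M - (t + 1))) x = true := by
        rw [cl_cc hn, e1, hx, if_pos hev, hω]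
      have h2 := Cyl.Lk.link1 (w := w0 n) x (M - (t + 1)) e3 h1
      rw [e2] at h2
      exact h2
    subst hp
    subst hr
    refine ⟨ht.le, ht, fun x hx => ⟨x + 1, ?_, ?_⟩, fun y hy => ⟨y - 1, ?_, ?_⟩⟩
    · push_cast
      rw [hx]
    · exact Relation.EqvGen.symm _ _ (Relation.EqvGen.rel _ _ (key x hx))
    · push_cast
      rw [hy]
      simp
    · have h3 := key (y - 1) (by push_cast; rw [hy]; simp)
      rw [sub_add_cancel] at h3
      exact Relation.EqvGen.rel _ _ h3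
  · have key : ∀ x : ℤ, (x : ZMod (2 * n)) = a →
        Cyl.Lk (2 * n - 1) (cc n M ω) M (w0 n) (x, M - (t + 1)) (x + 1, M - t) := by
      intro x hx
      have h1 : Cyl.cl (cc n M ω (M - (t + 1))) x = false := by
        rw [cl_cc hn, e1, hx, if_neg hev, hω]
        rfl
      have h2 := Cyl.Lk.link0 (w := w0 n) x (M - (t + 1)) e3 h1
      rw [e2] at h2
      exact h2
    subst hp
    subst hr
    refine ⟨ht.le, ht, fun x hx => ⟨x - 1, ?_, ?_⟩, fun y hy => ⟨y + 1, ?_, ?_⟩⟩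
    · push_cast
      rw [hx]
      simp
    · have h3 := key (x - 1) (by push_cast; rw [hx]; simp)
      rw [sub_add_cancel] at h3
      exact Relation.EqvGen.symm _ _ (Relation.EqvGen.rel _ _ h3)
    · push_cast
      rw [hy]
    · exact Relation.EqvGen.rel _ _ (key y hy)

theorem both {n M : ℕ} (hn : 1 ≤ n) (ω : Conf n) {p r : ZMod (2 * n) × ℕ}
    (h : Relation.EqvGen (OpenAdjM n M ω) p r) :
    (p.2 ≤ M → ∀ x : ℤ, (x : ZMod (2 * n)) = p.1 → r.2 ≤ M ∧ ∃ y : ℤ, (y : ZMod (2 * n)) = r.1 ∧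
      Relation.EqvGen (Cyl.Lk (2 * n - 1) (cc n M ω) M (w0 n)) (x, M - p.2) (y, M - r.2)) ∧
    (r.2 ≤ M → ∀ y : ℤ, (y : ZMod (2 * n)) = r.1 → p.2 ≤ M ∧ ∃ x : ℤ, (x : ZMod (2 * n)) = p.1 ∧
      Relation.EqvGen (Cyl.Lk (2 * n - 1) (cc n M ω) M (w0 n)) (y, M - r.2) (x, M - p.2)) := by
  induction h with
  | rel p r h =>
    obtain ⟨h1, h2, h3, h4⟩ := edge hn ω h
    exact ⟨fun _ x hx => ⟨h2, h3 x hx⟩, fun _ y hy => ⟨h1, h4 y hy⟩⟩
  | refl p =>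
    exact ⟨fun hp x hx => ⟨hp, x, hx, Relation.EqvGen.refl _⟩,
      fun hp x hx => ⟨hp, x, hx, Relation.EqvGen.refl _⟩⟩
  | symm p r _ ih => exact ⟨ih.2, ih.1⟩
  | trans p r s _ _ ih1 ih2 =>
    refine ⟨fun hp x hx => ?_, fun hs z hz => ?_⟩
    · obtain ⟨h1, y, hy, h2⟩ := ih1.1 hp x hx
      obtain ⟨h3, z, hz, h4⟩ := ih2.1 h1 y hy
      exact ⟨h3, z, hz, Relation.EqvGen.trans _ _ _ h2 h4⟩
    · obtain ⟨h1, y, hy, h2⟩ := ih2.2 hs z hz
      obtain ⟨h3, x, hx, h4⟩ := ih1.2 h1 y hy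
      exact ⟨h3, x, hx, Relation.EqvGen.trans _ _ _ h2 h4⟩

end P3b

theorem up {n M : ℕ} (hn : 1 ≤ n) (ω : Conf n) {p r : ZMod (2 * n) × ℕ}
    (h : Relation.EqvGen (OpenAdjM n M ω) p r) (hp : p.2 ≤ M) (x : ℤ) (hx : (x : ZMod (2 * n)) = p.1) :
    r.2 ≤ M ∧ ∃ y : ℤ, (y : ZMod (2 * n)) = r.1 ∧
      Relation.EqvGen (Cyl.Lk (2 * n - 1) (cc n M ω) M (w0 n)) (x, M - p.2) (y, M - r.2) :=
  (P3b.both hn ω h).1 hp x hx

end H731B
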