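import Pool.Agent.H731R6.Bc.W1
import Pool.Agent.H863R2.Cyl.Sem1

/-!
W4: the number of outermost arcs of the projected word is the number of faces of the circle connected with face 0.

Let `h(b)` = height of the prefix of length `b` of `w` (`h(N) = 0`), `m_b = min_{l ≤ b} h(l) ≤ 0`, `m'_b = min_{l ≥ b} h(l)`,
`k = -min h`.  The number of letters changed by `flA` before `b` is `-m_b`, by `flB` before `b`: `k + m'_b`; so the height of
`proj w` at `b` is `h(b) - 2 m_b - 2 (k + m'_b)`, and `min(m_b, m'_b) = -k`.  If `m'_b = -k` it is `(h(b) - m_b) + (-m_b)`, zero iff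
`h(b) = m_b = 0`, i.e. `Rle w 0 b`; if `m_b = -k` it is `(h(b) - m'_b) + (-m'_b)`, zero iff `h(b) = m'_b = 0`, i.e. `Rle w b N`
(`Sh w 0 b = h(b)` for `0 ≤ b ≤ N`).  (Alternatively: induction with `exists_arc`, `proj_ins`, `proj_seam`.)
`ret_proj`: `ret v` counts the balanced prefixes of length `1, …, N`; the one of length `N` corresponds to `b = 0`.  For
`0 ≤ b < N`: `∃ k, Rw w 0 (b + k N)` iff `Rle w 0 b ∨ Rle w b N`: periodicity (`Rw_shift`, `Sh w 0 N = 0`), a path from `0`
to `b + k N`, `k ≥ 1`, which stays `≥ 0`, stays `≥ 0` up to `b`; same to the left.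
-/

set_option autoImplicit false

namespace H731B

open Pool.Agent.H988R2 Pool.Agent.H863R2 Pool.Agent.H980R2
open Pool.Agent.H988R2.Perc (Word Dyck q PD q_spec q_cube q_ne_zero q_ne_one)

namespace W4

/-- height of the prefix of length `l` -/
def ht (w : Word) (l : ℕ) : ℤ := Cont.T01ht (w.take l)

theorem ht_zero (w : Word) : ht w 0 = 0 := by simp [ht]

theorem ht_ok {w : Word} (h : Cyl.Ok w) (he : Even w.length) : ht w w.length = 0 := by
  unfold ht
  rw [List.take_length]
  unfold Cont.T01ht
  unfold Cyl.Ok at h
  obtain ⟨k, hk⟩ := he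
  have h2 : w.count true + w.count false = w.length := by
    have := List.count_true_add_count_false w
    exact this
  omega

theorem ht_succ (w : Word) {l : ℕ} (h : l < w.length) :
    ht w (l + 1) = ht w l + (if w.getD l true then 1 else -1) := by
  unfold ht
  rw [List.take_add_one, Cont.T01ht_append, List.getD_eq_getElem?_getD, List.getElem?_eq_getElem h]
  cases w[l] <;> simp

theorem inc_ht {w : Word} {H : ℤ → ℤ} (h : Cyl.Sem1Aux.Inc (Cyl.sg w) H) (h0 : H 0 = 0) (l : ℕ)
    (hl : l ≤ w.length) : H (l : ℤ) = ht w l := by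
  induction l with
  | zero => simpa [ht_zero] using h0
  | succ l ih =>
    rw [ht_succ w (by omega)]
    push_cast
    rw [h (l : ℤ), ih (by omega)]
    unfold Cyl.sg
    have : ((l : ℤ) % (w.length : ℤ)).toNat = l := by
      rw [Int.emod_eq_of_lt (by omega) (by omega)]
      simp
    rw [this]

theorem Sh_ht (w : Word) (j k : ℕ) (hjk : j ≤ k) (hk : k ≤ w.length) :
    Cyl.Sh w (j : ℤ) (k : ℤ) = ht w k - ht w j := by
  obtain ⟨H, hI, h0⟩ := Cyl.Sem1Aux.exists_ht (Cyl.sg w)
  rw [Cyl.Sem1Aux.Sh_eq hI _ _ (by exact_mod_cast hjk), inc_ht hI h0 k hk,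
    inc_ht hI h0 j (by omega)]

theorem Rle_ht (w : Word) (j k : ℕ) (hjk : j ≤ k) (hk : k ≤ w.length) :
    Cyl.Rle w (j : ℤ) (k : ℤ) ↔ (∀ l, j ≤ l → l ≤ k → ht w j ≤ ht w l) ∧ ht w k = ht w j := by
  unfold Cyl.Rle
  rw [Sh_ht w j k hjk hk]
  constructor
  · rintro ⟨_, h2, h3⟩
    refine ⟨?_, by omega⟩
    intro l hl hl'
    have := h2 (l : ℤ) (by exact_mod_cast hl) (by exact_mod_cast hl')
    rw [Sh_ht w j l hl (by omega)] at this
    omega
  · rintro ⟨h2, h3⟩
    refine ⟨by exact_mod_cast hjk, ?_, by omega⟩
    intro l hl hl'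
    obtain ⟨m, rfl⟩ := Int.eq_ofNat_of_zero_le (show (0:ℤ) ≤ l by omega)
    rw [Sh_ht w j m (by exact_mod_cast hl) (by omega)]
    have := h2 m (by exact_mod_cast hl) (by exact_mod_cast hl')
    omega

theorem ht_ins (i : ℕ) (u : Word) (hi : i ≤ u.length) (l : ℕ) :
    ht (Perc.ins i u) l = if l ≤ i then ht u l else if l = i + 1 then ht u i + 1
      else ht u (l - 2) := by
  have hlen : (u.take i).length = i := by simp [hi]
  unfold ht Perc.ins
  split_ifs with h1 h2
  · rw [List.take_append_of_le_length (by omega), List.take_take, min_eq_left h1]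
  · subst h2
    rw [List.take_append, hlen, List.take_take, min_eq_right (by omega)]
    simp [Cont.T01ht_append]
  · obtain ⟨m, rfl⟩ : ∃ m, l = i + 2 + m := ⟨l - (i + 2), by omega⟩
    rw [List.take_append, hlen, List.take_take, min_eq_right (by omega),
      show i + 2 + m - i = m + 2 by omega, show i + 2 + m - 2 = i + m by omega,
      List.take_succ_cons, List.take_succ_cons, Cont.T01ht_append]
    rw [List.take_add, Cont.T01ht_append]
    simp

theorem ht_wrap (c d : Bool) (u : Word) (l : ℕ) (hl : l ≤ u.length) :
    ht (c :: (u ++ [d])) (l + 1) = (if c then 1 else -1) + ht u l := by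
  unfold ht
  rw [List.take_succ_cons, List.take_append_of_le_length hl]
  cases c <;> simp

theorem main (n : ℕ) : ∀ {w : Word}, w.length = n → Cyl.Ok w → Even w.length → ∀ b ≤ w.length,
    (ht (proj w) b = 0 ↔ (((∀ l, l ≤ b → 0 ≤ ht w l) ∧ ht w b = 0) ∨
      ((∀ l, b ≤ l → l ≤ w.length → 0 ≤ ht w l) ∧ ht w b = 0))) := by
  induction n using Nat.strong_induction_on with
  | _ n IH =>
  intro w hn h he b hb
  rcases Nat.lt_or_ge w.length 2 with h2 | h2
  · obtain ⟨k, hk⟩ := he
    have h0 : w = [] := List.eq_nil_of_length_eq_zero (by omega)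
    subst h0
    have hb0 : b = 0 := by simpa using hb
    subst hb0
    simp [ht, proj_nil]
  rcases Cyl.exists_arc h h2 with ⟨i, u, hi, hu, rfl, _, _⟩ | ⟨u, hu, rfl, _⟩
  · have hlen : (Perc.ins i u).length = u.length + 2 := by
      unfold Perc.ins
      simp
      omega
    have hue : Even u.length := by
      rw [show (Cyl.lins i u).length = u.length + 2 from hlen] at he
      obtain ⟨k, hk⟩ := he
      exact ⟨k - 1, by omega⟩
    rw [show (Cyl.lins i u).length = u.length + 2 from hlen] at hn hb h2 ⊢
    show ht (proj (Perc.ins i u)) b = 0 ↔ (((∀ l, l ≤ b → 0 ≤ ht (Perc.ins i u) l) ∧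
      ht (Perc.ins i u) b = 0) ∨ ((∀ l, b ≤ l → l ≤ u.length + 2 → 0 ≤ ht (Perc.ins i u) l) ∧
        ht (Perc.ins i u) b = 0))
    rw [proj_ins i u hi, ht_ins i (proj u) (by rw [length_proj]; exact hi)]
    have ihu := IH u.length (by omega) rfl hu hue
    have hD := proj_dyck hu hue
    have hnn : ∀ l, 0 ≤ ht (proj u) l := fun l => Cont.T01ht_nonneg hD l
    rcases Nat.lt_or_ge i b with hib | hib
    · rcases Nat.lt_or_ge (i + 1) b with hib2 | hib2
      · obtain ⟨m, rfl⟩ : ∃ m, b = m + 2 := ⟨b - 2, by omega⟩
        rw [if_neg (by omega), if_neg (by omega), show m + 2 - 2 = m by omega,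
          ihu m (by omega)]
        have e : ht (Perc.ins i u) (m + 2) = ht u m := by
          rw [ht_ins i u hi, if_neg (by omega), if_neg (by omega), show m + 2 - 2 = m by omega]
        rw [e]
        refine or_congr (and_congr_left' ?_) (and_congr_left' ?_)
        · constructor
          · intro h1 l hl
            rw [ht_ins i u hi]
            split_ifs with c1 c2
            · exact h1 l (by omega)
            · have := h1 i (by omega); omega
            · exact h1 (l - 2) (by omega)
          · intro h1 l hl
            rcases Nat.lt_or_ge i l with c | c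
            · have := h1 (l + 2) (by omega)
              rw [ht_ins i u hi, if_neg (by omega), if_neg (by omega),
                show l + 2 - 2 = l by omega] at this
              exact this
            · have := h1 l (by omega)
              rw [ht_ins i u hi, if_pos c] at this
              exact this
        · constructor
          · intro h1 l hl hl'
            rw [ht_ins i u hi, if_neg (by omega), if_neg (by omega)]
            exact h1 (l - 2) (by omega) (by omega)
          · intro h1 l hl hl'
            have := h1 (l + 2) (by omega) (by omega)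
            rw [ht_ins i u hi, if_neg (by omega), if_neg (by omega),
                show l + 2 - 2 = l by omega] at this
            exact this
      · have hbi : b = i + 1 := by omega
        subst hbi
        rw [if_neg (by omega), if_pos rfl]
        have e : ht (Perc.ins i u) (i + 1) = ht u i + 1 := by
          rw [ht_ins i u hi, if_neg (by omega), if_pos rfl]
        constructor
        · intro h1
          have := hnn i
          omega
        · rintro (⟨h1, h3⟩ | ⟨h1, h3⟩)
          · exfalso
            have := h1 i (by omega)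
            rw [ht_ins i u hi, if_pos le_rfl] at this
            omega
          · exfalso
            have := h1 (i + 2) (by omega) (by omega)
            rw [ht_ins i u hi, if_neg (by omega), if_neg (by omega),
                show i + 2 - 2 = i by omega] at this
            omega
    · rw [if_pos hib, ihu b (by omega)]
      have e : ht (Perc.ins i u) b = ht u b := by
        rw [ht_ins i u hi, if_pos hib]
      rw [e]
      refine or_congr (and_congr_left' ?_) (and_congr_left' ?_)
      · constructor
        · intro h1 l hl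
          rw [ht_ins i u hi, if_pos (by omega)]
          exact h1 l hl
        · intro h1 l hl
          have := h1 l hl
          rw [ht_ins i u hi, if_pos (by omega)] at this
          exact this
      · constructor
        · intro h1 l hl hl'
          rw [ht_ins i u hi]
          split_ifs with c1 c2
          · exact h1 l (by omega) (by omega)
          · have := h1 i (by omega) (by omega); omega
          · exact h1 (l - 2) (by omega) (by omega)
        · intro h1 l hl hl'
          rcases Nat.lt_or_ge i l with c | c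
          · have := h1 (l + 2) (by omega) (by omega)
            rw [ht_ins i u hi, if_neg (by omega), if_neg (by omega),
              show l + 2 - 2 = l by omega] at this
            exact this
          · have := h1 l (by omega) (by omega)
            rw [ht_ins i u hi, if_pos c] at this
            exact this
  · have hlen : (Cyl.seam u).length = u.length + 2 := by
      simp [Cyl.seam]
    have hue : Even u.length := by
      rw [hlen] at he
      obtain ⟨k, hk⟩ := he
      exact ⟨k - 1, by omega⟩
    have hN := ht_ok h he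
    rw [hlen] at hn hb h2 hN ⊢
    rw [proj_seam]
    have hD := proj_dyck hu hue
    have hnn : ∀ l, 0 ≤ ht (proj u) l := fun l => Cont.T01ht_nonneg hD l
    have hs : Cyl.seam u = false :: (u ++ [true]) := rfl
    rcases Nat.eq_zero_or_pos b with hb0 | hb0
    · subst hb0
      rw [ht_zero, ht_zero]
      refine iff_of_true rfl (Or.inl ⟨?_, rfl⟩)
      intro l hl
      have : l = 0 := by omega
      subst this
      rw [ht_zero]
    · rcases Nat.lt_or_ge b (u.length + 2) with hb1 | hb1
      · obtain ⟨c, rfl⟩ : ∃ c, b = c + 1 := ⟨b - 1, by omega⟩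
        rw [ht_wrap true false (proj u) c (by rw [length_proj]; omega)]
        have h3 : ht (Cyl.seam u) 1 = -1 := by
          rw [hs, ht_wrap false true u 0 (by omega), ht_zero]
          simp
        have h4 : ht (Cyl.seam u) (u.length + 1) = -1 := by
          rw [hs, ht_wrap false true u u.length le_rfl, ht_ok hu hue]
          simp
        constructor
        · intro h1
          have := hnn c
          simp at h1
          omega
        · rintro (⟨h1, _⟩ | ⟨h1, _⟩)
          · have := h1 1 (by omega)
            omega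
          · have := h1 (u.length + 1) (by omega) (by omega)
            omega
      · have hbN : b = u.length + 2 := by omega
        subst hbN
        have h5 : ht (true :: (proj u ++ [false])) (u.length + 2) = 0 := by
          unfold ht
          rw [List.take_of_length_le (by simp [length_proj])]
          simp [Cont.T01ht_append, Cont.T01ht_dyck hD]
        refine iff_of_true h5 (Or.inr ⟨?_, hN⟩)
        intro l hl hl'
        have : l = u.length + 2 := by omega
        subst this
        rw [hN]

end W4

theorem bal_proj {w : Word} (h : Cyl.Ok w) (he : Even w.length) {b : ℕ} (hb : b ≤ w.length) :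
    Cont.bal (proj w) b ↔ (Cyl.Rle w 0 (b : ℤ) ∨ Cyl.Rle w (b : ℤ) (w.length : ℤ)) := by
  have h1 := W4.main w.length rfl h he b hb
  have hN := W4.ht_ok h he
  have h2 := W4.Rle_ht w 0 b (by omega) hb
  have h3 := W4.Rle_ht w b w.length hb le_rfl
  rw [Cont.T01bal_iff]
  have h4 : Cyl.Rle w 0 (b : ℤ) ↔ (∀ l, l ≤ b → 0 ≤ W4.ht w l) ∧ W4.ht w b = 0 := by
    rw [W4.ht_zero] at h2
    rw [← Nat.cast_zero (R := ℤ), h2]
    simp
  rw [h4, h3, hN]
  refine h1.trans (or_congr_right ?_)
  constructor
  · rintro ⟨h5, h6⟩
    exact ⟨fun l hl hl' => by rw [h6]; exact h5 l hl hl', h6.symm⟩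
  · rintro ⟨h5, h6⟩
    exact ⟨fun l hl hl' => by have := h5 l hl hl'; rw [← h6] at this; exact this, h6.symm⟩

namespace W4

theorem per {w : Word} (h : Cyl.Ok w) (he : Even w.length) {H : ℤ → ℤ}
    (hI : Cyl.Sem1Aux.Inc (Cyl.sg w) H) (h0 : H 0 = 0) :
    Function.Periodic H (w.length : ℤ) := by
  have h1 : Cyl.Sem1Aux.Inc (Cyl.sg w) (fun x => H (x + (w.length : ℤ))) := by
    intro x
    have h2 : Cyl.sg w (x + (w.length : ℤ)) = Cyl.sg w x := by
      unfold Cyl.sg
      rw [Int.add_emod_right]
    have h3 := hI (x + (w.length : ℤ))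
    rw [h2] at h3
    show H (x + 1 + (w.length : ℤ)) = H (x + (w.length : ℤ)) + Cyl.sg w x
    rw [← h3]
    congr 1
    ring
  intro x
  refine Cyl.Sem1Aux.Inc.unique h1 hI 0 ?_ x
  show H (0 + (w.length : ℤ)) = H 0
  rw [zero_add, inc_ht hI h0 w.length le_rfl, ht_ok h he, h0]

theorem ex_iff {w : Word} (h : Cyl.Ok w) (he : Even w.length) {b : ℕ} (hb : b < w.length) :
    (∃ k : ℤ, Cyl.Rw w 0 ((b : ℤ) + k * (w.length : ℤ))) ↔
      (Cyl.Rle w 0 (b : ℤ) ∨ Cyl.Rle w (b : ℤ) (w.length : ℤ)) := by
  obtain ⟨H, hI, h0⟩ := Cyl.Sem1Aux.exists_ht (Cyl.sg w)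
  have hP := per h he hI h0
  have hN : H (w.length : ℤ) = 0 := by rw [inc_ht hI h0 w.length le_rfl, ht_ok h he]
  have hPk : ∀ (k x : ℤ), H (x + k * (w.length : ℤ)) = H x := by
    intro k x
    exact (hP.int_mul k) x
  have hS : ∀ j k : ℤ, j ≤ k → Cyl.Sh w j k = H k - H j := Cyl.Sem1Aux.Sh_eq hI
  have hbN : (b : ℤ) < (w.length : ℤ) := by exact_mod_cast hb
  have hb0 : (0 : ℤ) ≤ (b : ℤ) := by positivity
  constructor
  · rintro ⟨k, hk⟩
    rw [Cyl.Sem1Aux.Rw_iff hI] at hk
    obtain ⟨h1, h2⟩ := hk
    rw [hPk, h0] at h1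
    rw [h0] at h2
    rcases le_or_gt 0 k with hk0 | hk0
    · left
      refine ⟨hb0, ?_, ?_⟩
      · intro l hl hl'
        rw [hS _ _ hl, h0]
        have h3 : (0 : ℤ) ≤ k * (w.length : ℤ) := mul_nonneg hk0 (by positivity)
        have := h2 l (Or.inl ⟨hl, by omega⟩)
        omega
      · rw [hS _ _ hb0, h0]
        omega
    · right
      refine ⟨hbN.le, ?_, ?_⟩
      · intro l hl hl'
        rw [hS _ _ hl, ← h1]
        have h3 : k * (w.length : ℤ) ≤ -(w.length : ℤ) := by nlinarith
        have h4 := h2 (l + (-1) * (w.length : ℤ)) (Or.inr ⟨by omega, by omega⟩)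
        rw [hPk] at h4
        omega
      · rw [hS _ _ hbN.le, hN, ← h1]
        rfl
  · rintro (h1 | h1)
    · exact ⟨0, by rw [zero_mul, add_zero]; exact Or.inl h1⟩
    · refine ⟨-1, ?_⟩
      rw [Cyl.Sem1Aux.Rw_iff hI]
      obtain ⟨_, h2, h3⟩ := h1
      rw [hS _ _ hbN.le, hN] at h3
      refine ⟨by rw [hPk, h0]; omega, ?_⟩
      intro l hl
      rw [h0]
      have h4 := h2 (l + (w.length : ℤ)) (by omega) (by omega)
      rw [hS _ _ (by omega)] at h4
      have h5 := hP l
      omega

end W4

open Classical in
theorem ret_proj {w : Word} (h : Cyl.Ok w) (he : Even w.length) (h0 : w ≠ []) :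
    Cont.ret (proj w) = ((Finset.range w.length).filter
      (fun b : ℕ => ∃ k : ℤ, Cyl.Rw w 0 ((b : ℤ) + k * (w.length : ℤ)))).card := by
  have hpos : 0 < w.length := List.length_pos_iff.mpr h0
  have e1 : Cont.ret (proj w) = ((Finset.range w.length).filter
      (fun k : ℕ => Cont.bal (proj w) (k + 1))).card := by
    unfold Cont.ret
    rw [length_proj]
    rw [← List.toFinset_card_of_nodup (List.Nodup.filter _ List.nodup_range)]
    congr 1
    ext x
    simp
  rw [e1]
  have key : ∀ b : ℕ, b < w.length → ((∃ k : ℤ, Cyl.Rw w 0 ((b : ℤ) + k * (w.length : ℤ))) ↔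
      Cont.bal (proj w) b) := by
    intro b hb
    rw [W4.ex_iff h he hb, bal_proj h he hb.le]
  have k0 : Cont.bal (proj w) 0 := by simp [Cont.bal]
  have kN : Cont.bal (proj w) w.length := by
    rw [bal_proj h he le_rfl]
    right
    refine ⟨le_rfl, ?_, ?_⟩
    · intro l hl hl'
      have : l = (w.length : ℤ) := le_antisymm hl' hl
      subst this
      simp [Cyl.Sh]
    · simp [Cyl.Sh]
  refine Finset.card_nbij' (fun k => (k + 1) % w.length) (fun b => (b + (w.length - 1)) % w.length)
    ?_ ?_ ?_ ?_
  · intro k hk
    simp only [Finset.coe_filter, Finset.mem_range, Set.mem_ofPred_eq] at hk ⊢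
    obtain ⟨hk1, hk2⟩ := hk
    have hm : (k + 1) % w.length < w.length := Nat.mod_lt _ hpos
    refine ⟨hm, ?_⟩
    rw [key _ hm]
    rcases Nat.lt_or_ge (k + 1) w.length with c | c
    · rw [Nat.mod_eq_of_lt c]
      exact hk2
    · have : k + 1 = w.length := by omega
      rw [this, Nat.mod_self]
      exact k0
  · intro b hb
    simp only [Finset.coe_filter, Finset.mem_range, Set.mem_ofPred_eq] at hb ⊢
    obtain ⟨hb1, hb2⟩ := hb
    have hm : (b + (w.length - 1)) % w.length < w.length := Nat.mod_lt _ hpos
    refine ⟨hm, ?_⟩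
    rw [key _ hb1] at hb2
    rcases Nat.eq_zero_or_pos b with c | c
    · subst c
      rw [zero_add, Nat.mod_eq_of_lt (by omega), show w.length - 1 + 1 = w.length by omega]
      exact kN
    · rw [show b + (w.length - 1) = (b - 1) + w.length by omega, Nat.add_mod_right,
        Nat.mod_eq_of_lt (by omega), show b - 1 + 1 = b by omega]
      exact hb2
  · intro k hk
    simp only [Finset.coe_filter, Finset.mem_range, Set.mem_ofPred_eq] at hk
    obtain ⟨hk1, _⟩ := hk
    show ((k + 1) % w.length + (w.length - 1)) % w.length = k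
    rcases Nat.lt_or_ge (k + 1) w.length with c | c
    · rw [Nat.mod_eq_of_lt c, show k + 1 + (w.length - 1) = k + w.length by omega,
        Nat.add_mod_right, Nat.mod_eq_of_lt hk1]
    · have : k + 1 = w.length := by omega
      rw [this, Nat.mod_self, zero_add, Nat.mod_eq_of_lt (by omega)]
      omega
  · intro b hb
    simp only [Finset.coe_filter, Finset.mem_range, Set.mem_ofPred_eq] at hb
    obtain ⟨hb1, _⟩ := hb
    show ((b + (w.length - 1)) % w.length + 1) % w.length = b
    rcases Nat.eq_zero_or_pos b with c | c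
    · subst c
      have e2 : (0 + (w.length - 1)) % w.length = w.length - 1 := by
        rw [zero_add, Nat.mod_eq_of_lt (by omega)]
      rw [e2, show w.length - 1 + 1 = w.length by omega, Nat.mod_self]
    · have e2 : (b + (w.length - 1)) % w.length = b - 1 := by
        rw [show b + (w.length - 1) = (b - 1) + w.length by omega, Nat.add_mod_right,
          Nat.mod_eq_of_lt (by omega)]
      rw [e2, show b - 1 + 1 = b by omega, Nat.mod_eq_of_lt hb1]

end H731B
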