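import Pool.Agent.H731R6.Bc.P3a
import Pool.Agent.H731R6.Bc.P3b
import Pool.Agent.H731R6.Bc.W4

/-!
P4 (helper485): the number of boundary vertices joined to `(0,0)` in the first `M` rows is the number of
outermost arcs of the projected pattern.
-/

set_option autoImplicit false

namespace H731B

open MeasureTheory Filter Topology
open Pool.Agent.H988R2 Pool.Agent.H863R2 Pool.Agent.H980R2
open Pool.Agent.H988R2.Perc (Word Dyck q)

theorem conn_iff {n M : ℕ} (hn : 1 ≤ n) (hM : Even M) (ω : Conf n) (b : ℕ) (hb : b < 2 * n) :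
    ((b : ZMod (2 * n)) ∈ bclM n M ω) ↔
      ∃ k : ℤ, Cyl.Rw (Cyl.rows (2 * n - 1) (cc n M ω) M (s0 n)).1 0 ((b : ℤ) + k * (2 * n : ℕ)) := by
  have hrw : ∀ y : ℤ, Cyl.Rw (Cyl.rows (2 * n - 1) (cc n M ω) M (s0 n)).1 0 y ↔
      Relation.EqvGen (Cyl.Lk (2 * n - 1) (cc n M ω) M (w0 n)) (0, M) (y, M) := by
    intro y
    rw [Cyl.Rw_rows (2 * n - 1) (by omega), s0_val hn]
  constructor
  · intro h
    have h' : Relation.EqvGen (OpenAdjM n M ω) (0, 0) ((b : ZMod (2 * n)), 0) := h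
    obtain ⟨-, y, hy, h1⟩ := up hn ω h' (Nat.zero_le M) 0 (by simp)
    have h2 : ((y : ℤ) : ZMod (2 * n)) = (((b : ℕ) : ℤ) : ZMod (2 * n)) := by
      rw [hy]
      simp
    rw [ZMod.intCast_eq_intCast_iff] at h2
    obtain ⟨k, hk⟩ := h2.symm.dvd
    refine ⟨k, ?_⟩
    rw [hrw]
    have h3 : (b : ℤ) + k * ((2 * n : ℕ) : ℤ) = y := by linarith
    rw [h3]
    exact h1
  · rintro ⟨k, hk⟩
    rw [hrw] at hk
    have h1 := down hn hM ω hk le_rfl le_rfl (by simp)
    have h2 := h1.2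
    have e1 : (((0 : ℤ) : ZMod (2 * n))) = 0 := by simp
    have e2 : ((((b : ℤ) + k * ((2 * n : ℕ) : ℤ) : ℤ)) : ZMod (2 * n)) = (b : ZMod (2 * n)) := by
      rw [Int.cast_add, Int.cast_mul, Int.cast_natCast, Int.cast_natCast, ZMod.natCast_self,
        mul_zero, add_zero]
    simp only [Nat.sub_self, e1, e2] at h2
    exact h2

theorem bclM_ncard {n M : ℕ} (hn : 1 ≤ n) (hM : Even M) (ω : Conf n) :
    (bclM n M ω).ncard = Cont.ret (proj (Cyl.rows (2 * n - 1) (cc n M ω) M (s0 n)).1) := by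
  classical
  haveI : NeZero (2 * n) := ⟨by omega⟩
  have hc := conn_iff (M := M) hn hM ω
  obtain ⟨w, hw⟩ : ∃ w, w = (Cyl.rows (2 * n - 1) (cc n M ω) M (s0 n)).1 := ⟨_, rfl⟩
  have hlen : w.length = 2 * n := by
    have := (Cyl.rows (2 * n - 1) (cc n M ω) M (s0 n)).2.1
    rw [← hw] at this
    omega
  have hok : Cyl.Ok w := by
    rw [hw]
    exact (Cyl.rows (2 * n - 1) (cc n M ω) M (s0 n)).2.2
  have hne : w ≠ [] := by
    intro h
    rw [h] at hlen
    simp at hlen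
    omega
  rw [← hw] at hc ⊢
  rw [ret_proj hok (by rw [hlen]; exact even_two_mul n) hne, hlen]
  have e1 : (Finset.range (2 * n)).filter
      (fun b : ℕ => ∃ k : ℤ, Cyl.Rw w 0 ((b : ℤ) + k * ((2 * n : ℕ) : ℤ))) =
      (Finset.range (2 * n)).filter (fun b : ℕ => ((b : ZMod (2 * n)) ∈ bclM n M ω)) := by
    apply Finset.filter_congr
    intro b hb
    exact (hc b (Finset.mem_range.1 hb)).symm
  rw [e1]
  have e2 : bclM n M ω = (((Finset.range (2 * n)).filter
      (fun b : ℕ => ((b : ZMod (2 * n)) ∈ bclM n M ω))).image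
      (fun b : ℕ => (b : ZMod (2 * n))) : Finset (ZMod (2 * n))) := by
    ext z
    simp only [Finset.coe_image, Finset.coe_filter, Finset.mem_range, Set.mem_image,
      Set.mem_ofPred_eq]
    constructor
    · intro hz
      refine ⟨z.val, ⟨ZMod.val_lt z, ?_⟩, ZMod.natCast_zmod_val z⟩
      rw [ZMod.natCast_zmod_val]
      exact hz
    · rintro ⟨b, ⟨_, hb⟩, rfl⟩
      exact hb
  conv_lhs => rw [e2]
  rw [Set.ncard_coe_finset, Finset.card_image_of_injOn]
  intro b hb b' hb' h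
  simp only [Finset.coe_filter, Finset.mem_range, Set.mem_ofPred_eq] at hb hb'
  have h1 := congrArg ZMod.val h
  simp only [ZMod.val_natCast_of_lt hb.1, ZMod.val_natCast_of_lt hb'.1] at h1
  exact h1

end H731B
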