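import Pool.Agent.H731R6.Bc.PDefs

/-!
P5: the limit `M → ∞`.
-/

set_option autoImplicit false

namespace H731B

open MeasureTheory Filter Topology
open Pool.Agent.H988R2 Pool.Agent.H863R2 Pool.Agent.H980R2
open Pool.Agent.H988R2.Perc (Word Dyck q)

namespace P5

theorem mono_rel {α : Type*} {G G' : α → α → Prop} (h : ∀ a b, G a b → G' a b) {a b : α}
    (hab : Relation.EqvGen G a b) : Relation.EqvGen G' a b := by
  induction hab with
  | rel a b hab => exact Relation.EqvGen.rel _ _ (h _ _ hab)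
  | refl a => exact Relation.EqvGen.refl _
  | symm a b _ ih => exact Relation.EqvGen.symm _ _ ih
  | trans a b c _ _ ih1 ih2 => exact Relation.EqvGen.trans _ _ _ ih1 ih2

theorem adj_mono {n M M' : ℕ} (h : M ≤ M') (ω : Conf n) (p r : ZMod (2 * n) × ℕ)
    (hp : OpenAdjM n M ω p r) : OpenAdjM n M' ω p r := by
  obtain ⟨a, t, ht, h1, h2⟩ := hp
  exact ⟨a, t, lt_of_lt_of_le ht h, h1, h2⟩

theorem exists_M {n : ℕ} (ω : Conf n) {p r : ZMod (2 * n) × ℕ}
    (h : Relation.EqvGen (OpenAdj n ω) p r) : ∃ M, Relation.EqvGen (OpenAdjM n M ω) p r := by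
  induction h with
  | rel a b hab =>
    obtain ⟨x, t, h1, h2⟩ := hab
    exact ⟨t + 1, Relation.EqvGen.rel _ _ ⟨x, t, Nat.lt_succ_self t, h1, h2⟩⟩
  | refl a => exact ⟨0, Relation.EqvGen.refl _⟩
  | symm a b _ ih =>
    obtain ⟨M, hM⟩ := ih
    exact ⟨M, Relation.EqvGen.symm _ _ hM⟩
  | trans a b c _ _ ih1 ih2 =>
    obtain ⟨M1, h1⟩ := ih1
    obtain ⟨M2, h2⟩ := ih2
    exact ⟨max M1 M2, Relation.EqvGen.trans _ _ _
      (mono_rel (fun a b => adj_mono (le_max_left _ _) ω a b) h1)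
      (mono_rel (fun a b => adj_mono (le_max_right _ _) ω a b) h2)⟩

theorem val_add_one {n : ℕ} (hn : 1 ≤ n) (a : ZMod (2 * n)) :
    (a + 1).val % 2 = (a.val + 1) % 2 := by
  haveI : NeZero (2 * n) := ⟨by omega⟩
  rw [ZMod.val_add]
  by_cases h1 : 2 * n = 1
  · omega
  · have h2 : (1 : ZMod (2 * n)).val = 1 := ZMod.val_one'' h1
    rw [h2]
    exact Nat.mod_mul_right_mod _ 2 n

theorem parity {n : ℕ} (hn : 1 ≤ n) (ω : Conf n) {p r : ZMod (2 * n) × ℕ}
    (h : Relation.EqvGen (OpenAdj n ω) p r) : (p.1.val + p.2) % 2 = (r.1.val + r.2) % 2 := by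
  induction h with
  | rel x y hab =>
    obtain ⟨a, t, h1, h2 | h2⟩ := hab
    · obtain ⟨h3, rfl, rfl⟩ := h2
      have := val_add_one hn a
      dsimp only
      omega
    · obtain ⟨h3, rfl, rfl⟩ := h2
      have := val_add_one hn a
      dsimp only
      omega
  | refl a => rfl
  | symm a b _ ih => exact ih.symm
  | trans a b c _ _ ih1 ih2 => exact ih1.trans ih2

end P5

theorem bclM_mono {n : ℕ} (ω : Conf n) : Monotone (fun M => bclM n M ω) := by
  intro M M' h b hb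
  exact P5.mono_rel (fun a b => P5.adj_mono h ω a b) hb

theorem iUnion_bclM {n : ℕ} (ω : Conf n) : ⋃ M, bclM n M ω = bcl n ω := by
  ext b
  rw [Set.mem_iUnion]
  constructor
  · rintro ⟨M, hM⟩
    refine P5.mono_rel ?_ hM
    rintro p r ⟨a, t, _, h1, h2⟩
    exact ⟨a, t, h1, h2⟩
  · intro h
    exact P5.exists_M ω h

theorem ncard_le {n : ℕ} (hn : 1 ≤ n) (ω : Conf n) : (bcl n ω).ncard ≤ n := by
  haveI : NeZero (2 * n) := ⟨by omega⟩
  have h1 : bcl n ω ⊆ (fun k : ℕ => ((2 * k : ℕ) : ZMod (2 * n))) '' (Set.Iio n) := by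
    intro b hb
    have h2 := P5.parity hn ω hb
    dsimp only at h2
    have h3 : b.val < 2 * n := ZMod.val_lt b
    rw [ZMod.val_zero] at h2
    refine ⟨b.val / 2, Set.mem_Iio.2 (by omega), ?_⟩
    dsimp only
    rw [show 2 * (b.val / 2) = b.val by omega]
    exact ZMod.natCast_zmod_val b
  calc (bcl n ω).ncard ≤ ((fun k : ℕ => ((2 * k : ℕ) : ZMod (2 * n))) '' (Set.Iio n)).ncard :=
        Set.ncard_le_ncard h1 ((Set.finite_Iio n).image _)
    _ ≤ (Set.Iio n).ncard := Set.ncard_image_le (Set.finite_Iio n)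
    _ = n := by
      rw [← Nat.card_coe_set_eq]
      simp

theorem one_le_ncard {n : ℕ} (hn : 1 ≤ n) (ω : Conf n) : 1 ≤ (bcl n ω).ncard := by
  haveI : NeZero (2 * n) := ⟨by omega⟩
  have h : 0 < (bcl n ω).ncard := (Set.ncard_pos (Set.toFinite _)).2 ⟨0, Relation.EqvGen.refl _⟩
  exact h

theorem iUnion_ncard {n : ℕ} (hn : 1 ≤ n) (k : ℕ) :
    {ω : Conf n | k ≤ (bcl n ω).ncard} = ⋃ M, {ω | k ≤ (bclM n M ω).ncard} := by
  haveI : NeZero (2 * n) := ⟨by omega⟩
  ext ω
  simp only [Set.mem_iUnion, Set.mem_setOf_eq]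
  constructor
  · intro h
    obtain ⟨M, hM⟩ : ∃ M, bcl n ω ⊆ bclM n M ω := by
      have h1 : ∀ b : ZMod (2 * n), b ∈ bcl n ω → ∃ M, b ∈ bclM n M ω := by
        intro b hb
        rw [← iUnion_bclM, Set.mem_iUnion] at hb
        exact hb
      choose! f hf using h1
      refine ⟨Finset.univ.sup f, fun b hb => ?_⟩
      exact bclM_mono ω (Finset.le_sup (f := f) (Finset.mem_univ b)) (hf b hb)
    exact ⟨M, h.trans (Set.ncard_le_ncard hM (Set.toFinite _))⟩
  · rintro ⟨M, hM⟩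
    refine hM.trans (Set.ncard_le_ncard ?_ (Set.toFinite _))
    rw [← iUnion_bclM]
    exact Set.subset_iUnion (fun M => bclM n M ω) M

theorem perc_tendsto {n : ℕ} (hn : 1 ≤ n) (k : ℕ) :
    Tendsto (fun M => (perc n).real {ω | k ≤ (bclM n M ω).ncard}) atTop
      (𝓝 ((perc n).real {ω | k ≤ (bcl n ω).ncard})) := by
  haveI : NeZero (2 * n) := ⟨by omega⟩
  haveI : IsProbabilityMeasure (perc n) := by unfold perc; infer_instance
  have hmono : Monotone (fun M => {ω : Conf n | k ≤ (bclM n M ω).ncard}) := by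
    intro M M' h ω hω
    exact le_trans hω (Set.ncard_le_ncard (bclM_mono ω h) (Set.toFinite _))
  have h1 := tendsto_measure_iUnion_atTop (μ := perc n) hmono
  rw [← iUnion_ncard hn k] at h1
  exact (ENNReal.tendsto_toReal (measure_ne_top _ _)).comp h1

end H731B
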