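import Pool.Agent.H731R6.Bc.P1
import Pool.Agent.H731R6.Bc.P2
import Pool.Agent.H731R6.Bc.P4
import Pool.Agent.H731R6.Bc.P5
import Pool.Agent.H731R6.Bc.C1
import Pool.Agent.H863R2.Cyl.FamEx

/-!
P6: the exact law.  `Cyl.exists_Fam (q^2)` (`(q²)² + q² + 1 = 0`).  For even `M`: `bclM_ncard`, `perc_pred` with
`A σ = (k ≤ ret (proj σ.1))`, `mu_tendsto` (`m = 2 n - 1`), `cl_eq_sum`: the limit is
`∑_{σ, k ≤ ret} Ψ σ / ZZ = ∑_{j ∈ Icc k n} sm Ψ n j / ZZ = tl n k` (`tails`; `ret ≤ n`: `Cont.ret_le`, `proj_dyck`).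
`perc_tendsto` along even `M`; uniqueness of the limit.  `meas_bcl`: `iUnion_ncard`, for even `M` `meas_pred` (the union over even `M`).
-/

set_option autoImplicit false

namespace H731B

open MeasureTheory Filter Topology
open Pool.Agent.H988R2 Pool.Agent.H863R2 Pool.Agent.H980R2
open Pool.Agent.H988R2.Perc (Word Dyck q)

namespace P6

theorem q4 : (q ^ 2) ^ 2 + q ^ 2 + 1 = 0 := by
  have h1 := Pool.Agent.H988R2.Perc.q_spec
  have h2 := Pool.Agent.H988R2.Perc.q_cube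
  have h3 : (q ^ 2) ^ 2 = q := by
    calc (q ^ 2) ^ 2 = q ^ 3 * q := by ring
      _ = q := by rw [h2, one_mul]
  rw [h3]
  linear_combination h1

theorem sum_Wd {N : ℕ} (l : List ℂ) (h : l.length = N) (f : Word → ℂ) :
    ∑ σ : Cyl.Wd l.length, f σ.1 = ∑ σ : Cyl.Wd N, f σ.1 := by
  subst h
  rfl

theorem ret_proj_le {n : ℕ} (σ : Cyl.Wd (2 * n)) : Cont.ret (proj σ.1) ≤ n := by
  have h1 : σ.1.length = 2 * n := σ.2.1
  have h2 : Dyck (proj σ.1) := proj_dyck σ.2.2 (by rw [h1]; exact even_two_mul n)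
  have h3 := Cont.ret_le h2
  rw [length_proj, h1] at h3
  omega

open Classical in
/-- the sum of the masses -/
theorem sum_masses {Ψ : List ℂ → Cyl.VW} (hΨ : Cyl.Fam (q^2) Ψ) (n k : ℕ) :
    ∑ j ∈ Finset.Icc k n, sm Ψ n j =
      ∑ σ : Cyl.Wd (2 * n), if k ≤ Cont.ret (proj σ.1) then
        Ψ (List.replicate (2 * n) 1) σ.1 else 0 := by
  have h1 : ∀ j, sm Ψ n j = ∑ σ : Cyl.Wd (2 * n),
      Ψ (List.replicate (2 * n) 1) σ.1 * (if Cont.ret (proj σ.1) = j then 1 else 0) := by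
    intro j
    unfold sm
    rw [cl_eq_sum hΨ]
    exact sum_Wd (List.replicate (2 * n) 1) (List.length_replicate ..)
      (fun w => Ψ (List.replicate (2 * n) 1) w * (if Cont.ret (proj w) = j then 1 else 0))
  simp only [h1]
  rw [Finset.sum_comm]
  refine Finset.sum_congr rfl fun σ _ => ?_
  rw [← Finset.mul_sum, Finset.sum_ite_eq]
  have h2 := ret_proj_le σ
  by_cases h : k ≤ Cont.ret (proj σ.1)
  · rw [if_pos h, if_pos (Finset.mem_Icc.mpr ⟨h, h2⟩), mul_one]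
  · rw [if_neg h, if_neg (fun h' => h (Finset.mem_Icc.mp h').1), mul_zero]

open Classical in
theorem lim_eq {Ψ : List ℂ → Cyl.VW} (hΨ : Cyl.Fam (q^2) Ψ) {n : ℕ} (hn : 1 ≤ n) {k : ℕ}
    (hk : k ≤ n) :
    ∑ σ : Cyl.Wd (2 * n), (if k ≤ Cont.ret (proj σ.1) then
      Ψ (List.replicate (2 * n) 1) σ.1 / ZZ Ψ (List.replicate (2 * n) 1) else 0) = (tl n k : ℂ) := by
  have h1 := tails hΨ hn k hk
  rw [sum_masses hΨ] at h1
  have h2 := ZZ_ones_ne hΨ (2 * n)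
  rw [← mul_div_cancel_left₀ (tl n k : ℂ) h2, ← h1, Finset.sum_div]
  refine Finset.sum_congr rfl fun σ _ => ?_
  split_ifs
  · rfl
  · rw [zero_div]

open Classical in
theorem lim_eq' {Ψ : List ℂ → Cyl.VW} (hΨ : Cyl.Fam (q^2) Ψ) {n : ℕ} (hn : 1 ≤ n) {k : ℕ}
    (hk : k ≤ n) (m : ℕ) (hm : m + 1 = 2 * n) :
    ∑ σ : Cyl.Wd (m + 1), (if k ≤ Cont.ret (proj σ.1) then
      Ψ (List.replicate (m + 1) 1) σ.1 / ZZ Ψ (List.replicate (m + 1) 1) else 0) = (tl n k : ℂ) := by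
  rw [← lim_eq hΨ hn hk]
  have h : ∀ N N' : ℕ, N = N' → ∑ σ : Cyl.Wd N, (if k ≤ Cont.ret (proj σ.1) then
      Ψ (List.replicate N 1) σ.1 / ZZ Ψ (List.replicate N 1) else 0) =
      ∑ σ : Cyl.Wd N', (if k ≤ Cont.ret (proj σ.1) then
      Ψ (List.replicate N' 1) σ.1 / ZZ Ψ (List.replicate N' 1) else 0) := by
    intro N N' h
    subst h
    rfl
  exact h _ _ hm

end P6

theorem exact_law {n : ℕ} (hn : 1 ≤ n) {k : ℕ} (hk : k ≤ n) :
    (perc n).real {ω | k ≤ (bcl n ω).ncard} = tl n k := by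
  classical
  obtain ⟨Ψ, hΨ⟩ := Cyl.exists_Fam (q ^ 2) P6.q4
  have h1 : ∀ i : ℕ, (((perc n).real {ω | k ≤ (bclM n (2 * i) ω).ncard} : ℝ) : ℂ) =
      ∑ σ, if k ≤ Cont.ret (proj σ.1) then mu (2 * n - 1) (s0 n) (2 * i) σ else 0 := by
    intro i
    have hset : {ω | k ≤ (bclM n (2 * i) ω).ncard} =
        {ω | k ≤ Cont.ret (proj (Cyl.rows (2 * n - 1) (cc n (2 * i) ω) (2 * i) (s0 n)).1)} := by
      ext ω
      simp only [Set.mem_ofPred_eq]
      rw [bclM_ncard hn (even_two_mul i)]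
    rw [hset]
    refine (perc_pred hn (2 * i) (fun σ => k ≤ Cont.ret (proj σ.1))).trans ?_
    refine Finset.sum_congr rfl fun σ _ => ?_
    by_cases hσ : k ≤ Cont.ret (proj σ.1)
    · rw [if_pos hσ, if_pos hσ]
    · rw [if_neg hσ, if_neg hσ]
  have h2 : Tendsto (fun i : ℕ => 2 * i) atTop atTop :=
    tendsto_id.const_mul_atTop' (by norm_num)
  have h3 : Tendsto (fun i : ℕ => ∑ σ, if k ≤ Cont.ret (proj σ.1) then
      mu (2 * n - 1) (s0 n) (2 * i) σ else 0) atTop (𝓝 (tl n k : ℂ)) := by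
    rw [← P6.lim_eq' hΨ hn hk (2 * n - 1) (by omega)]
    refine tendsto_finsetSum _ fun σ _ => ?_
    split_ifs
    · exact (mu_tendsto hΨ (2 * n - 1) (s0 n) σ).comp h2
    · exact tendsto_const_nhds
  have h4 : Tendsto (fun i : ℕ => (((perc n).real {ω | k ≤ (bclM n (2 * i) ω).ncard} : ℝ) : ℂ))
      atTop (𝓝 (((perc n).real {ω | k ≤ (bcl n ω).ncard} : ℝ) : ℂ)) :=
    (Complex.continuous_ofReal.tendsto _).comp ((perc_tendsto hn k).comp h2)
  simp only [h1] at h4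
  exact Complex.ofReal_injective (tendsto_nhds_unique h4 h3)

theorem meas_bcl {n : ℕ} (hn : 1 ≤ n) (k : ℕ) : MeasurableSet {ω : Conf n | k ≤ (bcl n ω).ncard} := by
  have hne : NeZero (2 * n) := ⟨by omega⟩
  have h1 : {ω : Conf n | k ≤ (bcl n ω).ncard} = ⋃ i : ℕ, {ω | k ≤ (bclM n (2 * i) ω).ncard} := by
    rw [iUnion_ncard hn k]
    apply Set.Subset.antisymm
    · intro ω hω
      rw [Set.mem_iUnion] at hω ⊢
      obtain ⟨M, hM⟩ := hω
      refine ⟨M, ?_⟩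
      simp only [Set.mem_ofPred_eq] at hM ⊢
      exact hM.trans (Set.ncard_le_ncard (bclM_mono ω (by omega : M ≤ 2 * M)) (Set.toFinite _))
    · intro ω hω
      rw [Set.mem_iUnion] at hω ⊢
      obtain ⟨i, hi⟩ := hω
      exact ⟨2 * i, hi⟩
  rw [h1]
  refine MeasurableSet.iUnion fun i => ?_
  have hset : {ω : Conf n | k ≤ (bclM n (2 * i) ω).ncard} =
      {ω | k ≤ Cont.ret (proj (Cyl.rows (2 * n - 1) (cc n (2 * i) ω) (2 * i) (s0 n)).1)} := by
    ext ω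
    simp only [Set.mem_ofPred_eq]
    rw [bclM_ncard hn (even_two_mul i)]
  rw [hset]
  exact meas_pred hn (2 * i) (fun σ => k ≤ Cont.ret (proj σ.1))

end H731B
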