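import Pool.Agent.H731R6.Bc.HP1
import Pool.Agent.H731R6.Bc.HP2
import Pool.Agent.H731R6.Bc.HP3
import Pool.Agent.H731R6.Bc.HP4
import Pool.Agent.H731R6.Bc.P6

/-!
HP5: assembly of the half-plane law.
-/

set_option autoImplicit false

namespace H731B

open MeasureTheory Filter Topology

namespace HP5

theorem map_phi {n : ℕ} (hn : 1 ≤ n) : percH.map (phi n) = perc n := by
  haveI : NeZero (2 * n) := ⟨by omega⟩
  unfold percH perc
  exact map_inj _ (fun p : ZMod (2 * n) × ℕ => ((lft n p.1, p.2) : ℤ × ℕ)) (lft_inj hn)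

theorem meas_phi (n : ℕ) : Measurable (phi n) :=
  measurable_pi_lambda _ (fun _ => measurable_pi_apply _)

theorem prob_phi {n k : ℕ} (hn : 1 ≤ n) (hk : k ≤ n) :
    percH.real {ω | k ≤ (bcl n (phi n ω)).ncard} = tl n k := by
  rw [← exact_law hn hk, ← map_phi hn, map_measureReal_apply (meas_phi n) (meas_bcl hn k)]
  rfl

instance : IsProbabilityMeasure percH := by unfold percH; infer_instance

theorem key {n k R : ℕ} (hn : 1 ≤ n) (hk : k ≤ n) (hR : R ≤ n) :
    |percH.real {ω | (k : ℕ∞) ≤ (bclH ω).encard} - tl n k| ≤ percH.real (esc R) := by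
  rw [← prob_phi hn hk]
  have h1 : ∀ ω, ω ∉ esc R →
      ((k : ℕ∞) ≤ (bclH ω).encard ↔ k ≤ (bcl n (phi n ω)).ncard) := by
    intro ω hω
    obtain ⟨h2, h3⟩ := bcl_phi hn hR ω hω
    rw [h3, ← h2.cast_ncard_eq]
    exact Nat.cast_le
  have h2 : percH.real {ω | (k : ℕ∞) ≤ (bclH ω).encard} ≤
      percH.real {ω | k ≤ (bcl n (phi n ω)).ncard} + percH.real (esc R) := by
    refine le_trans (measureReal_mono ?_ (measure_ne_top _ _)) (measureReal_union_le _ _)
    intro ω hω
    by_cases h : ω ∈ esc R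
    · exact Or.inr h
    · exact Or.inl ((h1 ω h).1 hω)
  have h3 : percH.real {ω | k ≤ (bcl n (phi n ω)).ncard} ≤
      percH.real {ω | (k : ℕ∞) ≤ (bclH ω).encard} + percH.real (esc R) := by
    refine le_trans (measureReal_mono ?_ (measure_ne_top _ _)) (measureReal_union_le _ _)
    intro ω hω
    by_cases h : ω ∈ esc R
    · exact Or.inr h
    · exact Or.inl ((h1 ω h).2 hω)
  rw [abs_le]
  constructor <;> linarith

end HP5

theorem half_plane {k : ℕ} (hk : 1 ≤ k) : percH.real {ω | (k : ℕ∞) ≤ (bclH ω).encard} =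
    ((2 * k).choose k : ℝ) * (3 * k - 1) / ((2 * k - 1) * 4 ^ k) := by
  have h1 := tl_limit hk
  set p := percH.real {ω | (k : ℕ∞) ≤ (bclH ω).encard} with hp
  have h2 : Tendsto (fun n => |p - tl n k|) atTop (𝓝 0) := by
    rw [Metric.tendsto_atTop]
    intro ε hε
    obtain ⟨R, hR⟩ := (Metric.tendsto_atTop.1 esc_tendsto) ε hε
    refine ⟨max (max R k) 1, fun n hn => ?_⟩
    have h3 := HP5.key (n := n) (k := k) (R := R) (by omega) (by omega) (by omega)
    have h4 := hR R le_rfl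
    rw [Real.dist_eq, sub_zero] at h4 ⊢
    rw [abs_abs]
    exact lt_of_le_of_lt h3 (lt_of_le_of_lt (le_abs_self _) h4)
  have h3 : Tendsto (fun n => tl n k) atTop (𝓝 p) := by
    rw [tendsto_iff_dist_tendsto_zero]
    refine h2.congr (fun n => ?_)
    rw [Real.dist_eq, abs_sub_comm]
  exact tendsto_nhds_unique h3 h1

end H731B
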