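import Pool.Agent.H731R6.Bc.W3
import Pool.Agent.H863R2.Cyl.Lst

/-!
L1a: exchange relation and recursion for the functionals `cl Ψ F`.

`hΨ : Cyl.Fam (q^2) Ψ` (structure in `H863R2.Cyl.Defs`): the parameter of the family is `q²`, so `hΨ.exch` reads
`(q² y - q x) Ψ(u,y,x,v) = (q² x - q y) Ψ(u,x,y,v) + (x - y) act Ψ(u,x,y,v)` (`(q²)² = q`); multiply by `-1`.
`hΨ.recu`: letters `x, q² x`, factor `x ∏ (y - q x)²`.  Words in the support of `Ψ l` are admissible of length `l.length`
(`hΨ.mem`, `VN`, `Finsupp.supported`), so `proj_act`, `proj_ins` (W1, W2) apply (`Cyl.lins` is an abbreviation of `Perc.ins`);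
`Cyl.lin f = Finsupp.lmapDomain`, sums with `Finsupp.sum_mapDomain_index`, `Finsupp.sum_add_index'`, `Finsupp.sum_smul_index'`.
Convenient: `cl Ψ F l = Finsupp.linearCombination ℂ (fun w => F (proj w)) (Ψ l)` (or `Finsupp.lsum`), a linear map.
-/

set_option autoImplicit false

namespace H731B

open Pool.Agent.H988R2 Pool.Agent.H863R2 Pool.Agent.H980R2
open Pool.Agent.H988R2.Perc (Word Dyck q PD q_spec q_cube q_ne_zero q_ne_one)

namespace L1a

/-- the linear functional `v ↦ ∑ v(w) F(proj w)` -/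
noncomputable def LC (F : Word → ℂ) : Cyl.VW →ₗ[ℂ] ℂ :=
  Finsupp.linearCombination ℂ (fun w => F (proj w))

theorem cl_eq (Ψ : List ℂ → Cyl.VW) (F : Word → ℂ) (l : List ℂ) : cl Ψ F l = LC F (Ψ l) := by
  unfold cl LC
  rw [Finsupp.linearCombination_apply]
  rfl

theorem LC_lin (F F' : Word → ℂ) (f : Word → Word) (v : Cyl.VW) (N : ℕ) (hv : v ∈ Cyl.VN N)
    (h : ∀ w : Word, w.length = N → Cyl.Ok w → F (proj (f w)) = F' (proj w)) :
    LC F (Cyl.lin f v) = LC F' v := by
  unfold LC Cyl.lin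
  rw [Finsupp.lmapDomain_apply, Finsupp.linearCombination_mapDomain,
    Finsupp.linearCombination_apply, Finsupp.linearCombination_apply]
  refine Finsupp.sum_congr fun w hw => ?_
  have h1 : w.length = N ∧ Cyl.Ok w := (Finsupp.mem_supported _ _).mp hv hw
  rw [Function.comp_apply, h w h1.1 h1.2]

theorem q_four : (q ^ 2) ^ 2 = q := by
  have h := q_cube
  calc (q ^ 2) ^ 2 = q ^ 3 * q := by ring
    _ = q := by rw [h, one_mul]

end L1a

theorem cl_exch {Ψ : List ℂ → Cyl.VW} (hΨ : Cyl.Fam (q^2) Ψ) (F : Word → ℂ) (u v : List ℂ) (x y : ℂ)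
    (h : Even (u.length + v.length)) :
    (q * x - q^2 * y) * cl Ψ F (u ++ y :: x :: v) =
      (q * y - q^2 * x) * cl Ψ F (u ++ x :: y :: v) +
      (y - x) * cl Ψ (fun w => F (Perc.act u.length w)) (u ++ x :: y :: v) := by
  have h1 := congrArg (L1a.LC F) (hΨ.exch u v x y)
  rw [L1a.q_four] at h1
  rw [map_smul, map_add, map_smul, map_smul] at h1
  have hlen : (u ++ x :: y :: v).length = u.length + v.length + 2 := by simp; omega
  rw [L1a.LC_lin F (fun w => F (Perc.act u.length w)) (Cyl.act u.length) _ _ (hΨ.mem _)] at h1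
  · rw [← L1a.cl_eq, ← L1a.cl_eq, ← L1a.cl_eq] at h1
    simp only [smul_eq_mul] at h1
    linear_combination -h1
  · intro w hw hok
    rw [hlen] at hw
    rw [proj_act hok (by rw [hw]; exact h.add (by decide)) (by rw [hw]; omega)]

theorem cl_rec {Ψ : List ℂ → Cyl.VW} (hΨ : Cyl.Fam (q^2) Ψ) (F : Word → ℂ) (u v : List ℂ) (x : ℂ)
    (h : Even (u.length + v.length)) :
    cl Ψ F (u ++ x :: (q^2 * x) :: v) =
      facc x (u ++ v) * cl Ψ (fun w => F (Perc.ins u.length w)) (u ++ v) := by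
  have h1 := congrArg (L1a.LC F) (hΨ.recu u v x)
  rw [map_smul] at h1
  rw [L1a.LC_lin F (fun w => F (Perc.ins u.length w)) (Cyl.lins u.length) _ _ (hΨ.mem _)] at h1
  · rw [← L1a.cl_eq, ← L1a.cl_eq] at h1
    rw [h1, smul_eq_mul]
    congr 1
    unfold Cyl.fac facc
    rw [L1a.q_four]
  · intro w hw hok
    have h2 : u.length ≤ w.length := by rw [hw, List.length_append]; omega
    show F (proj (Perc.ins u.length w)) = _
    rw [proj_ins u.length w h2]

end H731B
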