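import Pool.Agent.H731R6.Bc.W3
import Pool.Agent.H863R2.Cyl.Lst
import Pool.Agent.H988R2.Perc.T03

/-!
L1b: rotation, degree and linearity of the functionals `cl Ψ F` (helper338).

`hΨ : Cyl.Fam (q^2) Ψ` (structure in `H863R2.Cyl.Defs`).  Words in the support of `Ψ l` are admissible of length `l.length`
(`hΨ.mem`, `VN`, `Finsupp.supported`).  `cl_rot`: `hΨ.rot` and `oo_rot` (W3).  `cl_pd`: `cl Ψ F l` is a finite sum over the words
`w` of length `N` (finite set, e.g. the image of `Wd N`, or `List.finite_length_eq`) of `F (proj w) * Ψ l w`, each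
`PD N (N-1)` (`hΨ.deg`); `PD.sum`, `PD.smul` in `H988R2.Perc` (see `lin_pd` in `H980R2.Cross.T03`).
`cl_congr`: `proj_dyck`, `length_proj`.
-/

set_option autoImplicit false

namespace H731B

open Pool.Agent.H988R2 Pool.Agent.H863R2 Pool.Agent.H980R2
open Pool.Agent.H988R2.Perc (Word Dyck q PD q_spec q_cube q_ne_zero q_ne_one)

namespace L1b

theorem supp {Ψ : List ℂ → Cyl.VW} (hΨ : Cyl.Fam (q^2) Ψ) (l : List ℂ) {w : Word}
    (hw : w ∈ (Ψ l).support) : w.length = l.length ∧ Cyl.Ok w := by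
  have h := hΨ.mem l
  unfold Cyl.VN at h
  rw [Finsupp.mem_supported] at h
  exact h (Finset.mem_coe.2 hw)

end L1b

theorem cl_rot {Ψ : List ℂ → Cyl.VW} (hΨ : Cyl.Fam (q^2) Ψ) (x : ℂ) (m : List ℂ) (hm : Odd m.length) :
    cl Ψ (fun w => 1 - a01 w) (x :: m) = cl Ψ (fun w => 1 - Cont.oo w) (m ++ [x]) := by
  unfold cl
  rw [hΨ.rot x m]
  unfold Cyl.lin
  rw [Finsupp.lmapDomain_apply, Finsupp.sum_mapDomain_index (fun _ => zero_mul _)
    (fun _ _ _ => add_mul _ _ _)]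
  refine Finsupp.sum_congr fun w hw => ?_
  obtain ⟨h1, h2⟩ := L1b.supp hΨ _ hw
  have h3 : w.length = m.length + 1 := by rw [h1]; simp
  have he : Even w.length := by rw [h3]; exact hm.add_one
  have h4 : 2 ≤ w.length := by
    obtain ⟨k, hk⟩ := hm
    omega
  show (Ψ (m ++ [x])) w * (1 - a01 (proj (Cyl.rotr w))) =
    (Ψ (m ++ [x])) w * (1 - Cont.oo (proj w))
  rw [oo_rot h2 he h4]

theorem cl_pd {Ψ : List ℂ → Cyl.VW} (hΨ : Cyl.Fam (q^2) Ψ) (F : Word → ℂ) (N : ℕ) :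
    PD N (N-1) (cl Ψ F) := by
  classical
  have h1 : PD N (N-1) (fun l => ∑ w ∈ (List.finite_length_eq Bool N).toFinset,
      F (proj w) * Ψ l w) :=
    Perc.PD.sum _ fun w _ => (hΨ.deg N w).smul _
  refine h1.congr fun l hl => ?_
  unfold cl
  rw [Finsupp.sum_of_support_subset (s := (List.finite_length_eq Bool N).toFinset)]
  · exact Finset.sum_congr rfl fun w _ => mul_comm _ _
  · intro w hw
    rw [Set.Finite.mem_toFinset]
    show w.length = N
    rw [(L1b.supp hΨ _ hw).1, hl]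
  · intro w _
    exact zero_mul _

theorem cl_congr {Ψ : List ℂ → Cyl.VW} (hΨ : Cyl.Fam (q^2) Ψ) {F G : Word → ℂ} {l : List ℂ}
    (he : Even l.length) (h : ∀ w, Dyck w → w.length = l.length → F w = G w) :
    cl Ψ F l = cl Ψ G l := by
  unfold cl
  refine Finsupp.sum_congr fun w hw => ?_
  obtain ⟨h1, h2⟩ := L1b.supp hΨ _ hw
  rw [h (proj w) (proj_dyck h2 (by rw [h1]; exact he)) (by rw [length_proj, h1])]

theorem cl_add (Ψ : List ℂ → Cyl.VW) (F G : Word → ℂ) (l : List ℂ) :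
    cl Ψ (fun w => F w + G w) l = cl Ψ F l + cl Ψ G l := by
  unfold cl Finsupp.sum
  rw [← Finset.sum_add_distrib]
  exact Finset.sum_congr rfl fun w _ => mul_add _ _ _

theorem cl_sub (Ψ : List ℂ → Cyl.VW) (F G : Word → ℂ) (l : List ℂ) :
    cl Ψ (fun w => F w - G w) l = cl Ψ F l - cl Ψ G l := by
  unfold cl Finsupp.sum
  rw [← Finset.sum_sub_distrib]
  exact Finset.sum_congr rfl fun w _ => mul_sub _ _ _

theorem cl_smul (Ψ : List ℂ → Cyl.VW) (c : ℂ) (F : Word → ℂ) (l : List ℂ) :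
    cl Ψ (fun w => c * F w) l = c * cl Ψ F l := by
  unfold cl Finsupp.sum
  rw [Finset.mul_sum]
  exact Finset.sum_congr rfl fun w _ => mul_left_comm _ _ _

theorem cl_zero (Ψ : List ℂ → Cyl.VW) (l : List ℂ) : cl Ψ (fun _ => 0) l = 0 := by
  unfold cl Finsupp.sum
  simp

end H731B
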