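import Pool.Agent.H731R6.Bc.L1a
import Pool.Agent.H731R6.Bc.L1b
import Pool.Agent.H980R2.Cont.T01
import Pool.Agent.H980R2.Cross.T05

/-!
L2: the total mass.

`ZZ_perm`: adjacent transpositions suffice (`List.Perm` induction with a prefix, or `List.Perm` generated by swaps):
`cl_exch` with `F = 1` gives `(q x - q² y) (Z(u,y,x,v) - Z(u,x,y,v)) = 0` as `(q y - q² x) + (y - x) = q x - q² y`
(`q² + q + 1 = 0`); extend to all `x` by polynomiality (`cl_pd`, `PD.univ` and `T05.IsPoly.eq_of_ne` in `H980R2.Cross.T05`;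
see `OO_exch_even` in `H980R2.Cont.T03`).
`ZZ_ones_ne`: `hΨ.tot_ne`, `Cyl.tot = Finsupp.linearCombination ℂ (fun _ => 1)`.
`sum_sm`: for Dyck words of length `2 n`, `1 ≤ n`: `1 ≤ ret w ≤ n` (`Cont.ret_pos`, `Cont.ret_le`).
-/

set_option autoImplicit false

namespace H731B

open Pool.Agent.H988R2 Pool.Agent.H863R2 Pool.Agent.H980R2
open Pool.Agent.H988R2.Perc (Word Dyck q PD q_spec q_cube q_ne_zero q_ne_one)

namespace L2

theorem ZZ_poly {Ψ : List ℂ → Cyl.VW} (hΨ : Cyl.Fam (q^2) Ψ) (u v : List ℂ) :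
    Cross.T05.IsPoly (fun z => ZZ Ψ (u ++ z :: v)) := by
  obtain ⟨P, _, hP⟩ := (cl_pd hΨ (fun _ => 1) (u.length + v.length + 1)).univ u v rfl
  exact ⟨P, hP⟩

theorem ZZ_swap {Ψ : List ℂ → Cyl.VW} (hΨ : Cyl.Fam (q^2) Ψ) (u v : List ℂ) (x y : ℂ)
    (h : Even (u.length + v.length)) : ZZ Ψ (u ++ y :: x :: v) = ZZ Ψ (u ++ x :: y :: v) := by
  have hgen : ∀ x : ℂ, x ∉ ({q * y} : Finset ℂ) →
      ZZ Ψ (u ++ y :: x :: v) = ZZ Ψ (u ++ x :: y :: v) := by
    intro x hx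
    have hx' : x ≠ q * y := fun h => hx (Finset.mem_singleton.mpr h)
    have h1 := cl_exch hΨ (fun _ => 1) u v x y h
    apply mul_left_cancel₀ (Cross.T05.gen_ne hx')
    unfold ZZ
    linear_combination h1 + (y - x) * q_spec * cl Ψ (fun _ => 1) (u ++ x :: y :: v)
  have e1 : (fun z => ZZ Ψ ((u ++ [y]) ++ z :: v)) = fun z => ZZ Ψ (u ++ y :: z :: v) := by
    funext z; simp
  have p1 : Cross.T05.IsPoly (fun z => ZZ Ψ (u ++ y :: z :: v)) := by
    rw [← e1]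
    exact ZZ_poly hΨ _ _
  have p2 : Cross.T05.IsPoly (fun z => ZZ Ψ (u ++ z :: y :: v)) := ZZ_poly hΨ _ _
  exact Cross.T05.IsPoly.eq_of_ne p1 p2 {q * y} hgen x

theorem ZZ_perm_aux {Ψ : List ℂ → Cyl.VW} (hΨ : Cyl.Fam (q^2) Ψ) {l l' : List ℂ}
    (hp : l.Perm l') : ∀ u : List ℂ, Even (u.length + l.length) →
      ZZ Ψ (u ++ l) = ZZ Ψ (u ++ l') := by
  induction hp with
  | nil => intro u _; rfl
  | cons x _ ih =>
    intro u hu
    have h1 := ih (u ++ [x]) (by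
      rw [List.length_append, List.length_singleton]
      rw [List.length_cons] at hu
      rw [add_assoc, add_comm 1]
      exact hu)
    simpa using h1
  | swap x y l =>
    intro u hu
    refine ZZ_swap hΨ u l x y ?_
    rw [List.length_cons, List.length_cons] at hu
    obtain ⟨k, hk⟩ := hu
    exact ⟨k - 1, by omega⟩
  | trans h1 _ ih1 ih2 =>
    intro u hu
    rw [ih1 u hu]
    exact ih2 u (by rw [← h1.length_eq]; exact hu)

theorem cl_sum {Ψ : List ℂ → Cyl.VW} (s : Finset ℕ) (F : ℕ → Word → ℂ) (l : List ℂ) :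
    ∑ j ∈ s, cl Ψ (F j) l = cl Ψ (fun w => ∑ j ∈ s, F j w) l := by
  classical
  induction s using Finset.induction_on with
  | empty => simp [cl_zero]
  | insert a s ha ih =>
    rw [Finset.sum_insert ha, ih, ← cl_add]
    congr 1
    funext w
    rw [Finset.sum_insert ha]

end L2

theorem ZZ_perm {Ψ : List ℂ → Cyl.VW} (hΨ : Cyl.Fam (q^2) Ψ) {l l' : List ℂ} (hp : l.Perm l')
    (he : Even l.length) : ZZ Ψ l = ZZ Ψ l' := by
  have h := L2.ZZ_perm_aux hΨ hp [] (by simpa using he)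
  simpa using h

theorem ZZ_ones_ne {Ψ : List ℂ → Cyl.VW} (hΨ : Cyl.Fam (q^2) Ψ) (N : ℕ) :
    ZZ Ψ (List.replicate N 1) ≠ 0 := by
  have h := hΨ.tot_ne N
  unfold Cyl.tot at h
  rw [Finsupp.linearCombination_apply] at h
  exact h

theorem sum_sm {Ψ : List ℂ → Cyl.VW} (hΨ : Cyl.Fam (q^2) Ψ) {n : ℕ} (hn : 1 ≤ n) :
    ∑ j ∈ Finset.range (n + 1), sm Ψ n j = ZZ Ψ (List.replicate (2 * n) 1) := by
  unfold sm ZZ
  rw [L2.cl_sum]
  refine cl_congr hΨ (by simp) ?_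
  intro w hw hl
  rw [List.length_replicate] at hl
  have h1 := Cont.ret_le hw
  rw [Finset.sum_ite_eq, if_pos]
  rw [Finset.mem_range]
  omega

theorem sm_zero {Ψ : List ℂ → Cyl.VW} (hΨ : Cyl.Fam (q^2) Ψ) {n : ℕ} (hn : 1 ≤ n) :
    sm Ψ n 0 = 0 := by
  unfold sm
  refine (cl_congr hΨ (G := fun _ => 0) (by simp) ?_).trans (cl_zero Ψ _)
  intro w hw hl
  rw [List.length_replicate] at hl
  have h1 := Cont.ret_pos hw (by
    intro h
    rw [h] at hl
    simp at hl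
    omega)
  rw [if_neg (by omega)]

end H731B
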