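import Pool.Agent.H731R6.Bc.PDefs
import Pool.Agent.H731R6.Bc.L1b

/-!
P1: convergence of the Markov chain.  `π σ = Ψ (ones) σ / ZZ`, `∑ π = 1` (`ZZ Ψ l = tot (Ψ l)`, `hΨ.tot_ne`, `hΨ.mem`;
see `ValueAux.tot_eq, lc_eq` in `H863R2.Cyl.Value`), `hΨ.stat`: `π` is stationary.  `v_M = mu M - π` has total mass `0`
(`MK.sum_push'`).  `Cyl.exists_word`: a composition of `K` transfer maps is constant, so by `MK.TT_iter` (see the proof of
`markov_unique` in `H863R2.Cyl.Markov`) `N1 (TT^K v) ≤ (2^((m+1)K) - 1) N1 v` for `v` of total mass zero, i.e.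
`N1 v_{M+K} ≤ (1 - ε) N1 v_M`, `ε = 2^(-(m+1)K) > 0`, and `N1 v_{M+1} ≤ N1 v_M` (`MK.N1_TT`); so `N1 v_M → 0`.
-/

set_option autoImplicit false

namespace H731B

open MeasureTheory Filter Topology
open Pool.Agent.H988R2 Pool.Agent.H863R2 Pool.Agent.H980R2
open Pool.Agent.H988R2.Perc (Word Dyck q)

namespace P1

open Cyl.MK

theorem sum_eq {N : ℕ} (g : Word → ℂ → ℂ) (hg : ∀ w, g w 0 = 0) {v : Cyl.VW}
    (hv : v ∈ Cyl.VN N) : Finsupp.sum v g = ∑ σ : Cyl.Wd N, g σ.1 (v σ.1) := by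
  have h1 : Finsupp.sum v g = ∑ x ∈ (Finset.univ : Finset (Cyl.Wd N)).map
      ⟨fun σ : Cyl.Wd N => σ.1, fun a b h => Subtype.ext h⟩, g x (v x) := by
    apply Finsupp.sum_of_support_subset
    · intro w hw
      rw [Finset.mem_map]
      have h := (Finsupp.mem_supported ℂ v).mp hv hw
      exact ⟨⟨w, h⟩, Finset.mem_univ _, rfl⟩
    · intro i _
      exact hg i
  rw [h1, Finset.sum_map]
  rfl

theorem push_smul {X : Type*} [Fintype X] [DecidableEq X] (f : X → X) (t : ℂ) (v : X → ℂ) :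
    Cyl.push f (t • v) = t • Cyl.push f v := by
  funext y
  simp only [Cyl.push, Pi.smul_apply, smul_eq_mul, Finset.mul_sum, mul_ite, mul_zero]

theorem TT_smul (m : ℕ) (t : ℂ) (v : Cyl.Wd (m + 1) → ℂ) : TT m (t • v) = t • TT m v := by
  simp only [TT, push_smul, Finset.smul_sum]

theorem TT_sub (m : ℕ) (v w : Cyl.Wd (m + 1) → ℂ) : TT m (v - w) = TT m v - TT m w := by
  have h := TT_add m (v - w) w
  rw [sub_add_cancel] at h
  rw [h, add_sub_cancel_right]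

theorem TT_iter_smul (m k : ℕ) (t : ℂ) (v : Cyl.Wd (m + 1) → ℂ) :
    (TT m)^[k] (t • v) = t • (TT m)^[k] v := by
  induction k with
  | zero => rfl
  | succ k ih => rw [Function.iterate_succ_apply', ih, TT_smul, Function.iterate_succ_apply']

theorem N1_smul {X : Type*} [Fintype X] (t : ℂ) (v : X → ℂ) : N1 (t • v) = ‖t‖ * N1 v := by
  unfold N1
  rw [Finset.mul_sum]
  exact Finset.sum_congr rfl fun x _ => norm_mul _ _

theorem le_N1 {X : Type*} [Fintype X] (v : X → ℂ) (x : X) : ‖v x‖ ≤ N1 v :=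
  Finset.single_le_sum (f := fun x => ‖v x‖) (fun _ _ => norm_nonneg _) (Finset.mem_univ x)

theorem mu_succ (m : ℕ) (σ0 : Cyl.Wd (m + 1)) (M : ℕ) :
    mu m σ0 (M + 1) = (2 ^ (m + 1) : ℂ)⁻¹ • TT m (mu m σ0 M) := by
  funext σ
  simp only [Pi.smul_apply, smul_eq_mul, TT, Finset.sum_apply]
  rfl

/-- a real sequence that does not increase and is contracted after `K` steps tends to `0` -/
theorem tendsto_zero (a : ℕ → ℝ) (h0 : ∀ M, 0 ≤ a M) (h1 : ∀ M, a (M + 1) ≤ a M) (K : ℕ) (ε : ℝ)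
    (hε : 0 < ε) (h2 : ∀ M, a (M + K) ≤ (1 - ε) * a M) : Tendsto a atTop (𝓝 0) := by
  have hanti : Antitone a := antitone_nat_of_succ_le h1
  have hbdd : BddBelow (Set.range a) := ⟨0, by rintro _ ⟨M, rfl⟩; exact h0 M⟩
  have hlim := tendsto_atTop_ciInf hanti hbdd
  set L : ℝ := ⨅ i, a i with hL
  have hlimK : Tendsto (fun M => a (M + K)) atTop (𝓝 L) := (tendsto_add_atTop_iff_nat K).2 hlim
  have hle : L ≤ (1 - ε) * L :=
    le_of_tendsto_of_tendsto' hlimK (hlim.const_mul (1 - ε)) h2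
  have hL0 : 0 ≤ L := ge_of_tendsto' hlim h0
  have hL1 : L = 0 := by nlinarith
  rw [hL1] at hlim
  exact hlim

end P1

open P1 Cyl.MK

theorem cl_eq_sum {Ψ : List ℂ → Cyl.VW} (hΨ : Cyl.Fam (q^2) Ψ) (F : Word → ℂ) (l : List ℂ) :
    cl Ψ F l = ∑ σ : Cyl.Wd l.length, Ψ l σ.1 * F (proj σ.1) := by
  unfold cl
  exact P1.sum_eq (fun w a => a * F (proj w)) (fun w => zero_mul _) (hΨ.mem l)

theorem mu_sum (m : ℕ) (σ0 : Cyl.Wd (m + 1)) (M : ℕ) : ∑ σ, mu m σ0 M σ = 1 := by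
  induction M with
  | zero =>
    unfold mu
    simp
  | succ M ih =>
    have h1 : ∑ σ, mu m σ0 (M + 1) σ = (2 ^ (m + 1) : ℂ)⁻¹ *
        ∑ c : Fin (m + 1) → Bool, ∑ σ, Cyl.push (Cyl.Tc m c) (mu m σ0 M) σ := by
      rw [Finset.sum_comm, Finset.mul_sum]
      rfl
    rw [h1]
    have h2 : ∀ c : Fin (m + 1) → Bool, ∑ σ, Cyl.push (Cyl.Tc m c) (mu m σ0 M) σ = 1 := by
      intro c
      rw [sum_push', ih]
    rw [Finset.sum_congr rfl fun c _ => h2 c, Finset.sum_const, nsmul_eq_mul, mul_one,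
      Finset.card_univ, Fintype.card_fun, Fintype.card_bool, Fintype.card_fin]
    push_cast
    exact inv_mul_cancel₀ (pow_ne_zero _ two_ne_zero)

theorem mu_tendsto {Ψ : List ℂ → Cyl.VW} (hΨ : Cyl.Fam (q^2) Ψ) (m : ℕ) (σ0 σ : Cyl.Wd (m + 1)) :
    Tendsto (fun M => mu m σ0 M σ) atTop
      (𝓝 (Ψ (List.replicate (m + 1) 1) σ.1 / ZZ Ψ (List.replicate (m + 1) 1))) := by
  set P := Ψ (List.replicate (m + 1) 1) with hP
  set Z := ZZ Ψ (List.replicate (m + 1) 1) with hZ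
  have hmem : P ∈ Cyl.VN (m + 1) := by
    have := hΨ.mem (List.replicate (m + 1) 1)
    rwa [List.length_replicate] at this
  have hZsum : Z = ∑ σ : Cyl.Wd (m + 1), P σ.1 := by
    have h := P1.sum_eq (fun (w : Word) (a : ℂ) => a * 1) (fun w => zero_mul _) hmem
    simp only [mul_one] at h
    rw [← h, hZ]
    unfold ZZ cl
    simp only [mul_one]
    rfl
  have hZtot : Z = Cyl.tot P := by
    have h := P1.sum_eq (fun (w : Word) (a : ℂ) => a • (1 : ℂ)) (fun w => zero_smul _ _) hmem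
    rw [hZsum]
    unfold Cyl.tot
    rw [Finsupp.linearCombination_apply, h]
    simp
  have hZ0 : Z ≠ 0 := by
    rw [hZtot]
    exact hΨ.tot_ne (m + 1)
  set pi : Cyl.Wd (m + 1) → ℂ := fun σ => P σ.1 / Z with hpi
  have hpisum : ∑ σ, pi σ = 1 := by
    simp only [hpi]
    rw [← Finset.sum_div, ← hZsum, div_self hZ0]
  have h2ne : (2 ^ (m + 1) : ℂ) ≠ 0 := pow_ne_zero _ two_ne_zero
  have hpistat : pi = (2 ^ (m + 1) : ℂ)⁻¹ • TT m pi := by
    have e1 : pi = Z⁻¹ • (fun τ : Cyl.Wd (m + 1) => P τ.1) := by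
      funext τ
      simp only [hpi, Pi.smul_apply, smul_eq_mul]
      rw [div_eq_inv_mul]
    have e2 : TT m (fun τ : Cyl.Wd (m + 1) => P τ.1) =
        (2 ^ (m + 1) : ℂ) • (fun τ : Cyl.Wd (m + 1) => P τ.1) := by
      funext τ
      simp only [TT, Finset.sum_apply, Pi.smul_apply, smul_eq_mul]
      exact hΨ.stat m τ
    rw [e1, TT_smul, e2, smul_comm Z⁻¹, smul_smul, inv_mul_cancel₀ h2ne, one_smul]
  set V : ℕ → Cyl.Wd (m + 1) → ℂ := fun M => mu m σ0 M - pi with hV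
  have hVsum : ∀ M, ∑ σ, V M σ = 0 := by
    intro M
    simp only [hV, Pi.sub_apply]
    rw [Finset.sum_sub_distrib, mu_sum, hpisum, sub_self]
  have hVsucc : ∀ M, V (M + 1) = (2 ^ (m + 1) : ℂ)⁻¹ • TT m (V M) := by
    intro M
    simp only [hV]
    rw [TT_sub, smul_sub, ← hpistat, mu_succ]
  have hViter : ∀ M k, V (M + k) = ((2 ^ (m + 1) : ℂ)⁻¹) ^ k • (TT m)^[k] (V M) := by
    intro M k
    induction k with
    | zero => simp
    | succ k ih =>
      rw [← Nat.add_assoc, hVsucc, ih, TT_smul, smul_smul, ← pow_succ',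
        Function.iterate_succ_apply']
  obtain ⟨K, w, hw, hbase⟩ := Cyl.exists_word m
  have hpush : ∀ M, Cyl.push w (V M) = 0 := by
    intro M
    funext y
    simp only [Cyl.push, hbase]
    split_ifs with hy
    · simpa using hVsum M
    · simp
  have hnorm : ∀ k : ℕ, ‖((2 ^ (m + 1) : ℂ)⁻¹) ^ k‖ = ((2 ^ (m + 1) : ℝ)⁻¹) ^ k := by
    intro k
    rw [norm_pow, norm_inv, norm_pow]
    simp
  have hp : (0 : ℝ) < 2 ^ (m + 1) := by positivity
  have h1 : ∀ M, N1 (V (M + 1)) ≤ N1 (V M) := by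
    intro M
    have h := hnorm 1
    rw [pow_one, pow_one] at h
    rw [hVsucc, N1_smul, h]
    calc (2 ^ (m + 1) : ℝ)⁻¹ * N1 (TT m (V M)) ≤ (2 ^ (m + 1) : ℝ)⁻¹ * (2 ^ (m + 1) * N1 (V M)) :=
          mul_le_mul_of_nonneg_left (N1_TT m (V M)) (by positivity)
      _ = N1 (V M) := by
          rw [← mul_assoc, inv_mul_cancel₀ hp.ne', one_mul]
  have h2 : ∀ M, N1 (V (M + K)) ≤ (1 - ((2 ^ (m + 1) : ℝ)⁻¹) ^ K) * N1 (V M) := by
    intro M
    obtain ⟨r, hr, hN⟩ := TT_iter m K w hw (V M)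
    rw [hpush, zero_add] at hr
    rw [hViter, N1_smul, hnorm, hr]
    calc ((2 ^ (m + 1) : ℝ)⁻¹) ^ K * N1 r
        ≤ ((2 ^ (m + 1) : ℝ)⁻¹) ^ K * (((2 ^ (m + 1)) ^ K - 1) * N1 (V M)) :=
          mul_le_mul_of_nonneg_left hN (by positivity)
      _ = (1 - ((2 ^ (m + 1) : ℝ)⁻¹) ^ K) * N1 (V M) := by
          have h3 : ((2 ^ (m + 1) : ℝ)⁻¹) ^ K * (2 ^ (m + 1)) ^ K = 1 := by
            rw [← mul_pow, inv_mul_cancel₀ hp.ne', one_pow]
          rw [← mul_assoc, mul_sub, h3, mul_one]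
  have hlim := P1.tendsto_zero (fun M => N1 (V M)) (fun M => N1_nonneg _) h1 K
    (((2 ^ (m + 1) : ℝ)⁻¹) ^ K) (by positivity) h2
  have hV0 : Tendsto (fun M => V M σ) atTop (𝓝 0) :=
    squeeze_zero_norm (fun M => le_N1 (V M) σ) hlim
  have hfin := hV0.add_const (pi σ)
  rw [zero_add] at hfin
  refine hfin.congr fun M => ?_
  simp only [hV, Pi.sub_apply]
  ring

end H731B
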