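import Pool.Agent.H731R6.Bc.PDefs

/-!
P2a: the plaquette states of the first `M` rows are independent fair bits.  `(r, j) ↦ ((j : ZMod (2n)), M - 1 - r)` is
injective on `Fin M × Fin (2n)` (`ZMod.natCast_eq_natCast_iff`, `1 ≤ n`), and the map `bits ↦ states` (negation of the bits of
the odd cells) is a bijection.  Probability of a cylinder set: `Measure.infinitePi_pi` or `infinitePi_cylinder`; each single
configuration of the `M * (2 n)` bits has probability `2^(-M (2n))` (compare `T23.perc_cell` in `H988R2.Perc.T23`, `perc_cnt`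
in `H980R2.Cont.T18`).
-/

set_option autoImplicit false

namespace H731B

open MeasureTheory Filter Topology
open Pool.Agent.H988R2 Pool.Agent.H863R2 Pool.Agent.H980R2
open Pool.Agent.H988R2.Perc (Word Dyck q)

namespace P2a

/-- the cell of a plaquette -/
def cell (n M : ℕ) (p : Fin M × Fin (2 * n - 1 + 1)) : ZMod (2 * n) × ℕ :=
  ((p.2.val : ZMod (2 * n)), M - 1 - p.1.val)

theorem cell_inj {n : ℕ} (hn : 1 ≤ n) (M : ℕ) : Function.Injective (cell n M) := by
  rintro ⟨r, j⟩ ⟨r', j'⟩ h
  unfold cell at h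
  rw [Prod.mk.injEq] at h
  obtain ⟨h1, h2⟩ := h
  have hr := r.isLt
  have hr' := r'.isLt
  have hj := j.isLt
  have hj' := j'.isLt
  simp only at h1 h2
  rw [ZMod.natCast_eq_natCast_iff] at h1
  have h3 : j.val = j'.val := Nat.ModEq.eq_of_lt_of_lt h1 (by omega) (by omega)
  have h4 : r.val = r'.val := by omega
  exact Prod.ext (Fin.ext h4) (Fin.ext h3)

/-- the bit of a state -/
def bit (n M : ℕ) (s : Fin M → Fin (2 * n - 1 + 1) → Bool) (p : Fin M × Fin (2 * n - 1 + 1)) :
    Bool :=
  if Even (p.2.val + (M - 1 - p.1.val)) then s p.1 p.2 else !s p.1 p.2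

/-- all the states -/
def Phi (n M : ℕ) (ω : Conf n) : Fin M → Fin (2 * n - 1 + 1) → Bool :=
  fun r j => cc n M ω r j

theorem Phi_eq (n M : ℕ) (ω : Conf n) (s : Fin M → Fin (2 * n - 1 + 1) → Bool) :
    Phi n M ω = s ↔ ∀ p, ω (cell n M p) = bit n M s p := by
  constructor
  · rintro rfl ⟨r, j⟩
    unfold bit Phi cc cell
    simp only
    split_ifs <;> simp
  · intro h
    funext r j
    have h1 := h (r, j)
    unfold bit cell at h1
    unfold Phi cc
    simp only at h1
    split_ifs at h1 ⊢
    · exact h1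
    · rw [h1, Bool.not_not]

theorem Phi_meas (n M : ℕ) : Measurable (Phi n M) := by
  refine measurable_pi_lambda _ fun r => measurable_pi_lambda _ fun j => ?_
  unfold Phi cc
  split_ifs
  · exact measurable_pi_apply _
  · exact (measurable_of_countable (fun b : Bool => !b)).comp (measurable_pi_apply _)

theorem coin (b : Bool) : (PMF.uniformOfFintype Bool).toMeasure {b} = 2⁻¹ := by
  rw [PMF.toMeasure_apply_singleton _ _ (measurableSet_singleton b), PMF.uniformOfFintype_apply]
  simp

theorem single {n : ℕ} (hn : 1 ≤ n) (M : ℕ) (s : Fin M → Fin (2 * n - 1 + 1) → Bool) :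
    (perc n).real (Phi n M ⁻¹' {s}) = 1 / 2 ^ (M * (2 * n)) := by
  classical
  have h1 : Phi n M ⁻¹' {s} = Set.pi ((Finset.univ.image (cell n M) : Finset _) : Set _)
      (fun c => {b | ∀ p, cell n M p = c → b = bit n M s p}) := by
    ext ω
    rw [Set.mem_preimage, Set.mem_singleton_iff, Phi_eq, Set.mem_pi]
    constructor
    · intro h c _ p hp
      rw [← hp]
      exact h p
    · intro h p
      exact h (cell n M p) (by simp) p rfl
  rw [h1]
  unfold perc
  rw [measureReal_def, Measure.infinitePi_pi _ (fun i _ => (Set.toFinite _).measurableSet),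
    Finset.prod_image (fun a _ b _ h => cell_inj hn M h)]
  have h2 : ∀ p : Fin M × Fin (2 * n - 1 + 1), (PMF.uniformOfFintype Bool).toMeasure
      {b | ∀ p', cell n M p' = cell n M p → b = bit n M s p'} = 2⁻¹ := by
    intro p
    have : {b | ∀ p', cell n M p' = cell n M p → b = bit n M s p'} = {bit n M s p} := by
      ext b
      rw [Set.mem_ofPred_eq, Set.mem_singleton_iff]
      constructor
      · intro h
        exact h p rfl
      · intro h p' hp'
        rw [cell_inj hn M hp', h]
    rw [this]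
    exact coin _
  rw [Finset.prod_congr rfl fun p _ => h2 p, Finset.prod_const, Finset.card_univ,
    Fintype.card_prod, Fintype.card_fin, Fintype.card_fin,
    show 2 * n - 1 + 1 = 2 * n by omega]
  rw [ENNReal.toReal_pow, ENNReal.toReal_inv]
  simp

end P2a

theorem meas_fin {n : ℕ} (hn : 1 ≤ n) (M : ℕ) (S : Set (Fin M → Fin (2 * n - 1 + 1) → Bool)) :
    MeasurableSet {ω : Conf n | (fun (r : Fin M) (j : Fin (2 * n - 1 + 1)) => cc n M ω r j) ∈ S} :=
  (P2a.Phi_meas n M) (Set.toFinite S).measurableSet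

open Classical in
theorem perc_fin {n : ℕ} (hn : 1 ≤ n) (M : ℕ) (S : Set (Fin M → Fin (2 * n - 1 + 1) → Bool)) :
    (perc n).real {ω | (fun (r : Fin M) (j : Fin (2 * n - 1 + 1)) => cc n M ω r j) ∈ S} =
      ((Finset.univ.filter (· ∈ S)).card : ℝ) / 2 ^ (M * (2 * n)) := by
  have hprob : IsProbabilityMeasure (perc n) := by
    unfold perc
    infer_instance
  have h1 : {ω : Conf n | (fun (r : Fin M) (j : Fin (2 * n - 1 + 1)) => cc n M ω r j) ∈ S} =
      P2a.Phi n M ⁻¹' ((Finset.univ.filter (· ∈ S) : Finset _) : Set _) := by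
    ext ω
    rw [Set.mem_preimage, Finset.mem_coe, Finset.mem_filter]
    exact ⟨fun h => ⟨Finset.mem_univ _, h⟩, fun h => h.2⟩
  rw [h1, ← sum_measureReal_preimage_singleton _ (fun y _ =>
    (P2a.Phi_meas n M) (measurableSet_singleton y)), Finset.sum_congr rfl fun s _ =>
    P2a.single hn M s, Finset.sum_const, nsmul_eq_mul]
  ring

end H731B
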