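import Pool.Agent.H731R6.Bc.PDefs

/-!
P3a: connections of the faces project to open paths.  The face `(a, r)` (`a : ℤ`, height `r ≤ M`) corresponds to the vertex
`π (a, r) = ((a : ZMod (2n)), M - r)`; it is a vertex iff `a + (M - r)` is even.
-/

set_option autoImplicit false

namespace H731B

open MeasureTheory Filter Topology
open Pool.Agent.H988R2 Pool.Agent.H863R2 Pool.Agent.H980R2
open Pool.Agent.H988R2.Perc (Word Dyck q)

theorem w0_length (n : ℕ) : (w0 n).length = 2 * n := by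
  induction n with
  | zero => rfl
  | succ n ih =>
    show ((w0 n).length + 1) + 1 = 2 * (n + 1)
    omega

theorem P3a.w0_count (n : ℕ) : (w0 n).count true = n := by
  induction n with
  | zero => rfl
  | succ n ih =>
    show (false :: true :: w0 n).count true = n + 1
    simp [ih]

theorem w0_ok (n : ℕ) : Cyl.Ok (w0 n) := by
  unfold Cyl.Ok
  rw [w0_length, P3a.w0_count]
  omega

theorem s0_val {n : ℕ} (hn : 1 ≤ n) : (s0 n).1 = w0 n := by
  unfold s0
  rw [dif_pos ⟨by rw [w0_length]; omega, w0_ok n⟩]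

theorem P3a.w0_getD (n : ℕ) : ∀ i : ℕ, i < 2 * n → (w0 n).getD i true = decide (i % 2 = 1) := by
  induction n with
  | zero => intro i hi; omega
  | succ n ih =>
    intro i hi
    show (false :: true :: w0 n).getD i true = _
    match i with
    | 0 => rfl
    | 1 => rfl
    | i + 2 =>
      have := ih i (by omega)
      rw [List.getD_cons_succ, List.getD_cons_succ, this]
      congr 1
      have : (i + 2) % 2 = i % 2 := by omega
      rw [this]

theorem P3a.inc {n : ℕ} (hn : 1 ≤ n) :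
    Cyl.Sem1Aux.Inc (Cyl.sg (w0 n)) (fun x => -(x % 2)) := by
  intro x
  unfold Cyl.sg
  rw [w0_length]
  have h1 : 0 ≤ x % ((2 * n : ℕ) : ℤ) := Int.emod_nonneg _ (by omega)
  have h2 : x % ((2 * n : ℕ) : ℤ) < ((2 * n : ℕ) : ℤ) := Int.emod_lt_of_pos _ (by omega)
  rw [P3a.w0_getD n _ (by omega)]
  have h3 : (x % ((2 * n : ℕ) : ℤ)) % 2 = x % 2 := by
    apply Int.emod_emod_of_dvd
    exact ⟨n, by push_cast; ring⟩
  show -((x + 1) % 2) = -(x % 2) + _
  by_cases h : x % 2 = 1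
  · have : ((x % ((2 * n : ℕ) : ℤ)).toNat) % 2 = 1 := by omega
    rw [this]
    simp
    omega
  · have : ((x % ((2 * n : ℕ) : ℤ)).toNat) % 2 = 0 := by omega
    rw [this]
    simp
    omega

theorem w0_even {n : ℕ} (hn : 1 ≤ n) {a b : ℤ} (ha : Even a) (h : Cyl.Rw (w0 n) a b) : a = b := by
  rw [Cyl.Sem1Aux.Rw_iff (P3a.inc hn)] at h
  obtain ⟨_, h2⟩ := h
  have ha' : a % 2 = 0 := Int.even_iff.1 ha
  by_contra hab
  rcases lt_or_gt_of_ne hab with h3 | h3
  · have h4 : -(a % 2) ≤ -((a + 1) % 2) := h2 (a + 1) (Or.inl ⟨by omega, by omega⟩)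
    omega
  · have h4 : -(a % 2) ≤ -((a - 1) % 2) := h2 (a - 1) (Or.inr ⟨by omega, by omega⟩)
    omega

theorem P3a.cast_ix {n : ℕ} (hn : 1 ≤ n) (j : ℤ) :
    (((Cyl.ix (2 * n - 1) (j % (((2 * n - 1 : ℕ) : ℤ) + 1)).toNat).val : ℕ) : ZMod (2 * n)) =
      (j : ZMod (2 * n)) ∧
    ((Cyl.ix (2 * n - 1) (j % (((2 * n - 1 : ℕ) : ℤ) + 1)).toNat).val : ℤ) = j % ((2 * n : ℕ) : ℤ) := by
  have e : ((2 * n - 1 : ℕ) : ℤ) + 1 = ((2 * n : ℕ) : ℤ) := by omega
  rw [e]
  have h1 : 0 ≤ j % ((2 * n : ℕ) : ℤ) := Int.emod_nonneg _ (by omega)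
  have h2 : j % ((2 * n : ℕ) : ℤ) < ((2 * n : ℕ) : ℤ) := Int.emod_lt_of_pos _ (by omega)
  have h3 : (Cyl.ix (2 * n - 1) (j % ((2 * n : ℕ) : ℤ)).toNat).val = (j % ((2 * n : ℕ) : ℤ)).toNat := by
    show (j % ((2 * n : ℕ) : ℤ)).toNat % (2 * n - 1 + 1) = _
    apply Nat.mod_eq_of_lt
    omega
  have h4 : ((Cyl.ix (2 * n - 1) (j % ((2 * n : ℕ) : ℤ)).toNat).val : ℤ) = j % ((2 * n : ℕ) : ℤ) := by
    rw [h3]
    omega
  refine ⟨?_, h4⟩
  have h5 : (((Cyl.ix (2 * n - 1) (j % ((2 * n : ℕ) : ℤ)).toNat).val : ℕ) : ZMod (2 * n)) =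
      ((((Cyl.ix (2 * n - 1) (j % ((2 * n : ℕ) : ℤ)).toNat).val : ℤ)) : ZMod (2 * n)) := by
    push_cast
    rfl
  rw [h5, h4]
  exact ZMod.intCast_mod j (2 * n)

theorem P3a.lk {n M : ℕ} (hn : 1 ≤ n) (hM : Even M) (ω : Conf n) {p r : ℤ × ℕ}
    (h : Cyl.Lk (2 * n - 1) (cc n M ω) M (w0 n) p r) :
    (Even (p.1 + ((M - p.2 : ℕ) : ℤ)) ↔ Even (r.1 + ((M - r.2 : ℕ) : ℤ))) ∧
    (Even (p.1 + ((M - p.2 : ℕ) : ℤ)) →
      Relation.EqvGen (OpenAdjM n M ω) ((p.1 : ZMod (2 * n)), M - p.2)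
        ((r.1 : ZMod (2 * n)), M - r.2)) := by
  haveI : NeZero (2 * n) := ⟨by omega⟩
  cases h with
  | bot a b h =>
    have hM' : (M : ℤ) % 2 = 0 := by
      have := Nat.even_iff.1 hM
      omega
    have hMe : ∀ x : ℤ, Even (x + ((M - 0 : ℕ) : ℤ)) ↔ Even x := by
      intro x
      rw [Int.even_iff, Int.even_iff]
      omega
    have hsymm : Cyl.Rw (w0 n) b a := by
      rcases h with h | h
      · exact Or.inr h
      · exact Or.inl h
    constructor
    · show Even (a + ((M - 0 : ℕ) : ℤ)) ↔ Even (b + ((M - 0 : ℕ) : ℤ))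
      rw [hMe, hMe]
      constructor
      · intro ha
        rw [← w0_even hn ha h]; exact ha
      · intro hb
        rw [← w0_even hn hb hsymm]; exact hb
    · intro ha
      have ha' : Even a := (hMe a).1 ha
      have := w0_even hn ha' h
      subst this
      exact Relation.EqvGen.refl _
  | link0 j t ht h =>
    have e1 : M - (t + 1) = M - 1 - t := by omega
    have e2 : M - t = M - 1 - t + 1 := by omega
    constructor
    · show Even (j + ((M - t : ℕ) : ℤ)) ↔ Even (j + 1 + ((M - (t + 1) : ℕ) : ℤ))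
      rw [Int.even_iff, Int.even_iff]
      omega
    · intro hev
      have hev' : Even (j + ((M - t : ℕ) : ℤ)) := hev
      rw [Int.even_iff] at hev'
      obtain ⟨c1, c2⟩ := P3a.cast_ix hn j
      have hval : (((j : ZMod (2 * n))).val : ℤ) = j % ((2 * n : ℕ) : ℤ) := ZMod.val_intCast j
      have hm : (j % ((2 * n : ℕ) : ℤ)) % 2 = j % 2 :=
        Int.emod_emod_of_dvd _ ⟨n, by push_cast; ring⟩
      unfold Cyl.cl cc at h
      have hne : ¬ Even ((Cyl.ix (2 * n - 1) (j % (((2 * n - 1 : ℕ) : ℤ) + 1)).toNat).val +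
          (M - 1 - t)) := by
        rw [Nat.even_iff]
        omega
      rw [if_neg hne, c1] at h
      have hω : ω ((j : ZMod (2 * n)), M - 1 - t) = true := by
        simpa using h
      refine Relation.EqvGen.symm _ _ (Relation.EqvGen.rel _ _ ?_)
      refine ⟨(j : ZMod (2 * n)), M - 1 - t, by omega, hω, Or.inr ⟨?_, ?_, ?_⟩⟩
      · rw [Nat.even_iff]
        omega
      · show (((j + 1 : ℤ) : ZMod (2 * n)), M - (t + 1)) = _
        rw [e1]
        push_cast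
        rfl
      · show ((j : ZMod (2 * n)), M - t) = _
        rw [e2]
  | link1 j t ht h =>
    have e1 : M - (t + 1) = M - 1 - t := by omega
    have e2 : M - t = M - 1 - t + 1 := by omega
    constructor
    · show Even (j + 1 + ((M - t : ℕ) : ℤ)) ↔ Even (j + ((M - (t + 1) : ℕ) : ℤ))
      rw [Int.even_iff, Int.even_iff]
      omega
    · intro hev
      have hev' : Even (j + 1 + ((M - t : ℕ) : ℤ)) := hev
      rw [Int.even_iff] at hev'
      obtain ⟨c1, c2⟩ := P3a.cast_ix hn j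
      have hval : (((j : ZMod (2 * n))).val : ℤ) = j % ((2 * n : ℕ) : ℤ) := ZMod.val_intCast j
      have hm : (j % ((2 * n : ℕ) : ℤ)) % 2 = j % 2 :=
        Int.emod_emod_of_dvd _ ⟨n, by push_cast; ring⟩
      unfold Cyl.cl cc at h
      have hne : Even ((Cyl.ix (2 * n - 1) (j % (((2 * n - 1 : ℕ) : ℤ) + 1)).toNat).val +
          (M - 1 - t)) := by
        rw [Nat.even_iff]
        omega
      rw [if_pos hne, c1] at h
      refine Relation.EqvGen.symm _ _ (Relation.EqvGen.rel _ _ ?_)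
      refine ⟨(j : ZMod (2 * n)), M - 1 - t, by omega, h, Or.inl ⟨?_, ?_, ?_⟩⟩
      · rw [Nat.even_iff]
        omega
      · show ((j : ZMod (2 * n)), M - (t + 1)) = _
        rw [e1]
      · show (((j + 1 : ℤ) : ZMod (2 * n)), M - t) = _
        rw [e2]
        push_cast
        rfl

theorem down {n M : ℕ} (hn : 1 ≤ n) (hM : Even M) (ω : Conf n) {p r : ℤ × ℕ}
    (h : Relation.EqvGen (Cyl.Lk (2 * n - 1) (cc n M ω) M (w0 n)) p r) (hp : p.2 ≤ M) (hr : r.2 ≤ M)
    (he : Even (p.1 + ((M - p.2 : ℕ) : ℤ))) :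
    Even (r.1 + ((M - r.2 : ℕ) : ℤ)) ∧
    Relation.EqvGen (OpenAdjM n M ω) ((p.1 : ZMod (2 * n)), M - p.2) ((r.1 : ZMod (2 * n)), M - r.2) := by
  have key : (Even (p.1 + ((M - p.2 : ℕ) : ℤ)) ↔ Even (r.1 + ((M - r.2 : ℕ) : ℤ))) ∧
    (Even (p.1 + ((M - p.2 : ℕ) : ℤ)) →
      Relation.EqvGen (OpenAdjM n M ω) ((p.1 : ZMod (2 * n)), M - p.2)
        ((r.1 : ZMod (2 * n)), M - r.2)) := by
    clear he hp hr
    induction h with
    | rel x y h => exact P3a.lk hn hM ω h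
    | refl x => exact ⟨Iff.rfl, fun _ => Relation.EqvGen.refl _⟩
    | symm x y _ ih => exact ⟨ih.1.symm, fun h' => Relation.EqvGen.symm _ _ (ih.2 (ih.1.2 h'))⟩
    | trans x y z _ _ ih1 ih2 =>
      exact ⟨ih1.1.trans ih2.1, fun h' =>
        Relation.EqvGen.trans _ _ _ (ih1.2 h') (ih2.2 (ih1.1.1 h'))⟩
  exact ⟨key.1.1 he, key.2 he⟩

end H731B
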