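import Pool.Agent.H731R6.Bc.Defs
import Pool.Agent.H863R2.Cyl.Sem3
import Pool.Agent.H863R2.Cyl.Markov

/-!
Percolation on the half-infinite cylinder: definitions.

Vertices `(a, t)`, `a : ZMod (2 n)` (column), `t : ℕ` (depth), `a + t` even; the cell `(a, t)` (between the columns `a`, `a + 1` and
the depths `t`, `t + 1`) contains exactly one edge: the diagonal between its two vertices.
-/

set_option autoImplicit false

namespace H731B

open MeasureTheory Filter Topology
open Pool.Agent.H988R2 Pool.Agent.H863R2 Pool.Agent.H980R2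
open Pool.Agent.H988R2.Perc (Word Dyck q)

/-- configurations of the half-infinite cylinder: one bit for every cell -/
abbrev Conf (n : ℕ) : Type := ZMod (2 * n) × ℕ → Bool

/-- the two vertices of the cell `(a, t)` -/
def CellEnds (n : ℕ) (a : ZMod (2 * n)) (t : ℕ) (p r : ZMod (2 * n) × ℕ) : Prop :=
  (Even (a.val + t) ∧ p = (a, t) ∧ r = (a + 1, t + 1)) ∨
    (¬ Even (a.val + t) ∧ p = (a + 1, t) ∧ r = (a, t + 1))

/-- `p` (upper end) and `r` (lower end) are the ends of an open edge -/
def OpenAdj (n : ℕ) (ω : Conf n) (p r : ZMod (2 * n) × ℕ) : Prop :=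
  ∃ (a : ZMod (2 * n)) (t : ℕ), ω (a, t) = true ∧ CellEnds n a t p r

/-- the same in the first `M` rows -/
def OpenAdjM (n M : ℕ) (ω : Conf n) (p r : ZMod (2 * n) × ℕ) : Prop :=
  ∃ (a : ZMod (2 * n)) (t : ℕ), t < M ∧ ω (a, t) = true ∧ CellEnds n a t p r

/-- independent fair coins -/
noncomputable def perc (n : ℕ) : Measure (Conf n) :=
  Measure.infinitePi (fun _ => (PMF.uniformOfFintype Bool).toMeasure)

/-- the boundary vertices joined to `(0, 0)` by an open path -/
def bcl (n : ℕ) (ω : Conf n) : Set (ZMod (2 * n)) := {b | Relation.EqvGen (OpenAdj n ω) (0, 0) (b, 0)}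

/-- the boundary vertices joined to `(0, 0)` by an open path in the first `M` rows -/
def bclM (n M : ℕ) (ω : Conf n) : Set (ZMod (2 * n)) :=
  {b | Relation.EqvGen (OpenAdjM n M ω) (0, 0) (b, 0)}

/-- states of the plaquettes: row `r` (from the bottom, `r < M`), cell `(j, M - 1 - r)` -/
def cc (n M : ℕ) (ω : Conf n) (r : ℕ) (j : Fin (2 * n - 1 + 1)) : Bool :=
  if Even (j.val + (M - 1 - r)) then ω ((j.val : ZMod (2 * n)), M - 1 - r)
  else !ω ((j.val : ZMod (2 * n)), M - 1 - r)

/-- the initial word `(false true)^n`: all the even faces are isolated -/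
def w0 : ℕ → Word
  | 0 => []
  | n + 1 => false :: true :: w0 n

open Classical in
/-- the initial word as an admissible word -/
noncomputable def s0 (n : ℕ) : Cyl.Wd (2 * n - 1 + 1) :=
  if h : (w0 n).length = 2 * n - 1 + 1 ∧ Cyl.Ok (w0 n) then ⟨w0 n, h⟩ else Cyl.base (2 * n - 1)

/-- the law of the pattern after `M` rows -/
noncomputable def mu (m : ℕ) (σ0 : Cyl.Wd (m + 1)) : ℕ → Cyl.Wd (m + 1) → ℂ
  | 0 => fun σ => if σ = σ0 then 1 else 0
  | M + 1 => fun σ => (2 ^ (m + 1) : ℂ)⁻¹ *
      ∑ c : Fin (m + 1) → Bool, Cyl.push (Cyl.Tc m c) (mu m σ0 M) σ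

/-- extension of finitely many rows -/
def ext {m M : ℕ} (c : Fin M → Fin (m + 1) → Bool) (r : ℕ) : Fin (m + 1) → Bool :=
  if h : r < M then c ⟨r, h⟩ else fun _ => false

end H731B
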