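import Pool.Agent.H731R6.Bc.S3b

/-!
R1: the functional equation.  Put `P = Cont.prs us`, `Z = ZZ Ψ (1::1::t::t⁻¹::P)`, `A = hh Ψ (q t) (t::us)`,
`B = hh Ψ (q t⁻¹) (t::us)`, `Φ = Phi t (t::us)`, `Φ' = Phi t⁻¹ (t::us)`.
(1) `A = OO (q t :: 1 :: t :: t⁻¹ :: P ++ [1, t])` (`q² (q t) = t`).  `OO_exch_zero` (exchange `q t` and `1`):
`(q - t) A = q² (t - 1) OO (1 :: (q t) :: t :: (t⁻¹ :: P ++ [1, t]))`, and `OO_rec` with `x = q t` (`q² x = t`), `u = [1]`,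
`v = t⁻¹ :: P ++ [1, t]`: it is `Φ * α`, `α = OO (1 :: t⁻¹ :: P ++ [1, t])` (the factor `facc (q t)` has the same letters as in
`Phi`, in another order).  So `(q - t) A = q² (t - 1) Φ α`.
(2) the same with `t⁻¹` (`hh_inv`, `Phi_inv` to write `B, Φ'` with the list `t⁻¹ :: us`): `(q - t⁻¹) B = q² (t⁻¹ - 1) Φ' β`,
`β = OO (1 :: t :: P ++ [1, t⁻¹])`.
(3) `seam_swap` with `x = 1, b = t, m = t⁻¹ :: P ++ [1]`: `(q - q² t)(Z - α) = (q t - q²)(Z - γ)`,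
`γ = OO (t :: t⁻¹ :: P ++ [1, 1])` (all the total masses are equal to `Z` by `ZZ_perm`).
(4) `OO_exch_zero`: `(q t - q² t⁻¹) δ = (q t⁻¹ - q² t) γ`, `δ = OO (t⁻¹ :: t :: P ++ [1, 1])`.
(5) `seam_swap` with `x = t⁻¹, b = 1, m = t :: P ++ [1]`: `(q t⁻¹ - q²)(Z - δ) = (q - q² t⁻¹)(Z - β)`.
(6) Algebra (checked numerically): the claim `(t-q)(t²-q) Φ B + (1-qt)(1-qt²) Φ' A + q (t-1)²(t+1) Z Φ Φ' = 0` follows:
eliminate `A = q²(t-1)Φα/(q-t)`, `B = q²(t⁻¹-1)Φ'β/(q-t⁻¹)`, `γ, δ, β` in terms of `α` (denominators `q t - q²`,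
`q t - q² t⁻¹`, `q - q² t⁻¹`, all nonzero under the hypotheses), `field_simp`, then `linear_combination (…) * q_spec`
(or reduce powers of `q` by `q² = -q-1`).
-/

set_option autoImplicit false

namespace H731B

open Pool.Agent.H988R2 Pool.Agent.H863R2 Pool.Agent.H980R2
open Pool.Agent.H988R2.Perc (Word Dyck q PD q_spec q_cube q_ne_zero q_ne_one)

namespace R1

theorem prs_cons (t : ℂ) (us : List ℂ) : Cont.prs (t :: us) = t :: t⁻¹ :: Cont.prs us := by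
  simp [Cont.prs]

theorem q2q (t : ℂ) : q^2 * (q * t) = t := by
  have h := q_cube
  linear_combination t * h

theorem facc_perm (x : ℂ) {l l' : List ℂ} (h : l.Perm l') : facc x l = facc x l' := by
  unfold facc
  rw [(h.map (fun y => (y - q * x)^2)).prod_eq]

theorem A_eq {Ψ : List ℂ → Cyl.VW} (hΨ : Cyl.Fam (q^2) Ψ) (t : ℂ) (us : List ℂ) :
    (q - t) * hh Ψ (q * t) (t :: us) =
      q^2 * (t - 1) * Phi t (t :: us) * OO Ψ (1 :: t⁻¹ :: (Cont.prs us ++ [1, t])) := by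
  have hlen := prs_length us
  have e1 := OO_exch_zero hΨ 1 (q * t) (t :: t⁻¹ :: (Cont.prs us ++ [1, t]))
    (by simp [hlen]; exact ⟨us.length + 2, by ring⟩) (by simp)
  have e2 := OO_rec hΨ [1] (t⁻¹ :: (Cont.prs us ++ [1, t])) (q * t) (by simp) (by simp)
    (by simp [hlen]; exact ⟨us.length + 2, by ring⟩)
  rw [q2q] at e2
  have e3 : facc (q * t) ([1] ++ (t⁻¹ :: (Cont.prs us ++ [1, t]))) = Phi t (t :: us) := by
    unfold Phi
    apply facc_perm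
    rw [prs_cons]
    rw [List.singleton_append]
    apply List.Perm.cons
    calc (t⁻¹ :: (Cont.prs us ++ [1, t])).Perm (t⁻¹ :: ([1, t] ++ Cont.prs us)) :=
          List.Perm.cons _ List.perm_append_comm
      _ = t⁻¹ :: 1 :: t :: Cont.prs us := rfl
      List.Perm _ (1 :: t⁻¹ :: t :: Cont.prs us) := List.Perm.swap _ _ _
      List.Perm _ (1 :: t :: t⁻¹ :: Cont.prs us) := List.Perm.cons _ (List.Perm.swap _ _ _)
  rw [e3] at e2
  simp only [List.singleton_append] at e2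
  unfold hh
  rw [prs_cons, q2q]
  simp only [List.cons_append] at e1 e2 ⊢
  rw [e2] at e1
  have h := q_cube
  linear_combination e1 + t * h * OO Ψ (q * t :: 1 :: t :: t⁻¹ :: (Cont.prs us ++ [1, t]))

end R1

theorem RR_root {Ψ : List ℂ → Cyl.VW} (hΨ : Cyl.Fam (q^2) Ψ) (t : ℂ) (us : List ℂ) (h0 : t ≠ 0)
    (h1 : t ≠ q) (h2 : t ≠ q^2) (h3 : t^2 ≠ q) (hus : ∀ u ∈ us, u ≠ 0) :
    RR Ψ t (t :: us) = 0 := by
  have hlen := prs_length us
  have A := R1.A_eq hΨ t us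
  have B := R1.A_eq hΨ t⁻¹ us
  rw [hh_inv hΨ, Phi_inv, inv_inv] at B
  have E3 := seam_swap hΨ 1 t (t⁻¹ :: (Cont.prs us ++ [1]))
    (by simp [hlen]; exact ⟨us.length + 1, by ring⟩)
  have E4 := OO_exch_zero hΨ t t⁻¹ (Cont.prs us ++ [1, 1])
    (by simp [hlen]; exact ⟨us.length + 1, by ring⟩) (by simp)
  have E5 := seam_swap hΨ t⁻¹ 1 (t :: (Cont.prs us ++ [1]))
    (by simp [hlen]; exact ⟨us.length + 1, by ring⟩)
  simp only [List.cons_append, List.append_assoc, List.nil_append] at E3 E5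
  set P := Cont.prs us with hP
  have ev : ∀ a b c d : ℂ, Even ((a :: b :: (P ++ [c, d])).length) := by
    intro a b c d
    simp [hlen]
    exact ⟨us.length + 2, by ring⟩
  have pm : ∀ a b c d : ℂ, (a :: b :: (P ++ [c, d])).Perm (a :: b :: c :: d :: P) := by
    intro a b c d
    exact List.Perm.cons _ (List.Perm.cons _ (List.perm_append_comm))
  have z1 : ZZ Ψ (1 :: t⁻¹ :: (P ++ [1, t])) = ZZ Ψ (1 :: 1 :: t :: t⁻¹ :: P) := by
    apply ZZ_perm hΨ _ (ev _ _ _ _)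
    refine (pm _ _ _ _).trans ?_
    exact List.Perm.cons _ ((List.Perm.swap _ _ _).trans (List.Perm.cons _ (List.Perm.swap _ _ _)))
  have z2 : ZZ Ψ (t :: t⁻¹ :: (P ++ [1, 1])) = ZZ Ψ (1 :: 1 :: t :: t⁻¹ :: P) := by
    apply ZZ_perm hΨ _ (ev _ _ _ _)
    refine (pm _ _ _ _).trans ?_
    have : ([t, t⁻¹] ++ [1, 1] ++ P).Perm ([1, 1] ++ [t, t⁻¹] ++ P) :=
      List.Perm.append_right _ List.perm_append_comm
    simpa using this
  have z3 : ZZ Ψ (t⁻¹ :: t :: (P ++ [1, 1])) = ZZ Ψ (1 :: 1 :: t :: t⁻¹ :: P) := by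
    rw [← z2]
    exact ZZ_perm hΨ (List.Perm.swap _ _ _) (ev _ _ _ _)
  have z4 : ZZ Ψ (1 :: t :: (P ++ [1, t⁻¹])) = ZZ Ψ (1 :: 1 :: t :: t⁻¹ :: P) := by
    apply ZZ_perm hΨ _ (ev _ _ _ _)
    refine (pm _ _ _ _).trans ?_
    exact List.Perm.cons _ (List.Perm.swap _ _ _)
  rw [z1, z2] at E3
  rw [z3, z4] at E5
  unfold RR
  rw [R1.prs_cons, ← hP]
  set Z := ZZ Ψ (1 :: 1 :: t :: t⁻¹ :: P)
  set α := OO Ψ (1 :: t⁻¹ :: (P ++ [1, t]))
  set β := OO Ψ (1 :: t :: (P ++ [1, t⁻¹]))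
  set γ := OO Ψ (t :: t⁻¹ :: (P ++ [1, 1]))
  set δ := OO Ψ (t⁻¹ :: t :: (P ++ [1, 1]))
  set a := hh Ψ (q * t) (t :: us)
  set b := hh Ψ (q * t⁻¹) (t :: us)
  set F := Phi t (t :: us)
  set F' := Phi t⁻¹ (t :: us)
  have hs := q_spec
  have hc := q_cube
  have hq := q_ne_zero
  have k1 : t - q ≠ 0 := sub_ne_zero.2 h1
  have k3 : q * t - 1 ≠ 0 := by
    intro h
    apply h2
    linear_combination q^2 * h - t * hc
  have hti : t * t⁻¹ = 1 := mul_inv_cancel₀ h0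
  have e3 : (1 - q * t) * (Z - α) = (t - q) * (Z - γ) := by
    apply mul_left_cancel₀ hq
    linear_combination E3
  have e4 : (1 - q * t^2) * γ = (t^2 - q) * δ := by
    apply mul_left_cancel₀ hq
    linear_combination (-t) * E4 - (q^2*δ + q*γ) * hti
  have e5 : (1 - q * t) * (Z - δ) = (t - q) * (Z - β) := by
    apply mul_left_cancel₀ hq
    linear_combination t * E5 - (q*(Z-δ) + q^2*(Z-β)) * hti
  have eB : (q * t - 1) * b = q^2 * (1 - t) * F' * β := by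
    linear_combination t * B + (b + q^2 * F' * β) * hti
  have k13 : (q * t - 1) * (t - q) ≠ 0 := mul_ne_zero k3 k1
  apply mul_left_cancel₀ k13
  rw [mul_zero]
  linear_combination (t-q)^2*(t^2-q)*F*eB + (q*t-1)^2*(1-q*t^2)*F'*A +
    (t-1)*F*F'*((-q^2*(t-q)*(t^2-q))*e5 + (-q^2*(t-q)*(q*t-1))*e4 + (q^2*(q*t-1)*(1-q*t^2))*e3 +
      Z*(q^3*(1+t^3-t-t^4) + q^2*(-2*t+2*t^3) + q*(-t^3+t))*hs)

end H731B
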