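import Pool.Agent.H731R6.Bc.L2
import Pool.Agent.H980R2.Cont.T03b
import Pool.Agent.H980R2.Cont.T02b

/-!
S1: exchange relations and recursion for `OO` (copy of `H980R2.Cont.T03`, with `cl` instead of `lin`, `facc` instead of
`fac`) and the exchange of the first and the last letter (`seam_swap`).

Word facts: `Cont.oo_act_zero, oo_act, oo_ins, dd_odd` (T01, T02, T02b).
`seam_swap`: `ZZ - OO = cl (1 - oo)` (`cl_sub`); by `cl_rot` `cl (1 - oo) (x :: (m ++ [b])) = cl (1 - a01) (b :: x :: m)` and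
`cl (1 - oo) (b :: (m ++ [x])) = cl (1 - a01) (x :: b :: m)`; `cl_exch` with `u = []`: `(1 - a01) (Perc.act 0 w) = 0` for words of
length `≥ 2` (`Perc.act 0 w = true :: false :: …`).
-/

set_option autoImplicit false

namespace H731B

open Pool.Agent.H988R2 Pool.Agent.H863R2 Pool.Agent.H980R2
open Pool.Agent.H988R2.Perc (Word Dyck q PD q_spec q_cube q_ne_zero q_ne_one)

theorem S1.len_pos {v : List ℂ} (hv : v ≠ []) : 1 ≤ v.length := by
  cases v with
  | nil => exact absurd rfl hv
  | cons a v => simp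

theorem OO_exch_zero {Ψ : List ℂ → Cyl.VW} (hΨ : Cyl.Fam (q^2) Ψ) (x y : ℂ) (v : List ℂ)
    (h : Even v.length) (hv : v ≠ []) :
    (q * x - q^2 * y) * OO Ψ (y :: x :: v) = (q * y - q^2 * x) * OO Ψ (x :: y :: v) := by
  have hl := S1.len_pos hv
  have h2 : 2 ≤ v.length := by obtain ⟨k, hk⟩ := h; omega
  have h1 := cl_exch hΨ Cont.oo [] v x y (by simpa using h)
  have h3 : cl Ψ (fun w => Cont.oo (Perc.act ([] : List ℂ).length w)) ([] ++ x :: y :: v) = 0 := by
    rw [cl_congr hΨ (G := fun _ => 0), cl_zero]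
    · simp only [List.nil_append, List.length_cons]
      exact (h.add_one).add_one
    · intro w hw hwl
      simp only [List.nil_append, List.length_cons] at hwl
      exact Cont.oo_act_zero hw (by omega)
  rw [h3, mul_zero, add_zero] at h1
  exact h1

/-- polynomiality in one entry -/
theorem S1.poly {Ψ : List ℂ → Cyl.VW} (hΨ : Cyl.Fam (q^2) Ψ) (u v : List ℂ) :
    Cross.T05.IsPoly (fun z => OO Ψ (u ++ z :: v)) := by
  obtain ⟨P, _, hP⟩ := (cl_pd hΨ Cont.oo (u.length + v.length + 1)).univ u v rfl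
  exact ⟨P, hP⟩

theorem OO_exch_even {Ψ : List ℂ → Cyl.VW} (hΨ : Cyl.Fam (q^2) Ψ) (u v : List ℂ) (x y : ℂ)
    (hu : Even u.length) (hu0 : u ≠ []) (hv : Even v.length) (hv0 : v ≠ []) :
    OO Ψ (u ++ y :: x :: v) = OO Ψ (u ++ x :: y :: v) := by
  have hul := S1.len_pos hu0
  have hvl := S1.len_pos hv0
  have hgen : ∀ x : ℂ, x ∉ ({q * y} : Finset ℂ) →
      OO Ψ (u ++ y :: x :: v) = OO Ψ (u ++ x :: y :: v) := by
    intro x hx
    have hx' : x ≠ q * y := fun h => hx (Finset.mem_singleton.mpr h)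
    have h1 := cl_exch hΨ Cont.oo u v x y (hu.add hv)
    have h3 : cl Ψ (fun w => Cont.oo (Perc.act u.length w)) (u ++ x :: y :: v) =
        cl Ψ Cont.oo (u ++ x :: y :: v) := by
      refine cl_congr hΨ ?_ ?_
      · simp only [List.length_append, List.length_cons]
        exact hu.add (hv.add_one).add_one
      · intro w hw hwl
        simp only [List.length_append, List.length_cons] at hwl
        rw [Cont.oo_act hw hul (by omega), Cont.dd_odd hu.add_one (by omega), add_zero]
    rw [h3] at h1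
    apply mul_left_cancel₀ (Cross.T05.gen_ne hx')
    unfold OO
    linear_combination h1 + (y - x) * q_spec * cl Ψ Cont.oo (u ++ x :: y :: v)
  have e1 : (fun z => OO Ψ ((u ++ [y]) ++ z :: v)) = fun z => OO Ψ (u ++ y :: z :: v) := by
    funext z; simp
  have p1 : Cross.T05.IsPoly (fun z => OO Ψ (u ++ y :: z :: v)) := by
    rw [← e1]
    exact S1.poly hΨ _ _
  have p2 : Cross.T05.IsPoly (fun z => OO Ψ (u ++ z :: y :: v)) := S1.poly hΨ _ _
  exact Cross.T05.IsPoly.eq_of_ne p1 p2 {q * y} hgen x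

theorem OO_exch_odd {Ψ : List ℂ → Cyl.VW} (hΨ : Cyl.Fam (q^2) Ψ) (u v : List ℂ) (x y : ℂ)
    (hu : Odd u.length) (hv : Odd v.length) :
    (q * x - q^2 * y) * OO Ψ (u ++ y :: x :: v) =
      (q * x - q^2 * y) * OO Ψ (u ++ x :: y :: v) +
        (y - x) * DD Ψ (u.length + 1) (u ++ x :: y :: v) := by
  have hul : 1 ≤ u.length := hu.pos
  have hvl : 1 ≤ v.length := hv.pos
  have h1 := cl_exch hΨ Cont.oo u v x y (hu.add_odd hv)
  have h3 : cl Ψ (fun w => Cont.oo (Perc.act u.length w)) (u ++ x :: y :: v)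
      = cl Ψ Cont.oo (u ++ x :: y :: v) + cl Ψ (Cont.dd (u.length + 1)) (u ++ x :: y :: v) := by
    rw [← cl_add]
    refine cl_congr hΨ ?_ ?_
    · simp only [List.length_append, List.length_cons]
      exact hu.add_odd ((hv.add_one).add_one)
    · intro w hw hwl
      simp only [List.length_append, List.length_cons] at hwl
      exact Cont.oo_act hw hul (by omega)
  rw [h3] at h1
  unfold OO DD
  linear_combination h1 + (y - x) * q_spec * cl Ψ Cont.oo (u ++ x :: y :: v)

theorem OO_rec {Ψ : List ℂ → Cyl.VW} (hΨ : Cyl.Fam (q^2) Ψ) (u v : List ℂ) (x : ℂ)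
    (hu : u ≠ []) (hv : v ≠ []) (h : Even (u.length + v.length)) :
    OO Ψ (u ++ x :: (q^2 * x) :: v) = facc x (u ++ v) * OO Ψ (u ++ v) := by
  have hul := S1.len_pos hu
  have hvl := S1.len_pos hv
  have h1 := cl_rec hΨ Cont.oo u v x h
  have h3 : cl Ψ (fun w => Cont.oo (Perc.ins u.length w)) (u ++ v) = cl Ψ Cont.oo (u ++ v) := by
    refine cl_congr hΨ ?_ ?_
    · rw [List.length_append]; exact h
    · intro w hw hwl
      rw [List.length_append] at hwl
      exact Cont.oo_ins hw hul (by omega)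
  rw [h3] at h1
  exact h1

theorem seam_swap {Ψ : List ℂ → Cyl.VW} (hΨ : Cyl.Fam (q^2) Ψ) (x b : ℂ) (m : List ℂ)
    (hm : Even m.length) :
    (q * x - q^2 * b) * (ZZ Ψ (x :: (m ++ [b])) - OO Ψ (x :: (m ++ [b]))) =
      (q * b - q^2 * x) * (ZZ Ψ (b :: (m ++ [x])) - OO Ψ (b :: (m ++ [x]))) := by
  have key : ∀ x b : ℂ, ZZ Ψ (x :: (m ++ [b])) - OO Ψ (x :: (m ++ [b])) =
      cl Ψ (fun w => 1 - a01 w) (b :: x :: m) := by
    intro x b
    rw [cl_rot hΨ b (x :: m) (by rw [List.length_cons]; exact hm.add_one)]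
    unfold ZZ OO
    rw [← cl_sub]
    rfl
  have h1 := cl_exch hΨ (fun w => 1 - a01 w) [] m x b (by simpa using hm)
  have h3 : cl Ψ (fun w => 1 - a01 (Perc.act ([] : List ℂ).length w)) ([] ++ x :: b :: m) = 0 := by
    rw [cl_congr hΨ (G := fun _ => 0), cl_zero]
    · simp only [List.nil_append, List.length_cons]
      exact (hm.add_one).add_one
    · intro w _ _
      have : a01 (Perc.act ([] : List ℂ).length w) = 1 := by
        unfold a01 Perc.act Perc.ins
        simp
      rw [this, sub_self]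
  rw [h3, mul_zero, add_zero] at h1
  rw [key x b, key b x]
  exact h1

end H731B
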