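import Pool.Agent.H731R6.Bc.L2
import Pool.Agent.H980R2.Cont.T02b
import Pool.Agent.H980R2.Cont.T03b

/-!
S2: exchange relations for `DD` (copy of `DD_exch_left, mid, right` of `H980R2.Cont.T03b`, with `cl_exch`, `cl_congr`,
`cl_zero`).
-/

set_option autoImplicit false

namespace H731B

open Pool.Agent.H988R2 Pool.Agent.H863R2 Pool.Agent.H980R2
open Pool.Agent.H988R2.Perc (Word Dyck q PD q_spec q_cube q_ne_zero q_ne_one)

theorem DD_exch_left {Ψ : List ℂ → Cyl.VW} (hΨ : Cyl.Fam (q^2) Ψ) (j : ℕ) (u v : List ℂ) (x y : ℂ)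
    (hj : u.length + 2 = j) (h : Even (u.length + v.length)) (hu : u ≠ []) (hv : v ≠ []) :
    (q * x - q^2 * y) * DD Ψ j (u ++ y :: x :: v) =
      (q * y - q^2 * x) * DD Ψ j (u ++ x :: y :: v) := by
  have h1 := cl_exch hΨ (Cont.dd j) u v x y h
  have he : Even (u ++ x :: y :: v).length := by
    have e0 : (u ++ x :: y :: v).length = u.length + v.length + 2 := by
      simp only [List.length_append, List.length_cons]
      omega
    rw [e0]
    exact h.add (by decide)
  have hu1 := List.length_pos_iff.2 hu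
  have hv1 := List.length_pos_iff.2 hv
  have h2 : cl Ψ (fun w => Cont.dd j (Perc.act u.length w)) (u ++ x :: y :: v) = 0 := by
    refine (cl_congr hΨ (G := fun _ => 0) he ?_).trans (cl_zero Ψ _)
    intro w hw hl
    simp only [List.length_append, List.length_cons] at hl
    have e : u.length = j - 2 := by omega
    rw [e]
    exact Cont.dd_act_left hw (by omega) (by omega)
  have e1 : cl Ψ (Cont.dd j) (u ++ y :: x :: v) = DD Ψ j (u ++ y :: x :: v) := rfl
  have e2 : cl Ψ (Cont.dd j) (u ++ x :: y :: v) = DD Ψ j (u ++ x :: y :: v) := rfl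
  rw [h2, mul_zero, add_zero, e1, e2] at h1
  exact h1

theorem DD_exch_mid {Ψ : List ℂ → Cyl.VW} (hΨ : Cyl.Fam (q^2) Ψ) (j : ℕ) (u v : List ℂ) (x y : ℂ)
    (hj : u.length + 1 = j) (h : Even (u.length + v.length)) :
    (q * x - q^2 * y) * DD Ψ j (u ++ y :: x :: v) =
      (q * y - q^2 * x) * DD Ψ j (u ++ x :: y :: v) := by
  have h1 := cl_exch hΨ (Cont.dd j) u v x y h
  have he : Even (u ++ x :: y :: v).length := by
    have e0 : (u ++ x :: y :: v).length = u.length + v.length + 2 := by
      simp only [List.length_append, List.length_cons]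
      omega
    rw [e0]
    exact h.add (by decide)
  have h2 : cl Ψ (fun w => Cont.dd j (Perc.act u.length w)) (u ++ x :: y :: v) = 0 := by
    refine (cl_congr hΨ (G := fun _ => 0) he ?_).trans (cl_zero Ψ _)
    intro w hw hl
    simp only [List.length_append, List.length_cons] at hl
    have e : u.length = j - 1 := by omega
    rw [e]
    exact Cont.dd_act_mid hw (by omega) (by omega)
  have e1 : cl Ψ (Cont.dd j) (u ++ y :: x :: v) = DD Ψ j (u ++ y :: x :: v) := rfl
  have e2 : cl Ψ (Cont.dd j) (u ++ x :: y :: v) = DD Ψ j (u ++ x :: y :: v) := rfl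
  rw [h2, mul_zero, add_zero, e1, e2] at h1
  exact h1

theorem DD_exch_right {Ψ : List ℂ → Cyl.VW} (hΨ : Cyl.Fam (q^2) Ψ) (j : ℕ) (u v : List ℂ) (x y : ℂ)
    (hj : u.length = j) (h : Even (u.length + v.length)) (hu : u ≠ []) (hv : v ≠ []) :
    (q * x - q^2 * y) * DD Ψ j (u ++ y :: x :: v) =
      (q * y - q^2 * x) * DD Ψ j (u ++ x :: y :: v) := by
  have h1 := cl_exch hΨ (Cont.dd j) u v x y h
  have he : Even (u ++ x :: y :: v).length := by
    have e0 : (u ++ x :: y :: v).length = u.length + v.length + 2 := by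
      simp only [List.length_append, List.length_cons]
      omega
    rw [e0]
    exact h.add (by decide)
  have hu1 := List.length_pos_iff.2 hu
  have hv1 := List.length_pos_iff.2 hv
  have h2 : cl Ψ (fun w => Cont.dd j (Perc.act u.length w)) (u ++ x :: y :: v) = 0 := by
    refine (cl_congr hΨ (G := fun _ => 0) he ?_).trans (cl_zero Ψ _)
    intro w hw hl
    simp only [List.length_append, List.length_cons] at hl
    rw [hj]
    exact Cont.dd_act_right hw (by omega) (by omega)
  have e1 : cl Ψ (Cont.dd j) (u ++ y :: x :: v) = DD Ψ j (u ++ y :: x :: v) := rfl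
  have e2 : cl Ψ (Cont.dd j) (u ++ x :: y :: v) = DD Ψ j (u ++ x :: y :: v) := rfl
  rw [h2, mul_zero, add_zero, e1, e2] at h1
  exact h1

end H731B
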