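import Pool.Agent.H731R6.Bc.S1
import Pool.Agent.H731R6.Bc.S2
import Pool.Agent.H980R2.Cont.T04
import Pool.Agent.H980R2.Cont.T05

/-!
S3: symmetry in the pairs (adapted from `H980R2.Cont.T04`, `H980R2.Cont.T05`).
-/

set_option autoImplicit false

namespace H731B

open Pool.Agent.H988R2 Pool.Agent.H863R2 Pool.Agent.H980R2
open Pool.Agent.H988R2.Perc (Word Dyck q PD q_spec q_cube q_ne_zero q_ne_one)

/-- the identity with all brackets nonzero -/
theorem S3.generic {Ψ : List ℂ → Cyl.VW} (hΨ : Cyl.Fam (q^2) Ψ)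
    (u v : List ℂ) (s t s' t' : ℂ) (hs : s * s' = 1) (ht : t * t' = 1)
    (hu : Even u.length) (hu0 : u ≠ []) (hv : Even v.length) (hv0 : v ≠ [])
    (h1 : q * s' - q^2 * t ≠ 0) (h2 : q * s - q^2 * t ≠ 0) (h3 : q * s' - q^2 * t' ≠ 0)
    (h4 : q * s - q^2 * t' ≠ 0) :
    OO Ψ (u ++ s :: s' :: t :: t' :: v) = OO Ψ (u ++ t :: t' :: s :: s' :: v) := by
  have e1 := OO_exch_odd hΨ (u ++ [s]) (t' :: v) s' t (by simpa [Nat.odd_add_one] using hu)
    (by simpa [Nat.odd_add_one] using hv)
  have e2 := OO_exch_even hΨ u (s' :: t' :: v) s t hu hu0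
    (by simpa [Nat.even_add_one] using hv) (by simp)
  have e3 := OO_exch_even hΨ (u ++ [t, s]) v s' t' (by simpa [Nat.even_add_one] using hu)
    (by simp) hv hv0
  have e4 := OO_exch_odd hΨ (u ++ [t]) (s' :: v) s t' (by simpa [Nat.odd_add_one] using hu)
    (by simpa [Nat.odd_add_one] using hv)
  have hE : Even (u.length + v.length) := hu.add hv
  have hE1 : Even ((u ++ [s]).length + (t' :: v).length) := by
    rw [Nat.even_iff] at hE ⊢
    simp only [List.length_append, List.length_cons, List.length_nil]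
    omega
  have hE2 : Even (u.length + (s' :: t' :: v).length) := by
    rw [Nat.even_iff] at hE ⊢
    simp only [List.length_cons]
    omega
  have hE3 : Even ((u ++ [t, s]).length + v.length) := by
    rw [Nat.even_iff] at hE ⊢
    simp only [List.length_append, List.length_cons, List.length_nil]
    omega
  have d1 := DD_exch_mid hΨ (u.length + 2) (u ++ [s]) (t' :: v) s' t (by simp) hE1
  have d2 := DD_exch_left hΨ (u.length + 2) u (s' :: t' :: v) s t rfl hE2 hu0 (by simp)
  have d3 := DD_exch_right hΨ (u.length + 2) (u ++ [t, s]) v s' t' (by simp) hE3 (by simp) hv0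
  simp only [List.append_assoc, List.cons_append, List.nil_append, List.length_append,
    List.length_cons, List.length_nil, zero_add] at e1 e2 e3 e4 d1 d2 d3
  have hl : u.length + 1 + 1 = u.length + 2 := rfl
  rw [hl] at e1 e4
  -- names
  set G0 := OO Ψ (u ++ s :: s' :: t :: t' :: v) with hG0
  set G5 := OO Ψ (u ++ t :: t' :: s :: s' :: v) with hG5
  set D0 := DD Ψ (u.length + 2) (u ++ s :: s' :: t :: t' :: v) with hD0
  set D5 := DD Ψ (u.length + 2) (u ++ t :: s :: t' :: s' :: v) with hD5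
  have A : (q * s - q^2 * t) * (q * s' - q^2 * t') = (q * t' - q^2 * s') * (q * t - q^2 * s) := by
    linear_combination (q^2 * (1 - q^2)) * hs - (q^2 * (1 - q^2)) * ht
  have B : (t - s') * (q * s - q^2 * t') + (t' - s) * (q * t - q^2 * s') = 0 := by
    linear_combination (q * (1 - q)) * ht - (q * (1 - q)) * hs
  have C : (q * s' - q^2 * t) * D5 = (q * t - q^2 * s') * D0 := by
    have h5 : (q * s - q^2 * t) * (q * s' - q^2 * t') ≠ 0 := mul_ne_zero h2 h3
    apply mul_left_cancel₀ h5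
    calc (q * s - q^2 * t) * (q * s' - q^2 * t') * ((q * s' - q^2 * t) * D5)
        = (q * s' - q^2 * t) * ((q * s - q^2 * t) * ((q * s' - q^2 * t') * D5)) := by ring
      _ = (q * s' - q^2 * t) * ((q * s - q^2 * t) * ((q * t' - q^2 * s') *
            DD Ψ (u.length + 2) (u ++ t :: s :: s' :: t' :: v))) := by rw [d3]
      _ = (q * t' - q^2 * s') * ((q * s' - q^2 * t) * ((q * s - q^2 * t) *
            DD Ψ (u.length + 2) (u ++ t :: s :: s' :: t' :: v))) := by ring
      _ = (q * t' - q^2 * s') * ((q * s' - q^2 * t) * ((q * t - q^2 * s) *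
            DD Ψ (u.length + 2) (u ++ s :: t :: s' :: t' :: v))) := by rw [d2]
      _ = (q * t' - q^2 * s') * (q * t - q^2 * s) * ((q * s' - q^2 * t) *
            DD Ψ (u.length + 2) (u ++ s :: t :: s' :: t' :: v)) := by ring
      _ = (q * t' - q^2 * s') * (q * t - q^2 * s) * ((q * t - q^2 * s') * D0) := by rw [d1]
      _ = _ := by rw [← A]
  have h6 : (q * s' - q^2 * t) * (q * s - q^2 * t') ≠ 0 := mul_ne_zero h1 h4
  apply mul_left_cancel₀ h6
  rw [e3] at e4
  rw [e2] at e4
  linear_combination (-(q * s' - q^2 * t)) * e4 - (q * s - q^2 * t') * e1 - (t' - s) * C - D0 * B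

theorem OO_swap_pairs {Ψ : List ℂ → Cyl.VW} (hΨ : Cyl.Fam (q^2) Ψ) (u v : List ℂ) (s t : ℂ)
    (hs : s ≠ 0) (ht : t ≠ 0) (hu : Even u.length) (hu0 : u ≠ []) (hv : Even v.length)
    (hv0 : v ≠ []) :
    OO Ψ (u ++ s :: s⁻¹ :: t :: t⁻¹ :: v) = OO Ψ (u ++ t :: t⁻¹ :: s :: s⁻¹ :: v) := by
  have hpd := cl_pd hΨ Cont.oo (u.length + (v.length + 4))
  have c1 : ContinuousAt (fun z : ℂ => OO Ψ (u ++ z :: z⁻¹ :: t :: t⁻¹ :: v)) s := by
    have := Cont.T04Aux.contAt hpd (u.map (fun c _ => c) ++ (fun z => z) :: (fun z => z⁻¹) ::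
      (fun _ => t) :: (fun _ => t⁻¹) :: v.map (fun c _ => c)) (by simp) s (by
        intro f hf
        simp only [List.mem_append, List.mem_cons, List.mem_map] at hf
        rcases hf with ⟨c, -, rfl⟩ | rfl | rfl | rfl | rfl | ⟨c, -, rfl⟩
        · exact continuousAt_const
        · exact continuousAt_id
        · exact continuousAt_inv₀ hs
        · exact continuousAt_const
        · exact continuousAt_const
        · exact continuousAt_const)
    unfold OO
    simpa [List.map_append, Function.comp_def] using this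
  have c2 : ContinuousAt (fun z : ℂ => OO Ψ (u ++ t :: t⁻¹ :: z :: z⁻¹ :: v)) s := by
    have := Cont.T04Aux.contAt hpd (u.map (fun c _ => c) ++ (fun _ => t) :: (fun _ => t⁻¹) ::
      (fun z => z) :: (fun z => z⁻¹) :: v.map (fun c _ => c)) (by simp) s (by
        intro f hf
        simp only [List.mem_append, List.mem_cons, List.mem_map] at hf
        rcases hf with ⟨c, -, rfl⟩ | rfl | rfl | rfl | rfl | ⟨c, -, rfl⟩
        · exact continuousAt_const
        · exact continuousAt_const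
        · exact continuousAt_const
        · exact continuousAt_id
        · exact continuousAt_inv₀ hs
        · exact continuousAt_const)
    unfold OO
    simpa [List.map_append, Function.comp_def] using this
  -- the bad set
  set bad : Set ℂ := {0, q * t, (q * t)⁻¹, (q * t⁻¹)⁻¹, q * t⁻¹} with hbad
  have hfin : bad.Finite := by
    rw [hbad]; exact Set.toFinite _
  have hev : ∀ᶠ z in nhdsWithin s {s}ᶜ, z ∉ bad := by
    have h1 : (bad \ {s})ᶜ ∈ nhds s :=
      (hfin.subset Set.sdiff_subset).isClosed.isOpen_compl.mem_nhds (by simp)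
    filter_upwards [mem_nhdsWithin_of_mem_nhds h1, self_mem_nhdsWithin] with z hz hz2 hz3
    exact hz ⟨hz3, hz2⟩
  have heq : ∀ᶠ z in nhdsWithin s {s}ᶜ, OO Ψ (u ++ z :: z⁻¹ :: t :: t⁻¹ :: v) =
      OO Ψ (u ++ t :: t⁻¹ :: z :: z⁻¹ :: v) := by
    filter_upwards [hev] with z hz
    simp only [hbad, Set.mem_insert_iff, Set.mem_singleton_iff, not_or] at hz
    obtain ⟨z0, z1, z2, z3, z4⟩ := hz
    have hq := q_ne_zero
    have key : ∀ a b : ℂ, a ≠ q * b → q * a - q^2 * b ≠ 0 := by
      intro a b hab h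
      apply hab
      have h' : q * (a - q * b) = 0 := by linear_combination h
      rcases mul_eq_zero.mp h' with h2 | h2
      · exact absurd h2 hq
      · exact sub_eq_zero.mp h2
    refine S3.generic hΨ u v z t z⁻¹ t⁻¹ (mul_inv_cancel₀ z0) (mul_inv_cancel₀ ht) hu hu0 hv hv0
      (key _ _ ?_) (key _ _ z1) (key _ _ ?_) (key _ _ z4)
    · intro h; apply z2; rw [← h, inv_inv]
    · intro h; apply z3; rw [← h, inv_inv]
  exact tendsto_nhds_unique_of_eventuallyEq (c1.tendsto.mono_left nhdsWithin_le_nhds)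
    (c2.tendsto.mono_left nhdsWithin_le_nhds) heq

theorem S3.perm {Ψ : List ℂ → Cyl.VW} (hΨ : Cyl.Fam (q^2) Ψ)
    {us us' : List ℂ} (hp : us.Perm us') (h0 : ∀ t ∈ us, t ≠ 0) (u v : List ℂ)
    (hu : Even u.length) (hu0 : u ≠ []) (hv : Even v.length) (hv0 : v ≠ []) :
    OO Ψ (u ++ (Cont.prs us ++ v)) = OO Ψ (u ++ (Cont.prs us' ++ v)) := by
  induction hp generalizing u with
  | nil => rfl
  | cons t _ ih =>
    rw [Cont.t05_prs_cons, Cont.t05_prs_cons]
    have h1 := ih (fun s hs => h0 s (List.mem_cons_of_mem _ hs)) (u ++ [t, t⁻¹])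
      (by rw [List.length_append]; exact hu.add ⟨1, rfl⟩) (by simp [hu0])
    simpa [List.append_assoc] using h1
  | swap s t l =>
    simp only [Cont.t05_prs_cons, List.cons_append]
    refine OO_swap_pairs hΨ u (Cont.prs l ++ v) t s (h0 t (by simp)) (h0 s (by simp)) hu hu0 ?_ ?_
    · rw [List.length_append, Cont.t05_prs_length]
      exact (even_two_mul _).add hv
    · simp [hv0]
  | trans h1 _ ih1 ih2 =>
    exact (ih1 h0 u hu hu0).trans (ih2 (fun t ht => h0 t (h1.mem_iff.2 ht)) u hu hu0)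

theorem hh_perm {Ψ : List ℂ → Cyl.VW} (hΨ : Cyl.Fam (q^2) Ψ) {us us' : List ℂ} (hp : us.Perm us')
    (h0 : ∀ t ∈ us, t ≠ 0) (x : ℂ) : hh Ψ x us = hh Ψ x us' := by
  have h1 := S3.perm hΨ hp h0 [x, 1] [1, q^2 * x] ⟨1, rfl⟩ (by simp) ⟨1, rfl⟩ (by simp)
  simp only [List.cons_append, List.nil_append] at h1
  unfold hh
  exact h1

end H731B
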