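import Pool.Agent.H731R6.Bc.S3

/-!
S3b: symmetries of `hh`, `Phi`, `RR`.
-/

set_option autoImplicit false

namespace H731B

open Pool.Agent.H988R2 Pool.Agent.H863R2 Pool.Agent.H980R2
open Pool.Agent.H988R2.Perc (Word Dyck q PD q_spec q_cube q_ne_zero q_ne_one)

theorem prs_length (us : List ℂ) : (Cont.prs us).length = 2 * us.length :=
  Cont.t05_prs_length us

theorem prs_perm {us us' : List ℂ} (hp : us.Perm us') : (Cont.prs us).Perm (Cont.prs us') := by
  unfold Cont.prs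
  exact hp.flatMap_right _

theorem hh_inv {Ψ : List ℂ → Cyl.VW} (hΨ : Cyl.Fam (q^2) Ψ) (x t : ℂ) (us : List ℂ) :
    hh Ψ x (t⁻¹ :: us) = hh Ψ x (t :: us) := by
  unfold hh
  rw [Cont.t05_prs_cons, Cont.t05_prs_cons, inv_inv]
  have h := OO_exch_even hΨ [x, 1] (Cont.prs us ++ [1, q^2*x]) t t⁻¹ ⟨1, rfl⟩ (by simp)
    (by
      rw [List.length_append, prs_length]
      exact (even_two_mul _).add ⟨1, rfl⟩) (by simp)
  simpa using h

theorem Phi_perm (x : ℂ) {us us' : List ℂ} (hp : us.Perm us') : Phi x us = Phi x us' := by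
  unfold Phi facc
  rw [((((prs_perm hp).cons 1).cons 1).map (fun y => (y - q * (q * x))^2)).prod_eq]

theorem Phi_inv (x t : ℂ) (us : List ℂ) : Phi x (t⁻¹ :: us) = Phi x (t :: us) := by
  unfold Phi facc
  rw [Cont.t05_prs_cons, Cont.t05_prs_cons, inv_inv]
  simp only [List.map_cons, List.prod_cons]
  ring

theorem RR_perm {Ψ : List ℂ → Cyl.VW} (hΨ : Cyl.Fam (q^2) Ψ) {us us' : List ℂ} (hp : us.Perm us')
    (h0 : ∀ t ∈ us, t ≠ 0) (x : ℂ) : RR Ψ x us = RR Ψ x us' := by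
  unfold RR
  rw [hh_perm hΨ hp h0, hh_perm hΨ hp h0, Phi_perm x hp, Phi_perm x⁻¹ hp,
    ZZ_perm hΨ (((prs_perm hp).cons 1).cons 1) (by
      rw [List.length_cons, List.length_cons, prs_length]
      exact ⟨us.length + 1, by ring⟩)]

theorem RR_inv (Ψ : List ℂ → Cyl.VW) (x : ℂ) (hx : x ≠ 0) (us : List ℂ) :
    RR Ψ x⁻¹ us = x⁻¹^3 * RR Ψ x us := by
  unfold RR
  rw [inv_inv]
  generalize Phi x us = A
  generalize Phi x⁻¹ us = B
  generalize hh Ψ (q * x) us = C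
  generalize hh Ψ (q * x⁻¹) us = D
  generalize ZZ Ψ (1 :: 1 :: Cont.prs us) = Z
  field_simp
  ring

end H731B
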