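import Pool.Agent.H731R6.Bc.Defs2

/-!
U1a: the differential identity.  Put `φ = 2π/3 + v`, `t = tt φ = 1 - 3/(4 sin²φ)`, `H = ∑_{k ≤ n} h_k t^k`, `h = hs n s`,
`Z = ∑_{j ≤ n} s_j`, `T_k = ∑_{j ∈ Icc k n} s_j`, `h_k = T_k/(3k-1)` (`h_0 = -Z`).  `sin 3v = sin 3φ = -4 sin³φ t`,
`cos 3v = cos 3φ = cos φ (1 - 4 sin²φ)`, `dt/dφ = (3/2) cos φ / sin³φ`, `y = sin φ H`, `y' = cos φ H + (3/2)(cos φ/sin²φ) H'(t)`.
Then `sin 3φ y' - cos 3φ y = sin φ cos φ (2 H - 6 t H')`, so `(3/2)(…) = -3 sin φ cos φ (3 t H' - H)`,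
`3 t H' - H = ∑ (3k-1) h_k t^k = ∑_{k ≤ n} T_k t^k = Z + ∑_{1 ≤ k ≤ n} T_k t^k`, and (Abel summation)
`(t - 1) ∑_{1 ≤ k ≤ n} T_k t^k = t (S(t) - Z)`, `t - 1 = -3/(4 sin²φ)`.  This gives `E_id`.
`yD_id`: `E_id` at `v` and at `-v` and `sin³(φ0+v) cos(φ0+v) - sin³(φ0-v) cos(φ0-v) = - sin³v cos v` (`φ0 = 2π/3`;
`sin³φ cos φ = (sin 2φ - (1/2) sin 4φ)/4`), `yD' (v) = yy'(v) + yy'(-v)`.
-/

set_option autoImplicit false

namespace H731B

open Pool.Agent.H988R2 Pool.Agent.H863R2 Pool.Agent.H980R2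
open Pool.Agent.H988R2.Perc (Word Dyck q PD q_spec q_cube q_ne_zero q_ne_one)

namespace U1a

theorem sin_pos_of {v : ℝ} (hv : |v| < Real.pi / 3) : 0 < Real.sin (2 * Real.pi / 3 + v) := by
  have h := abs_lt.1 hv
  have hp := Real.pi_pos
  apply Real.sin_pos_of_pos_of_lt_pi
  · linarith
  · linarith

theorem tt_hasDeriv (φ : ℝ) (hφ : Real.sin φ ≠ 0) :
    HasDerivAt tt (3 / 2 * (Real.cos φ / Real.sin φ ^ 3)) φ := by
  have h1 : HasDerivAt (fun φ : ℝ => 4 * Real.sin φ ^ 2)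
      (4 * ((2 : ℕ) * Real.sin φ ^ (2 - 1) * Real.cos φ)) φ :=
    ((Real.hasDerivAt_sin φ).pow 2).const_mul 4
  have h2 : (4 * Real.sin φ ^ 2) ≠ 0 := by positivity
  have h3 := ((hasDerivAt_const φ (3 : ℝ)).div h1 h2).const_sub 1
  refine h3.congr_deriv ?_
  push_cast
  field_simp
  ring

theorem abel (s : ℕ → ℝ) (t : ℝ) (n : ℕ) :
    t * (∑ j ∈ Finset.range (n + 1), s j * t ^ j) +
      (1 - t) * (∑ k ∈ Finset.range (n + 1), (∑ j ∈ Finset.Icc k n, s j) * t ^ k) =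
      ∑ j ∈ Finset.range (n + 1), s j := by
  induction n with
  | zero => simp; ring
  | succ n ih =>
    have h1 : ∑ k ∈ Finset.range (n + 1 + 1), (∑ j ∈ Finset.Icc k (n + 1), s j) * t ^ k =
        (∑ k ∈ Finset.range (n + 1), (∑ j ∈ Finset.Icc k n, s j) * t ^ k) +
          s (n + 1) * ∑ k ∈ Finset.range (n + 2), t ^ k := by
      rw [Finset.sum_range_succ, Finset.Icc_self, Finset.sum_singleton,
        Finset.sum_range_succ _ (n + 1), mul_add, Finset.mul_sum, ← add_assoc,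
        ← Finset.sum_add_distrib]
      congr 1
      apply Finset.sum_congr rfl
      intro k hk
      rw [Finset.sum_Icc_succ_top (by have := Finset.mem_range.1 hk; omega)]
      ring
    have h2 : (1 - t) * ∑ k ∈ Finset.range (n + 2), t ^ k = 1 - t ^ (n + 2) := by
      rw [mul_comm]
      exact geom_sum_mul_neg t (n + 2)
    rw [h1, Finset.sum_range_succ (fun j => s j * t ^ j), Finset.sum_range_succ s (n + 1), ← ih]
    have h3 : (1 - t) * (s (n + 1) * ∑ k ∈ Finset.range (n + 2), t ^ k) =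
        s (n + 1) * (1 - t ^ (n + 2)) := by
      rw [← h2]; ring
    rw [mul_add (1 - t), h3]
    ring

theorem sin_ang : Real.sin (2 * Real.pi / 3) = Real.sqrt 3 / 2 := by
  have h : 2 * Real.pi / 3 = Real.pi - Real.pi / 3 := by ring
  rw [h, Real.sin_pi_sub, Real.sin_pi_div_three]

theorem cos_ang : Real.cos (2 * Real.pi / 3) = -(1 / 2) := by
  have h : 2 * Real.pi / 3 = Real.pi - Real.pi / 3 := by ring
  rw [h, Real.cos_pi_sub, Real.cos_pi_div_three]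

theorem trig (v : ℝ) :
    Real.sin (2 * Real.pi / 3 + v) ^ 3 * Real.cos (2 * Real.pi / 3 + v) -
      Real.sin (2 * Real.pi / 3 - v) ^ 3 * Real.cos (2 * Real.pi / 3 - v) =
      -(Real.sin v ^ 3 * Real.cos v) := by
  rw [Real.sin_add, Real.cos_add, Real.sin_sub, Real.cos_sub, sin_ang, cos_ang]
  have h3 : Real.sqrt 3 ^ 2 = 3 := Real.sq_sqrt (by norm_num)
  obtain ⟨r, hr⟩ : ∃ r, r = Real.sqrt 3 := ⟨_, rfl⟩
  rw [← hr] at h3 ⊢
  obtain ⟨a, ha⟩ : ∃ a, a = Real.sin v := ⟨_, rfl⟩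
  obtain ⟨c, hc⟩ : ∃ c, c = Real.cos v := ⟨_, rfl⟩
  rw [← ha, ← hc]
  linear_combination (-(a * c / 8) * (c ^ 2 * r ^ 2 + 3 * a ^ 2)) * h3

end U1a

theorem yy_hasDeriv (n : ℕ) (h : ℕ → ℝ) (v : ℝ) (hv : |v| < Real.pi / 3) :
    HasDerivAt (yy n h)
      (Real.cos (2 * Real.pi / 3 + v) *
          (∑ k ∈ Finset.range (n + 1), h k * tt (2 * Real.pi / 3 + v) ^ k)
        + 3 / 2 * (Real.cos (2 * Real.pi / 3 + v) / Real.sin (2 * Real.pi / 3 + v) ^ 2) *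
          (∑ k ∈ Finset.range (n + 1), h k * (k * tt (2 * Real.pi / 3 + v) ^ (k - 1)))) v := by
  have hs := U1a.sin_pos_of hv
  have h0 : HasDerivAt (fun v : ℝ => 2 * Real.pi / 3 + v) 1 v :=
    (hasDerivAt_id v).const_add (2 * Real.pi / 3)
  have h1 : HasDerivAt (fun v : ℝ => Real.sin (2 * Real.pi / 3 + v))
      (Real.cos (2 * Real.pi / 3 + v)) v := by
    have := (Real.hasDerivAt_sin (2 * Real.pi / 3 + v)).comp v h0
    rw [mul_one] at this
    exact this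
  have h2 : HasDerivAt (fun v : ℝ => tt (2 * Real.pi / 3 + v))
      (3 / 2 * (Real.cos (2 * Real.pi / 3 + v) / Real.sin (2 * Real.pi / 3 + v) ^ 3)) v := by
    have := (U1a.tt_hasDeriv (2 * Real.pi / 3 + v) hs.ne').comp v h0
    rw [mul_one] at this
    exact this
  have h3 : HasDerivAt (fun v : ℝ => ∑ k ∈ Finset.range (n + 1),
      h k * tt (2 * Real.pi / 3 + v) ^ k)
      (∑ k ∈ Finset.range (n + 1), h k * (k * tt (2 * Real.pi / 3 + v) ^ (k - 1) *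
        (3 / 2 * (Real.cos (2 * Real.pi / 3 + v) / Real.sin (2 * Real.pi / 3 + v) ^ 3)))) v := by
    apply HasDerivAt.fun_sum
    intro k _
    exact (h2.pow k).const_mul (h k)
  have h4 := h1.mul h3
  have h5 : (fun v : ℝ => Real.sin (2 * Real.pi / 3 + v)) * (fun v : ℝ =>
      ∑ k ∈ Finset.range (n + 1), h k * tt (2 * Real.pi / 3 + v) ^ k) = yy n h := by
    funext w
    rfl
  rw [h5] at h4
  refine h4.congr_deriv ?_
  congr 1
  rw [Finset.mul_sum, Finset.mul_sum]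
  apply Finset.sum_congr rfl
  intro k _
  have hne := hs.ne'
  field_simp

theorem E_id (n : ℕ) (s : ℕ → ℝ) (v : ℝ) (hv : |v| < Real.pi / 3) :
    Real.sin (3 * v) * Real.cos (2 * Real.pi / 3 + v) * Sr n s (tt (2 * Real.pi / 3 + v))
      + 3 / 2 * (Real.sin (3 * v) * deriv (yy n (hs n s)) v - Real.cos (3 * v) * yy n (hs n s) v) =
    -4 * (∑ j ∈ Finset.range (n + 1), s j) * Real.sin (2 * Real.pi / 3 + v) ^ 3 *
      Real.cos (2 * Real.pi / 3 + v) := by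
  have hS := U1a.sin_pos_of hv
  rw [(yy_hasDeriv n (hs n s) v hv).deriv]
  have e1 : Real.sin (3 * v) = 3 * Real.sin (2 * Real.pi / 3 + v) -
      4 * Real.sin (2 * Real.pi / 3 + v) ^ 3 := by
    rw [← Real.sin_three_mul]
    have : 3 * (2 * Real.pi / 3 + v) = 3 * v + 2 * Real.pi := by ring
    rw [this, Real.sin_add_two_pi]
  have e2 : Real.cos (3 * v) = 4 * Real.cos (2 * Real.pi / 3 + v) ^ 3 -
      3 * Real.cos (2 * Real.pi / 3 + v) := by
    rw [← Real.cos_three_mul]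
    have : 3 * (2 * Real.pi / 3 + v) = 3 * v + 2 * Real.pi := by ring
    rw [this, Real.cos_add_two_pi]
  have e3 : Real.cos (2 * Real.pi / 3 + v) ^ 2 = 1 - Real.sin (2 * Real.pi / 3 + v) ^ 2 := by
    have := Real.sin_sq_add_cos_sq (2 * Real.pi / 3 + v)
    linarith
  have e4 : yy n (hs n s) v = Real.sin (2 * Real.pi / 3 + v) *
      ∑ k ∈ Finset.range (n + 1), hs n s k * tt (2 * Real.pi / 3 + v) ^ k := rfl
  rw [e1, e2, e4]
  unfold Sr
  have e5 : 4 * Real.sin (2 * Real.pi / 3 + v) ^ 2 * (1 - tt (2 * Real.pi / 3 + v)) = 3 := by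
    have key : ∀ x : ℝ, x ≠ 0 → 4 * x ^ 2 * (1 - (1 - 3 / (4 * x ^ 2))) = 3 := by
      intro x hx
      have hx2 : (4 * x ^ 2) ≠ 0 := by positivity
      rw [sub_sub_cancel, mul_div_cancel₀ _ hx2]
    exact key _ hS.ne'
  have hab := U1a.abel s (tt (2 * Real.pi / 3 + v)) n
  have e6 : 3 * (tt (2 * Real.pi / 3 + v) * ∑ k ∈ Finset.range (n + 1),
      hs n s k * (k * tt (2 * Real.pi / 3 + v) ^ (k - 1))) -
      ∑ k ∈ Finset.range (n + 1), hs n s k * tt (2 * Real.pi / 3 + v) ^ k =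
      ∑ k ∈ Finset.range (n + 1), (∑ j ∈ Finset.Icc k n, s j) * tt (2 * Real.pi / 3 + v) ^ k := by
    rw [Finset.mul_sum, Finset.mul_sum, ← Finset.sum_sub_distrib]
    apply Finset.sum_congr rfl
    intro k _
    have h3k : (3 * (k : ℝ) - 1) ≠ 0 := by
      intro h
      have h1 : (3 * k : ℤ) = 1 := by
        have : (3 * (k : ℝ)) = 1 := by linarith
        exact_mod_cast this
      omega
    have h4k : ∀ t : ℝ, t * ((k : ℝ) * t ^ (k - 1)) = k * t ^ k := by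
      intro t
      cases k with
      | zero => simp
      | succ k =>
        rw [Nat.add_sub_cancel, pow_succ]
        ring
    have h5k : tt (2 * Real.pi / 3 + v) * (hs n s k * (k * tt (2 * Real.pi / 3 + v) ^ (k - 1))) =
        hs n s k * (k * tt (2 * Real.pi / 3 + v) ^ k) := by
      rw [← h4k]
      ring
    rw [h5k]
    unfold hs
    field_simp
  obtain ⟨S, hSd⟩ : ∃ S, S = Real.sin (2 * Real.pi / 3 + v) := ⟨_, rfl⟩
  obtain ⟨c, hcd⟩ : ∃ c, c = Real.cos (2 * Real.pi / 3 + v) := ⟨_, rfl⟩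
  obtain ⟨t, htd⟩ : ∃ t, t = tt (2 * Real.pi / 3 + v) := ⟨_, rfl⟩
  rw [← htd] at hab e6 e5 ⊢
  rw [← hSd] at hS e3 e5 ⊢
  rw [← hcd] at e3 ⊢
  obtain ⟨A, hA⟩ : ∃ A, A = ∑ k ∈ Finset.range (n + 1), hs n s k * t ^ k := ⟨_, rfl⟩
  obtain ⟨B, hB⟩ : ∃ B, B = ∑ k ∈ Finset.range (n + 1), hs n s k * (k * t ^ (k - 1)) := ⟨_, rfl⟩
  obtain ⟨T, hT⟩ : ∃ T, T = ∑ k ∈ Finset.range (n + 1), (∑ j ∈ Finset.Icc k n, s j) * t ^ k :=
    ⟨_, rfl⟩
  obtain ⟨R, hR⟩ : ∃ R, R = ∑ j ∈ Finset.range (n + 1), s j * t ^ j := ⟨_, rfl⟩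
  obtain ⟨Z, hZ⟩ : ∃ Z, Z = ∑ j ∈ Finset.range (n + 1), s j := ⟨_, rfl⟩
  rw [← hA, ← hB, ← hT] at e6
  rw [← hR, ← hT, ← hZ] at hab
  rw [← hA, ← hB, ← hR, ← hZ]
  have hSne := hS.ne'
  have k1 : 3 * S - 4 * S ^ 3 = -4 * S ^ 3 * t := by
    linear_combination (-S) * e5
  have k2 : 4 * c ^ 3 - 3 * c = c * (1 - 4 * S ^ 2) := by
    linear_combination (4 * c) * e3
  rw [k1, k2]
  have k3 : S ^ 3 * (3 / 2 * (c / S ^ 2) * B) = 3 / 2 * c * S * B := by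
    field_simp
  linear_combination (-4 * S ^ 3 * c) * hab + (-6 * t) * k3 - 3 * c * S * e6 +
    (c * S * T + c * S * A * (3 / 2)) * e5

theorem yD_id (n : ℕ) (s : ℕ → ℝ) (v : ℝ) (hv : |v| < Real.pi / 3) :
    Real.sin (3 * v) * deriv (yD n (hs n s)) v - Real.cos (3 * v) * yD n (hs n s) v =
      -(2 / 3) * G3 n s v := by
  have hv' : |-v| < Real.pi / 3 := by rwa [abs_neg]
  have h1 := E_id n s v hv
  have h2 := E_id n s (-v) hv'
  have h3 : deriv (yD n (hs n s)) v = deriv (yy n (hs n s)) v + deriv (yy n (hs n s)) (-v) := by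
    have d1 := yy_hasDeriv n (hs n s) v hv
    have d2 := yy_hasDeriv n (hs n s) (-v) hv'
    have d3 := d2.scomp v (hasDerivAt_neg v)
    have d4 := d1.sub d3
    have d5 : (yy n (hs n s) - yy n (hs n s) ∘ Neg.neg) = yD n (hs n s) := by
      funext w
      rfl
    rw [d5] at d4
    rw [d1.deriv, d2.deriv, d4.deriv]
    simp only [smul_eq_mul]
    ring
  have h4 := U1a.trig v
  have n1 : 3 * -v = -(3 * v) := by ring
  have n2 : 2 * Real.pi / 3 + -v = 2 * Real.pi / 3 - v := by ring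
  rw [n1, Real.sin_neg, Real.cos_neg, n2] at h2
  rw [h3]
  unfold yD G3
  linear_combination (2 / 3) * h1 - (2 / 3) * h2 -
    (8 / 3) * (∑ j ∈ Finset.range (n + 1), s j) * h4

end H731B
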