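import Pool.Agent.H731R6.Bc.Defs2

/-!
U1b: integration.  General lemma: `D` analytic at `0`, odd, `sin(3v) D' - cos(3v) D = O(v^(2n))` implies `D = O(v^(2n+1))`.
If `D` is not eventually `0`: `D v = v^a u v`, `u` analytic at `0`, `u 0 ≠ 0`
(`AnalyticAt.exists_eventuallyEq_pow_smul_nonzero_iff`), `a` odd (as `D` is odd), and
`sin(3v) D' - cos(3v) D = v^a ((sin(3v)/v) (a u + v u') - cos(3v) u)` with bracket `→ (3a - 1) u(0) ≠ 0`; so `a ≥ 2n` (otherwise
`v^a = O(v^(2n))` is false), and `a` odd gives `a ≥ 2n+1`.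
`yy_analytic`: `sin (2π/3) ≠ 0`, compositions (`fun_prop`/`AnalyticAt.div`, …).
-/

set_option autoImplicit false

namespace H731B

open Pool.Agent.H988R2 Pool.Agent.H863R2 Pool.Agent.H980R2
open Pool.Agent.H988R2.Perc (Word Dyck q PD q_spec q_cube q_ne_zero q_ne_one)

namespace U1b

open Filter Topology Asymptotics

/-- `v^a * g v` with `g → c ≠ 0` and `v^a g = O(v^m)` forces `m ≤ a`. -/
theorem pow_le_of_isBigO {a m : ℕ} {g : ℝ → ℝ} {c : ℝ} (hc : c ≠ 0)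
    (hg : Tendsto g (𝓝[≠] 0) (𝓝 c))
    (h : (fun v : ℝ => v^a * g v) =O[𝓝[≠] 0] (fun v : ℝ => v^m)) : m ≤ a := by
  by_contra hlt
  push Not at hlt
  -- `1 = O(g)`
  have h1 : (fun _ : ℝ => (1:ℝ)) =O[𝓝[≠] 0] g := by
    have : Tendsto (fun v => (g v)⁻¹) (𝓝[≠] 0) (𝓝 c⁻¹) := hg.inv₀ hc
    have h2 : (fun v => (g v)⁻¹) =O[𝓝[≠] 0] (fun _ : ℝ => (1:ℝ)) := this.isBigO_one ℝ
    have h3 := h2.mul (isBigO_refl g (𝓝[≠] 0))
    refine (IsBigO.congr' h3 ?_ ?_)
    · have : ∀ᶠ v in 𝓝[≠] 0, g v ≠ 0 := hg.eventually_ne hc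
      filter_upwards [this] with v hv
      exact inv_mul_cancel₀ hv
    · filter_upwards with v
      simp
  have h4 : (fun v : ℝ => v^a) =O[𝓝[≠] 0] (fun v : ℝ => v^m) := by
    have := ((isBigO_refl (fun v : ℝ => v^a) (𝓝[≠] 0)).mul h1).trans h
    simpa using this
  obtain ⟨C, hC⟩ := h4.bound
  have h5 : ∀ᶠ v : ℝ in 𝓝[≠] 0, 1 ≤ C * |v|^(m-a) := by
    have hne : ∀ᶠ v : ℝ in 𝓝[≠] 0, v ≠ 0 := self_mem_nhdsWithin
    filter_upwards [hC, hne] with v hv hv0
    have hp : 0 < |v|^a := pow_pos (abs_pos.2 hv0) a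
    rw [norm_pow, norm_pow, Real.norm_eq_abs] at hv
    have e : |v|^m = |v|^a * |v|^(m-a) := by rw [← pow_add]; congr 1; omega
    rw [e] at hv
    have : |v|^a * 1 ≤ |v|^a * (C * |v|^(m-a)) := by nlinarith
    exact le_of_mul_le_mul_left this hp
  have h6 : Tendsto (fun v : ℝ => C * |v|^(m-a)) (𝓝[≠] 0) (𝓝 0) := by
    have : Tendsto (fun v : ℝ => C * |v|^(m-a)) (𝓝 0) (𝓝 (C * |(0:ℝ)|^(m-a))) := by
      apply Continuous.tendsto; fun_prop
    rw [abs_zero, zero_pow (by omega), mul_zero] at this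
    exact this.mono_left nhdsWithin_le_nhds
  have h7 : (1:ℝ) ≤ 0 := ge_of_tendsto h6 h5
  linarith

end U1b

open Filter Topology Asymptotics in
theorem odd_order {D : ℝ → ℝ} (hD : AnalyticAt ℝ D 0) (hodd : ∀ v, D (-v) = - D v) (n : ℕ)
    (h : (fun v : ℝ => Real.sin (3 * v) * deriv D v - Real.cos (3 * v) * D v) =O[𝓝 0]
      (fun v : ℝ => v^(2*n))) : D =O[𝓝 0] (fun v : ℝ => v^(2*n+1)) := by
  by_cases hz : ∀ᶠ v in 𝓝 (0:ℝ), D v = 0
  · have : D =ᶠ[𝓝 0] (fun _ => (0:ℝ)) := hz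
    exact this.trans_isBigO (isBigO_zero _ _)
  obtain ⟨a, u, hu, hu0, hDu⟩ := (hD.exists_eventuallyEq_pow_smul_nonzero_iff).2 hz
  simp only [sub_zero, smul_eq_mul] at hDu
  -- `a` is odd
  have hodd_a : Odd a := by
    by_contra hev
    rw [Nat.not_odd_iff_even] at hev
    have hneg : ∀ᶠ v in 𝓝 (0:ℝ), D (-v) = (-v)^a * u (-v) := by
      have : Tendsto (fun v : ℝ => -v) (𝓝 0) (𝓝 0) := by
        simpa using (continuous_neg (G := ℝ)).tendsto 0
      exact this.eventually hDu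
    have huc : ContinuousAt u 0 := hu.continuousAt
    have h1 : ∀ᶠ v in 𝓝[≠] (0:ℝ), u (-v) + u v = 0 := by
      have hne : ∀ᶠ v : ℝ in 𝓝[≠] 0, v ≠ 0 := self_mem_nhdsWithin
      filter_upwards [nhdsWithin_le_nhds hneg, nhdsWithin_le_nhds hDu, hne] with v h1 h2 h3
      rw [hodd, h2, hev.neg_pow] at h1
      have : v^a * (u (-v) + u v) = 0 := by linarith
      exact (mul_eq_zero.1 this).resolve_left (pow_ne_zero _ h3)
    have h2 : Tendsto (fun v : ℝ => u (-v) + u v) (𝓝[≠] 0) (𝓝 (u 0 + u 0)) := by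
      have ht : Tendsto (fun v : ℝ => -v) (𝓝[≠] 0) (𝓝 0) := by
        have : Tendsto (fun v : ℝ => -v) (𝓝 0) (𝓝 0) := by
          simpa using (continuous_neg (G := ℝ)).tendsto 0
        exact this.mono_left nhdsWithin_le_nhds
      exact (huc.tendsto.comp ht).add (huc.tendsto.mono_left nhdsWithin_le_nhds)
    have h3 : u 0 + u 0 = 0 := by
      have h4 : Tendsto (fun v : ℝ => u (-v) + u v) (𝓝[≠] 0) (𝓝 0) :=
        tendsto_const_nhds.congr' (by filter_upwards [h1] with v hv; exact hv.symm)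
      exact tendsto_nhds_unique h2 h4
    apply hu0; linarith
  obtain ⟨b, rfl⟩ := hodd_a
  -- the bracket
  have hbr : ∀ᶠ v in 𝓝[≠] (0:ℝ), Real.sin (3 * v) * deriv D v - Real.cos (3 * v) * D v
      = v^(2*b+1) * ((Real.sin (3*v) / v) * ((2*b+1 : ℕ) * u v + v * deriv u v)
        - Real.cos (3*v) * u v) := by
    have hne : ∀ᶠ v : ℝ in 𝓝[≠] 0, v ≠ 0 := self_mem_nhdsWithin
    have hev := hDu.eventually_nhds
    have hua := hu.eventually_analyticAt
    filter_upwards [nhdsWithin_le_nhds hev, nhdsWithin_le_nhds hDu, nhdsWithin_le_nhds hua, hne]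
      with v h1 h2 h3 h4
    have hd : deriv D v = (2*b+1 : ℕ) * v^(2*b) * u v + v^(2*b+1) * deriv u v := by
      have e : D =ᶠ[𝓝 v] fun z => z^(2*b+1) * u z := h1
      rw [e.deriv_eq]
      have := ((hasDerivAt_pow (2*b+1) v).mul h3.differentiableAt.hasDerivAt)
      have h5 : deriv (fun z => z^(2*b+1) * u z) v = _ := this.deriv
      simpa using h5
    rw [hd, h2]
    field_simp
    ring
  have hlim : Tendsto (fun v : ℝ => (Real.sin (3*v) / v) * ((2*b+1 : ℕ) * u v + v * deriv u v)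
        - Real.cos (3*v) * u v) (𝓝[≠] 0) (𝓝 (3 * ((2*b+1 : ℕ) * u 0 + 0 * deriv u 0) - 1 * u 0)) := by
    have hs : Tendsto (fun v : ℝ => Real.sin (3*v) / v) (𝓝[≠] 0) (𝓝 3) := by
      have hd : HasDerivAt (fun v : ℝ => Real.sin (3*v)) 3 0 := by
        have h0 : HasDerivAt (fun v : ℝ => 3 * v) (3 * 1) 0 := (hasDerivAt_id (0:ℝ)).const_mul 3
        have := h0.sin
        simpa using this
      have := hd.tendsto_slope
      refine this.congr' ?_
      filter_upwards with v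
      simp [slope_def_field]
    have hc : Tendsto (fun v : ℝ => Real.cos (3*v)) (𝓝[≠] 0) (𝓝 1) := by
      have : Tendsto (fun v : ℝ => Real.cos (3*v)) (𝓝 0) (𝓝 (Real.cos (3*0))) := by
        apply Continuous.tendsto; fun_prop
      simp only [mul_zero, Real.cos_zero] at this
      exact this.mono_left nhdsWithin_le_nhds
    have hu1 : Tendsto u (𝓝[≠] 0) (𝓝 (u 0)) := hu.continuousAt.tendsto.mono_left nhdsWithin_le_nhds
    have hu2 : Tendsto (deriv u) (𝓝[≠] 0) (𝓝 (deriv u 0)) :=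
      hu.deriv.continuousAt.tendsto.mono_left nhdsWithin_le_nhds
    have hv : Tendsto (fun v : ℝ => v) (𝓝[≠] 0) (𝓝 0) := tendsto_id.mono_left nhdsWithin_le_nhds
    exact (hs.mul ((hu1.const_mul _).add (hv.mul hu2))).sub (hc.mul hu1)
  have hcne : (3 * ((2*b+1 : ℕ) * u 0 + 0 * deriv u 0) - 1 * u 0) ≠ 0 := by
    have : (3 * ((2*b+1 : ℕ) * u 0 + 0 * deriv u 0) - 1 * u 0) = (6 * (b:ℝ) + 2) * u 0 := by
      push_cast; ring
    rw [this]
    have : (6 * (b:ℝ) + 2) ≠ 0 := by positivity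
    exact mul_ne_zero this hu0
  have hle : 2*n ≤ 2*b+1 := by
    refine U1b.pow_le_of_isBigO hcne hlim ?_
    refine IsBigO.congr' (h.mono nhdsWithin_le_nhds) hbr ?_
    exact EventuallyEq.rfl
  have hle' : 2*n+1 ≤ 2*b+1 := by omega
  have h1 : D =O[𝓝 0] (fun v : ℝ => v^(2*b+1)) := by
    have h2 : D =ᶠ[𝓝 0] fun v => v^(2*b+1) * u v := hDu
    refine h2.trans_isBigO ?_
    have h3 : u =O[𝓝 0] (fun _ => (1:ℝ)) := hu.continuousAt.tendsto.isBigO_one ℝ
    simpa using (isBigO_refl (fun v : ℝ => v^(2*b+1)) (𝓝 0)).mul h3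
  refine h1.trans ?_
  have : (fun v : ℝ => v^(2*b+1)) = fun v : ℝ => v^(2*n+1) * v^(2*b+1-(2*n+1)) := by
    funext v; rw [← pow_add]; congr 1; omega
  rw [this]
  have h3 : (fun v : ℝ => v^(2*b+1-(2*n+1))) =O[𝓝 0] (fun _ => (1:ℝ)) := by
    have : Tendsto (fun v : ℝ => v^(2*b+1-(2*n+1))) (𝓝 0) (𝓝 ((0:ℝ)^(2*b+1-(2*n+1)))) := by
      apply Continuous.tendsto; fun_prop
    exact this.isBigO_one ℝ
  simpa using (isBigO_refl (fun v : ℝ => v^(2*n+1)) (𝓝 0)).mul h3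

theorem yy_analytic (n : ℕ) (h : ℕ → ℝ) (v : ℝ) (hv : |v| < Real.pi / 3) :
    AnalyticAt ℝ (yy n h) v := by
  have hv' := abs_lt.1 hv
  have hs : Real.sin (2 * Real.pi / 3 + v) ≠ 0 := by
    apply ne_of_gt
    apply Real.sin_pos_of_pos_of_lt_pi
    · linarith [Real.pi_pos, hv'.1]
    · linarith [Real.pi_pos, hv'.2]
  have hlin : AnalyticAt ℝ (fun v : ℝ => 2 * Real.pi / 3 + v) v := analyticAt_const.add analyticAt_id
  have hsin : AnalyticAt ℝ (fun v : ℝ => Real.sin (2 * Real.pi / 3 + v)) v :=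
    AnalyticAt.comp (g := Real.sin) (f := fun v : ℝ => 2 * Real.pi / 3 + v) Real.analyticAt_sin hlin
  have htt : AnalyticAt ℝ (fun v : ℝ => tt (2 * Real.pi / 3 + v)) v := by
    unfold tt
    refine analyticAt_const.sub (analyticAt_const.div (analyticAt_const.mul (hsin.pow 2)) ?_)
    have := pow_ne_zero 2 hs
    simpa using this
  have hsum : AnalyticAt ℝ (fun v : ℝ => ∑ k ∈ Finset.range (n + 1),
      h k * tt (2 * Real.pi / 3 + v) ^ k) v := by
    apply Finset.analyticAt_fun_sum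
    intro k _
    exact analyticAt_const.mul (htt.pow k)
  exact hsin.mul hsum

theorem yD_analytic (n : ℕ) (h : ℕ → ℝ) (v : ℝ) (hv : |v| < Real.pi / 3) :
    AnalyticAt ℝ (yD n h) v := by
  have h1 := yy_analytic n h v hv
  have h2 : AnalyticAt ℝ (yy n h) (-v) := yy_analytic n h (-v) (by rwa [abs_neg])
  have h3 : AnalyticAt ℝ (fun v : ℝ => yy n h (-v)) v :=
    AnalyticAt.comp (g := yy n h) (f := fun v : ℝ => -v) h2 analyticAt_id.neg
  exact h1.sub h3

theorem yD_odd (n : ℕ) (h : ℕ → ℝ) (v : ℝ) : yD n h (-v) = - yD n h v := by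
  unfold yD; rw [neg_neg]; ring

end H731B
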