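import Pool.Agent.H731R6.Bc.U1a

/-!
U2a: the explicit solution of the differential equation.  `φ = 2π/3 + v`, `t = tt φ`, `g(t) = ∑_{k ≤ n} hc n k t^k`, `y = sin φ g(t)`.
`y'' + y = -(3/2) g'(t)/sin³φ + (9/4) (cos²φ/sin⁵φ) g''(t)`, so `sin(3v)(y'' + y) = Bf n v := -3 t ((1-4t) g''(t) - 2 g'(t))`
(`sin 3v = -4 sin³φ t`, `cos²φ/sin²φ = (1-4t)/3`).  `sin(3v) (Bf)' = 18 t cos φ (t ((1-4t) g'' - 2 g'))_t` and
`36 n² y' = 36 n² cos φ (g + 2(1-t) g')` (`1/sin²φ = (4/3)(1-t)`), equal because of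
`t (t ((1-4t) g'' - 2 g'))_t = 2 n² (g + 2 (1-t) g')`: coefficients of `t^k`: `k² ((k+1) h_{k+1} - 2(2k-1) h_k) =
2n² (2(k+1) h_{k+1} - (2k-1) h_k)`, i.e. `(k+1)(4n²-k²) h_{k+1} = 2(2k-1)(n²-k²) h_k`, the recursion of `hc` (`h_{n+1} = 0`).
Suggestion: work with `g = Polynomial` over `ℝ` (`∑ C (hc n k) * X^k`), `Polynomial.derivative`, and prove the polynomial
identity by `Polynomial.ext`/coefficients, then evaluate.
-/

set_option autoImplicit false

namespace H731B

open Pool.Agent.H988R2 Pool.Agent.H863R2 Pool.Agent.H980R2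
open Pool.Agent.H988R2.Perc (Word Dyck q PD q_spec q_cube q_ne_zero q_ne_one)


/-- `sin (3 v) (y'' + y)` as an explicit function -/
noncomputable def Bf (n : ℕ) (v : ℝ) : ℝ :=
  -3 * tt (2 * Real.pi / 3 + v) * ((1 - 4 * tt (2 * Real.pi / 3 + v)) *
      (∑ k ∈ Finset.range (n + 1), hc n k * ((k : ℝ) * (k - 1) * tt (2 * Real.pi / 3 + v) ^ (k - 2)))
    - 2 * (∑ k ∈ Finset.range (n + 1), hc n k * ((k : ℝ) * tt (2 * Real.pi / 3 + v) ^ (k - 1))))

namespace U2a

open Polynomial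

theorem hc_zero (n : ℕ) : ∀ k, n < k → hc n k = 0 := by
  intro k
  induction k with
  | zero => intro h; omega
  | succ k ih =>
    intro h
    rcases Nat.lt_or_ge n k with h1 | h1
    · show hc n k * _ / _ = 0
      rw [ih h1, zero_mul, zero_div]
    · have h2 : k = n := by omega
      subst h2
      show hc k k * (2 * (2 * (k : ℝ) - 1) * ((k : ℝ)^2 - (k : ℝ)^2)) / _ = 0
      rw [sub_self, mul_zero, mul_zero, zero_div]

theorem hc_rec {n : ℕ} (hn : 1 ≤ n) (k : ℕ) :
    ((k : ℝ) + 1) * (4 * (n : ℝ)^2 - (k : ℝ)^2) * hc n (k + 1) =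
      2 * (2 * (k : ℝ) - 1) * ((n : ℝ)^2 - (k : ℝ)^2) * hc n k := by
  rcases Nat.lt_or_ge n k with h1 | h1
  · rw [hc_zero n k h1, hc_zero n (k + 1) (by omega), mul_zero, mul_zero]
  · have hn' : (1 : ℝ) ≤ n := by exact_mod_cast hn
    have hk' : (k : ℝ) ≤ n := by exact_mod_cast h1
    have hk0 : (0 : ℝ) ≤ k := Nat.cast_nonneg k
    have h2 : (0 : ℝ) < 4 * (n : ℝ)^2 - (k : ℝ)^2 := by nlinarith
    have h3 : (0 : ℝ) < (k : ℝ) + 1 := by linarith
    have h4 : hc n (k + 1) = hc n k * (2 * (2 * (k : ℝ) - 1) * ((n : ℝ)^2 - (k : ℝ)^2)) /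
      (((k : ℝ) + 1) * (4 * (n : ℝ)^2 - (k : ℝ)^2)) := rfl
    rw [h4, mul_div_assoc', div_eq_iff (by positivity)]
    ring

/-- the polynomial -/
noncomputable def P (n : ℕ) : ℝ[X] := ∑ k ∈ Finset.range (n + 1), C (hc n k) * X ^ k

theorem P_coeff (n k : ℕ) : (P n).coeff k = hc n k := by
  unfold P
  simp only [finsetSum_coeff, coeff_C_mul, coeff_X_pow, mul_ite, mul_one, mul_zero]
  rw [Finset.sum_ite_eq]
  split_ifs with h
  · rfl
  · rw [hc_zero n k (by simpa using h)]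

theorem P_eval (n : ℕ) (t : ℝ) : (P n).eval t = ∑ k ∈ Finset.range (n + 1), hc n k * t ^ k := by
  unfold P
  simp [eval_finsetSum]

theorem dP_eval (n : ℕ) (t : ℝ) : (derivative (P n)).eval t =
    ∑ k ∈ Finset.range (n + 1), hc n k * ((k : ℝ) * t ^ (k - 1)) := by
  unfold P
  rw [derivative_sum, eval_finsetSum]
  refine Finset.sum_congr rfl fun k _ => ?_
  rw [derivative_C_mul_X_pow]
  simp only [eval_mul, eval_C, eval_pow, eval_X]
  ring

theorem ddP_eval (n : ℕ) (t : ℝ) : (derivative (derivative (P n))).eval t =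
    ∑ k ∈ Finset.range (n + 1), hc n k * ((k : ℝ) * (k - 1) * t ^ (k - 2)) := by
  unfold P
  rw [derivative_sum, derivative_sum, eval_finsetSum]
  refine Finset.sum_congr rfl fun k _ => ?_
  rw [derivative_C_mul_X_pow, derivative_C_mul_X_pow]
  simp only [eval_mul, eval_C, eval_pow, eval_X]
  rcases Nat.eq_zero_or_pos k with h | h
  · subst h; simp
  · rw [Nat.cast_sub h, Nat.sub_sub]
    push_cast
    ring

/-- the differential equation of the polynomial -/
theorem P_ode {n : ℕ} (hn : 1 ≤ n) :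
    X * derivative (X * (derivative (derivative (P n)) - C 4 * (X * derivative (derivative (P n)))
      - C 2 * derivative (P n))) =
    C (2 * (n : ℝ)^2) * (P n + C 2 * derivative (P n) - C 2 * (X * derivative (P n))) := by
  ext k
  rcases k with _ | k
  · rw [coeff_X_mul_zero]
    simp only [coeff_C_mul, coeff_add, coeff_sub, coeff_X_mul_zero, coeff_derivative, P_coeff]
    have h := hc_rec hn 0
    push_cast at h ⊢
    have hn' : (1 : ℝ) ≤ n := by exact_mod_cast hn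
    nlinarith
  · rw [coeff_X_mul, coeff_derivative, coeff_X_mul]
    have e1 : (X * derivative (derivative (P n))).coeff k =
        (k : ℝ) * ((k : ℝ) + 1) * hc n (k + 1) := by
      rcases k with _ | k
      · rw [coeff_X_mul_zero]; simp
      · rw [coeff_X_mul, coeff_derivative, coeff_derivative, P_coeff]
        push_cast
        ring
    have h := hc_rec hn (k + 1)
    simp only [coeff_C_mul, coeff_add, coeff_sub, coeff_X_mul, coeff_derivative, P_coeff, e1]
    push_cast at h ⊢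
    linear_combination -h

theorem P_ode_eval {n : ℕ} (hn : 1 ≤ n) (t : ℝ) :
    t * (derivative (X * (derivative (derivative (P n)) - C 4 * (X * derivative (derivative (P n)))
      - C 2 * derivative (P n)))).eval t =
    2 * (n : ℝ)^2 * ((P n).eval t + 2 * (1 - t) * (derivative (P n)).eval t) := by
  have h := congrArg (eval t) (P_ode hn)
  simp only [eval_mul, eval_X, eval_C, eval_add, eval_sub] at h
  rw [h]
  ring

section trig

theorem sin_pos' {v : ℝ} (hv : |v| < Real.pi / 3) : 0 < Real.sin (2 * Real.pi / 3 + v) := by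
  rw [abs_lt] at hv
  have := Real.pi_pos
  exact Real.sin_pos_of_pos_of_lt_pi (by linarith) (by linarith)

theorem dsin (v : ℝ) : HasDerivAt (fun v => Real.sin (2 * Real.pi / 3 + v))
    (Real.cos (2 * Real.pi / 3 + v)) v := by
  have h := ((hasDerivAt_id v).const_add (2 * Real.pi / 3)).sin
  refine h.congr_deriv ?_
  simp

theorem dcos (v : ℝ) : HasDerivAt (fun v => Real.cos (2 * Real.pi / 3 + v))
    (-Real.sin (2 * Real.pi / 3 + v)) v := by
  have h := ((hasDerivAt_id v).const_add (2 * Real.pi / 3)).cos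
  refine h.congr_deriv ?_
  simp

theorem dtt {v : ℝ} (hv : |v| < Real.pi / 3) :
    HasDerivAt (fun v => tt (2 * Real.pi / 3 + v))
      (3 / 2 * Real.cos (2 * Real.pi / 3 + v) / Real.sin (2 * Real.pi / 3 + v) ^ 3) v := by
  have hs := (sin_pos' hv).ne'
  have h1 : HasDerivAt (fun v => 4 * Real.sin (2 * Real.pi / 3 + v) ^ 2)
      (4 * (2 * Real.sin (2 * Real.pi / 3 + v) * Real.cos (2 * Real.pi / 3 + v))) v := by
    have h := ((dsin v).pow 2).const_mul (4 : ℝ)
    refine h.congr_deriv ?_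
    simp
  have h2 := ((hasDerivAt_const v (3 : ℝ)).div h1 (by positivity)).const_sub 1
  refine h2.congr_deriv ?_
  field_simp
  ring

theorem dpol (Q : ℝ[X]) {v : ℝ} (hv : |v| < Real.pi / 3) :
    HasDerivAt (fun v => Q.eval (tt (2 * Real.pi / 3 + v)))
      ((derivative Q).eval (tt (2 * Real.pi / 3 + v)) *
        (3 / 2 * Real.cos (2 * Real.pi / 3 + v) / Real.sin (2 * Real.pi / 3 + v) ^ 3)) v := by
  have h := HasDerivAt.comp (h₂ := fun x => Q.eval x) (h := fun v => tt (2 * Real.pi / 3 + v)) v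
    (Q.hasDerivAt (tt (2 * Real.pi / 3 + v))) (dtt hv)
  exact h

theorem yy_eq (n : ℕ) : yy n (hc n) =
    fun v => Real.sin (2 * Real.pi / 3 + v) * (P n).eval (tt (2 * Real.pi / 3 + v)) := by
  funext v
  rw [P_eval]
  rfl

/-- first derivative -/
noncomputable def Y1 (n : ℕ) (v : ℝ) : ℝ :=
  Real.cos (2 * Real.pi / 3 + v) * (P n).eval (tt (2 * Real.pi / 3 + v)) +
    3 / 2 * (Real.cos (2 * Real.pi / 3 + v) / Real.sin (2 * Real.pi / 3 + v) ^ 2) *
      (derivative (P n)).eval (tt (2 * Real.pi / 3 + v))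

theorem dyy (n : ℕ) {v : ℝ} (hv : |v| < Real.pi / 3) :
    HasDerivAt (yy n (hc n)) (Y1 n v) v := by
  rw [yy_eq]
  refine ((dsin v).mul (dpol (P n) hv)).congr_deriv ?_
  have hs := (sin_pos' hv).ne'
  unfold Y1
  field_simp

theorem near {v : ℝ} (hv : |v| < Real.pi / 3) : ∀ᶠ w in nhds v, |w| < Real.pi / 3 := by
  have h1 : IsOpen {w : ℝ | |w| < Real.pi / 3} := isOpen_lt continuous_abs continuous_const
  exact h1.mem_nhds hv

/-- second derivative -/
noncomputable def Y2 (n : ℕ) (v : ℝ) : ℝ :=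
  -Real.sin (2 * Real.pi / 3 + v) * (P n).eval (tt (2 * Real.pi / 3 + v)) -
    3 / 2 / Real.sin (2 * Real.pi / 3 + v) ^ 3 *
      (derivative (P n)).eval (tt (2 * Real.pi / 3 + v)) +
    9 / 4 * Real.cos (2 * Real.pi / 3 + v) ^ 2 / Real.sin (2 * Real.pi / 3 + v) ^ 5 *
      (derivative (derivative (P n))).eval (tt (2 * Real.pi / 3 + v))

theorem dY1 (n : ℕ) {v : ℝ} (hv : |v| < Real.pi / 3) : HasDerivAt (Y1 n) (Y2 n v) v := by
  have hs := (sin_pos' hv).ne'
  have h1 := (dcos v).mul (dpol (P n) hv)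
  have h2 : HasDerivAt (fun v => Real.cos (2 * Real.pi / 3 + v) /
      Real.sin (2 * Real.pi / 3 + v) ^ 2)
      ((-Real.sin (2 * Real.pi / 3 + v) * Real.sin (2 * Real.pi / 3 + v) ^ 2 -
        Real.cos (2 * Real.pi / 3 + v) * (2 * Real.sin (2 * Real.pi / 3 + v) *
          Real.cos (2 * Real.pi / 3 + v))) / (Real.sin (2 * Real.pi / 3 + v) ^ 2) ^ 2) v := by
    have h := (dcos v).div ((dsin v).pow 2) (pow_ne_zero 2 hs)
    refine h.congr_deriv ?_
    simp
  have h3 := (h2.const_mul (3 / 2)).mul (dpol (derivative (P n)) hv)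
  refine (h1.add h3).congr_deriv ?_
  unfold Y2
  have hcs : Real.cos (2 * Real.pi / 3 + v) ^ 2 = 1 - Real.sin (2 * Real.pi / 3 + v) ^ 2 := by
    have := Real.sin_sq_add_cos_sq (2 * Real.pi / 3 + v)
    linarith
  set s := Real.sin (2 * Real.pi / 3 + v)
  set c := Real.cos (2 * Real.pi / 3 + v)
  set p0 := (P n).eval (tt (2 * Real.pi / 3 + v))
  set p1 := (derivative (P n)).eval (tt (2 * Real.pi / 3 + v))
  set p2 := (derivative (derivative (P n))).eval (tt (2 * Real.pi / 3 + v))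
  have e1 : (-s * p0 + c * (p1 * (3 / 2 * c / s ^ 3))) +
      (3 / 2 * ((-s * s ^ 2 - c * (2 * s * c)) / (s ^ 2) ^ 2) * p1 +
        3 / 2 * (c / s ^ 2) * (p2 * (3 / 2 * c / s ^ 3))) =
      -s * p0 - 3 / 2 / s ^ 3 * (s ^ 2 + c ^ 2) * p1 + 9 / 4 * c ^ 2 / s ^ 5 * p2 := by
    field_simp
    ring
  refine e1.trans ?_
  rw [hcs]
  ring

theorem sin3 (v : ℝ) (hv : |v| < Real.pi / 3) : Real.sin (3 * v) =
    -4 * Real.sin (2 * Real.pi / 3 + v) ^ 3 * tt (2 * Real.pi / 3 + v) := by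
  have hs := (sin_pos' hv).ne'
  have h1 : Real.sin (3 * v) = Real.sin (3 * (2 * Real.pi / 3 + v)) := by
    rw [show 3 * (2 * Real.pi / 3 + v) = 3 * v + 2 * Real.pi by ring, Real.sin_add_two_pi]
  rw [h1, Real.sin_three_mul]
  unfold tt
  set s := Real.sin (2 * Real.pi / 3 + v)
  have e1 : -4 * s ^ 3 * (1 - 3 / (4 * s ^ 2)) = -4 * s ^ 3 + 3 * s * (s ^ 2 / s ^ 2) := by
    ring
  rw [e1, div_self (pow_ne_zero 2 hs)]
  ring

theorem invs (v : ℝ) (hv : |v| < Real.pi / 3) :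
    1 / Real.sin (2 * Real.pi / 3 + v) ^ 2 = 4 / 3 * (1 - tt (2 * Real.pi / 3 + v)) := by
  have hs := (sin_pos' hv).ne'
  unfold tt
  field_simp
  ring

theorem Bf_eq (n : ℕ) : Bf n = fun v => (C (-3) * (X * (derivative (derivative (P n)) -
    C 4 * (X * derivative (derivative (P n))) - C 2 * derivative (P n)))).eval
      (tt (2 * Real.pi / 3 + v)) := by
  funext v
  simp only [eval_mul, eval_X, eval_C, eval_sub]
  rw [ddP_eval, dP_eval]
  unfold Bf
  ring

end trig

end U2a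

open U2a Polynomial in
theorem ode1 {n : ℕ} (hn : 1 ≤ n) (v : ℝ) (hv : |v| < Real.pi / 3) :
    Real.sin (3 * v) * (deriv (deriv (yy n (hc n))) v + yy n (hc n) v) = Bf n v := by
  have hs := (sin_pos' hv).ne'
  have h1 : deriv (yy n (hc n)) =ᶠ[nhds v] Y1 n := by
    filter_upwards [near hv] with w hw
    exact (dyy n hw).deriv
  rw [h1.deriv_eq, (dY1 n hv).deriv, sin3 v hv, Bf_eq, yy_eq]
  simp only [eval_mul, eval_X, eval_C, eval_sub]
  unfold Y2
  have hcs : Real.cos (2 * Real.pi / 3 + v) ^ 2 = 1 - Real.sin (2 * Real.pi / 3 + v) ^ 2 := by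
    have := Real.sin_sq_add_cos_sq (2 * Real.pi / 3 + v)
    linarith
  have hi := invs v hv
  rw [hcs]
  set s := Real.sin (2 * Real.pi / 3 + v)
  set t := tt (2 * Real.pi / 3 + v)
  set p1 := (derivative (P n)).eval t
  set p2 := (derivative (derivative (P n))).eval t
  have e1 : -4 * s ^ 3 * t * (-s * eval t (P n) - 3 / 2 / s ^ 3 * p1 +
      9 / 4 * (1 - s ^ 2) / s ^ 5 * p2 + s * eval t (P n)) =
      6 * t * p1 - 9 * t * (1 / s ^ 2 - 1) * p2 := by
    field_simp
    ring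
  rw [e1, hi]
  ring

open U2a Polynomial in
theorem ode2 {n : ℕ} (hn : 1 ≤ n) (v : ℝ) (hv : |v| < Real.pi / 3) :
    Real.sin (3 * v) * deriv (Bf n) v = 36 * (n : ℝ)^2 * deriv (yy n (hc n)) v := by
  have hs := (sin_pos' hv).ne'
  rw [(dyy n hv).deriv, Bf_eq, (dpol _ hv).deriv, sin3 v hv, derivative_C_mul]
  simp only [eval_mul, eval_C]
  have ho := P_ode_eval hn (tt (2 * Real.pi / 3 + v))
  have hi := invs v hv
  unfold Y1
  set s := Real.sin (2 * Real.pi / 3 + v)
  set c := Real.cos (2 * Real.pi / 3 + v)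
  set t := tt (2 * Real.pi / 3 + v)
  set D := (derivative (X * (derivative (derivative (P n)) -
    C 4 * (X * derivative (derivative (P n))) - C 2 * derivative (P n)))).eval t
  set p1 := (derivative (P n)).eval t
  have e1 : -4 * s ^ 3 * t * (-3 * D * (3 / 2 * c / s ^ 3)) = 18 * c * (t * D) := by
    field_simp
    ring
  have e2 : 3 / 2 * (c / s ^ 2) = 3 / 2 * c * (1 / s ^ 2) := by ring
  rw [e1, ho, e2, hi]
  ring

end H731B
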