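import Pool.Agent.H731R6.Bc.U2a
import Pool.Agent.H731R6.Bc.U1b

/-!
U2b: Frobenius exponent.  `D = yD n (hc n)`, `B v = Bf n v + Bf n (-v)`: from `ode1`, `ode2` at `v` and `-v`:
`sin(3v)(D'' + D) = B`, `sin(3v) B' = 36 n² D'` near `0`.  If `D` is not eventually zero at `0`: `D v = v^a u v`, `u` analytic,
`u 0 ≠ 0` (`AnalyticAt.exists_eventuallyEq_pow_smul_nonzero_iff`), `a` odd.  `D' = v^(a-1)(a u + v u')`; for `a ≥ 2`
`D'' = v^(a-2)(a(a-1) u + 2 a v u' + v² u'')`, `B = v^(a-1) (sin(3v)/v)(…)`, and `sin(3v) B' / v^(a-1) → 9 a (a-1)² u(0)`, while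
`36 n² D'/v^(a-1) → 36 n² a u(0)`: `(a-1)² = 4 n²`, `a = 2n+1`.  For `a = 1`: `D'' + D = O(v)`, `B = O(v²)` analytic, `B' = O(v)`,
`sin(3v) B' → 0` but `36 n² D' → 36 n² u(0) ≠ 0`.  (Write `sin(3v) = v * w v`, `w` analytic, `w 0 = 3`.)
-/

set_option autoImplicit false

namespace H731B

open Pool.Agent.H988R2 Pool.Agent.H863R2 Pool.Agent.H980R2
open Pool.Agent.H988R2.Perc (Word Dyck q PD q_spec q_cube q_ne_zero q_ne_one)

namespace U2b

open Filter Topology

/-- the Euler operator `v d/dv` -/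
theorem euler_step {f u : ℝ → ℝ} {a : ℕ} (hu : AnalyticAt ℝ u 0)
    (h : ∀ᶠ v in 𝓝 (0:ℝ), f v = v ^ a * u v) :
    AnalyticAt ℝ (fun v => (a : ℝ) * u v + v * deriv u v) 0 ∧
      ∀ᶠ v in 𝓝 (0:ℝ), v * deriv f v = v ^ a * ((a : ℝ) * u v + v * deriv u v) := by
  refine ⟨(analyticAt_const.mul hu).add (analyticAt_id.mul hu.deriv), ?_⟩
  filter_upwards [h.eventually_nhds, hu.eventually_analyticAt] with v hv hva
  have h1 : deriv f v = deriv (fun v => v ^ a * u v) v :=
    Filter.EventuallyEq.deriv_eq hv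
  have h2 : HasDerivAt (fun v : ℝ => v ^ a * u v)
      ((a : ℝ) * v ^ (a - 1) * u v + v ^ a * deriv u v) v :=
    (hasDerivAt_pow a v).mul hva.differentiableAt.hasDerivAt
  rw [h1, h2.deriv]
  rcases Nat.eq_zero_or_pos a with h0 | h0
  · subst h0
    simp
  · obtain ⟨b, rfl⟩ : ∃ b, a = b + 1 := ⟨a - 1, by omega⟩
    rw [Nat.add_sub_cancel]
    push_cast
    ring

theorem sin_div : Tendsto (fun v : ℝ => Real.sin (3 * v) / v) (𝓝[≠] 0) (𝓝 3) := by
  have h : HasDerivAt (fun v : ℝ => Real.sin (3 * v)) 3 0 := by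
    have h1 : HasDerivAt (fun v : ℝ => 3 * v) 3 0 := by
      simpa using (hasDerivAt_id (0:ℝ)).const_mul 3
    have := h1.sin
    simpa using this
  have h2 := h.tendsto_slope
  refine h2.congr' ?_
  filter_upwards [self_mem_nhdsWithin] with v hv
  simp [slope_def_field]

/-- the exponent at `0` of the solutions of the equation of third order -/
theorem exponent {D : ℝ → ℝ} (hD : AnalyticAt ℝ D 0) (h0 : D 0 = 0) {n : ℕ} (hn : 1 ≤ n)
    (hode : ∀ᶠ v in 𝓝 (0:ℝ),
      Real.sin (3 * v) * (3 * Real.cos (3 * v) * (deriv (deriv D) v + D v) +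
        Real.sin (3 * v) * (deriv (deriv (deriv D)) v + deriv D v)) =
      36 * (n : ℝ) ^ 2 * deriv D v)
    (hne : ¬ ∀ᶠ v in 𝓝 (0:ℝ), D v = 0) :
    ∃ c : ℝ, c ≠ 0 ∧ Tendsto (fun v : ℝ => D v / v^(2*n+1)) (𝓝[≠] 0) (𝓝 c) := by
  obtain ⟨a, u, hu, hu0, hDu⟩ := (hD.exists_eventuallyEq_pow_smul_nonzero_iff).mpr hne
  simp only [sub_zero, smul_eq_mul] at hDu
  have ha : a ≠ 0 := by
    intro ha
    have := hDu.self_of_nhds
    rw [h0, ha, pow_zero, one_mul] at this
    exact hu0 this.symm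
  obtain ⟨hu1, h1⟩ := euler_step hu hDu
  obtain ⟨hu2, h2⟩ := euler_step hu1 h1
  obtain ⟨hu3, h3⟩ := euler_step hu2 h2
  set u1 : ℝ → ℝ := fun v => (a : ℝ) * u v + v * deriv u v with hu1d
  set u2 : ℝ → ℝ := fun v => (a : ℝ) * u1 v + v * deriv u1 v with hu2d
  set u3 : ℝ → ℝ := fun v => (a : ℝ) * u2 v + v * deriv u2 v with hu3d
  have e1 : u1 0 = a * u 0 := by simp [hu1d]
  have e2 : u2 0 = a * (a * u 0) := by
    have : u2 0 = a * u1 0 := by simp [hu2d]
    rw [this, e1]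
  have e3 : u3 0 = a * (a * (a * u 0)) := by
    have : u3 0 = a * u2 0 := by simp [hu3d]
    rw [this, e2]
  -- the equation for the analytic factors
  have hmain : ∀ᶠ v in 𝓝[≠] (0:ℝ),
      (Real.sin (3 * v) / v) * (3 * Real.cos (3 * v) * ((u2 v - u1 v) + v ^ 2 * u v)) +
        (Real.sin (3 * v) / v) ^ 2 * ((u3 v - 3 * u2 v + 2 * u1 v) + v ^ 2 * u1 v) =
      36 * (n : ℝ) ^ 2 * u1 v := by
    have han : ∀ᶠ v in 𝓝 (0:ℝ), AnalyticAt ℝ D v := hD.eventually_analyticAt
    filter_upwards [self_mem_nhdsWithin, hode.filter_mono nhdsWithin_le_nhds,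
      hDu.filter_mono nhdsWithin_le_nhds, h1.filter_mono nhdsWithin_le_nhds,
      h2.filter_mono nhdsWithin_le_nhds, h3.filter_mono nhdsWithin_le_nhds,
      han.filter_mono nhdsWithin_le_nhds, han.eventually_nhds.filter_mono nhdsWithin_le_nhds]
      with v hv hode hDu h1 h2 h3 hav hav'
    have hv0 : v ≠ 0 := hv
    have d1 : ∀ᶠ x in 𝓝 v, deriv (fun v => v * deriv D v) x = deriv D x + x * deriv (deriv D) x := by
      filter_upwards [hav'] with x hx
      have : HasDerivAt (fun v => v * deriv D v) (1 * deriv D x + x * deriv (deriv D) x) x :=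
        (hasDerivAt_id x).mul hx.deriv.differentiableAt.hasDerivAt
      rw [this.deriv]
      ring
    have d1' := d1.self_of_nhds
    have d2 : deriv (fun v => v * deriv (fun v => v * deriv D v) v) v =
        deriv D v + 3 * v * deriv (deriv D) v + v ^ 2 * deriv (deriv (deriv D)) v := by
      have hh : (fun v => v * deriv (fun v => v * deriv D v) v) =ᶠ[𝓝 v]
          (fun x => x * (deriv D x + x * deriv (deriv D) x)) := by
        filter_upwards [d1] with x hx
        rw [hx]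
      rw [hh.deriv_eq]
      have k1 : HasDerivAt (deriv D) (deriv (deriv D) v) v :=
        hav.deriv.differentiableAt.hasDerivAt
      have k2 : HasDerivAt (deriv (deriv D)) (deriv (deriv (deriv D)) v) v :=
        hav.deriv.deriv.differentiableAt.hasDerivAt
      have : HasDerivAt (fun x => x * (deriv D x + x * deriv (deriv D) x))
          (1 * (deriv D v + v * deriv (deriv D) v) + v * (deriv (deriv D) v +
            (1 * deriv (deriv D) v + v * deriv (deriv (deriv D)) v))) v :=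
        (hasDerivAt_id v).mul (k1.add ((hasDerivAt_id v).mul k2))
      rw [this.deriv]
      ring
    rw [d1'] at h2
    rw [d2] at h3
    have hva : v ^ a ≠ 0 := pow_ne_zero a hv0
    have g0 : D v = v ^ a * u v := hDu
    have g1 : deriv D v = v ^ a * u1 v / v := by
      rw [eq_div_iff hv0, ← h1]
      ring
    have g2 : deriv (deriv D) v = v ^ a * (u2 v - u1 v) / v ^ 2 := by
      rw [eq_div_iff (pow_ne_zero 2 hv0), mul_sub, ← h2, ← h1]
      ring
    have g3 : deriv (deriv (deriv D)) v = v ^ a * (u3 v - 3 * u2 v + 2 * u1 v) / v ^ 3 := by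
      rw [eq_div_iff (pow_ne_zero 3 hv0)]
      have : v ^ a * (u3 v - 3 * u2 v + 2 * u1 v) =
          v ^ a * u3 v - 3 * (v ^ a * u2 v) + 2 * (v ^ a * u1 v) := by ring
      rw [this, ← h3, ← h2, ← h1]
      ring
    rw [g3, g2, g1, g0] at hode
    have key : v ^ a / v * ((Real.sin (3 * v) / v) * (3 * Real.cos (3 * v) *
        ((u2 v - u1 v) + v ^ 2 * u v)) + (Real.sin (3 * v) / v) ^ 2 *
        ((u3 v - 3 * u2 v + 2 * u1 v) + v ^ 2 * u1 v)) =
        v ^ a / v * (36 * (n : ℝ) ^ 2 * u1 v) := by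
      have r1 : v ^ a / v * (36 * (n : ℝ) ^ 2 * u1 v) = 36 * (n : ℝ) ^ 2 * (v ^ a * u1 v / v) := by
        ring
      rw [r1, ← hode]
      field_simp
    exact mul_left_cancel₀ (div_ne_zero hva hv0) key
  -- limits
  have tu : Tendsto u (𝓝[≠] 0) (𝓝 (u 0)) := hu.continuousAt.tendsto.mono_left nhdsWithin_le_nhds
  have tu1 : Tendsto u1 (𝓝[≠] 0) (𝓝 (a * u 0)) := by
    rw [← e1]; exact hu1.continuousAt.tendsto.mono_left nhdsWithin_le_nhds
  have tu2 : Tendsto u2 (𝓝[≠] 0) (𝓝 (a * (a * u 0))) := by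
    rw [← e2]; exact hu2.continuousAt.tendsto.mono_left nhdsWithin_le_nhds
  have tu3 : Tendsto u3 (𝓝[≠] 0) (𝓝 (a * (a * (a * u 0)))) := by
    rw [← e3]; exact hu3.continuousAt.tendsto.mono_left nhdsWithin_le_nhds
  have tc : Tendsto (fun v : ℝ => Real.cos (3 * v)) (𝓝[≠] 0) (𝓝 1) := by
    have : Tendsto (fun v : ℝ => Real.cos (3 * v)) (𝓝 0) (𝓝 (Real.cos (3 * 0))) := by
      apply Continuous.tendsto
      fun_prop
    rw [mul_zero, Real.cos_zero] at this
    exact this.mono_left nhdsWithin_le_nhds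
  have tv : Tendsto (fun v : ℝ => v ^ 2) (𝓝[≠] 0) (𝓝 0) := by
    have : Tendsto (fun v : ℝ => v ^ 2) (𝓝 0) (𝓝 (0 ^ 2)) := by
      apply Continuous.tendsto
      fun_prop
    rw [zero_pow (by norm_num)] at this
    exact this.mono_left nhdsWithin_le_nhds
  have tL := ((sin_div.mul ((tc.const_mul 3).mul ((tu2.sub tu1).add (tv.mul tu)))).add
    ((sin_div.pow 2).mul (((tu3.sub (tu2.const_mul 3)).add (tu1.const_mul 2)).add (tv.mul tu1))))
  have tR := tu1.const_mul (36 * (n : ℝ) ^ 2)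
  have hlim := tendsto_nhds_unique (tL.congr' hmain) tR
  have ha' : (a : ℝ) ≠ 0 := by exact_mod_cast ha
  have hfin : ((a : ℝ) - 1) ^ 2 = (2 * (n : ℝ)) ^ 2 := by
    have h4 : (9 * ((a : ℝ) * u 0)) * (((a : ℝ) - 1) ^ 2) = (9 * ((a : ℝ) * u 0)) * (2 * (n : ℝ)) ^ 2 := by
      linear_combination hlim
    exact mul_left_cancel₀ (mul_ne_zero (by norm_num) (mul_ne_zero ha' hu0)) h4
  have hapos : (1 : ℝ) ≤ a := by exact_mod_cast Nat.one_le_iff_ne_zero.mpr ha
  have han : (a : ℝ) - 1 = 2 * (n : ℝ) := by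
    have hn' : (0 : ℝ) ≤ 2 * (n : ℝ) := by positivity
    exact (sq_eq_sq₀ (by linarith) hn').mp hfin
  have haN : a = 2 * n + 1 := by
    have : (a : ℝ) = ((2 * n + 1 : ℕ) : ℝ) := by push_cast; linarith
    exact_mod_cast this
  refine ⟨u 0, hu0, ?_⟩
  refine tu.congr' ?_
  filter_upwards [self_mem_nhdsWithin, hDu.filter_mono nhdsWithin_le_nhds] with v hv hDu
  have hv0 : v ≠ 0 := hv
  rw [hDu, ← haN]
  rw [mul_div_cancel_left₀ _ (pow_ne_zero a hv0)]

/-- the equation of third order for `yy` -/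
theorem ode_yy {n : ℕ} (hn : 1 ≤ n) (v : ℝ) (hv : |v| < Real.pi / 3) :
    Real.sin (3 * v) * (3 * Real.cos (3 * v) * (deriv (deriv (yy n (hc n))) v + yy n (hc n) v) +
        Real.sin (3 * v) * (deriv (deriv (deriv (yy n (hc n)))) v + deriv (yy n (hc n)) v)) =
      36 * (n : ℝ) ^ 2 * deriv (yy n (hc n)) v := by
  have hopen : IsOpen {v : ℝ | |v| < Real.pi / 3} := isOpen_lt continuous_abs continuous_const
  have hB : (Bf n) =ᶠ[𝓝 v]
      (fun v => Real.sin (3 * v) * (deriv (deriv (yy n (hc n))) v + yy n (hc n) v)) := by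
    filter_upwards [hopen.mem_nhds hv] with x hx
    exact (ode1 hn x hx).symm
  have hy := yy_analytic n (hc n) v hv
  have k0 : HasDerivAt (yy n (hc n)) (deriv (yy n (hc n)) v) v := hy.differentiableAt.hasDerivAt
  have k2 : HasDerivAt (deriv (deriv (yy n (hc n)))) (deriv (deriv (deriv (yy n (hc n)))) v) v :=
    hy.deriv.deriv.differentiableAt.hasDerivAt
  have ks : HasDerivAt (fun v : ℝ => Real.sin (3 * v)) (Real.cos (3 * v) * 3) v := by
    have h1 : HasDerivAt (fun v : ℝ => 3 * v) 3 v := by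
      simpa using (hasDerivAt_id v).const_mul 3
    exact h1.sin
  have hd := ks.mul (k2.add k0)
  have h2 := ode2 hn v hv
  rw [hB.deriv_eq] at h2
  have h3 : deriv (fun v => Real.sin (3 * v) * (deriv (deriv (yy n (hc n))) v + yy n (hc n) v)) v =
      Real.cos (3 * v) * 3 * (deriv (deriv (yy n (hc n))) v + yy n (hc n) v) +
      Real.sin (3 * v) * (deriv (deriv (deriv (yy n (hc n)))) v + deriv (yy n (hc n)) v) := hd.deriv
  rw [h3] at h2
  linear_combination h2

end U2b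

open Filter Topology in
theorem frob {n : ℕ} (hn : 1 ≤ n) (hne : ¬ ∀ᶠ v in 𝓝 (0:ℝ), yD n (hc n) v = 0) :
    ∃ c : ℝ, c ≠ 0 ∧ Tendsto (fun v : ℝ => yD n (hc n) v / v^(2*n+1)) (𝓝[≠] 0) (𝓝 c) := by
  have hpi : (0 : ℝ) < Real.pi / 3 := by positivity
  have h0 : |(0:ℝ)| < Real.pi / 3 := by simpa using hpi
  refine U2b.exponent (yD_analytic n (hc n) 0 h0) (by unfold yD; simp) hn ?_ hne
  have hopen : IsOpen {v : ℝ | |v| < Real.pi / 3} := isOpen_lt continuous_abs continuous_const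
  -- derivatives of the odd part
  have hneg : ∀ v : ℝ, |v| < Real.pi / 3 → |(-v)| < Real.pi / 3 := fun v hv => by rwa [abs_neg]
  have an : ∀ v : ℝ, |v| < Real.pi / 3 → AnalyticAt ℝ (yy n (hc n)) v :=
    fun v hv => yy_analytic n (hc n) v hv
  have dn : ∀ (f : ℝ → ℝ) (v : ℝ), AnalyticAt ℝ f (-v) →
      HasDerivAt (fun x => f (-x)) (-deriv f (-v)) v := by
    intro f v hf
    have h1 : HasDerivAt f (deriv f (-v)) (-v) := hf.differentiableAt.hasDerivAt
    have h2 : HasDerivAt (fun x => f (-x)) (deriv f (-v) * -1) v := h1.comp v (hasDerivAt_neg v)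
    rwa [mul_neg_one] at h2
  have D1 : ∀ v : ℝ, |v| < Real.pi / 3 → deriv (yD n (hc n)) v =
      deriv (yy n (hc n)) v + deriv (yy n (hc n)) (-v) := by
    intro v hv
    have h1 : HasDerivAt (yy n (hc n)) (deriv (yy n (hc n)) v) v :=
      (an v hv).differentiableAt.hasDerivAt
    have h2 := h1.sub (dn _ v (an (-v) (hneg v hv)))
    have h3 : deriv (yD n (hc n)) v = deriv (yy n (hc n)) v - -deriv (yy n (hc n)) (-v) := h2.deriv
    rw [h3]; ring
  have D2 : ∀ v : ℝ, |v| < Real.pi / 3 → deriv (deriv (yD n (hc n))) v =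
      deriv (deriv (yy n (hc n))) v - deriv (deriv (yy n (hc n))) (-v) := by
    intro v hv
    have hE : deriv (yD n (hc n)) =ᶠ[𝓝 v]
        (fun v => deriv (yy n (hc n)) v + deriv (yy n (hc n)) (-v)) := by
      filter_upwards [hopen.mem_nhds hv] with x hx
      exact D1 x hx
    rw [hE.deriv_eq]
    have h1 : HasDerivAt (deriv (yy n (hc n))) (deriv (deriv (yy n (hc n))) v) v :=
      (an v hv).deriv.differentiableAt.hasDerivAt
    have h2 := h1.add (dn _ v (an (-v) (hneg v hv)).deriv)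
    have h3 : deriv (fun v => deriv (yy n (hc n)) v + deriv (yy n (hc n)) (-v)) v =
      deriv (deriv (yy n (hc n))) v + -deriv (deriv (yy n (hc n))) (-v) := h2.deriv
    rw [h3]; ring
  have D3 : ∀ v : ℝ, |v| < Real.pi / 3 → deriv (deriv (deriv (yD n (hc n)))) v =
      deriv (deriv (deriv (yy n (hc n)))) v + deriv (deriv (deriv (yy n (hc n)))) (-v) := by
    intro v hv
    have hE : deriv (deriv (yD n (hc n))) =ᶠ[𝓝 v]
        (fun v => deriv (deriv (yy n (hc n))) v - deriv (deriv (yy n (hc n))) (-v)) := by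
      filter_upwards [hopen.mem_nhds hv] with x hx
      exact D2 x hx
    rw [hE.deriv_eq]
    have h1 : HasDerivAt (deriv (deriv (yy n (hc n)))) (deriv (deriv (deriv (yy n (hc n)))) v) v :=
      (an v hv).deriv.deriv.differentiableAt.hasDerivAt
    have h2 := h1.sub (dn _ v (an (-v) (hneg v hv)).deriv.deriv)
    have h3 : deriv (fun v => deriv (deriv (yy n (hc n))) v - deriv (deriv (yy n (hc n))) (-v)) v =
      deriv (deriv (deriv (yy n (hc n)))) v - -deriv (deriv (deriv (yy n (hc n)))) (-v) := h2.deriv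
    rw [h3]; ring
  filter_upwards [hopen.mem_nhds h0] with v hv
  have e1 := U2b.ode_yy hn v hv
  have e2 := U2b.ode_yy hn (-v) (hneg v hv)
  rw [show 3 * -v = -(3 * v) by ring, Real.sin_neg, Real.cos_neg] at e2
  rw [D1 v hv, D2 v hv, D3 v hv]
  have e3 : yD n (hc n) v = yy n (hc n) v - yy n (hc n) (-v) := rfl
  rw [e3]
  linear_combination e1 + e2

end H731B
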