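import Pool.Agent.H731R6.Bc.U1b

/-!
U3: the odd part of the explicit solution is not identically zero.  `hc n n ≠ 0` for `1 ≤ n` (product of nonzero factors:
`hc_ne`), so as `v ↑ π/3` (`φ ↑ π`, `sin φ ↓ 0`, `tt φ → -∞`) `|yy n (hc n) v| → ∞` (`sin φ * hc_n t^n (1 + o(1))`,
`|sin φ t^n| ≥ |t|^(n - 1/2) * const`), while `yy n (hc n) (-v) → yy n (hc n) (-π/3)` stays bounded (`sin (π/3) ≠ 0`).
If `yD` were eventually zero at `0`, it would vanish on `(-π/3, π/3)` (identity theorem
`AnalyticOnNhd.eqOn_zero_of_preconnected_of_eventuallyEq_zero`, `yD_analytic`), contradiction.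
-/

set_option autoImplicit false

namespace H731B

open Pool.Agent.H988R2 Pool.Agent.H863R2 Pool.Agent.H980R2
open Pool.Agent.H988R2.Perc (Word Dyck q PD q_spec q_cube q_ne_zero q_ne_one)

theorem hc_ne {n k : ℕ} (hk : k ≤ n) : hc n k ≠ 0 := by
  induction k with
  | zero => simp [hc]
  | succ k ih =>
    have hkn : (k : ℝ) < n := by exact_mod_cast (by omega : k < n)
    have hk0 : (0 : ℝ) ≤ k := Nat.cast_nonneg k
    rw [hc]
    apply div_ne_zero
    · apply mul_ne_zero (ih (by omega))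
      apply mul_ne_zero
      · apply mul_ne_zero two_ne_zero
        intro h
        have h2 : (2 : ℝ) * k = 1 := by linarith
        have h3 : 2 * k = 1 := by exact_mod_cast h2
        omega
      · have : 0 < (n : ℝ) ^ 2 - (k : ℝ) ^ 2 := by nlinarith
        exact this.ne'
    · apply mul_ne_zero
      · positivity
      · have : 0 < 4 * (n : ℝ) ^ 2 - (k : ℝ) ^ 2 := by nlinarith
        exact this.ne'

theorem hc_zero {n k : ℕ} (hk : n < k) : hc n k = 0 := by
  induction k with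
  | zero => omega
  | succ k ih =>
    rw [hc]
    rcases Nat.lt_succ_iff_lt_or_eq.1 hk with h | h
    · rw [ih h]
      simp
    · rw [h]
      simp

namespace U3

/-- the sine -/
noncomputable def s (v : ℝ) : ℝ := Real.sin (2 * Real.pi / 3 + v)

/-- the regularised function -/
noncomputable def A (n : ℕ) (v : ℝ) : ℝ :=
  ∑ k ∈ Finset.range (n + 1), hc n k * (s v ^ (2 * (n - k)) * ((4 * s v ^ 2 - 3) / 4) ^ k)

theorem s_cont : Continuous s := by
  unfold s
  fun_prop

theorem A_cont (n : ℕ) : Continuous (A n) := by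
  unfold A
  have := s_cont
  fun_prop

theorem s_end : s (Real.pi / 3) = 0 := by
  unfold s
  rw [show 2 * Real.pi / 3 + Real.pi / 3 = Real.pi by ring, Real.sin_pi]

theorem A_end (n : ℕ) : A n (Real.pi / 3) = hc n n * (-3 / 4) ^ n := by
  unfold A
  rw [s_end, Finset.sum_range_succ, Finset.sum_eq_zero]
  · rw [Nat.sub_self]
    norm_num
  · intro k hk
    rw [Finset.mem_range] at hk
    rw [zero_pow (by omega)]
    ring

theorem A_eq (n : ℕ) (hn : 1 ≤ n) (v : ℝ) (hs : s v ≠ 0) :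
    A n v = s v ^ (2 * n - 1) * yy n (hc n) v := by
  unfold A yy
  have e0 : Real.sin (2 * Real.pi / 3 + v) = s v := rfl
  have ht : (4 * s v ^ 2 - 3) / 4 = s v ^ 2 * tt (2 * Real.pi / 3 + v) := by
    unfold tt
    rw [e0]
    field_simp
  rw [e0, Finset.mul_sum, Finset.mul_sum]
  apply Finset.sum_congr rfl
  intro k hk
  rw [Finset.mem_range] at hk
  rw [ht, mul_pow, ← pow_mul]
  have e1 : s v ^ (2 * n - 1) * s v = s v ^ (2 * n) := by
    rw [← pow_succ]
    congr 1
    omega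
  have e2 : s v ^ (2 * (n - k)) * s v ^ (2 * k) = s v ^ (2 * n) := by
    rw [← pow_add]
    congr 1
    omega
  rw [← mul_assoc (s v ^ (2 * n - 1)), e1, ← mul_assoc (s v ^ (2 * (n - k))), e2]
  ring

theorem yy_end (n : ℕ) (h : ℕ → ℝ) : ContinuousAt (yy n h) (-(Real.pi / 3)) := by
  have hs : Real.sin (2 * Real.pi / 3 + -(Real.pi / 3)) ≠ 0 := by
    rw [show 2 * Real.pi / 3 + -(Real.pi / 3) = Real.pi / 3 by ring, Real.sin_pi_div_three]
    positivity
  unfold yy tt
  fun_prop (disch := positivity)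

end U3

open Filter Topology in
theorem yD_ne {n : ℕ} (hn : 1 ≤ n) : ¬ ∀ᶠ v in 𝓝 (0:ℝ), yD n (hc n) v = 0 := by
  intro h0
  have hpi := Real.pi_pos
  have hA : AnalyticOnNhd ℝ (yD n (hc n)) (Set.Ioo (-(Real.pi / 3)) (Real.pi / 3)) := by
    intro v hv
    exact yD_analytic n (hc n) v (abs_lt.2 hv)
  have hz : Set.EqOn (yD n (hc n)) 0 (Set.Ioo (-(Real.pi / 3)) (Real.pi / 3)) :=
    hA.eqOn_zero_of_preconnected_of_eventuallyEq_zero isPreconnected_Ioo (z₀ := 0)
      ⟨by linarith, by linarith⟩ h0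
  have hev : ∀ᶠ v in 𝓝[<] (Real.pi / 3),
      U3.A n v = U3.s v ^ (2 * n - 1) * yy n (hc n) (-v) := by
    have h1 : Set.Ioo (0 : ℝ) (Real.pi / 3) ∈ 𝓝[<] (Real.pi / 3) :=
      Ioo_mem_nhdsLT (by linarith)
    filter_upwards [h1] with v hv
    have hs : U3.s v ≠ 0 := by
      apply ne_of_gt
      apply Real.sin_pos_of_pos_of_lt_pi
      · linarith [hv.1]
      · linarith [hv.2]
    rw [U3.A_eq n hn v hs]
    congr 1
    have := hz (show v ∈ Set.Ioo (-(Real.pi / 3)) (Real.pi / 3) from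
      ⟨by linarith [hv.1], hv.2⟩)
    unfold yD at this
    simp only [Pi.zero_apply] at this
    linarith
  have l1 : Tendsto (U3.A n) (𝓝[<] (Real.pi / 3)) (𝓝 (U3.A n (Real.pi / 3))) :=
    ((U3.A_cont n).tendsto _).mono_left nhdsWithin_le_nhds
  have l2 : Tendsto (fun v => U3.s v ^ (2 * n - 1) * yy n (hc n) (-v)) (𝓝[<] (Real.pi / 3))
      (𝓝 (U3.s (Real.pi / 3) ^ (2 * n - 1) * yy n (hc n) (-(Real.pi / 3)))) := by
    have c1 : ContinuousAt (fun v => U3.s v ^ (2 * n - 1)) (Real.pi / 3) :=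
      (U3.s_cont.pow _).continuousAt
    have c2 : ContinuousAt (fun v => yy n (hc n) (-v)) (Real.pi / 3) :=
      ContinuousAt.comp (f := fun v : ℝ => -v) (U3.yy_end n (hc n)) continuous_neg.continuousAt
    exact (c1.mul c2).tendsto.mono_left nhdsWithin_le_nhds
  have l3 := tendsto_nhds_unique (l1.congr' hev) l2
  rw [U3.A_end, U3.s_end, zero_pow (by omega), zero_mul] at l3
  rcases mul_eq_zero.1 l3 with h | h
  · exact hc_ne le_rfl h
  · exact pow_ne_zero n (by norm_num) h

end H731B
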