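import Pool.Agent.H731R6.Bc.U2b
import Pool.Agent.H731R6.Bc.U3

/-!
U4: uniqueness.  `h = ∑_{m ≤ n} a_m hc m` on `{0..n}` (triangular system: `hc m m ≠ 0`, `hc m k = 0` for `k > m`; downward
induction).  `yD n (hc m) = yD m (hc m)` for `m ≤ n`, `yD m (hc m) / v^(2m+1) → c_m ≠ 0` (`frob`, `yD_ne`; for `m = 0`:
`yD 0 (hc 0) v = -(sin(2π/3+v) - sin(2π/3-v)) = sin v`).  If `yD n h = O(v^(2n+1))`, then `a_m = 0` for all `m < n` by
strong induction: divide `∑_{j ≥ m} a_j yD (hc j)` by `v^(2m+1)`: limit `a_m c_m = 0`.  So `h = a_n hc n`, and `hc n 0 = -1`.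
-/

set_option autoImplicit false

namespace H731B

open Pool.Agent.H988R2 Pool.Agent.H863R2 Pool.Agent.H980R2
open Pool.Agent.H988R2.Perc (Word Dyck q PD q_spec q_cube q_ne_zero q_ne_one)

namespace U4

/-- the triangular system -/
lemma tri (n : ℕ) : ∀ h : ℕ → ℝ, ∃ a : ℕ → ℝ, ∀ k ≤ n,
    h k = ∑ m ∈ Finset.range (n + 1), a m * hc m k := by
  induction n with
  | zero =>
    intro h
    refine ⟨fun _ => - h 0, ?_⟩
    intro k hk
    obtain rfl : k = 0 := by omega
    simp [hc]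
  | succ n ih =>
    intro h
    have h0 : hc (n + 1) (n + 1) ≠ 0 := hc_ne le_rfl
    obtain ⟨a, ha⟩ := ih (fun k => h k - h (n + 1) / hc (n + 1) (n + 1) * hc (n + 1) k)
    refine ⟨fun m => if m = n + 1 then h (n + 1) / hc (n + 1) (n + 1) else a m, ?_⟩
    intro k hk
    rw [Finset.sum_range_succ]
    beta_reduce
    rw [if_pos rfl]
    have e1 : ∑ m ∈ Finset.range (n + 1),
        (if m = n + 1 then h (n + 1) / hc (n + 1) (n + 1) else a m) * hc m k =
        ∑ m ∈ Finset.range (n + 1), a m * hc m k := by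
      apply Finset.sum_congr rfl
      intro m hm
      have hm' := Finset.mem_range.1 hm
      rw [if_neg (by omega)]
    rw [e1]
    rcases Nat.lt_or_ge n k with hk' | hk'
    · obtain rfl : k = n + 1 := by omega
      have e2 : ∑ m ∈ Finset.range (n + 1), a m * hc m (n + 1) = 0 := by
        apply Finset.sum_eq_zero
        intro m hm
        rw [hc_zero (Finset.mem_range.1 hm), mul_zero]
      rw [e2, zero_add, div_mul_cancel₀ _ h0]
    · rw [← ha k hk']
      ring

lemma yy_hc {m n : ℕ} (hm : m ≤ n) (v : ℝ) : yy n (hc m) v = yy m (hc m) v := by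
  unfold yy
  congr 1
  symm
  apply Finset.sum_subset
  · intro k hk
    rw [Finset.mem_range] at hk ⊢
    omega
  · intro k _ hk2
    rw [Finset.mem_range] at hk2
    rw [hc_zero (by omega), zero_mul]

lemma yy_comb {n : ℕ} {h a : ℕ → ℝ}
    (ha : ∀ k ≤ n, h k = ∑ m ∈ Finset.range (n + 1), a m * hc m k) (v : ℝ) :
    yy n h v = ∑ m ∈ Finset.range (n + 1), a m * yy m (hc m) v := by
  have e1 : ∑ m ∈ Finset.range (n + 1), a m * yy m (hc m) v =
      ∑ m ∈ Finset.range (n + 1), a m * yy n (hc m) v := by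
    apply Finset.sum_congr rfl
    intro m hm
    rw [yy_hc (Nat.lt_succ_iff.1 (Finset.mem_range.1 hm))]
  rw [e1]
  unfold yy
  have e2 : ∀ k ∈ Finset.range (n + 1), h k * tt (2 * Real.pi / 3 + v) ^ k =
      ∑ m ∈ Finset.range (n + 1), a m * hc m k * tt (2 * Real.pi / 3 + v) ^ k := by
    intro k hk
    rw [ha k (Nat.lt_succ_iff.1 (Finset.mem_range.1 hk)), Finset.sum_mul]
  rw [Finset.sum_congr rfl e2, Finset.sum_comm, Finset.mul_sum]
  apply Finset.sum_congr rfl
  intro m _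
  rw [mul_left_comm, Finset.mul_sum (Finset.range (n + 1)) _ (a m)]
  congr 1
  apply Finset.sum_congr rfl
  intro k _
  ring

lemma yD_comb {n : ℕ} {h a : ℕ → ℝ}
    (ha : ∀ k ≤ n, h k = ∑ m ∈ Finset.range (n + 1), a m * hc m k) (v : ℝ) :
    yD n h v = ∑ m ∈ Finset.range (n + 1), a m * yD m (hc m) v := by
  unfold yD
  rw [yy_comb ha v, yy_comb ha (-v), ← Finset.sum_sub_distrib]
  apply Finset.sum_congr rfl
  intro m _
  ring

lemma yD_zero (v : ℝ) : yD 0 (hc 0) v = Real.sin v := by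
  unfold yD yy
  simp only [zero_add, Finset.sum_range_one, pow_zero, mul_one, hc]
  have hc3 : Real.cos (2 * Real.pi / 3) = -(1 / 2) := by
    have e : 2 * Real.pi / 3 = Real.pi - Real.pi / 3 := by ring
    rw [e, Real.cos_pi_sub, Real.cos_pi_div_three]
  rw [Real.sin_add, Real.sin_add, Real.sin_neg, Real.cos_neg, hc3]
  ring

open Filter Topology in
lemma lim (m : ℕ) :
    ∃ c : ℝ, c ≠ 0 ∧ Tendsto (fun v : ℝ => yD m (hc m) v / v^(2*m+1)) (𝓝[≠] 0) (𝓝 c) := by
  rcases Nat.eq_zero_or_pos m with rfl | hm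
  · refine ⟨1, one_ne_zero, ?_⟩
    have h1 : HasDerivAt Real.sin (Real.cos 0) 0 := Real.hasDerivAt_sin 0
    rw [Real.cos_zero, hasDerivAt_iff_tendsto_slope_zero] at h1
    refine h1.congr ?_
    intro v
    rw [yD_zero]
    simp only [zero_add, Real.sin_zero, sub_zero, smul_eq_mul, mul_zero, pow_one]
    rw [inv_mul_eq_div]
  · exact frob hm (yD_ne hm)

open Filter Topology in
lemma lim_zero {m j : ℕ} (hmj : m < j) :
    Tendsto (fun v : ℝ => yD j (hc j) v / v^(2*m+1)) (𝓝[≠] 0) (𝓝 0) := by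
  obtain ⟨c, -, hc⟩ := lim j
  have h1 : Tendsto (fun v : ℝ => v ^ (2 * (j - m))) (𝓝[≠] 0) (𝓝 0) := by
    have h2 : Tendsto (fun v : ℝ => v ^ (2 * (j - m))) (𝓝 0) (𝓝 (0 ^ (2 * (j - m)))) :=
      (continuous_pow _).tendsto 0
    rw [zero_pow (by omega)] at h2
    exact h2.mono_left nhdsWithin_le_nhds
  have h3 := hc.mul h1
  rw [mul_zero] at h3
  refine h3.congr' ?_
  filter_upwards [self_mem_nhdsWithin] with v hv
  have hv' : v ≠ 0 := hv
  have e : v ^ (2 * j + 1) = v ^ (2 * m + 1) * v ^ (2 * (j - m)) := by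
    rw [← pow_add]
    congr 1
    omega
  rw [e]
  have h4 : v ^ (2 * m + 1) ≠ 0 := pow_ne_zero _ hv'
  have h5 : v ^ (2 * (j - m)) ≠ 0 := pow_ne_zero _ hv'
  field_simp

open Filter Topology Asymptotics in
lemma coeff_zero {n : ℕ} {h a : ℕ → ℝ}
    (ha : ∀ k ≤ n, h k = ∑ m ∈ Finset.range (n + 1), a m * hc m k)
    (hO : (fun v : ℝ => yD n h v) =O[𝓝 0] (fun v : ℝ => v^(2*n+1))) :
    ∀ m, m < n → a m = 0 := by
  intro m
  induction m using Nat.strong_induction_on with
  | _ m ih =>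
    intro hmn
    obtain ⟨c, hc0, hcl⟩ := lim m
    have h1 : Tendsto (fun v : ℝ => yD n h v / v^(2*m+1)) (𝓝[≠] 0) (𝓝 0) := by
      have h2 : (fun v : ℝ => yD n h v) =o[𝓝 0] (fun v : ℝ => v^(2*m+1)) :=
        hO.trans_isLittleO (isLittleO_pow_pow (by omega))
      exact (h2.mono nhdsWithin_le_nhds).tendsto_div_nhds_zero
    have h2 : Tendsto (fun v : ℝ => yD n h v / v^(2*m+1)) (𝓝[≠] 0)
        (𝓝 (∑ j ∈ Finset.range (n + 1), if j = m then a m * c else 0)) := by
      have e : (fun v : ℝ => yD n h v / v^(2*m+1)) =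
          fun v => ∑ j ∈ Finset.range (n + 1), a j * (yD j (hc j) v / v^(2*m+1)) := by
        funext v
        rw [yD_comb ha, Finset.sum_div]
        apply Finset.sum_congr rfl
        intro j _
        rw [mul_div_assoc]
      rw [e]
      apply tendsto_finsetSum
      intro j _
      rcases lt_trichotomy j m with hj | rfl | hj
      · rw [if_neg (by omega), ih j hj (by omega)]
        simp
      · rw [if_pos rfl]
        exact hcl.const_mul _
      · rw [if_neg (by omega)]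
        have h3 := (lim_zero hj).const_mul (a j)
        rwa [mul_zero] at h3
    rw [Finset.sum_ite_eq' (Finset.range (n + 1)) m (fun _ => a m * c),
      if_pos (Finset.mem_range.2 (by omega))] at h2
    have h3 := tendsto_nhds_unique h2 h1
    rcases mul_eq_zero.1 h3 with h4 | h4
    · exact h4
    · exact absurd h4 hc0

end U4

open Filter Topology Asymptotics in
theorem uniq {n : ℕ} (hn : 1 ≤ n) (h : ℕ → ℝ)
    (hO : (fun v : ℝ => yD n h v) =O[𝓝 0] (fun v : ℝ => v^(2*n+1))) :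
    ∀ k ≤ n, h k = - h 0 * hc n k := by
  obtain ⟨a, ha⟩ := U4.tri n h
  have h0 := U4.coeff_zero ha hO
  have h1 : ∀ k ≤ n, h k = a n * hc n k := by
    intro k hk
    rw [ha k hk, Finset.sum_range_succ, Finset.sum_eq_zero, zero_add]
    intro m hm
    rw [h0 m (Finset.mem_range.1 hm), zero_mul]
  have h2 : a n = - h 0 := by
    rw [h1 0 (Nat.zero_le _)]
    simp [hc]
  intro k hk
  rw [h1 k hk, h2]

end H731B
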