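import Pool.Agent.H731R6.Bc.Defs
import Pool.Agent.H863R2.Cyl.Lst2
import Pool.Agent.H980R2.Cont.T01

/-!
W1: the projection of cyclic words (cylinder with a puncture) to Dyck words: insertion and seam.

`flA` and `flB` pass through an inserted `true :: false` (depth up, depth down); `flA 0 (false :: (w ++ [true])) =
true :: (flA 0 w ++ [true])`, `flB 0 (true :: (w.reverse ++ [false])) = false :: (flB 0 w.reverse ++ [false])`.
All this holds for arbitrary words; `flA`, `flB` keep the length.  `proj_dyck`: strong induction on the length
with `Cyl.exists_arc` (an admissible word of even length is `[]`, `lins i u` or `seam u` with `u` admissible; `Cyl.lins i u`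
is an abbreviation of `Perc.ins i u`), `proj_ins`, `proj_seam`; `Dyck` words are closed under
`v ↦ true :: (v ++ [false])` (see `dyck_wrap` in `H980R2.Cont.T08b`, or induct).
-/

set_option autoImplicit false

namespace H731B

open Pool.Agent.H988R2 Pool.Agent.H863R2 Pool.Agent.H980R2
open Pool.Agent.H988R2.Perc (Word Dyck q PD q_spec q_cube q_ne_zero q_ne_one)

namespace W1

theorem length_flA (d : ℕ) (w : Word) : (flA d w).length = w.length := by
  induction w generalizing d with
  | nil => simp [flA]
  | cons x w ih => cases x <;> cases d <;> simp [flA, ih]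

theorem length_flB (d : ℕ) (w : Word) : (flB d w).length = w.length := by
  induction w generalizing d with
  | nil => simp [flB]
  | cons x w ih => cases x <;> cases d <;> simp [flB, ih]

theorem flA_ins (d : ℕ) (a b : Word) : ∃ u v : Word, u.length = a.length ∧ v.length = b.length ∧
    flA d (a ++ b) = u ++ v ∧ flA d (a ++ true :: false :: b) = u ++ true :: false :: v := by
  induction a generalizing d with
  | nil => exact ⟨[], flA d b, rfl, length_flA d b, rfl, by simp [flA]⟩
  | cons x a ih =>
    cases x
    · cases d with
      | zero =>
        obtain ⟨u, v, h1, h2, h3, h4⟩ := ih 0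
        exact ⟨true :: u, v, by simp [h1], h2, by simp [flA, h3], by simp [flA, h4]⟩
      | succ d =>
        obtain ⟨u, v, h1, h2, h3, h4⟩ := ih d
        exact ⟨false :: u, v, by simp [h1], h2, by simp [flA, h3], by simp [flA, h4]⟩
    · obtain ⟨u, v, h1, h2, h3, h4⟩ := ih (d + 1)
      exact ⟨true :: u, v, by simp [h1], h2, by simp [flA, h3], by simp [flA, h4]⟩

theorem flB_ins (d : ℕ) (a b : Word) : ∃ u v : Word, u.length = a.length ∧ v.length = b.length ∧
    flB d (a ++ b) = u ++ v ∧ flB d (a ++ false :: true :: b) = u ++ false :: true :: v := by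
  induction a generalizing d with
  | nil => exact ⟨[], flB d b, rfl, length_flB d b, rfl, by simp [flB]⟩
  | cons x a ih =>
    cases x
    · obtain ⟨u, v, h1, h2, h3, h4⟩ := ih (d + 1)
      exact ⟨false :: u, v, by simp [h1], h2, by simp [flB, h3], by simp [flB, h4]⟩
    · cases d with
      | zero =>
        obtain ⟨u, v, h1, h2, h3, h4⟩ := ih 0
        exact ⟨false :: u, v, by simp [h1], h2, by simp [flB, h3], by simp [flB, h4]⟩
      | succ d =>
        obtain ⟨u, v, h1, h2, h3, h4⟩ := ih d
        exact ⟨true :: u, v, by simp [h1], h2, by simp [flB, h3], by simp [flB, h4]⟩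

theorem flA_snoc (d : ℕ) (w : Word) : flA d (w ++ [true]) = flA d w ++ [true] := by
  induction w generalizing d with
  | nil => simp [flA]
  | cons x w ih => cases x <;> cases d <;> simp [flA, ih]

theorem flB_snoc (d : ℕ) (w : Word) : flB d (w ++ [false]) = flB d w ++ [false] := by
  induction w generalizing d with
  | nil => simp [flB]
  | cons x w ih => cases x <;> cases d <;> simp [flB, ih]

theorem wrap {v : Word} (h : Dyck v) : Dyck (true :: (v ++ [false])) := by
  induction h with
  | nil => exact Dyck.ins 0 [] (Nat.zero_le _) Dyck.nil
  | ins i w hi hw ih =>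
    have e : true :: (Perc.ins i w ++ [false]) = Perc.ins (i + 1) (true :: (w ++ [false])) := by
      unfold Perc.ins
      rw [List.take_succ_cons, List.drop_succ_cons, List.take_append_of_le_length hi,
        List.drop_append_of_le_length hi]
      simp
    rw [e]
    exact Dyck.ins _ _ (by simp; omega) ih

end W1

open W1

theorem length_proj (w : Word) : (proj w).length = w.length := by
  unfold proj
  simp [length_flA, length_flB]

theorem proj_nil : proj [] = [] := rfl

theorem proj_ins (i : ℕ) (w : Word) (hi : i ≤ w.length) :
    proj (Perc.ins i w) = Perc.ins i (proj w) := by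
  obtain ⟨a, b, rfl, ha⟩ : ∃ a b : Word, w = a ++ b ∧ a.length = i :=
    ⟨w.take i, w.drop i, (List.take_append_drop i w).symm, by rw [List.length_take]; omega⟩
  have e0 : Perc.ins i (a ++ b) = a ++ true :: false :: b := by
    unfold Perc.ins
    rw [← ha, List.take_left, List.drop_left]
  obtain ⟨u, v, h1, h2, h3, h4⟩ := flA_ins 0 a b
  obtain ⟨s, t, g1, g2, g3, g4⟩ := flB_ins 0 b.reverse a.reverse
  rw [List.length_reverse] at g1 g2
  have e1 : (a ++ true :: false :: b).reverse = b.reverse ++ false :: true :: a.reverse := by simp
  have e2 : (a ++ b).reverse = b.reverse ++ a.reverse := by simp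
  have e3 : (s ++ false :: true :: t).reverse = t.reverse ++ true :: false :: s.reverse := by simp
  have e4 : (s ++ t).reverse = t.reverse ++ s.reverse := by simp
  have hz : ∀ {x y x' y' : Word} (_ : x.length = x'.length),
      List.zipWith xor (x ++ y) (x' ++ y') = List.zipWith xor x x' ++ List.zipWith xor y y' :=
    fun h => List.zipWith_append h
  unfold proj
  rw [e0, e1, e2, h3, h4, g3, g4, e3, e4, hz (by simp [h1, g2]), hz (by simp [h1, g2]),
    hz (by simp [h1, g2]), hz (by simp [h1, g2])]
  have hl : (List.zipWith xor a (List.zipWith xor u t.reverse)).length = i := by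
    simp [h1, g2, ha]
  unfold Perc.ins
  rw [← hl, List.take_left, List.drop_left]
  simp

theorem proj_seam (w : Word) : proj (Cyl.seam w) = true :: (proj w ++ [false]) := by
  have e0 : Cyl.seam w = false :: (w ++ [true]) := by simp [Cyl.seam]
  have e1 : (false :: (w ++ [true])).reverse = true :: (w.reverse ++ [false]) := by simp
  have e2 : flA 0 (false :: (w ++ [true])) = true :: (flA 0 w ++ [true]) := by
    rw [flA, flA_snoc]
  have e3 : flB 0 (true :: (w.reverse ++ [false])) = false :: (flB 0 w.reverse ++ [false]) := by
    rw [flB, flB_snoc]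
  have e4 : (false :: (flB 0 w.reverse ++ [false])).reverse =
      false :: ((flB 0 w.reverse).reverse ++ [false]) := by simp
  have hz : ∀ {x y x' y' : Word} (_ : x.length = x'.length),
      List.zipWith xor (x ++ y) (x' ++ y') = List.zipWith xor x x' ++ List.zipWith xor y y' :=
    fun h => List.zipWith_append h
  unfold proj
  rw [e0, e1, e2, e3, e4, List.zipWith_cons_cons, List.zipWith_cons_cons,
    hz (by simp [length_flA, length_flB]), hz (by simp [length_flA, length_flB])]
  simp

theorem proj_dyck {w : Word} (h : Cyl.Ok w) (he : Even w.length) : Dyck (proj w) := by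
  induction hn : w.length using Nat.strong_induction_on generalizing w with
  | _ n ih =>
    rcases Nat.lt_or_ge w.length 2 with h2 | h2
    · have h0 : w.length = 0 := by
        obtain ⟨k, hk⟩ := he
        omega
      rw [List.length_eq_zero_iff.1 h0]
      exact Dyck.nil
    · rcases Cyl.exists_arc h h2 with ⟨i, u, h3, h4, h5, _, _⟩ | ⟨u, h3, h4, _⟩
      · have hl : w.length = u.length + 2 := by
          rw [h5]; exact Perc.length_ins i u
        rw [h5]
        show Dyck (proj (Perc.ins i u))
        rw [proj_ins i u h3]
        refine Dyck.ins i _ (by rw [length_proj]; exact h3) ?_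
        refine ih u.length (by omega) h4 ?_ rfl
        rw [hl] at he
        exact (Nat.even_add.1 he).2 even_two
      · have hl : w.length = u.length + 2 := by
          rw [h4]; simp [Cyl.seam]
        rw [h4, proj_seam]
        refine wrap ?_
        refine ih u.length (by omega) h3 ?_ rfl
        rw [hl] at he
        exact (Nat.even_add.1 he).2 even_two

end H731B
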