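import Pool.Agent.H731R6.Bc.W1

/-!
W2: the projection intertwines the Temperley-Lieb generators.

Induction on the length with `Cyl.exists_arc`; relations of `H863R2.Cyl.Lst, Lst2` (`act_eq : act i w = lins i (cap i w)`,
`cap_lins_self, cap_lins_succ, cap_succ_lins, cap_lins_right, cap_lins_left, cap_seam, cap_zero_seam : cap 0 (seam w) = rotl w,
cap_last_seam : cap w.length (seam w) = rotr w, lins_seam`) and the corresponding relations for Dyck words in
`H988R2.Perc.T01, T02` (`act_ins_left/right/self…`).
`proj_rotl`: `w = lins (j+1) u`: `rotl w = lins j (rotl u)`, induction.  `w = lins 0 u = true::false::u`: `rotl w =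
false::u++[true] = seam u`, and `Perc.cap 0 (true::true::false::proj u ++ [false]) = true::proj u ++ [false]` (case
`true::true`, `flipR 0`).  `w = seam u`: `rotl w = u ++ [true, false] = lins u.length u`, and
`Perc.cap 0 (true::true::proj u++[false,false]) = flipR 0 (proj u ++ [false,false]) = proj u ++ [true,false]`
(`flipR` passes through Dyck words).  `proj_rotr` is the mirror image.
`proj_act`, `w = lins j u`: `i = j`: both sides are fixed; `i = j ± 1`; `i + 2 ≤ j`: `act i (lins j u) = lins j (act i u)`;
`j + 2 ≤ i`: `act i (lins j u) = lins j (act (i-2) u)`.  `w = seam u`: `1 ≤ i`, `i + 3 ≤ w.length`: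
`act i (seam u) = seam (act (i-1) u)` and the Dyck analogue (`act_inside` in `H980R2.Cont.T08b`, `p = [true]`, `t = [false]`);
`i = 0`: `act 0 (seam u) = lins 0 (rotl u)` and `proj_rotl`; `i + 2 = w.length`: `lins u.length (rotr u)` and `proj_rotr`
(for `u = []`: `act 0 [false,true] = [true,false]`).
-/

set_option autoImplicit false

namespace H731B

open Pool.Agent.H988R2 Pool.Agent.H863R2 Pool.Agent.H980R2
open Pool.Agent.H988R2.Perc (Word Dyck q PD q_spec q_cube q_ne_zero q_ne_one)

namespace W2

theorem flipR_dyck {D : Word} (h : Dyck D) (d : ℕ) (v : Word) :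
    Perc.flipR d (D ++ v) = D ++ Perc.flipR d v := by
  induction h with
  | nil => rfl
  | ins i w hi _ ih =>
    obtain ⟨a, b, rfl, ha⟩ := Perc.exists_split hi
    have e : Perc.ins i (a ++ b) ++ v = Perc.ins i ((a ++ b) ++ v) := by
      rw [Perc.ins_app _ _ ha, List.append_assoc a b v, Perc.ins_app _ _ ha]
      simp
    rw [e, Perc.flipR_ins d i _ (by simp only [List.length_append] at hi ⊢; omega), ih]
    rw [Perc.ins_app _ _ ha, List.append_assoc a b, Perc.ins_app _ _ ha]
    simp

theorem flipL_dyck {D : Word} (h : Dyck D) (d : ℕ) (v : Word) :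
    Perc.flipL d (D.reverse ++ v) = D.reverse ++ Perc.flipL d v := by
  induction h with
  | nil => rfl
  | ins i w hi _ ih =>
    obtain ⟨a, b, rfl, ha⟩ := Perc.exists_split hi
    obtain ⟨u', v', h1, h2, h3⟩ := Perc.flipL_ins d b.reverse (a.reverse ++ v)
    have e : (Perc.ins i (a ++ b)).reverse ++ v =
        b.reverse ++ false :: true :: (a.reverse ++ v) := by
      rw [Perc.ins_app _ _ ha]
      simp
    have e2 : (a ++ b).reverse ++ v = b.reverse ++ (a.reverse ++ v) := by simp
    rw [e, h3]
    rw [e2, h2] at ih
    have e3 : (a ++ b).reverse ++ Perc.flipL d v =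
        b.reverse ++ (a.reverse ++ Perc.flipL d v) := by simp
    rw [e3] at ih
    obtain ⟨k1, k2⟩ := List.append_inj ih h1
    rw [k1, k2, Perc.ins_app _ _ ha]
    simp

theorem wrap_ins {k : ℕ} {v : Word} (hk : k ≤ v.length) :
    true :: (Perc.ins k v ++ [false]) = Perc.ins (k + 1) (true :: (v ++ [false])) := by
  obtain ⟨a, b, rfl, ha⟩ := Perc.exists_split hk
  have e : true :: ((a ++ b) ++ [false]) = (true :: a) ++ (b ++ [false]) := by simp
  rw [Perc.ins_app a b ha, e, Perc.ins_app (true :: a) (b ++ [false]) (by simp [ha])]
  simp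

theorem cap_inside {D : Word} (h : Dyck D) : ∀ {k : ℕ}, k + 2 ≤ D.length →
    Perc.cap (k + 1) (true :: (D ++ [false])) = true :: (Perc.cap k D ++ [false]) := by
  induction h with
  | nil =>
    intro k hk
    simp at hk
  | ins j v hj _ ih =>
    intro k hk
    rw [Perc.length_ins] at hk
    rw [wrap_ins hj]
    have hl : (true :: (v ++ [false])).length = v.length + 2 := by simp
    rcases (by omega : k = j ∨ j = k + 1 ∨ k = j + 1 ∨ k + 2 ≤ j ∨ j + 2 ≤ k) with
      c | c | c | c | c
    · subst c
      rw [Perc.cap_ins_self (by rw [hl]; omega), Perc.cap_ins_self hj]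
    · subst c
      rw [Perc.cap_ins_succ (by rw [hl]; omega), Perc.cap_ins_succ (by omega)]
    · subst c
      rw [Perc.cap_succ_ins (by rw [hl]; omega), Perc.cap_succ_ins (by omega)]
    · rw [Perc.cap_ins_right (by omega) (by rw [hl]; omega), ih (by omega),
        Perc.cap_ins_right (by omega) (by omega)]
      have hlc := Perc.length_cap (i := k) (w := v) (by omega)
      rw [wrap_ins (by omega)]
      congr 1
      omega
    · rw [Perc.cap_ins_left (by omega) (by rw [hl]; omega),
        Perc.cap_ins_left (by omega) (by omega)]
      have hlc := Perc.length_cap (i := k - 2) (w := v) (by omega)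
      have e : k + 1 - 2 = (k - 2) + 1 := by omega
      rw [e, ih (by omega), wrap_ins (by omega)]

theorem rotl_lins {j : ℕ} {u : Word} (h : j + 1 ≤ u.length) :
    Cyl.rotl (Cyl.lins (j + 1) u) = Cyl.lins j (Cyl.rotl u) := by
  have h1 := Cyl.rotr_lins (i := j) (w := Cyl.rotl u) (by rw [Cyl.length_rotl]; exact h)
  rw [Cyl.rotr_rotl] at h1
  rw [← h1, Cyl.rotl_rotr]

theorem even_sub {u w : Word} (he : Even w.length) (h : w.length = u.length + 2) :
    Even u.length := by
  rw [h] at he
  rw [Nat.even_add] at he
  exact he.2 (by decide)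

end W2

theorem proj_rotl {w : Word} (h : Cyl.Ok w) (he : Even w.length) (h0 : w ≠ []) :
    proj (Cyl.rotl w) = Perc.cap 0 (true :: (proj w ++ [false])) := by
  induction hn : w.length using Nat.strong_induction_on generalizing w with
  | _ n ih =>
    subst hn
    have h2 : 2 ≤ w.length := by
      have := List.length_pos_of_ne_nil h0
      obtain ⟨k, hk⟩ := he
      omega
    rcases Cyl.exists_arc h h2 with ⟨i, u, hi, hu, rfl, -, -⟩ | ⟨u, hu, rfl, -⟩
    · have hl : (Cyl.lins i u).length = u.length + 2 := Perc.length_ins i u
      rcases i with _ | j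
      · have e1 : Cyl.rotl (Cyl.lins 0 u) = Cyl.seam u := by
          have : Cyl.lins 0 u = true :: false :: u := rfl
          rw [this, Cyl.rotl_cons]
          rfl
        rw [e1, proj_seam, proj_ins 0 u hi]
        have e2 : true :: (Perc.ins 0 (proj u) ++ [false]) =
            [] ++ true :: true :: false :: (proj u ++ [false]) := rfl
        rw [e2, Perc.cap_tt (i := 0) [] _ rfl]
        rfl
      · rw [W2.rotl_lins hi, proj_ins j _ (by rw [Cyl.length_rotl]; omega),
          ih u.length (by omega) hu (W2.even_sub he hl) (by rintro rfl; simp at hi) rfl,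
          proj_ins (j + 1) u hi, W2.wrap_ins (by rw [length_proj]; exact hi),
          Perc.cap_ins_right (by omega) (by simp [length_proj]; omega)]
        congr 1
    · have hl : (Cyl.seam u).length = u.length + 2 := by simp [Cyl.seam]
      have hd := proj_dyck hu (W2.even_sub he hl)
      have e1 : Cyl.rotl (Cyl.seam u) = Cyl.lins u.length u := by
        rw [← Cyl.rotr_lins_last, Cyl.rotl_rotr]
      rw [e1, proj_ins _ _ le_rfl, proj_seam]
      have e2 : true :: (true :: (proj u ++ [false]) ++ [false]) =
          [] ++ true :: true :: (proj u ++ [false, false]) := by simp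
      rw [e2, Perc.cap_tt (i := 0) [] _ rfl, W2.flipR_dyck hd]
      have e3 : Perc.ins u.length (proj u) = Perc.ins u.length (proj u ++ []) := by simp
      rw [e3, Perc.ins_app _ _ (length_proj u)]
      rfl

theorem proj_rotr {w : Word} (h : Cyl.Ok w) (he : Even w.length) (h0 : w ≠ []) :
    proj (Cyl.rotr w) = Perc.cap w.length (true :: (proj w ++ [false])) := by
  induction hn : w.length using Nat.strong_induction_on generalizing w with
  | _ n ih =>
    subst hn
    have h2 : 2 ≤ w.length := by
      have := List.length_pos_of_ne_nil h0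
      obtain ⟨k, hk⟩ := he
      omega
    rcases Cyl.exists_arc h h2 with ⟨i, u, hi, hu, rfl, -, -⟩ | ⟨u, hu, rfl, -⟩
    · have hl : (Cyl.lins i u).length = u.length + 2 := Perc.length_ins i u
      rcases (by omega : i = u.length ∨ i + 1 ≤ u.length) with hi' | hi'
      · subst hi'
        rw [Cyl.rotr_lins_last, proj_seam, proj_ins _ _ hi, hl]
        have e3 : Perc.ins u.length (proj u) = Perc.ins u.length (proj u ++ []) := by simp
        rw [e3, Perc.ins_app _ _ (length_proj u)]
        have e2 : true :: (proj u ++ true :: false :: [] ++ [false]) =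
            (true :: (proj u ++ [true])) ++ false :: false :: [] := by simp
        rw [e2, Perc.cap_ff _ _ (by simp [length_proj])]
        have e4 : (true :: (proj u ++ [true])).reverse =
            true :: ((proj u).reverse ++ [true]) := by simp
        rw [e4]
        simp [Perc.flipL]
      · rw [Cyl.rotr_lins hi', proj_ins (i + 1) _ (by rw [Cyl.length_rotr]; omega),
          ih u.length (by omega) hu (W2.even_sub he hl) (by rintro rfl; simp at hi') rfl,
          proj_ins i u hi, W2.wrap_ins (by rw [length_proj]; exact hi), hl,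
          Perc.cap_ins_left (by omega) (by simp [length_proj])]
        congr 1
    · have hl : (Cyl.seam u).length = u.length + 2 := by simp [Cyl.seam]
      have hd := proj_dyck hu (W2.even_sub he hl)
      rw [Cyl.rotr_seam, proj_ins _ _ (Nat.zero_le _), proj_seam, hl]
      have e2 : true :: (true :: (proj u ++ [false]) ++ [false]) =
          (true :: true :: proj u) ++ false :: false :: [] := by simp
      rw [e2, Perc.cap_ff _ _ (by simp [length_proj])]
      have e4 : (true :: true :: proj u).reverse = (proj u).reverse ++ [true, true] := by simp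
      rw [e4, W2.flipL_dyck hd]
      simp [Perc.flipL, Perc.ins]

namespace W2

theorem proj_cap {w : Word} (h : Cyl.Ok w) (he : Even w.length) {i : ℕ} (hi : i + 2 ≤ w.length) :
    proj (Cyl.cap i w) = Perc.cap i (proj w) := by
  induction hn : w.length using Nat.strong_induction_on generalizing w i with
  | _ n ih =>
    subst hn
    rcases Cyl.exists_arc h (by omega) with ⟨j, u, hj, hu, rfl, -, -⟩ | ⟨u, hu, rfl, -⟩
    · have hl : (Cyl.lins j u).length = u.length + 2 := Perc.length_ins j u
      rw [hl] at hi ih
      have hlp := length_proj u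
      have hue := W2.even_sub he hl
      rw [proj_ins j u hj]
      rcases (by omega : i = j ∨ j = i + 1 ∨ i = j + 1 ∨ i + 2 ≤ j ∨ j + 2 ≤ i) with
        c | c | c | c | c
      · subst c
        rw [Cyl.cap_lins_self hj, Perc.cap_ins_self (by omega)]
      · subst c
        rw [Cyl.cap_lins_succ (by omega), Perc.cap_ins_succ (by omega)]
      · subst c
        rw [Cyl.cap_succ_lins (by omega), Perc.cap_succ_ins (by omega)]
      · have hlc := Cyl.length_cap (i := i) (w := u) (by omega)
        rw [Cyl.cap_lins_right c hj, Perc.cap_ins_right c (by omega),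
          proj_ins _ _ (by omega), ih u.length (by omega) hu hue (by omega) rfl]
      · have hlc := Cyl.length_cap (i := i - 2) (w := u) (by omega)
        rw [Cyl.cap_lins_left c (by omega), Perc.cap_ins_left c (by omega),
          proj_ins _ _ (by omega), ih u.length (by omega) hu hue (by omega) rfl]
    · have hl : (Cyl.seam u).length = u.length + 2 := by simp [Cyl.seam]
      rw [hl] at hi ih
      have hlp := length_proj u
      have hue := W2.even_sub he hl
      by_cases hu0 : u = []
      · subst hu0
        have : i = 0 := by simp at hi; omega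
        subst this
        rfl
      · have hpos := List.length_pos_of_ne_nil hu0
        rcases (by omega : i = 0 ∨ i = u.length ∨ (1 ≤ i ∧ i + 1 ≤ u.length)) with
          c | c | ⟨c, c'⟩
        · subst c
          rw [Cyl.cap_zero_seam hpos, proj_rotl hu hue hu0, proj_seam]
        · subst c
          rw [Cyl.cap_last_seam hpos, proj_rotr hu hue hu0, proj_seam]
        · obtain ⟨k, rfl⟩ : ∃ k, i = k + 1 := ⟨i - 1, by omega⟩
          rw [Cyl.cap_seam (by omega), proj_seam, proj_seam,
            ih u.length (by omega) hu hue (by omega) rfl,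
            W2.cap_inside (proj_dyck hu hue) (by omega)]

end W2

theorem proj_act {w : Word} (h : Cyl.Ok w) (he : Even w.length) {i : ℕ} (hi : i + 2 ≤ w.length) :
    proj (Cyl.act i w) = Perc.act i (proj w) := by
  have hlc := Cyl.length_cap hi
  rw [Cyl.act_eq hi, proj_ins _ _ (by omega), W2.proj_cap h he hi]
  rfl

end H731B
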