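import Pool.Agent.H731R6.Bc.W2
import Pool.Agent.H980R2.Cont.T08b

/-!
W3: the arc across the seam.

`proj_rotr` (W2).  `v = proj w` Dyck, non empty, `v.length = w.length`.  If `oo v = 1` (`ret v = 1`): `v = true::v'++[false]`
with `v'` Dyck, `Perc.cap v.length (true::true::v'++[false,false])` is the case `false::false`; `flipL` applied to
`v'.reverse ++ [true, true]` passes through `v'` and changes the inner of the two `true`s: the result is
`true::false::v'`, so `a01 = 1`.  If `ret v ≥ 2` (`ret_pos`): `v = A ++ (true::B++[false])`, `A` non empty Dyck: the result is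
`true::A ++ false::B`, whose second letter is `true`: `a01 = 0`.
-/

set_option autoImplicit false

namespace H731B

open Pool.Agent.H988R2 Pool.Agent.H863R2 Pool.Agent.H980R2
open Pool.Agent.H988R2.Perc (Word Dyck q PD q_spec q_cube q_ne_zero q_ne_one)

theorem oo_rot {w : Word} (h : Cyl.Ok w) (he : Even w.length) (h2 : 2 ≤ w.length) :
    Cont.oo (proj w) = a01 (proj (Cyl.rotr w)) := by
  have hw : w ≠ [] := by
    rintro rfl
    simp at h2
  have hv : Dyck (proj w) := proj_dyck h he
  have hl : (proj w).length = w.length := length_proj w
  have hne : proj w ≠ [] := by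
    intro e
    rw [e] at hl
    simp only [List.length_nil] at hl
    omega
  rw [proj_rotr h he hw, ← hl]
  obtain ⟨a, b, ha, hb, e⟩ := (Cont.T08b.D2.of_dyck hv).last hne
  have key : Perc.cap (proj w).length (true :: (proj w ++ [false])) =
      true :: (a ++ false :: b) := by
    have e1 : true :: (proj w ++ [false]) = (true :: (a ++ true :: b)) ++ false :: false :: [] := by
      rw [e]; simp
    have e2 : (true :: (a ++ true :: b)).length = (proj w).length := by
      rw [e]; simp; ring
    rw [e1, Perc.cap_ff _ _ e2]
    have e3 : (true :: (a ++ true :: b)).reverse = b.reverse ++ (true :: (a.reverse ++ [true])) := by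
      simp
    rw [e3, Cont.T08b.flipL_pass hb]
    simp [Perc.flipL]
  rw [key]
  cases ha with
  | nil =>
    rw [e]
    simp only [List.nil_append]
    rw [Cont.T08b.oo_prim hb]
    simp [a01]
  | step b' s' hb' hs' =>
    have z : a01 (true :: ((true :: (b' ++ false :: s')) ++ false :: b)) = 0 := by
      simp [a01]
    rw [z, e]
    refine Cont.T08b.oo_dead (true :: (b' ++ false :: s')) (true :: (b ++ [false])) (by simp)
      (by simp) (Perc.dyck_count (Cont.T08b.D2.step b' s' hb' hs').dyck) ?_
    exact Perc.dyck_count (Cont.T08b.dyck_wrap hb.dyck Dyck.nil)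

end H731B
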